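import Pool.Agent.H757L.Defs2
/-
Strong approximation for the adeles (job ADC of helper757).
-/

set_option autoImplicit false
set_option linter.all false
noncomputable section

namespace Pool.Agent.H757L

open Polynomial IsDedekindDomain Matrix WithZero

theorem adc_val_le (w : HeightOneSpectrum R) (r : R) : val (some w) (algebraMap R K r) ≤ 1 :=
  w.valuation_le_one r

theorem adc_val_one (w : HeightOneSpectrum R) (r : R) (hr : r ∉ w.asIdeal) :
    val (some w) (algebraMap R K r) = 1 := by
  have h1 : ¬ w.valuation K (algebraMap R K r) < 1 := fun h =>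
    hr ((HeightOneSpectrum.valuation_lt_one_iff_mem w r).1 h)
  exact le_antisymm (adc_val_le w r) (not_lt.1 h1)

/-- partial fractions at one place -/
theorem adc_frac (v : HeightOneSpectrum R) (l : K) :
    ∃ k : K, val (some v) (l - k) ≤ 1 ∧ ∀ w : HeightOneSpectrum R, w ≠ v → val (some w) k ≤ 1 := by
  obtain ⟨a, s, hs, rfl⟩ := IsFractionRing.div_surjective (A := R) l
  have hs0 : s ≠ 0 := nonZeroDivisors.ne_zero hs
  obtain ⟨p, hp⟩ := (IsPrincipalIdealRing.principal v.asIdeal).principal
  have hp' : v.asIdeal = Ideal.span {p} := hp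
  have hp0 : p ≠ 0 := by
    rintro rfl
    apply v.ne_bot
    rw [hp']
    simp
  have hpp : Prime p := by
    rw [← Ideal.span_singleton_prime hp0, ← hp']
    exact v.isPrime
  obtain ⟨m, b, hb, hsb⟩ := WfDvdMonoid.max_power_factor hs0 hpp.irreducible
  have hbv : b ∉ v.asIdeal := by
    rw [hp', Ideal.mem_span_singleton]
    exact hb
  have hcop : IsCoprime (p ^ m) b := by
    refine IsCoprime.pow_left ?_
    exact (Irreducible.coprime_iff_not_dvd hpp.irreducible).2 hb
  obtain ⟨u, w', huw⟩ := hcop
  have hb0 : b ≠ 0 := by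
    rintro rfl
    exact hbv (zero_mem _)
  have hbK : algebraMap R K b ≠ 0 := by
    rw [Ne, map_eq_zero_iff _ (IsFractionRing.injective R K)]; exact hb0
  have hpK : algebraMap R K p ≠ 0 := by
    rw [Ne, map_eq_zero_iff _ (IsFractionRing.injective R K)]; exact hp0
  refine ⟨algebraMap R K (a * w') / algebraMap R K p ^ m, ?_, ?_⟩
  · have e : algebraMap R K a / algebraMap R K s - algebraMap R K (a * w') / algebraMap R K p ^ m =
        algebraMap R K (a * u) / algebraMap R K b := by
      have h1 : algebraMap R K u * algebraMap R K p ^ m + algebraMap R K w' * algebraMap R K b = 1 := by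
        rw [← map_pow, ← map_mul, ← map_mul, ← map_add, huw, map_one]
      rw [hsb, map_mul, map_pow, map_mul, map_mul]
      have hpm : algebraMap R K p ^ m ≠ 0 := pow_ne_zero _ hpK
      field_simp
      linear_combination (-(algebraMap R K a)) * h1
    rw [e, map_div₀, adc_val_one v b hbv, div_one]
    exact adc_val_le v _
  · intro w hw
    have hpw : p ∉ w.asIdeal := by
      intro h
      apply hw
      have hle : v.asIdeal ≤ w.asIdeal := by
        rw [hp', Ideal.span_singleton_le_iff_mem]
        exact h
      have hmax : v.asIdeal.IsMaximal := v.isMaximal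
      have heq : v.asIdeal = w.asIdeal := hmax.eq_of_le w.isPrime.ne_top hle
      exact (HeightOneSpectrum.ext heq).symm
    rw [map_div₀, map_pow, adc_val_one w p hpw, one_pow, div_one]
    exact adc_val_le w _

theorem adc_local (v : HeightOneSpectrum R) (y : Kv (some v)) :
    ∃ k : K, vv (some v) (y - emb (some v) k) ≤ 1 ∧
      ∀ w : HeightOneSpectrum R, w ≠ v → val (some w) k ≤ 1 := by
  obtain ⟨l, hl⟩ := dens (some v) y 0
  rw [exp_zero] at hl
  obtain ⟨k, hk1, hk2⟩ := adc_frac v l
  refine ⟨k, ?_, hk2⟩
  have e : y - emb (some v) k = (y - emb (some v) l) + emb (some v) (l - k) := by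
    rw [map_sub]; ring
  rw [e]
  refine Valuation.map_add_le _ hl ?_
  rw [emb_val]
  exact hk1

theorem t_ADC : AddC := by
  classical
  intro x
  have hfin : {v : HeightOneSpectrum R | ¬ vv (some v) (x.1 (some v)) ≤ 1}.Finite := by
    have h1 := x.2
    refine Set.Finite.subset (Set.Finite.preimage (f := fun v : HeightOneSpectrum R => (some v : Pl))
      (Option.some_injective _).injOn h1) ?_
    intro v hv
    exact hv
  choose kv hkv1 hkv2 using fun v : HeightOneSpectrum R => adc_local v (x.1 (some v))
  refine ⟨∑ v ∈ hfin.toFinset, kv v, fun w => ?_⟩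
  rw [map_sum]
  have hval : ∀ v, v ≠ w → vv (some w) (emb (some w) (kv v)) ≤ 1 := by
    intro v hvw
    rw [emb_val]
    exact hkv2 v w hvw.symm
  by_cases hw : w ∈ hfin.toFinset
  · rw [← Finset.add_sum_erase _ _ hw, ← sub_sub]
    refine (Valuation.map_sub _ _ _).trans (max_le (hkv1 w) ?_)
    refine Valuation.map_sum_le _ fun v hv => ?_
    exact hval v (Finset.ne_of_mem_erase hv)
  · have hxw : vv (some w) (x.1 (some w)) ≤ 1 := by
      by_contra h
      exact hw (hfin.mem_toFinset.2 h)
    refine (Valuation.map_sub _ _ _).trans (max_le hxw ?_)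
    refine Valuation.map_sum_le _ fun v hv => ?_
    refine hval v ?_
    rintro rfl
    exact hw hv

end Pool.Agent.H757L
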