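import Pool.Agent.H757L.Defs2

set_option autoImplicit false
set_option linter.all false
noncomputable section

namespace Pool.Agent.H757L

open Polynomial IsDedekindDomain Matrix WithZero

theorem adm_tP : vv none (tP none) = exp (1 : ℤ) := by
  classical
  rw [tP, emb_val]
  unfold val
  convert RatFunc.inftyValuation.X_zpow (ZMod 2) 1
  simp

/-- conjugation of the congruence subgroup by integral matrices -/
theorem adm_entry (a b c : Matrix (Fin 2) (Fin 2) (Kv none)) (n : ℤ) (ha : ∀ i j, vv none (a i j) ≤ 1)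
    (hc : ∀ i j, vv none (c i j) ≤ 1) (hb : ∀ i j, vv none (b i j) ≤ exp n) (i j : Fin 2) :
    vv none ((a * b * c) i j) ≤ exp n := by
  have key : ∀ p q, vv none ((a * b) p q) ≤ exp n := by
    intro p q
    rw [Matrix.mul_apply, Fin.sum_univ_two]
    refine vsum none _ _ n ?_ ?_
    · rw [Valuation.map_mul]
      calc _ ≤ 1 * exp n := mul_le_mul' (ha p 0) (hb 0 q)
        _ = _ := one_mul _
    · rw [Valuation.map_mul]
      calc _ ≤ 1 * exp n := mul_le_mul' (ha p 1) (hb 1 q)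
        _ = _ := one_mul _
  rw [Matrix.mul_apply, Fin.sum_univ_two]
  refine vsum none _ _ n ?_ ?_
  · rw [Valuation.map_mul]
    calc _ ≤ exp n * 1 := mul_le_mul' (key i 0) (hc 0 j)
      _ = _ := mul_one _
  · rw [Valuation.map_mul]
    calc _ ≤ exp n * 1 := mul_le_mul' (key i 1) (hc 1 j)
      _ = _ := mul_one _

theorem adm_conj_aux (k u : G none) (hk : k ∈ cong none 0) (n : ℤ)
    (hu : ∀ i j, vv none ((u : Matrix (Fin 2) (Fin 2) (Kv none)) i j - (1 : Matrix (Fin 2) (Fin 2) (Kv none)) i j) ≤ exp n)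
    (i j : Fin 2) :
    vv none (((k * u * k⁻¹ : G none) : Matrix (Fin 2) (Fin 2) (Kv none)) i j - (1 : Matrix (Fin 2) (Fin 2) (Kv none)) i j) ≤ exp n := by
  have e : ((k * u * k⁻¹ : G none) : Matrix (Fin 2) (Fin 2) (Kv none)) - 1
      = (k : Matrix (Fin 2) (Fin 2) (Kv none)) * ((u : Matrix (Fin 2) (Fin 2) (Kv none)) - 1)
        * ((k⁻¹ : G none) : Matrix (Fin 2) (Fin 2) (Kv none)) := by
    rw [mul_sub, sub_mul, mul_one]
    congr 1
    rw [← Units.val_mul, mul_inv_cancel, Units.val_one]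
  have := adm_entry (k : Matrix (Fin 2) (Fin 2) (Kv none)) ((u : Matrix (Fin 2) (Fin 2) (Kv none)) - 1)
    ((k⁻¹ : G none) : Matrix (Fin 2) (Fin 2) (Kv none)) n (int_entry none k hk)
    (int_entry none _ (inv_mem hk)) (fun i j => by simpa using hu i j) i j
  rw [← e] at this
  simpa using this

theorem adm_conj (k u : G none) (hk : k ∈ cong none 0) (n : ℕ) (hu : u ∈ cong none n) :
    k * u * k⁻¹ ∈ cong none n := by
  refine ⟨adm_conj_aux k u hk _ hu.1, ?_⟩
  have : (k * u * k⁻¹)⁻¹ = k * u⁻¹ * k⁻¹ := by group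
  rw [this]
  exact adm_conj_aux k u⁻¹ hk _ hu.2

theorem adm_nn_inv (y : Kv none) : (nn none y)⁻¹ = nn none (-y) := by
  rw [inv_eq_iff_mul_eq_one]
  ext i j
  fin_cases i <;> fin_cases j <;> simp [nn, tri, Matrix.mul_apply, Fin.sum_univ_two]

theorem adm_nn_cong (y : Kv none) (n : ℕ) (hy : vv none y ≤ exp (-(n : ℤ))) : nn none y ∈ cong none n := by
  refine ⟨fun i j => ?_, fun i j => ?_⟩
  · fin_cases i <;> fin_cases j <;> simp [nn, tri] <;> simpa using hy
  · rw [adm_nn_inv]; fin_cases i <;> fin_cases j <;> simp [nn, tri] <;> simpa using hy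

/-- lower triangular unipotent -/
def adm_lw (y : Kv none) : G none :=
  Matrix.GeneralLinearGroup.mkOfDetNeZero !![1, 0; y, 1] (by simp [Matrix.det_fin_two_of])

theorem adm_lw_inv (y : Kv none) : (adm_lw y)⁻¹ = adm_lw (-y) := by
  rw [inv_eq_iff_mul_eq_one]
  ext i j
  fin_cases i <;> fin_cases j <;> simp [adm_lw, Matrix.mul_apply, Fin.sum_univ_two]

theorem adm_lw_cong (y : Kv none) (n : ℕ) (hy : vv none y ≤ exp (-(n : ℤ))) : adm_lw y ∈ cong none n := by
  refine ⟨fun i j => ?_, fun i j => ?_⟩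
  · fin_cases i <;> fin_cases j <;> simp [adm_lw] <;> simpa using hy
  · rw [adm_lw_inv]; fin_cases i <;> fin_cases j <;> simp [adm_lw] <;> simpa using hy

theorem adm_om_nn (y : Kv none) : om * nn none y = adm_lw (y * (tP none)⁻¹) * om := by
  have h0 := tP_ne none
  ext i j
  fin_cases i <;> fin_cases j <;> simp [nn, tri, om, adm_lw, Matrix.mul_apply, Fin.sum_univ_two, h0]

/-- diag(1, t^m) -/
def adm_a (m : ℕ) : G none := tri 1 (tu none ^ m) 0

theorem adm_a_zero : adm_a 0 = 1 := by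
  ext i j
  fin_cases i <;> fin_cases j <;> simp [adm_a, tri]

theorem adm_a_succ (m : ℕ) : adm_a m * adm_a 1 = adm_a (m + 1) := by
  ext i j
  fin_cases i <;> fin_cases j <;> simp [adm_a, tri, Matrix.mul_apply, Fin.sum_univ_two, pow_succ]

theorem adm_sw_om : sw none * om = adm_a 1 := by
  ext i j
  fin_cases i <;> fin_cases j <;> simp [adm_a, sw, om, tri, Matrix.mul_apply, Fin.sum_univ_two, tu]

theorem adm_a_nn (m : ℕ) : adm_a m * nn none 1 = nn none ((tP none)⁻¹ ^ m) * adm_a m := by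
  have h0 := tP_ne none
  ext i j
  fin_cases i <;> fin_cases j <;> simp [adm_a, nn, tri, Matrix.mul_apply, Fin.sum_univ_two, tu, h0]

theorem adm_val_inv (m : ℕ) : vv none ((tP none)⁻¹ ^ m) = exp (-(m : ℤ)) := by
  rw [map_pow, map_inv₀, adm_tP]
  rw [← WithZero.exp_neg, ← WithZero.exp_nsmul]
  simp

theorem adm_om_pow_nn (ε : ℕ) (hε : ε ≤ 1) (y : Kv none) (n : ℕ) (hy : vv none y ≤ exp (-(n : ℤ))) :
    ∃ u ∈ cong none n, om ^ ε * nn none y = u * om ^ ε := by
  rcases Nat.le_one_iff_eq_zero_or_eq_one.1 hε with rfl | rfl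
  · exact ⟨nn none y, adm_nn_cong y n hy, by simp⟩
  · refine ⟨adm_lw (y * (tP none)⁻¹), adm_lw_cong _ n ?_, by simpa using adm_om_nn y⟩
    rw [map_mul, map_inv₀, adm_tP, ← WithZero.exp_neg]
    calc _ ≤ exp (-(n : ℤ)) * 1 := mul_le_mul' hy (by rw [← exp_zero]; exact exp_le_exp.2 (by omega))
      _ = _ := mul_one _

section
variable {V : Type} [AddCommGroup V] [Module ℂ V] (ρ : Representation ℂ (G none) V) (x : V)

theorem adm_rel (hx : St ρ x) : x = ρ (adm_a 1) x + ρ (nn none 1 * adm_a 1) x := by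
  obtain ⟨-, -, h3, h4⟩ := hx
  have h5 : ρ (adm_a 1) x = - ρ (sw none) x := by
    rw [← adm_sw_om, map_mul, Module.End.mul_apply, h3, map_neg]
  have h6 : ρ (nn none 1 * adm_a 1) x = - ρ (nn none 1 * sw none) x := by
    rw [map_mul, Module.End.mul_apply, h5, map_neg, map_mul, Module.End.mul_apply]
  rw [h5, h6]
  have : x = - (ρ (sw none) x + ρ (nn none 1 * sw none) x) := by
    rw [eq_neg_iff_add_eq_zero, ← add_assoc]; exact h4
  rw [← neg_add]; exact this

theorem adm_rel' (hx : St ρ x) (m : ℕ) : ρ (adm_a m) x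
    = ρ (adm_a (m + 1)) x + ρ (nn none ((tP none)⁻¹ ^ m) * adm_a (m + 1)) x := by
  conv_lhs => rw [adm_rel ρ x hx]
  rw [map_add, ← Module.End.mul_apply, ← map_mul, adm_a_succ, ← Module.End.mul_apply, ← map_mul,
    ← mul_assoc, adm_a_nn, mul_assoc, adm_a_succ]

theorem adm_step (hx : St ρ x) (n m : ℕ) (hm : n ≤ m) (k : G none) (hk : k ∈ cong none 0) (ε : ℕ) (hε : ε ≤ 1) :
    ρ (k * om ^ ε * adm_a m) x - (2 : ℂ) • ρ (k * om ^ ε * adm_a (m + 1)) x ∈ co ρ (cong none n) := by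
  have hy : vv none ((tP none)⁻¹ ^ m) ≤ exp (-(n : ℤ)) := by
    rw [adm_val_inv]; exact exp_le_exp.2 (by omega)
  obtain ⟨u, hu, hu'⟩ := adm_om_pow_nn ε hε _ n hy
  have e1 : ρ (k * om ^ ε * adm_a m) x = ρ (k * om ^ ε * adm_a (m + 1)) x
      + ρ (k * u * k⁻¹) (ρ (k * om ^ ε * adm_a (m + 1)) x) := by
    rw [map_mul, Module.End.mul_apply, adm_rel' ρ x hx m, map_add, ← Module.End.mul_apply, ← map_mul,
      ← Module.End.mul_apply, ← map_mul, ← Module.End.mul_apply, ← map_mul]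
    congr 3
    calc k * om ^ ε * (nn none ((tP none)⁻¹ ^ m) * adm_a (m + 1))
        = k * (om ^ ε * nn none ((tP none)⁻¹ ^ m)) * adm_a (m + 1) := by group
      _ = k * u * k⁻¹ * (k * om ^ ε * adm_a (m + 1)) := by rw [hu']; group
  have e2 : ρ (k * om ^ ε * adm_a m) x - (2 : ℂ) • ρ (k * om ^ ε * adm_a (m + 1)) x
      = ρ (k * u * k⁻¹) (ρ (k * om ^ ε * adm_a (m + 1)) x) - ρ (k * om ^ ε * adm_a (m + 1)) x := by
    rw [e1, two_smul]; abel
  rw [e2]
  exact Submodule.subset_span ⟨_, adm_conj k u hk n hu, _, rfl⟩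

theorem adm_far (hx : St ρ x) (n : ℕ) (k : G none) (hk : k ∈ cong none 0) (ε : ℕ) (hε : ε ≤ 1) (d : ℕ) :
    ∃ c : ℂ, ρ (k * om ^ ε * adm_a (n + d)) x - c • ρ (k * om ^ ε * adm_a n) x ∈ co ρ (cong none n) := by
  induction d with
  | zero => exact ⟨1, by simp⟩
  | succ d ih =>
    obtain ⟨c, hc⟩ := ih
    refine ⟨(1 / 2) * c, ?_⟩
    have h := adm_step ρ x hx n (n + d) (by omega) k hk ε hε
    have h2 := Submodule.smul_mem _ (1 / 2 : ℂ) (Submodule.sub_mem _ hc h)
    convert h2 using 1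
    rw [← add_assoc]
    module

end

/-- representatives -/
theorem adm_reps (h : CFin) (n : ℕ) : ∃ T : Finset (G none), (∀ k ∈ T, k ∈ cong none 0) ∧
    ∀ i ∈ cong none 0, ∃ k ∈ T, ∃ u ∈ cong none n, i = u * k := by
  classical
  have hf := h none n
  haveI : Finite ((cong none 0) ⧸ ((cong none n).subgroupOf (cong none 0))) :=
    Subgroup.finite_quotient_of_finiteIndex
  haveI := Fintype.ofFinite ((cong none 0) ⧸ ((cong none n).subgroupOf (cong none 0)))
  refine ⟨Finset.univ.image (fun q : (cong none 0) ⧸ ((cong none n).subgroupOf (cong none 0)) =>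
    (((Quotient.out q)⁻¹ : cong none 0) : G none)), ?_, ?_⟩
  · intro k hk
    obtain ⟨q, -, rfl⟩ := Finset.mem_image.1 hk
    exact ((Quotient.out q)⁻¹).2
  · intro i hi
    refine ⟨(((Quotient.out (QuotientGroup.mk (⟨i, hi⟩⁻¹ : cong none 0) : (cong none 0) ⧸ ((cong none n).subgroupOf (cong none 0))))⁻¹ : cong none 0) : G none),
      Finset.mem_image.2 ⟨_, Finset.mem_univ _, rfl⟩, ?_⟩
    set r := Quotient.out (QuotientGroup.mk (⟨i, hi⟩⁻¹ : cong none 0) : (cong none 0) ⧸ ((cong none n).subgroupOf (cong none 0))) with hr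
    have h1 : (QuotientGroup.mk r : (cong none 0) ⧸ ((cong none n).subgroupOf (cong none 0)))
        = QuotientGroup.mk (⟨i, hi⟩⁻¹ : cong none 0) := by
      rw [hr]; exact Quotient.out_eq _
    rw [QuotientGroup.eq] at h1
    have h2 : (r : G none)⁻¹ * i⁻¹ ∈ cong none n := by
      simpa [Subgroup.mem_subgroupOf] using h1
    have h3 := inv_mem h2
    refine ⟨i * (r : G none), by simpa using h3, ?_⟩
    simp

theorem t_ADM : DecI → CFin → Adm := by
  classical
  intro hD hC V _ _ ρ x hx n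
  obtain ⟨T, hT0, hT⟩ := adm_reps hC n
  refine ⟨(T ×ˢ (Finset.range 2 ×ˢ Finset.range (n + 1))).image
    (fun q => q.1 * om ^ q.2.1 * adm_a q.2.2), fun g => ?_⟩
  suffices h : ∃ s ∈ (T ×ˢ (Finset.range 2 ×ˢ Finset.range (n + 1))).image
      (fun q => q.1 * om ^ q.2.1 * adm_a q.2.2), ∃ c : ℂ, ρ g x - c • ρ s x ∈ co ρ (cong none n) by
    obtain ⟨s, hs, c, hc⟩ := h
    refine ⟨Pi.single s c, ?_⟩
    rw [Finset.sum_eq_single s]
    · simpa using hc
    · intro b _ hb
      rw [Pi.single_eq_of_ne hb, zero_smul]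
    · intro h; exact absurd hs h
  obtain ⟨i, ε, m, δ, i', a, hi, hi', hε, hδ, rfl⟩ := hD g
  obtain ⟨k, hk, u, hu, rfl⟩ := hT i hi.1
  have hk0 := hT0 k hk
  have hom : ∀ δ : ℕ, ∃ e : ℂ, ρ (om ^ δ) x = e • x := by
    intro δ
    induction δ with
    | zero => exact ⟨1, by simp⟩
    | succ d ih =>
      obtain ⟨e, he⟩ := ih
      refine ⟨-e, ?_⟩
      rw [pow_succ, map_mul, Module.End.mul_apply, hx.2.2.1, map_neg, he, neg_smul]
  obtain ⟨e, he⟩ := hom δ
  have h1 : ρ (u * k * om ^ ε * tri 1 (tu none ^ m) 0 * om ^ δ * i' * sc none a) x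
      = e • ρ u (ρ (k * om ^ ε * adm_a m) x) := by
    rw [map_mul, Module.End.mul_apply, hx.2.1 a, map_mul, Module.End.mul_apply, hx.1 i' hi',
      map_mul, Module.End.mul_apply, he, map_smul]
    congr 1
    rw [← Module.End.mul_apply, ← map_mul]
    congr 2
    simp only [adm_a, mul_assoc]
  rw [h1]
  have h2 : ρ u (ρ (k * om ^ ε * adm_a m) x) - ρ (k * om ^ ε * adm_a m) x ∈ co ρ (cong none n) :=
    Submodule.subset_span ⟨u, hu, _, rfl⟩
  rcases le_or_gt m n with hmn | hmn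
  · refine ⟨k * om ^ ε * adm_a m, Finset.mem_image.2 ⟨(k, ε, m), ?_, rfl⟩, e, ?_⟩
    · simp only [Finset.mem_product, Finset.mem_range]
      exact ⟨hk, by omega, by omega⟩
    · rw [← smul_sub]
      exact Submodule.smul_mem _ _ h2
  · obtain ⟨c, hc⟩ := adm_far ρ x hx n k hk0 ε hε (m - n)
    rw [show n + (m - n) = m by omega] at hc
    refine ⟨k * om ^ ε * adm_a n, Finset.mem_image.2 ⟨(k, ε, n), ?_, rfl⟩, e * c, ?_⟩
    · simp only [Finset.mem_product, Finset.mem_range]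
      exact ⟨hk, by omega, by omega⟩
    · have := Submodule.smul_mem _ e (Submodule.add_mem _ h2 hc)
      convert this using 1
      module

end Pool.Agent.H757L
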