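import Pool.Agent.H757L.Defs

set_option autoImplicit false
set_option linter.all false
noncomputable section

namespace Pool.Agent.H757L
open Polynomial IsDedekindDomain Matrix WithZero

/-- the valuation of the completion extends the one of K -/
theorem emb_val (P : Pl) (k : K) : vv P (emb P k) = val P k := by
  unfold emb vv
  simp only [RingHom.coe_comp, Function.comp_apply]
  exact Valued.valuedCompletion_apply _

/-- a uniformizer at P in K -/
theorem unif (P : Pl) : ∃ p : K, val P p = exp (-1 : ℤ) := by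
  classical
  cases P with
  | none =>
    refine ⟨RatFunc.X ^ (-1 : ℤ), ?_⟩
    unfold val
    convert RatFunc.inftyValuation.X_zpow (ZMod 2) (-1)
  | some v =>
    obtain ⟨p, hp⟩ := v.valuation_exists_uniformizer K
    exact ⟨p, hp⟩

theorem unif_pow (P : Pl) (m : ℤ) : ∃ p : K, p ≠ 0 ∧ val P p = exp m := by
  obtain ⟨p, hp⟩ := unif P
  have h0 : p ≠ 0 := by
    rintro rfl
    rw [map_zero] at hp
    exact exp_ne_zero hp.symm
  refine ⟨p ^ (-m), zpow_ne_zero _ h0, ?_⟩
  rw [map_zpow₀, hp, ← WithZero.exp_zsmul]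
  simp

/-- K is dense in the completion -/
theorem dens (P : Pl) (x : Kv P) (n : ℤ) : ∃ k : K, vv P (x - emb P k) ≤ exp n := by
  obtain ⟨a, ha0, ha⟩ := unif_pow P n
  have h1 : IsOpen {y : Kv P | (vv P).restrict y < (vv P).restrict (emb P a)} :=
    Valued.isOpen_ball (Kv P) _
  have ho : IsOpen {y : Kv P | vv P (x - y) < exp n} := by
    have : {y : Kv P | vv P (x - y) < exp n}
        = (fun y => x - y) ⁻¹' {y : Kv P | (vv P).restrict y < (vv P).restrict (emb P a)} := by
      ext y
      simp only [Set.mem_setOf_eq, Set.mem_preimage]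
      rw [Valuation.restrict_lt_iff, emb_val, ha]
    rw [this]
    exact h1.preimage (by fun_prop)
  have hne : ({y : Kv P | vv P (x - y) < exp n}).Nonempty := ⟨x, by
    simp only [Set.mem_setOf_eq, sub_self, map_zero]
    exact exp_pos⟩
  obtain ⟨k, hk⟩ := (UniformSpace.Completion.denseRange_coe (α := WithVal (val P))).exists_mem_open ho hne
  exact ⟨(WithVal.equiv (val P)) k, le_of_lt hk⟩

/-- the values of vv are exp n or 0 -/
theorem vv_cases (P : Pl) (x : Kv P) : x = 0 ∨ ∃ n : ℤ, vv P x = exp n := by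
  by_cases h : x = 0
  · exact Or.inl h
  · refine Or.inr ⟨WithZero.log (vv P x), ?_⟩
    rw [exp_log]
    exact (Valuation.ne_zero_iff _).2 h

theorem vv_lt_one (P : Pl) (x : Kv P) : vv P x < 1 ↔ vv P x ≤ exp (-1 : ℤ) := by
  rcases vv_cases P x with rfl | ⟨n, hn⟩
  · simp
  · rw [hn, ← exp_zero, exp_lt_exp, exp_le_exp]; omega

end Pool.Agent.H757L
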