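import Pool.Agent.H757L.Defs2
/-
Project LL (helper757, MP_5ae62c_nt, HARD, weight 10, full negative answer; GL_2 over F_2(t), representation theory in a completely explicit form).
Definitions and statements: Pool/Agent/H757L/Stm.lean, Defs.lean, Api.lean, Defs2.lean on origin/main (Mathlib only, all four compile; copy them to
/workdir/pool/Pool/Agent/H757L/ and run lake build Pool.Agent.H757L.Defs2, about 30 seconds).  Every statement has been checked on paper.
TARGET: prove the theorem below, statement unchanged, no sorry, no axioms.  Put auxiliary lemmas before it in the same namespace (give ALL your lemmas a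
prefix of your own such as aut_, the files are imported together; no straight double quotes anywhere).  Paste the full file back as result of the job.
File name: Pool/Agent/H757L/Aut.lean
If the statement is false or unclear: status='problem' and say why, or message helper757.  Deadline about 21:30 UTC; partial progress: message me.

Notation: K = F_2(t), R = F_2[t]; val P, vv P valuations, exp n (multiplicative ints with zero); emb P : K ->+* Kv P; cong P n congruence subgroups;
tri a d b = (a b; 0 d); nn P x = (1 x; 0 1); sw P = (0 1; 1 0); om = (0 t; 1 0); sc P a scalar; gR P : GL_2(R) -> GL_2(K_P); Iw Iwahori subgroup at infinity.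
We have om^2 = scalar t, sw om = diag(1,t), om sw = diag(t,1), and om normalises Iw.  Api.lean: emb_val, unif, unif_pow, dens, vv_cases, vv_lt_one.

PROOF.
LeftInv of a linear combination of right translates and constants: clear.  Open stabiliser: rt u (rt g phi0) = rt g (rt (g^-1 u g) phi0) = rt g phi0 for u in U e', Cnj; sums: U (e1 sup e2) (cong P is antitone in n).
Finite dimensionality at P = none: let M0 be the submodule of the functions psi : AG -> C fixed by some U e (stable under all translations by Cnj), Vb = M0/(constants) with the representation rho of G none through incl none.  LF rho (cong none n) holds: a vector fixed by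
U e is fixed by cong none (max (e none) n), which has finite index in cong none n (CFin and index of subgroups of cong none 0).  phi = sum_j c_j rt(g_j) phi0 + c' 1; g_j = incl none (a_j) * b_j with b_j trivial at none (b_j commutes with incl none _), so the
x_j = class of rt(b_j) phi0 in Vb satisfies St rho x_j (StC phi0 c, the constant c dies in the quotient).  Adm: finite S_j such that rho(g)x_j is in span{rho(s)x_j : s in S_j} + co rho (cong none n) for all g.  For each (j,s) let z_js = average of rho(s)x_j (Cof (2)): fixed, difference in co.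
If psi in span of the incl none h translates of phi is fixed by cong none n, its class is in span{z_js} + co, and fixed, so by Cof (1) it is in span{z_js}: finite-dimensional.  So fixedSpan none phi n, mapped to Vb, has finite-dimensional image and kernel contained in the constants:
finite-dimensional.  (Suggestion: FiniteDimensional of a submodule of M0 from finite-dimensionality of its image in the quotient and of the kernel; e.g. it is contained in the comap of a finite-dimensional subspace, spanned by lifts of the z_js and 1.)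
-/

set_option autoImplicit false
set_option linter.all false
noncomputable section

namespace Pool.Agent.H757L

open Polynomial IsDedekindDomain Matrix WithZero

theorem aut_cong_anti (P : Pl) {m n : ℕ} (h : n ≤ m) : cong P m ≤ cong P n := by
  intro g hg
  exact ⟨fun i j => (hg.1 i j).trans (exp_le_exp.2 (by omega)),
    fun i j => (hg.2 i j).trans (exp_le_exp.2 (by omega))⟩

theorem aut_U_anti {e e' : Pl →₀ ℕ} (h : ∀ P, e P ≤ e' P) : U e' ≤ U e :=
  fun _ hg P => aut_cong_anti P (h P) (hg P)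

theorem aut_incl_U (e : Pl →₀ ℕ) (h : G none) (hh : h ∈ cong none (e none)) : incl none h ∈ U e := by
  classical
  intro P
  by_cases hP : P = none
  · subst hP
    have e1 : (incl none h).1 none = h := by
      show (Pi.mulSingle none h : ∀ P, G P) none = h
      rw [Pi.mulSingle_eq_same]
    rw [e1]
    exact hh
  · have e1 : (incl none h).1 P = 1 := by
      show (Pi.mulSingle none h : ∀ P, G P) P = 1
      rw [Pi.mulSingle_eq_of_ne hP]
    rw [e1]
    exact one_mem _

theorem aut_comm (b : AG) (hb : b.1 none = 1) (h : G none) : incl none h * b = b * incl none h := by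
  classical
  apply Subtype.ext
  funext P
  show (incl none h).1 P * b.1 P = b.1 P * (incl none h).1 P
  by_cases hP : P = none
  · subst hP
    rw [hb, mul_one, one_mul]
  · have e1 : (incl none h).1 P = 1 := by
      show (Pi.mulSingle none h : ∀ P, G P) P = 1
      rw [Pi.mulSingle_eq_of_ne hP]
    rw [e1, mul_one, one_mul]

/-- the functions with open stabiliser -/
def aut_M0 : Submodule ℂ (AG → ℂ) where
  carrier := {ψ | ∃ e : Pl →₀ ℕ, ∀ u ∈ U e, rt u ψ = ψ}
  zero_mem' := ⟨0, fun u _ => map_zero _⟩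
  add_mem' := by
    rintro a b ⟨e1, h1⟩ ⟨e2, h2⟩
    refine ⟨e1 + e2, fun u hu => ?_⟩
    rw [map_add, h1 u (aut_U_anti (fun P => by simp) hu), h2 u (aut_U_anti (fun P => by simp) hu)]
  smul_mem' := by
    rintro c a ⟨e, h⟩
    exact ⟨e, fun u hu => by rw [map_smul, h u hu]⟩

theorem aut_rt_rt (a b : AG) (ψ : AG → ℂ) : rt a (rt b ψ) = rt (a * b) ψ := by
  rw [map_mul]
  rfl

theorem aut_stab (hC : Cnj) (g : AG) (ψ : AG → ℂ) (hψ : ψ ∈ aut_M0) : rt g ψ ∈ aut_M0 := by
  obtain ⟨e, he⟩ := hψ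
  obtain ⟨e', he'⟩ := hC.2 g e
  refine ⟨e', fun u hu => ?_⟩
  have h1 := he _ (he' u hu)
  calc rt u (rt g ψ) = rt g (rt (g⁻¹ * u * g) ψ) := by
        rw [aut_rt_rt, aut_rt_rt]
        congr 2
        group
    _ = rt g ψ := by rw [h1]

/-- the representation of the group at infinity on the smooth functions -/
def aut_rho (hC : Cnj) : Representation ℂ (G none) aut_M0 where
  toFun h := (rt (incl none h)).restrict (fun v hv => aut_stab hC _ v hv)
  map_one' := by
    apply LinearMap.ext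
    intro v
    apply Subtype.ext
    show rt (incl none 1) v.1 = v.1
    rw [map_one, map_one]
    rfl
  map_mul' := by
    intro a b
    apply LinearMap.ext
    intro v
    apply Subtype.ext
    show rt (incl none (a * b)) v.1 = rt (incl none a) (rt (incl none b) v.1)
    rw [map_mul, aut_rt_rt]

theorem aut_rho_val (hC : Cnj) (h : G none) (v : aut_M0) : (aut_rho hC h v).1 = rt (incl none h) v.1 := rfl

/-- the quotient representation -/
def aut_quo {H V : Type} [Group H] [AddCommGroup V] [Module ℂ V] (ρ : Representation ℂ H V)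
    (N : Submodule ℂ V) (hN : ∀ h, ∀ v ∈ N, ρ h v ∈ N) : Representation ℂ H (V ⧸ N) where
  toFun h := N.mapQ N (ρ h) (fun v hv => hN h v hv)
  map_one' := by
    apply LinearMap.ext
    intro v
    obtain ⟨w, rfl⟩ := N.mkQ_surjective v
    show N.mkQ (ρ 1 w) = N.mkQ w
    rw [map_one]
    rfl
  map_mul' := by
    intro a b
    apply LinearMap.ext
    intro v
    obtain ⟨w, rfl⟩ := N.mkQ_surjective v
    show N.mkQ (ρ (a * b) w) = N.mkQ (ρ a (ρ b w))
    rw [map_mul]
    rfl

theorem aut_quo_mk {H V : Type} [Group H] [AddCommGroup V] [Module ℂ V] (ρ : Representation ℂ H V)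
    (N : Submodule ℂ V) (hN : ∀ h, ∀ v ∈ N, ρ h v ∈ N) (h : H) (v : V) :
    aut_quo ρ N hN h (N.mkQ v) = N.mkQ (ρ h v) := rfl

theorem aut_co_lift {H V : Type} [Group H] [AddCommGroup V] [Module ℂ V] (ρ : Representation ℂ H V)
    (N : Submodule ℂ V) (hN : ∀ h, ∀ v ∈ N, ρ h v ∈ N) (S : Subgroup H) (v : V)
    (hv : N.mkQ v ∈ co (aut_quo ρ N hN) S) : v ∈ co ρ S ⊔ N := by
  have key : ∀ w ∈ co (aut_quo ρ N hN) S, ∃ v' ∈ co ρ S, N.mkQ v' = w := by
    intro w hw
    unfold co at hw
    refine Submodule.span_induction (p := fun w _ => ∃ v' ∈ co ρ S, N.mkQ v' = w) ?_ ?_ ?_ ?_ hw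
    · rintro w ⟨h, hh, u, rfl⟩
      obtain ⟨u', rfl⟩ := N.mkQ_surjective u
      refine ⟨ρ h u' - u', Submodule.subset_span ⟨h, hh, u', rfl⟩, ?_⟩
      rw [map_sub]
      rfl
    · exact ⟨0, zero_mem _, map_zero _⟩
    · rintro a b _ _ ⟨a', h1, rfl⟩ ⟨b', h2, rfl⟩
      exact ⟨a' + b', add_mem h1 h2, map_add _ _ _⟩
    · rintro c a _ ⟨a', h1, rfl⟩
      exact ⟨c • a', Submodule.smul_mem _ c h1, map_smul _ _ _⟩
  obtain ⟨v', h1, h2⟩ := key _ hv
  have h3 : v - v' ∈ N := by
    rw [← Submodule.ker_mkQ N, LinearMap.mem_ker, map_sub, h2, sub_self]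
  have h4 : v = v' + (v - v') := by abel
  rw [h4]
  exact Submodule.add_mem_sup h1 h3

theorem aut_LF (hC : Cnj) (hF : CFin) (n : ℕ) : LF (aut_rho hC) (cong none n) := by
  rintro ⟨v, e, he⟩
  refine ⟨cong none (max (e none) n), aut_cong_anti _ (le_max_right _ _), ?_, fun h hh => ?_⟩
  · have h1 := hF none (max (e none) n)
    rw [Subgroup.finiteIndex_iff] at h1 ⊢
    intro h2
    exact h1 (Subgroup.relIndex_eq_zero_of_le_right (aut_cong_anti none (Nat.zero_le n)) h2)
  · apply Subtype.ext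
    show rt (incl none h) v = v
    exact he _ (aut_incl_U e h (aut_cong_anti _ (le_max_left _ _) hh))

theorem aut_fd (hco : Cof) {H V : Type} [Group H] [AddCommGroup V] [Module ℂ V]
    (ρ : Representation ℂ H V) (S : Subgroup H) (hLF : LF ρ S) (W : Submodule ℂ V) (hW : W.FG) :
    ∃ W' : Submodule ℂ V, W'.FG ∧ ∀ v, (∀ h ∈ S, ρ h v = v) → v ∈ W ⊔ co ρ S → v ∈ W' := by
  classical
  obtain ⟨t, rfl⟩ := hW
  obtain ⟨c1, c2⟩ := hco H V ρ S hLF
  choose z hz1 hz2 hz3 using c2
  refine ⟨Submodule.span ℂ (t.image z : Set V), ⟨t.image z, rfl⟩, fun v hv hvm => ?_⟩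
  have h1 : Submodule.span ℂ (t : Set V) ⊔ co ρ S ≤
      Submodule.span ℂ (t.image z : Set V) ⊔ co ρ S := by
    refine sup_le ?_ le_sup_right
    rw [Submodule.span_le]
    intro w hw
    have e1 : w = z w + (w - z w) := by abel
    rw [e1]
    exact Submodule.add_mem_sup (Submodule.subset_span (by
      rw [Finset.coe_image]
      exact Set.mem_image_of_mem _ hw)) (hz3 w)
  obtain ⟨a, ha, b, hb, hab⟩ := Submodule.mem_sup.1 (h1 hvm)
  have h2 : ∀ h ∈ S, ρ h a = a := by
    intro h hh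
    refine Submodule.span_induction (p := fun a _ => ρ h a = a) ?_ ?_ ?_ ?_ ha
    · intro x hx
      rw [Finset.coe_image] at hx
      obtain ⟨w, _, rfl⟩ := hx
      exact hz2 w h hh
    · exact map_zero _
    · intro x y _ _ hx hy
      rw [map_add, hx, hy]
    · intro c x _ hx
      rw [map_smul, hx]
  have h3 : b = 0 := by
    refine c1 b (fun h hh => ?_) hb
    have e2 : b = v - a := by rw [← hab]; abel
    rw [e2, map_sub, hv h hh, h2 h hh]
  rw [← hab, h3, add_zero]
  exact ha

theorem aut_const (g : AG) (c : ℂ) : rt g (fun _ => c) = fun _ => c := rfl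

theorem aut_one_mem (c : ℂ) : (fun _ => c : AG → ℂ) ∈ aut_M0 := ⟨0, fun u _ => rfl⟩

theorem aut_StC (φ0 : AG → ℂ) (c : ℂ) (hSt : StC φ0 c) (b : AG) (hb : b.1 none = 1) :
    StC (rt b φ0) c := by
  obtain ⟨h1, h2, h3, h4⟩ := hSt
  have sw1 : ∀ h : G none, rt (incl none h) (rt b φ0) = rt b (rt (incl none h) φ0) := by
    intro h
    rw [aut_rt_rt, aut_rt_rt, aut_comm b hb h]
  refine ⟨fun h hh => ?_, fun a => ?_, ?_, ?_⟩
  · rw [sw1, h1 h hh]
  · rw [sw1, h2 a]
  · rw [sw1, h3, map_neg]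
  · rw [sw1, sw1, ← map_add, ← map_add, h4]
    rfl

theorem aut_gen (hA : Adm) (hC : Cnj) (φ0 : AG → ℂ) (c : ℂ) (hSt : StC φ0 c) (h0 : φ0 ∈ aut_M0)
    (n : ℕ) (g : AG) : ∃ W : Submodule ℂ aut_M0, W.FG ∧
      ∀ h : G none, aut_rho hC h ⟨rt g φ0, aut_stab hC g _ h0⟩ ∈ W ⊔ co (aut_rho hC) (cong none n) := by
  classical
  obtain ⟨a, ha⟩ : ∃ a : G none, a = g.1 none := ⟨_, rfl⟩
  obtain ⟨b, hb⟩ : ∃ b : AG, b = incl none a⁻¹ * g := ⟨_, rfl⟩
  have hb1 : b.1 none = 1 := by
    rw [hb]
    show (incl none a⁻¹).1 none * g.1 none = 1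
    have e1 : (incl none a⁻¹).1 none = a⁻¹ := by
      show (Pi.mulSingle none a⁻¹ : ∀ P, G P) none = a⁻¹
      rw [Pi.mulSingle_eq_same]
    rw [e1, ha, inv_mul_cancel]
  have hg : incl none a * b = g := by
    rw [hb, ← mul_assoc, ← map_mul, mul_inv_cancel, map_one, one_mul]
  obtain ⟨x, hx⟩ : ∃ x : aut_M0, x = ⟨rt b φ0, aut_stab hC b _ h0⟩ := ⟨_, rfl⟩
  obtain ⟨N, hNd⟩ : ∃ N : Submodule ℂ aut_M0, N = Submodule.span ℂ {(⟨fun _ => 1, aut_one_mem 1⟩ : aut_M0)} :=
    ⟨_, rfl⟩
  have hconst : ∀ c' : ℂ, (⟨fun _ => c', aut_one_mem c'⟩ : aut_M0) ∈ N := by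
    intro c'
    rw [hNd, Submodule.mem_span_singleton]
    refine ⟨c', Subtype.ext ?_⟩
    funext y
    show c' * 1 = c'
    rw [mul_one]
  have hN : ∀ h, ∀ v ∈ N, aut_rho hC h v ∈ N := by
    intro h v hv
    rw [hNd, Submodule.mem_span_singleton] at hv
    obtain ⟨c', rfl⟩ := hv
    rw [map_smul]
    exact Submodule.smul_mem _ _ (hconst 1)
  have hStx := aut_StC φ0 c hSt b hb1
  have hSt' : St (aut_quo (aut_rho hC) N hN) (N.mkQ x) := by
    obtain ⟨h1, h2, h3, h4⟩ := hStx
    refine ⟨fun h hh => ?_, fun a => ?_, ?_, ?_⟩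
    · rw [aut_quo_mk]
      congr 1
      apply Subtype.ext
      rw [hx]
      exact h1 h hh
    · rw [aut_quo_mk]
      congr 1
      apply Subtype.ext
      rw [hx]
      exact h2 a
    · rw [aut_quo_mk, ← map_neg]
      congr 1
      apply Subtype.ext
      rw [hx]
      exact h3
    · rw [aut_quo_mk, aut_quo_mk, ← map_add, ← map_add, ← LinearMap.mem_ker, Submodule.ker_mkQ]
      have e1 : x + aut_rho hC (sw none) x + aut_rho hC (nn none 1 * sw none) x =
          ⟨fun _ => c, aut_one_mem c⟩ := by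
        apply Subtype.ext
        rw [hx]
        exact h4
      rw [e1]
      exact hconst c
  obtain ⟨S, hS⟩ := hA _ _ _ hSt' n
  refine ⟨Submodule.span ℂ (S.image (fun s => aut_rho hC s x) : Set aut_M0) ⊔ N,
    Submodule.FG.sup ⟨_, rfl⟩ (by rw [hNd]; exact Submodule.fg_span_singleton _), fun h => ?_⟩
  obtain ⟨cc, hcc⟩ := hS (h * a)
  have k1 : N.mkQ (aut_rho hC (h * a) x - ∑ s ∈ S, cc s • aut_rho hC s x) ∈
      co (aut_quo (aut_rho hC) N hN) (cong none n) := by
    rw [map_sub, map_sum]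
    simp only [map_smul]
    exact hcc
  have k2 := aut_co_lift _ _ _ _ _ k1
  have e1 : aut_rho hC h ⟨rt g φ0, aut_stab hC g _ h0⟩ = aut_rho hC (h * a) x := by
    apply Subtype.ext
    rw [hx]
    show rt (incl none h) (rt g φ0) = rt (incl none (h * a)) (rt b φ0)
    rw [aut_rt_rt, aut_rt_rt, MonoidHom.map_mul (incl none), mul_assoc, hg]
  rw [e1]
  have e2 : aut_rho hC (h * a) x = (∑ s ∈ S, cc s • aut_rho hC s x) +
      (aut_rho hC (h * a) x - ∑ s ∈ S, cc s • aut_rho hC s x) := by abel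
  rw [e2]
  refine add_mem ?_ ?_
  · refine Submodule.mem_sup_left (Submodule.mem_sup_left (Submodule.sum_mem _ fun s hs => ?_))
    refine Submodule.smul_mem _ _ (Submodule.subset_span ?_)
    rw [Finset.coe_image]
    exact Set.mem_image_of_mem _ hs
  · refine (sup_le ?_ ?_ : co (aut_rho hC) (cong none n) ⊔ N ≤ _) k2
    · exact le_sup_right
    · exact le_sup_right.trans le_sup_left

theorem aut_all (hA : Adm) (hC : Cnj) (φ0 : AG → ℂ) (c : ℂ) (hSt : StC φ0 c) (h0 : φ0 ∈ aut_M0)
    (n : ℕ) (φ : AG → ℂ) (hφ : φ ∈ Submodule.span ℂ ({ψ | ∃ g, ψ = rt g φ0} ∪ {fun _ => (1 : ℂ)})) :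
    ∃ hm : φ ∈ aut_M0, ∃ W : Submodule ℂ aut_M0, W.FG ∧
      ∀ h : G none, aut_rho hC h ⟨φ, hm⟩ ∈ W ⊔ co (aut_rho hC) (cong none n) := by
  refine Submodule.span_induction (p := fun φ _ => ∃ hm : φ ∈ aut_M0, ∃ W : Submodule ℂ aut_M0, W.FG ∧
      ∀ h : G none, aut_rho hC h ⟨φ, hm⟩ ∈ W ⊔ co (aut_rho hC) (cong none n)) ?_ ?_ ?_ ?_ hφ
  · rintro ψ (⟨g, rfl⟩ | hψ)
    · exact ⟨aut_stab hC g _ h0, aut_gen hA hC φ0 c hSt h0 n g⟩
    · rw [Set.mem_singleton_iff] at hψ
      subst hψ
      refine ⟨aut_one_mem 1, Submodule.span ℂ {(⟨fun _ => 1, aut_one_mem 1⟩ : aut_M0)},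
        Submodule.fg_span_singleton _, fun h => Submodule.mem_sup_left (Submodule.subset_span ?_)⟩
      rfl
  · refine ⟨zero_mem _, ⊥, Submodule.fg_bot, fun h => ?_⟩
    have e1 : aut_rho hC h ⟨0, zero_mem _⟩ = 0 := map_zero _
    rw [e1]
    exact zero_mem _
  · rintro x y _ _ ⟨hx, W1, f1, k1⟩ ⟨hy, W2, f2, k2⟩
    refine ⟨add_mem hx hy, W1 ⊔ W2, f1.sup f2, fun h => ?_⟩
    have e1 : aut_rho hC h ⟨x + y, add_mem hx hy⟩ = aut_rho hC h ⟨x, hx⟩ + aut_rho hC h ⟨y, hy⟩ :=
      (aut_rho hC h).map_add ⟨x, hx⟩ ⟨y, hy⟩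
    rw [e1]
    refine add_mem ((sup_le_sup_right le_sup_left _ : W1 ⊔ co (aut_rho hC) (cong none n) ≤ _) (k1 h))
      ((sup_le_sup_right le_sup_right _ : W2 ⊔ co (aut_rho hC) (cong none n) ≤ _) (k2 h))
  · rintro a x _ ⟨hx, W1, f1, k1⟩
    refine ⟨Submodule.smul_mem _ a hx, W1, f1, fun h => ?_⟩
    have e1 : aut_rho hC h ⟨a • x, Submodule.smul_mem _ a hx⟩ = a • aut_rho hC h ⟨x, hx⟩ :=
      (aut_rho hC h).map_smul a ⟨x, hx⟩
    rw [e1]
    exact Submodule.smul_mem _ _ (k1 h)

theorem aut_left (φ0 : AG → ℂ) (h0 : LeftInv φ0) (φ : AG → ℂ)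
    (hφ : φ ∈ Submodule.span ℂ ({ψ | ∃ g, ψ = rt g φ0} ∪ {fun _ => (1 : ℂ)})) : LeftInv φ := by
  refine Submodule.span_induction (p := fun φ _ => LeftInv φ) ?_ ?_ ?_ ?_ hφ
  · rintro ψ (⟨g, rfl⟩ | hψ)
    · intro γ g1 g' hg'
      show φ0 (g' * g) = φ0 (g1 * g)
      apply h0 γ
      intro P
      show g'.1 P * g.1 P = _ * (g1.1 P * g.1 P)
      rw [hg' P, mul_assoc]
    · rw [Set.mem_singleton_iff] at hψ
      subst hψ
      intro γ g1 g' _
      rfl
  · intro γ g1 g' _
    rfl
  · intro x y _ _ hx hy γ g1 g' hg'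
    show x g' + y g' = x g1 + y g1
    rw [hx γ g1 g' hg', hy γ g1 g' hg']
  · intro a x _ hx γ g1 g' hg'
    show a • x g' = a • x g1
    rw [hx γ g1 g' hg']

theorem t_AUT : Adm → Cof → Cnj → CFin → Aut := by
  intro hA hco hC hF φ0 c hL hSt h0 φ hφ
  have h0' : φ0 ∈ aut_M0 := h0
  refine ⟨aut_left φ0 hL φ hφ, ?_, none, fun n => ?_⟩
  · obtain ⟨hm, _⟩ := aut_all hA hC φ0 c hSt h0' 0 φ hφ
    exact hm
  · obtain ⟨hm, W, hW, hWm⟩ := aut_all hA hC φ0 c hSt h0' n φ hφ
    obtain ⟨W', hW', hW'm⟩ := aut_fd hco (aut_rho hC) (cong none n) (aut_LF hC hF n) W hW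
    have hle : fixedSpan none φ n ≤ W'.map aut_M0.subtype := by
      rintro ψ ⟨h1, h2⟩
      have h3 : ψ ∈ (W ⊔ co (aut_rho hC) (cong none n)).map aut_M0.subtype := by
        refine (Submodule.span_le.2 ?_ : Submodule.span ℂ (Set.range fun h : G none => rt (incl none h) φ) ≤ _) h1
        rintro _ ⟨h, rfl⟩
        exact ⟨aut_rho hC h ⟨φ, hm⟩, hWm h, rfl⟩
      obtain ⟨v, hv, rfl⟩ := h3
      refine ⟨v, hW'm v (fun h hh => ?_) hv, rfl⟩
      apply Subtype.ext
      exact h2 h hh
    have hfd : FiniteDimensional ℂ ↥(W'.map aut_M0.subtype) :=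
      Module.Finite.iff_fg.2 (hW'.map _)
    exact Submodule.finiteDimensional_of_le hle

end Pool.Agent.H757L
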