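import Pool.Agent.H757L.Defs2
/-
Project LL (helper757, MP_5ae62c_nt): job AV1, averages of the first form, proved by helper683.
File name: Pool/Agent/H757L/Av1.lean
-/

set_option autoImplicit false
set_option linter.all false
noncomputable section

namespace Pool.Agent.H757L

open Polynomial IsDedekindDomain Matrix WithZero

theorem av1_rep {Γ : Type} [Group Γ] (S T : Subgroup Γ) (hfin : (T.subgroupOf S).FiniteIndex)
    {M : Type} [AddCommMonoid M] (F : Γ → M) (hF : ∀ u ∈ S, ∀ k ∈ T, F (u * k) = F u) :
    ∃ s : Finset Γ, s.Nonempty ∧ (∀ u ∈ s, u ∈ S) ∧ ∀ v ∈ S, ∑ u ∈ s, F (v * u) = ∑ u ∈ s, F u := by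
  classical
  haveI : Fintype (S ⧸ T.subgroupOf S) := Fintype.ofFinite _
  have hinj : Function.Injective (fun q : S ⧸ T.subgroupOf S => ((Quotient.out q : S) : Γ)) := by
    intro q q' h
    have h1 : (Quotient.out q : S) = Quotient.out q' := Subtype.ext h
    rw [← Quotient.out_eq q, h1, Quotient.out_eq q']
  refine ⟨Finset.univ.image (fun q : S ⧸ T.subgroupOf S => ((Quotient.out q : S) : Γ)), ?_, ?_, ?_⟩
  · exact ⟨_, Finset.mem_image.2 ⟨((1 : S) : S ⧸ T.subgroupOf S), Finset.mem_univ _, rfl⟩⟩
  · intro u hu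
    obtain ⟨q, _, rfl⟩ := Finset.mem_image.1 hu
    exact (Quotient.out q : S).2
  · intro v hv
    rw [Finset.sum_image (fun a _ b _ h => hinj h), Finset.sum_image (fun a _ b _ h => hinj h)]
    let σ : Equiv.Perm (S ⧸ T.subgroupOf S) := MulAction.toPerm (⟨v, hv⟩ : S)
    rw [← Equiv.sum_comp σ (fun q : S ⧸ T.subgroupOf S => F ((Quotient.out q : S) : Γ))]
    refine Finset.sum_congr rfl fun q _ => ?_
    have h1 : σ q = (((⟨v, hv⟩ : S) * Quotient.out q : S) : S ⧸ T.subgroupOf S) := by
      conv_lhs => rw [← Quotient.out_eq q]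
      rfl
    obtain ⟨k, hk⟩ := QuotientGroup.mk_out_eq_mul (T.subgroupOf S) ((⟨v, hv⟩ : S) * Quotient.out q)
    have h2 : ((Quotient.out (σ q) : S) : Γ)
        = v * ((Quotient.out q : S) : Γ) * ((k : S) : Γ) := by
      rw [h1]
      have := congrArg (fun x : S => (x : Γ)) hk
      exact this
    rw [h2]
    exact (hF _ (mul_mem hv (Quotient.out q : S).2) _ (Subgroup.mem_subgroupOf.1 k.2)).symm

theorem av1_rt_mul (a b : AG) (φ : AG → ℂ) : rt a (rt b φ) = rt (a * b) φ := by
  rw [map_mul]; rfl

theorem av1_incl_none (a : G none) : (incl none a).1 none = a := by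
  simp [incl]

theorem av1_incl_some (a : G none) (v : HeightOneSpectrum R) : (incl none a).1 (some v) = 1 := by
  simp [incl]

theorem av1_comm (a : G none) (x : AG) (hx : x ∈ Gf) : incl none a * x = x * incl none a := by
  apply Subtype.ext
  funext P
  show (incl none a).1 P * x.1 P = x.1 P * (incl none a).1 P
  cases P with
  | none => rw [show x.1 none = 1 from hx, mul_one, one_mul]
  | some v => rw [av1_incl_some, mul_one, one_mul]

theorem av1_left (g : AG) (φ : AG → ℂ) (hφ : LeftInv φ) : LeftInv (rt g φ) := by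
  intro γ x x' h
  refine hφ γ (x * g) (x' * g) fun P => ?_
  show x'.1 P * g.1 P = _ * (x.1 P * g.1 P)
  rw [h P, mul_assoc]

/-- matrices over F_2[t] are integral at the finite places -/
theorem av1_int (γ : GL (Fin 2) R) (v : HeightOneSpectrum R) : gR (some v) γ ∈ cong (some v) 0 := by
  have h : ∀ (δ : GL (Fin 2) R) (i j : Fin 2),
      vv (some v) ((gR (some v) δ : Matrix (Fin 2) (Fin 2) (Kv (some v))) i j) ≤ 1 := by
    intro δ i j
    have h1 : (gR (some v) δ : Matrix (Fin 2) (Fin 2) (Kv (some v))) i j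
        = emb (some v) (algebraMap R K ((δ : Matrix (Fin 2) (Fin 2) R) i j)) := rfl
    rw [h1, emb_val]
    exact v.valuation_le_one (K := K) _
  refine ⟨fun i j => ?_, fun i j => ?_⟩
  · refine (Valuation.map_sub _ _ _).trans (max_le ?_ ?_)
    · simpa using h γ i j
    · simpa using vone (some v) i j
  · refine (Valuation.map_sub _ _ _).trans (max_le ?_ ?_)
    · rw [← map_inv]; simpa using h γ⁻¹ i j
    · simpa using vone (some v) i j

/-- the element of Uf with the components γ⁻¹ at the finite places -/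
theorem av1_w (γ : GL (Fin 2) R) : ∃ w : AG, w ∈ Uf ∧ w.1 none = 1 ∧ ∀ v, w.1 (some v) = gR (some v) γ⁻¹ := by
  have hc : ∀ P, (show ∀ P, G P from fun P => match P with
      | none => 1
      | some v => gR (some v) γ⁻¹) P ∈ cong P 0 := by
    intro P
    cases P with
    | none => exact one_mem _
    | some v => exact av1_int _ v
  refine ⟨⟨fun P => match P with
      | none => 1
      | some v => gR (some v) γ⁻¹, ?_⟩, ⟨rfl, hc⟩, rfl, fun v => rfl⟩
  show {P | _ ∉ cong P 0}.Finite
  have : {P : Pl | (show ∀ P, G P from fun P => match P with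
      | none => 1
      | some v => gR (some v) γ⁻¹) P ∉ cong P 0} = ∅ := by
    ext P
    simp only [Set.mem_setOf_eq, Set.mem_empty_iff_false, iff_false, not_not]
    exact hc P
  exact this ▸ Set.finite_empty

/-- the finite part of an element integral at the finite places -/
theorem av1_fin (u : AG) (hu : IntF u) : ∃ w : AG, w ∈ Uf ∧ u = incl none (u.1 none) * w := by
  refine ⟨(incl none (u.1 none))⁻¹ * u, ⟨?_, ?_⟩, by group⟩
  · show ((incl none (u.1 none)).1 none)⁻¹ * u.1 none = 1
    rw [av1_incl_none]; simp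
  · intro P
    show ((incl none (u.1 none)).1 P)⁻¹ * u.1 P ∈ cong P 0
    cases P with
    | none => rw [av1_incl_none]; simpa using one_mem _
    | some v => rw [av1_incl_some]; simpa using hu v

/-- a left invariant, Uf-invariant form with the homogeneous Steinberg relations vanishes -/
theorem av1_zero (hW : WUni) (hC : Cla) (D : AG → ℂ) (hL : LeftInv D) (hS : StC D 0)
    (hU : ∀ u ∈ Uf, rt u D = D) : D = 0 := by
  have hU' : ∀ u ∈ Uf, ∀ g, D (g * u) = D g := fun u hu g => congrFun (hU u hu) g
  have hf : (fun g : G none => D (incl none g)) = 0 := by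
    refine hW _ ?_ ?_
    · intro γ g
      obtain ⟨w, hw, hw0, hw1⟩ := av1_w γ
      have h1 : D (incl none (gR none γ * g)) = D (incl none g * w) := by
        refine hL (Matrix.GeneralLinearGroup.map (algebraMap R K) γ) _ _ fun P => ?_
        have h2 : ∀ P, Matrix.GeneralLinearGroup.map (emb P) (Matrix.GeneralLinearGroup.map (algebraMap R K) γ)
            = gR P γ := by
          intro P
          rfl
        rw [h2]
        show _ = gR P γ * ((incl none g).1 P * w.1 P)
        cases P with
        | none => rw [av1_incl_none, av1_incl_none, hw0, mul_one]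
        | some v => rw [av1_incl_some, av1_incl_some, hw1, one_mul, ← map_mul, mul_inv_cancel, map_one]
      show D (incl none (gR none γ * g)) = D (incl none g)
      rw [h1, hU' w hw]
    · obtain ⟨s1, s2, s3, s4⟩ := hS
      refine ⟨?_, ?_, ?_, ?_⟩
      · intro g h hh
        show D (incl none (g * h)) = D (incl none g)
        rw [map_mul]
        exact congrFun (s1 h hh) _
      · intro g a
        show D (incl none (g * sc none a)) = D (incl none g)
        rw [map_mul]
        exact congrFun (s2 a) _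
      · intro g
        show D (incl none (g * om)) = - D (incl none g)
        rw [map_mul]
        exact congrFun s3 _
      · intro g
        show D (incl none g) + D (incl none (g * sw none)) + D (incl none (g * (nn none 1 * sw none))) = 0
        rw [map_mul, map_mul]
        exact congrFun s4 _
  funext g
  obtain ⟨γ, u, hu, hγ⟩ := hC g
  have h1 : D g = D u := hL γ u g hγ
  obtain ⟨w, hw, hw1⟩ := av1_fin u hu
  rw [h1, hw1, hU' w hw]
  exact congrFun hf _

theorem t_AV1 : WUni → Cla → Cnj → UFin → Av1 := by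
  intro hW hC hJ hUF φ hL hS hU h hh
  -- the subgroup
  obtain ⟨e', he'⟩ := hJ.2 h 0
  have hU0 : ∀ u : AG, u ∈ Uf → u ∈ U 0 := fun u hu P => hu.2 P
  have hfin : ((U e').subgroupOf Uf).FiniteIndex := by
    haveI := hUF.1 e'
    haveI : (U e').IsFiniteRelIndex (U 0) := Subgroup.isFiniteRelIndex_iff_finiteIndex.2 this
    have := Subgroup.isFiniteRelIndex_of_le_right (H := U e') (K := Uf) (L := U 0) (fun u hu => hU0 u hu)
    exact Subgroup.isFiniteRelIndex_iff_finiteIndex.1 this
  have hfin2 : ((U e' ⊓ Uf).subgroupOf Uf).FiniteIndex := by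
    rw [Subgroup.inf_subgroupOf_right]; exact hfin
  obtain ⟨s, hs1, hs2, hs3⟩ := av1_rep Uf (U e' ⊓ Uf) hfin2 (fun u => rt (u * h) φ) (by
    intro u hu k hk
    have hk' : h⁻¹ * k * h ∈ Uf := by
      refine ⟨?_, fun P => he' k hk.1 P⟩
      exact Gf.mul_mem (Gf.mul_mem (Gf.inv_mem hh) hk.2.1) hh
    have : u * k * h = (u * h) * (h⁻¹ * k * h) := by group
    rw [this, ← av1_rt_mul (u * h), hU _ hk'])
  refine ⟨s, hs1, hs2, ?_⟩
  have hGf : ∀ u ∈ s, u * h ∈ Gf := fun u hu => Gf.mul_mem (hs2 u hu).1 hh
  have hkey : (∑ u ∈ s, rt (u * h) φ) - (s.card : ℂ) • φ = 0 := by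
    refine av1_zero hW hC _ ?_ ?_ ?_
    · intro γ g g' hg
      have h1 : ∀ u, rt (u * h) φ g' = rt (u * h) φ g := fun u => av1_left _ φ hL γ g g' hg
      simp only [Pi.sub_apply, Finset.sum_apply, Pi.smul_apply, h1, hL γ g g' hg]
    · have hcom : ∀ (a : G none), ∀ u ∈ s, rt (incl none a) (rt (u * h) φ) = rt (u * h) (rt (incl none a) φ) := by
        intro a u hu
        rw [av1_rt_mul, av1_rt_mul, av1_comm a _ (hGf u hu)]
      have hD : ∀ a : G none, rt (incl none a) ((∑ u ∈ s, rt (u * h) φ) - (s.card : ℂ) • φ)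
          = (∑ u ∈ s, rt (u * h) (rt (incl none a) φ)) - (s.card : ℂ) • rt (incl none a) φ := by
        intro a
        rw [map_sub, map_sum, map_smul]
        congr 1
        exact Finset.sum_congr rfl fun u hu => hcom a u hu
      obtain ⟨s1, s2, s3, s4⟩ := hS
      refine ⟨?_, ?_, ?_, ?_⟩
      · intro x hx
        rw [hD, s1 x hx]
      · intro a
        rw [hD, s2 a]
      · rw [hD, s3]
        simp only [map_neg, Finset.sum_neg_distrib, smul_neg]
        abel
      · rw [hD, hD]
        have h4 : (∑ u ∈ s, rt (u * h) φ) - (s.card : ℂ) • φ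
            + ((∑ u ∈ s, rt (u * h) (rt (incl none (sw none)) φ)) - (s.card : ℂ) • rt (incl none (sw none)) φ)
            + ((∑ u ∈ s, rt (u * h) (rt (incl none (nn none 1 * sw none)) φ))
              - (s.card : ℂ) • rt (incl none (nn none 1 * sw none)) φ)
            = (∑ u ∈ s, rt (u * h) (φ + rt (incl none (sw none)) φ + rt (incl none (nn none 1 * sw none)) φ))
              - (s.card : ℂ) • (φ + rt (incl none (sw none)) φ + rt (incl none (nn none 1 * sw none)) φ) := by
          simp only [map_add, Finset.sum_add_distrib, smul_add]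
          abel
        rw [h4, s4]
        funext x
        have h5 : ∀ u : AG, rt (u * h) (fun _ : AG => (1 : ℂ)) = fun _ => 1 := fun u => rfl
        simp only [h5, Finset.sum_const, Pi.sub_apply, Pi.smul_apply, smul_eq_mul, nsmul_eq_mul, Pi.mul_apply,
          Pi.natCast_apply, mul_one, sub_self]
    · intro v hv
      rw [map_sub, map_sum, map_smul, hU v hv]
      congr 1
      rw [← hs3 v hv]
      refine Finset.sum_congr rfl fun u hu => ?_
      rw [av1_rt_mul, mul_assoc]
  have hfinal : ∑ u ∈ s, rt u (rt h φ) = ∑ u ∈ s, rt (u * h) φ :=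
    Finset.sum_congr rfl fun u _ => av1_rt_mul u h φ
  rw [hfinal]
  exact sub_eq_zero.1 hkey

end Pool.Agent.H757L
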