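import Mathlib

set_option autoImplicit false
set_option linter.all false
noncomputable section

namespace Pool.Agent.H757L

open Polynomial IsDedekindDomain Matrix WithZero

/-- the ring F_2[t] -/
abbrev R : Type := Polynomial (ZMod 2)
/-- the global field K = F_2(t) -/
abbrev K : Type := RatFunc (ZMod 2)
/-- the places of K: `none` is the place at infinity, `some v` the place of the prime v of F_2[t] -/
abbrev Pl : Type := Option (HeightOneSpectrum R)

open scoped Classical in
/-- the valuation of K at the place P, written multiplicatively:
`val P x = exp (- ord_P x)`; at infinity `exp (deg x)` -/
def val : Pl → Valuation K (WithZero (Multiplicative ℤ))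
  | none => RatFunc.inftyValuation (ZMod 2)
  | some v => v.valuation K

/-- the completion of K at P -/
abbrev Kv (P : Pl) : Type := (val P).Completion

/-- the field structure of the completion -/
@[instance_reducible] def fdK (P : Pl) : Field (Kv P) := inferInstance

/-- the valuation of the completion -/
abbrev vv (P : Pl) : Valuation (Kv P) (WithZero (Multiplicative ℤ)) := Valued.v

/-- the embedding of K in its completion at P -/
def emb (P : Pl) : K →+* Kv P :=
  (UniformSpace.Completion.coeRingHom (α := WithVal (val P))).comp
    (WithVal.equiv (val P)).symm.toRingHom

/-- the residue cardinality at P -/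
def qq : Pl → ℕ
  | none => 2
  | some v => Nat.card (R ⧸ v.asIdeal)

/-- a complex representation of the group H -/
structure Rp (H : Type) [Group H] where
  V : Type
  [acg : AddCommGroup V]
  [mod : Module ℂ V]
  ρ : Representation ℂ H V

attribute [instance] Rp.acg Rp.mod

end Pool.Agent.H757L
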