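import Pool.Agent.H757L.Base

/-!
Automorphic representations of GL_2 over K = F_2(t), their components, isobaric representations and the
global lifting for the identity representation of GL(2, C).
-/

set_option autoImplicit false
set_option linter.all false
noncomputable section

namespace Pool.Agent.H757L.Pub

open Polynomial IsDedekindDomain Matrix WithZero

/-! ### the local fields and groups -/

/-- the values exp n of the valuations, and 0 -/
abbrev Vl : Type := WithZero (Multiplicative ℤ)

/-- the completion of K = F_2(t) at the place P -/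
def F (P : Pl) : Type := (val P).Completion

@[instance_reducible] def fF (P : Pl) : Field (F P) := (inferInstance : Field (val P).Completion)

attribute [instance] fF

/-- the valuation of the completion -/
def vF (P : Pl) : Valuation (F P) Vl := (Valued.v : Valuation (val P).Completion Vl)

/-- the valuation of the completion as a function: ab x = exp (- ord x) -/
def ab {P : Pl} (x : F P) : Vl := vF P x

/-- the embedding of K in its completion at P -/
def em (P : Pl) : K →+* F P := emb P

/-- the local group GL_2(K_P) -/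
def G (P : Pl) : Type := GL (Fin 2) (F P)

@[instance_reducible] def gG (P : Pl) : Group (G P) := (inferInstance : Group (GL (Fin 2) (F P)))

attribute [instance] gG

/-- the entries of g - 1 -/
def dev {P : Pl} (g : G P) (i j : Fin 2) : F P := (Units.val (show GL (Fin 2) (F P) from g) - 1) i j

theorem ab_one (P : Pl) : ab (1 : F P) = 1 := by simp [ab]

theorem ab_mul {P : Pl} (x y : F P) : ab (x * y) = ab x * ab y := by simp [ab]

theorem ab_inv {P : Pl} (x : F P) : ab x⁻¹ = (ab x)⁻¹ := by simp [ab]

theorem ab_zero (P : Pl) : ab (0 : F P) = 0 := by simp [ab]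

theorem ab_neg {P : Pl} (x : F P) : ab (-x) = ab x := by simp [ab]

theorem ab_add {P : Pl} (x y : F P) (c : Vl) (hx : ab x ≤ c) (hy : ab y ≤ c) : ab (x + y) ≤ c :=
  Valuation.map_add_le _ hx hy

/-- g = 1 modulo the n-th power of the maximal ideal -/
def near {P : Pl} (n : ℕ) (g : G P) : Prop := ∀ i j, ab (dev g i j) ≤ exp (-(n : ℤ))

theorem near_one (P : Pl) (n : ℕ) : near n (1 : G P) := by
  intro i j
  have : dev (1 : G P) i j = 0 := by
    show ((1 : Matrix (Fin 2) (Fin 2) (F P)) - 1) i j = 0
    simp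
  rw [this, ab_zero]; exact zero_le'

theorem mat_mul {E : Type} [Field E] (a b : Matrix (Fin 2) (Fin 2) E) (i j : Fin 2) : (a * b - 1) i j
    = (((a - 1) i 0 * (b - 1) 0 j + (a - 1) i 1 * (b - 1) 1 j) + (a - 1) i j) + (b - 1) i j := by
  have e1 : a * b - 1 = (a - 1) * (b - 1) + (a - 1) + (b - 1) := by noncomm_ring
  rw [e1]
  simp [Matrix.mul_apply, Fin.sum_univ_two]

theorem near_mul {P : Pl} (n : ℕ) (g h : G P) (hg : near n g) (hh : near n h) : near n (g * h) := by
  intro i j
  have e : dev (g * h) i j = ((dev g i 0 * dev h 0 j + dev g i 1 * dev h 1 j) + dev g i j) + dev h i j :=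
    mat_mul _ _ i j
  rw [e]
  have h1 : (exp (-(n : ℤ)) : Vl) ≤ 1 := by rw [← exp_zero]; exact exp_le_exp.2 (by omega)
  have hm : ∀ k, ab (dev g i k * dev h k j) ≤ exp (-(n : ℤ)) := by
    intro k
    rw [ab_mul]
    calc _ ≤ exp (-(n : ℤ)) * 1 := mul_le_mul' (hg i k) ((hh k j).trans h1)
      _ = _ := mul_one _
  exact ab_add _ _ _ (ab_add _ _ _ (ab_add _ _ _ (hm 0) (hm 1)) (hg i j)) (hh i j)

/-- the congruence subgroup of level n of GL_2(O_P): the g with g, g^-1 integral and congruent
to 1 modulo the n-th power of the maximal ideal; for n = 0 this is GL_2(O_P) -/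
def cong (P : Pl) (n : ℕ) : Subgroup (G P) where
  carrier := {g | near n g ∧ near n g⁻¹}
  one_mem' := ⟨near_one P n, by rw [inv_one]; exact near_one P n⟩
  mul_mem' := fun {a b} ha hb => ⟨near_mul n _ _ ha.1 hb.1, by rw [_root_.mul_inv_rev]; exact near_mul n _ _ hb.2 ha.2⟩
  inv_mem' := fun {a} ha => ⟨ha.2, by rw [inv_inv]; exact ha.1⟩

/-- the matrix (a b; 0 d) -/
def tri {P : Pl} (a d : (F P)ˣ) (b : F P) : G P :=
  Matrix.GeneralLinearGroup.mkOfDetNeZero !![(a : F P), b; 0, (d : F P)] (by simp [Matrix.det_fin_two_of])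

/-- the residue cardinality at P -/
def q : Pl → ℕ := qq

/-- the normalised absolute value on the units of the completion -/
def nrm {P : Pl} (x : (F P)ˣ) : ℝ := (q P : ℝ) ^ (WithZero.log (ab (x : F P)))

/-! ### the adelic group and the adeles -/

/-- the families in the product of the GL_2(K_P) which lie in GL_2(O_P) for all but finitely many P -/
def AGs : Subgroup (∀ P, G P) where
  carrier := {g | {P | g P ∉ cong P 0}.Finite}
  one_mem' := by
    simp only [Set.mem_setOf_eq, Pi.one_apply, one_mem, not_true_eq_false, Set.setOf_false,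
      Set.finite_empty]
  mul_mem' := by
    intro a b ha hb
    refine (ha.union hb).subset ?_
    intro P hP
    by_contra h
    simp only [Set.mem_union, Set.mem_setOf_eq, not_or, not_not] at h
    exact hP (mul_mem h.1 h.2)
  inv_mem' := by
    intro a ha
    refine ha.subset ?_
    intro P hP h
    exact hP (by simpa using inv_mem h)

/-- the adelic group GL_2(A) -/
def AG : Type := AGs

@[instance_reducible] def gA : Group AG := (inferInstance : Group AGs)

attribute [instance] gA

/-- the component of g at P -/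
def pr (g : AG) (P : Pl) : G P := g.1 P

/-- the open compact subgroup of GL_2(A) of level e -/
def U (e : Pl →₀ ℕ) : Subgroup AG where
  carrier := {g | ∀ P, pr g P ∈ cong P (e P)}
  one_mem' := fun P => one_mem _
  mul_mem' := fun ha hb P => mul_mem (ha P) (hb P)
  inv_mem' := fun ha P => inv_mem (ha P)

open scoped Classical in
/-- the inclusion of GL_2(K_P) in GL_2(A) -/
def incl (P : Pl) (g : G P) : AG := ⟨Pi.mulSingle P g, by
    refine (Set.finite_singleton P).subset ?_
    intro Q hQ
    by_contra h
    exact hQ (by simp only [Set.mem_singleton_iff] at h; rw [Pi.mulSingle_eq_of_ne h]; exact one_mem _)⟩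

/-- right translation of functions on a group -/
def tr {H : Type} [Group H] (g : H) (φ : H → ℂ) : H → ℂ := fun x => φ (x * g)

/-- the image of γ in GL_2(K_P) -/
def gl (P : Pl) (γ : GL (Fin 2) K) : G P := Matrix.GeneralLinearGroup.map (em P) γ

/-- g' = γ g, γ in GL_2(K) -/
def IsMul (γ : GL (Fin 2) K) (g g' : AG) : Prop := ∀ P, pr g' P = gl P γ * pr g P

/-- left invariance under GL_2(K) -/
def LeftInv (φ : AG → ℂ) : Prop := ∀ (γ : GL (Fin 2) K) (g g' : AG), IsMul γ g g' → φ g' = φ g

/-- the functions in the span of the GL_2(K_P)-translates of φ fixed by the congruence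
subgroup of level n -/
def fixedSpan (P : Pl) (φ : AG → ℂ) (n : ℕ) : Submodule ℂ (AG → ℂ) where
  carrier := {ψ | ψ ∈ Submodule.span ℂ (Set.range fun h : G P => tr (incl P h) φ) ∧
    ∀ k ∈ cong P n, tr (incl P k) ψ = ψ}
  zero_mem' := ⟨zero_mem _, fun k _ => rfl⟩
  add_mem' := fun {a b} ha hb => ⟨add_mem ha.1 hb.1, fun k hk => by
    show tr (incl P k) a + tr (incl P k) b = a + b
    rw [ha.2 k hk, hb.2 k hk]⟩
  smul_mem' := fun c a ha => ⟨Submodule.smul_mem _ c ha.1, fun k hk => by
    show c • tr (incl P k) a = c • a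
    rw [ha.2 k hk]⟩

/-- automorphic forms on GL_2(A) (Borel-Jacquet, function field case): left invariant under GL_2(K),
right invariant under an open subgroup, and the translates under GL_2(K_P) generate an admissible
representation for some place P -/
def IsAutForm (φ : AG → ℂ) : Prop :=
  LeftInv φ ∧ (∃ e : Pl →₀ ℕ, ∀ u ∈ U e, tr u φ = φ) ∧
    ∃ P, ∀ n, FiniteDimensional ℂ (fixedSpan P φ n)

/-- the families in the product of the K_P which are integral for all but finitely many P -/
def AAs : AddSubgroup (∀ P, F P) where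
  carrier := {x | {P | ¬ ab (x P) ≤ 1}.Finite}
  zero_mem' := by simp [ab_zero]
  add_mem' := by
    intro a b ha hb
    refine (ha.union hb).subset ?_
    intro P hP
    by_contra h
    simp only [Set.mem_union, Set.mem_setOf_eq, not_or, not_not] at h
    exact hP (ab_add _ _ _ h.1 h.2)
  neg_mem' := by
    intro a ha
    refine ha.subset ?_
    intro P hP h
    exact hP (by simpa [ab_neg] using h)

/-- the adeles -/
def AA : Type := AAs

@[instance_reducible] def gAA : AddCommGroup AA := (inferInstance : AddCommGroup AAs)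

attribute [instance] gAA

/-- the component of x at P -/
def pa (x : AA) (P : Pl) : F P := x.1 P

/-- the principal adeles -/
def KK : AddSubgroup AA where
  carrier := {x | ∃ k : K, ∀ P, pa x P = em P k}
  zero_mem' := ⟨0, fun P => (map_zero (em P)).symm⟩
  add_mem' := by
    rintro a b ⟨k, hk⟩ ⟨l, hl⟩
    refine ⟨k + l, fun P => ?_⟩
    rw [map_add, ← hk P, ← hl P]; rfl
  neg_mem' := by
    rintro a ⟨k, hk⟩
    refine ⟨-k, fun P => ?_⟩
    rw [map_neg, ← hk P]; rfl

/-- the open compact subgroup of the adeles of level e -/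
def box (e : Pl →₀ ℕ) : AddSubgroup AA where
  carrier := {x | ∀ P, ab (pa x P) ≤ exp (-(e P : ℤ))}
  zero_mem' := fun P => by
    show ab (0 : F P) ≤ _
    rw [ab_zero]; exact zero_le'
  add_mem' := fun {a b} ha hb P => ab_add (pa a P) (pa b P) _ (ha P) (hb P)
  neg_mem' := fun {a} ha P => by
    show ab (-(pa a P)) ≤ _
    rw [ab_neg]; exact ha P

theorem tri_int (P : Pl) (x : F P) (hx : ab x ≤ 1) : tri 1 1 x ∈ cong P 0 := by
  have hi : ((tri 1 1 x)⁻¹ : G P) = tri 1 1 (-x) := by
    rw [inv_eq_iff_mul_eq_one]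
    apply Units.ext
    ext i j
    show ((!![(1 : F P), x; 0, 1] * !![(1 : F P), -x; 0, 1] : Matrix (Fin 2) (Fin 2) (F P))) i j
      = (1 : Matrix (Fin 2) (Fin 2) (F P)) i j
    fin_cases i <;> fin_cases j <;> simp [Matrix.mul_apply, Fin.sum_univ_two]
  have hd : ∀ y : F P, ab y ≤ 1 → near 0 (tri 1 1 y) := by
    intro y hy i j
    have e : dev (tri 1 1 y) i j = (!![(1 : F P), y; 0, 1] - 1 : Matrix (Fin 2) (Fin 2) (F P)) i j := rfl
    rw [e]
    fin_cases i <;> fin_cases j <;> simp [ab_zero, hy]
  exact ⟨hd x hx, by rw [hi]; exact hd _ (by rw [ab_neg]; exact hx)⟩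

/-- the unipotent matrix n(x), x an adele -/
def unip (x : AA) : AG := ⟨fun P => tri 1 1 (pa x P), by
  refine x.2.subset ?_
  intro P hP h
  exact hP (tri_int P _ h)⟩

/-- the constant term of φ at g is defined at level e: x -> φ(n(x) g) is invariant under box e -/
def Lev (φ : AG → ℂ) (g : AG) (e : Pl →₀ ℕ) : Prop := ∀ x, ∀ b ∈ box e, φ (unip (x + b) * g) = φ (unip x * g)

/-- cusp forms: the automorphic forms all of whose constant terms vanish. The function
x -> φ(n(x) g) is invariant under K and, φ being smooth, under some box e; its integral over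
the compact group A/K is a constant times the sum over the finite group A/(K + box e). -/
def IsCuspForm (φ : AG → ℂ) : Prop :=
  IsAutForm φ ∧ ∀ (g : AG) (e : Pl →₀ ℕ), Lev φ g e →
    ∑ᶠ x : AA ⧸ (KK ⊔ box e), φ (unip (Quotient.out x) * g) = 0

/-! ### representations -/

/-- the action of h -/
def act {H : Type} [Group H] {π : Rp H} (h : H) (v : π.V) : π.V := π.ρ h v

/-- irreducible -/
def Irred {H : Type} [Group H] (π : Rp H) : Prop :=
  Nontrivial π.V ∧ ∀ W : Submodule ℂ π.V, (∀ h, ∀ w ∈ W, act h w ∈ W) → W = ⊥ ∨ W = ⊤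

/-- isomorphic representations -/
def Iso {H : Type} [Group H] (π π' : Rp H) : Prop :=
  ∃ T : π.V →ₗ[ℂ] π'.V, Function.Bijective T ∧ ∀ (h : H) v, T (act h v) = act h (T v)

/-- every vector is fixed by one of the subgroups U j -/
def Smooth {H J : Type} [Group H] (U : J → Subgroup H) (π : Rp H) : Prop :=
  ∀ s : π.V, ∃ j, ∀ k ∈ U j, act k s = s

/-- π is a subquotient of the space of the functions with the property Q: a quotient of a stable
subspace M all of whose elements have the property Q -/
def Subquot {H : Type} [Group H] (Q : (H → ℂ) → Prop) (π : Rp H) : Prop :=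
  ∃ M : Submodule ℂ (H → ℂ), (∀ φ ∈ M, Q φ) ∧ (∀ g, ∀ φ ∈ M, tr g φ ∈ M) ∧
    ∃ f : M →ₗ[ℂ] π.V, Function.Surjective f ∧
      ∀ (g : H) (φ φ' : M), (φ' : H → ℂ) = tr g φ → f φ' = act g (f φ)

/-- irreducible automorphic representations of GL_2(A) -/
def IsAutomorphic (π : Rp AG) : Prop := Irred π ∧ Smooth U π ∧ Subquot IsAutForm π

/-- the vectors in the images of the maps from σ to π which commute with GL_2(K_P) -/
def Img (π : Rp AG) (P : Pl) (σ : Rp (G P)) : Set π.V :=
  {w | ∃ (T : σ.V →ₗ[ℂ] π.V) (s : σ.V), (∀ (h : G P) s, T (act h s) = act (incl P h) (T s)) ∧ T s = w}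

/-- σ is the component of π at P: σ is irreducible and smooth and the restriction of π to GL_2(K_P)
is a sum of copies of σ -/
def IsComponent (π : Rp AG) (P : Pl) (σ : Rp (G P)) : Prop :=
  Irred σ ∧ Smooth (cong P) σ ∧ ∀ v : π.V, v ∈ Submodule.span ℂ (Img π P σ)

/-- unramified: there is a nonzero vector fixed by GL_2(O_P) -/
def Unram {P : Pl} (σ : Rp (G P)) : Prop := ∃ s : σ.V, s ≠ 0 ∧ ∀ k ∈ cong P 0, act k s = s

/-! ### Hecke characters and isobaric representations -/

/-- the families in the product of the K_P^x which are units for all but finitely many P -/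
def IAs : Subgroup (∀ P, (F P)ˣ) where
  carrier := {x | {P | ab (x P : F P) ≠ 1}.Finite}
  one_mem' := by simp [ab_one]
  mul_mem' := by
    intro a b ha hb
    refine (ha.union hb).subset ?_
    intro P hP
    by_contra h
    simp only [Set.mem_union, Set.mem_setOf_eq, not_or, not_not] at h
    exact hP (by simp [ab_mul, h.1, h.2])
  inv_mem' := by
    intro a ha
    refine ha.subset ?_
    intro P hP h
    exact hP (by simp [ab_inv, h])

/-- the ideles -/
def IA : Type := IAs

@[instance_reducible] def gI : Group IA := (inferInstance : Group IAs)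

attribute [instance] gI

/-- the component of x at P -/
def pi (x : IA) (P : Pl) : (F P)ˣ := x.1 P

open scoped Classical in
/-- the inclusion of the units of K_P in the ideles -/
def inclI (P : Pl) (g : (F P)ˣ) : IA := ⟨Pi.mulSingle P g, by
    refine (Set.finite_singleton P).subset ?_
    intro Q hQ
    by_contra h
    exact hQ (by simp only [Set.mem_singleton_iff] at h; rw [Pi.mulSingle_eq_of_ne h]; simp [ab_one])⟩

/-- the absolute value of an idele -/
def nrmA (x : IA) : ℝ := ∏ᶠ P, nrm (pi x P)

/-- Hecke characters (quasi-characters of the idele class group) -/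
structure HeckeChar where
  μ : IA → ℂ
  one : μ 1 = 1
  mul : ∀ x y, μ (x * y) = μ x * μ y
  princ : ∀ (k : K) (x : IA), (∀ P, (pi x P : F P) = em P k) → μ x = 1
  cont : ∃ e : Pl →₀ ℕ, ∀ x : IA, (∀ P, ab (pi x P : F P) = 1 ∧ ab ((pi x P : F P) - 1) ≤ exp (-(e P : ℤ))) → μ x = 1

/-- the (normalised) principal series Ind(χ1, χ2) of GL_2(K_P) -/
def IsPS (P : Pl) (χ1 χ2 : (F P)ˣ → ℂ) (f : G P → ℂ) : Prop :=
  (∀ (a d : (F P)ˣ) (b : F P) (g : G P),
    f (tri a d b * g) = χ1 a * χ2 d * (Real.sqrt (nrm a / nrm d) : ℂ) * f g) ∧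
  ∃ n, ∀ k ∈ cong P n, ∀ g, f (g * k) = f g

/-- π is the isobaric sum of the Hecke characters χ1, χ2, |χ1| = |χ2| |.|^s with s ≥ 0: each component
is isomorphic to an irreducible subrepresentation of Ind(χ2, χ1), that is the Langlands quotient
of Ind(χ1, χ2) -/
def IsSum (χ1 χ2 : HeckeChar) (π : Rp AG) : Prop :=
  (∃ s : ℝ, 0 ≤ s ∧ ∀ x : IA, ‖χ1.μ x‖ = ‖χ2.μ x‖ * nrmA x ^ s) ∧
  ∀ (P : Pl) (σ : Rp (G P)), IsComponent π P σ → ∃ T : σ.V →ₗ[ℂ] (G P → ℂ), Function.Injective T ∧
    (∀ s, IsPS P (fun a => χ2.μ (inclI P a)) (fun a => χ1.μ (inclI P a)) (T s)) ∧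
    ∀ (h : G P) s, T (act h s) = tr h (T s)

/-- isobaric automorphic representations of GL_2(A): the cuspidal ones and the isobaric sums of
two Hecke characters -/
def IsIsobaric (π : Rp AG) : Prop :=
  Irred π ∧ Smooth U π ∧ (Subquot IsCuspForm π ∨ ∃ χ1 χ2, IsSum χ1 χ2 π)

/-! ### global lifting and the question -/

/-- π' is the global lifting of π with respect to the identity representation of GL_2(C):
π' is isobaric and the components agree at each place where that of π is unramified -/
def IsLifting (π π' : Rp AG) : Prop :=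
  IsIsobaric π' ∧ ∀ (P : Pl) (σ τ : Rp (G P)), IsComponent π P σ → IsComponent π' P τ → Unram σ → Iso σ τ

/-- an irreducible smooth representation of GL_2(K_P) -/
def IrrSm (P : Pl) : Type 1 := {σ : Rp (G P) // Irred σ ∧ Smooth (cong P) σ}

/-- Irr(GL_2(K_P)): the isomorphism classes of irreducible smooth representations -/
def Irr (P : Pl) : Type 1 := Quot (fun σ τ : IrrSm P => Iso σ.1 τ.1)

/-- the class -/
def cls {P : Pl} (σ : Rp (G P)) (h : Irred σ ∧ Smooth (cong P) σ) : Irr P :=
  Quot.mk (fun σ τ : IrrSm P => Iso σ.1 τ.1) ⟨σ, h⟩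

/-- F = F_2((1/t)), G = GL_2, the identity representation: a map Irr(G) → Irr(GL_2(F)) which
predicts the component at infinity of each global lifting -/
def Predicts (l : Irr none → Irr none) : Prop :=
  ∀ π π' : Rp AG, IsAutomorphic π → IsLifting π π' →
    ∀ (σ τ : Rp (G none)) (h1 : IsComponent π none σ) (h2 : IsComponent π' none τ),
      l (cls σ ⟨h1.1, h1.2.1⟩) = cls τ ⟨h2.1, h2.2.1⟩

end Pool.Agent.H757L.Pub
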