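import Pool.Agent.H757L.Stm
import Pool.Agent.H757L.Pub

set_option autoImplicit false
set_option linter.all false
noncomputable section

namespace Pool.Agent.H757L.Bridge
open Polynomial IsDedekindDomain Matrix WithZero Pool.Agent.H757L

/-- the Hecke character as a function with values in C -/
def conv (χ : HeckeChar) : Pub.HeckeChar where
  μ := fun x : IA => ((χ.μ x : ℂˣ) : ℂ)
  one := by
    show ((χ.μ (1 : IA) : ℂˣ) : ℂ) = 1
    rw [map_one, Units.val_one]
  mul := fun x y => by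
    show ((χ.μ ((show IA from x) * (show IA from y)) : ℂˣ) : ℂ) = _
    rw [map_mul, Units.val_mul]
  princ := fun k x hx => by
    have h0 : k ≠ 0 := by
      rintro rfl
      have h1 := hx none
      rw [map_zero] at h1
      exact (Pub.pi x none).ne_zero h1
    have h2 : χ.μ (show IA from x) = 1 := χ.princ (Units.mk0 k h0) x (fun P => Units.ext (hx P))
    show ((χ.μ (show IA from x) : ℂˣ) : ℂ) = 1
    rw [h2, Units.val_one]
  cont := by
    obtain ⟨e, he⟩ := χ.cont
    refine ⟨e, fun x hx => ?_⟩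
    have h2 : χ.μ (show IA from x) = 1 := he x hx
    show ((χ.μ (show IA from x) : ℂˣ) : ℂ) = 1
    rw [h2, Units.val_one]

theorem sum (χ1 χ2 : HeckeChar) (π : Rp AG) (h : IsSum χ1 χ2 π) : Pub.IsSum (conv χ1) (conv χ2) π := by
  refine ⟨h.1, fun P σ hσ => ?_⟩
  obtain ⟨T, hT, hps, hint⟩ := h.2 P σ hσ
  exact ⟨T, hT, hps, hint⟩

theorem isob (π : Rp AG) (h : IsIsobaric π) : Pub.IsIsobaric π := by
  obtain ⟨h1, h2, h3⟩ := h
  refine ⟨h1, h2, ?_⟩
  rcases h3 with h3 | ⟨χ1, χ2, h3⟩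
  · exact Or.inl h3
  · exact Or.inr ⟨conv χ1, conv χ2, sum χ1 χ2 π h3⟩

theorem lift (π π' : Rp AG) (h : IsLifting π π') : Pub.IsLifting π π' := ⟨isob π' h.1, h.2⟩

theorem bridge (h : ∃ l : Pub.Irr none → Pub.Irr none, Pub.Predicts l) :
    ∃ l : Irr none → Irr none, Predicts l := by
  obtain ⟨l, hl⟩ := h
  exact ⟨l, fun π π' h1 h2 σ τ h3 h4 => hl π π' h1 (lift π π' h2) σ τ h3 h4⟩

end Pool.Agent.H757L.Bridge
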