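import Pool.Agent.H757L.Defs2

set_option autoImplicit false
set_option linter.all false
noncomputable section

namespace Pool.Agent.H757L

open Polynomial IsDedekindDomain Matrix WithZero

/-- finitely many representatives of the integers modulo the n-th power of the maximal ideal -/
def cfi_rep (P : Pl) (n : ℕ) : Prop :=
  ∃ T : Set (Kv P), T.Finite ∧ ∀ x, vv P x ≤ 1 → ∃ r ∈ T, vv P (x - r) ≤ exp (-(n : ℤ))

theorem cfi_exp_le_one (n : ℕ) : (exp (-(n : ℤ)) : WithZero (Multiplicative ℤ)) ≤ 1 := by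
  rw [← exp_zero]; exact exp_le_exp.2 (by omega)

theorem cfi_dens (P : Pl) (n : ℕ) (x : Kv P) (hx : vv P x ≤ 1) :
    ∃ k : K, vv P (x - emb P k) ≤ exp (-(n : ℤ)) ∧ val P k ≤ 1 := by
  obtain ⟨k, hk⟩ := dens P x (-(n : ℤ))
  refine ⟨k, hk, ?_⟩
  rw [← emb_val]
  have h1 : emb P k = x - (x - emb P k) := by ring
  rw [h1]
  exact Valuation.map_sub_le _ hx (hk.trans (cfi_exp_le_one n))

theorem cfi_finq (I : Ideal R) (hI : I ≠ ⊥) : Finite (R ⧸ I) := by
  obtain ⟨f, hf⟩ := (IsPrincipalIdealRing.principal I).principal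
  have hf' : I = Ideal.span {f} := hf
  have hf0 : f ≠ 0 := by
    rintro rfl
    apply hI
    rw [hf', Ideal.span_singleton_eq_bot]
  have hfin : Finite (Polynomial.degreeLT (ZMod 2) (f.natDegree)) :=
    Finite.of_equiv _ (Polynomial.degreeLTEquiv (ZMod 2) (f.natDegree)).symm.toEquiv
  refine Finite.of_surjective (fun p : Polynomial.degreeLT (ZMod 2) (f.natDegree) => Ideal.Quotient.mk I p.1) ?_
  intro q
  obtain ⟨a, rfl⟩ := Ideal.Quotient.mk_surjective q
  refine ⟨⟨a % f, ?_⟩, ?_⟩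
  · rw [Polynomial.mem_degreeLT]
    have := Polynomial.degree_mod_lt a hf0
    rwa [Polynomial.degree_eq_natDegree hf0] at this
  · rw [Ideal.Quotient.eq, hf', Ideal.mem_span_singleton]
    refine ⟨-(a / f), ?_⟩
    have := EuclideanDomain.div_add_mod a f
    linear_combination this

theorem cfi_rep_some (v : HeightOneSpectrum R) (n : ℕ) : cfi_rep (some v) n := by
  have hfin : Finite (R ⧸ v.asIdeal ^ n) := cfi_finq _ (pow_ne_zero _ v.ne_bot)
  refine ⟨Set.range (fun q : R ⧸ v.asIdeal ^ n => emb (some v) (algebraMap R K (Quotient.out q))),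
    Set.finite_range _, ?_⟩
  intro x hx
  obtain ⟨k, hk, hk1⟩ := cfi_dens (some v) n x hx
  obtain ⟨a, ha⟩ := v.exists_valuation_sub_lt_of_integer (K := K) (x := k) hk1
    (Units.mk0 (exp (-(n : ℤ))) exp_ne_zero)
  refine ⟨_, ⟨Ideal.Quotient.mk (v.asIdeal ^ n) a, rfl⟩, ?_⟩
  have hb : (Quotient.out (Ideal.Quotient.mk (v.asIdeal ^ n) a)) - a ∈ v.asIdeal ^ n := by
    rw [← Ideal.Quotient.eq]
    exact Quotient.out_eq _
  set b := Quotient.out (Ideal.Quotient.mk (v.asIdeal ^ n) a) with hbdef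
  have hb1 : v.valuation K (algebraMap R K (b - a)) ≤ exp (-(n : ℤ)) := by
    rw [HeightOneSpectrum.valuation_of_algebraMap, HeightOneSpectrum.intValuation_le_pow_iff_mem]
    exact hb
  have e : x - emb (some v) (algebraMap R K b)
      = (x - emb (some v) k) - (emb (some v) (algebraMap R K a - k) + emb (some v) (algebraMap R K (b - a))) := by
    rw [map_sub (emb (some v)), map_sub (algebraMap R K), map_sub (emb (some v))]; ring
  show vv (some v) (x - emb (some v) (algebraMap R K b)) ≤ _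
  rw [e]
  refine Valuation.map_sub_le _ hk (Valuation.map_add_le _ ?_ ?_)
  · rw [emb_val]; exact ha.le
  · rw [emb_val]; exact hb1

theorem cfi_zmod2 (c : ZMod 2) (h : c ≠ 0) : c = 1 := by
  revert c; decide

open scoped Classical in
theorem cfi_res_none (k : K) (hk : val none k ≤ 1) : val none k < 1 ∨ val none (k - 1) < 1 := by
  by_cases h0 : k = 0
  · left; rw [h0, map_zero]; exact zero_lt_one
  by_cases h1 : k - 1 = 0
  · right; rw [h1, map_zero]; exact zero_lt_one
  have hv : ∀ x : K, x ≠ 0 → val none x = exp x.intDegree := by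
    intro x hx
    exact RatFunc.inftyValuation_of_nonzero (ZMod 2) hx
  rw [hv _ h0, hv _ h1, ← exp_zero, exp_lt_exp, exp_lt_exp]
  rw [hv _ h0, ← exp_zero, exp_le_exp] at hk
  by_contra hcon
  push Not at hcon
  obtain ⟨hc0, hc1⟩ := hcon
  have hd : k.intDegree = 0 := le_antisymm hk hc0
  have hden : k.denom ≠ 0 := k.denom_ne_zero
  have hnum : k.num ≠ 0 := RatFunc.num_ne_zero h0
  have hdeg : k.num.natDegree = k.denom.natDegree := by
    unfold RatFunc.intDegree at hd; omega
  have hk' : k = algebraMap R K k.num / algebraMap R K k.denom := (RatFunc.num_div_denom k).symm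
  have hden' : algebraMap R K k.denom ≠ 0 := by
    intro h
    apply hden
    exact (map_eq_zero_iff _ (RatFunc.algebraMap_injective (ZMod 2))).1 h
  have hk1 : k - 1 = algebraMap R K (k.num - k.denom) / algebraMap R K k.denom := by
    rw [map_sub, sub_div, div_self hden', ← hk']
  have hnd : k.num - k.denom ≠ 0 := by
    intro h
    apply h1
    rw [hk1, h, map_zero, zero_div]
  have hlt : (k.num - k.denom).degree < k.num.degree := by
    apply Polynomial.degree_sub_lt
    · rw [Polynomial.degree_eq_natDegree hnum, Polynomial.degree_eq_natDegree hden, hdeg]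
    · exact hnum
    · rw [cfi_zmod2 _ (Polynomial.leadingCoeff_ne_zero.2 hnum), cfi_zmod2 _ (Polynomial.leadingCoeff_ne_zero.2 hden)]
  have hlt' : (k.num - k.denom).natDegree < k.denom.natDegree := by
    rw [← hdeg]
    exact Polynomial.natDegree_lt_natDegree hnd hlt
  have hnd' : algebraMap R K (k.num - k.denom) ≠ 0 := by
    intro h
    apply hnd
    exact (map_eq_zero_iff _ (RatFunc.algebraMap_injective (ZMod 2))).1 h
  rw [hk1, RatFunc.intDegree_div hnd' hden', RatFunc.intDegree_polynomial, RatFunc.intDegree_polynomial] at hc1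
  omega

theorem cfi_rep_none (n : ℕ) : cfi_rep none n := by
  induction n with
  | zero =>
    refine ⟨{0}, Set.finite_singleton _, fun x hx => ⟨0, rfl, ?_⟩⟩
    simpa using hx
  | succ n ih =>
    obtain ⟨T, hT, hx⟩ := ih
    obtain ⟨p, hp0, hp⟩ := unif_pow none (-1)
    refine ⟨(fun r => emb none p * r) '' T ∪ (fun r => 1 + emb none p * r) '' T,
      (hT.image _).union (hT.image _), ?_⟩
    intro x hx1
    have hpe : vv none (emb none p) = exp (-1) := by rw [emb_val, hp]
    have hpe0 : emb none p ≠ 0 := by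
      rw [Ne, map_eq_zero]; exact hp0
    have key : ∀ y : Kv none, vv none y < 1 → ∃ r ∈ T, vv none (y - emb none p * r) ≤ exp (-((n + 1 : ℕ) : ℤ)) := by
      intro y hy
      rw [vv_lt_one] at hy
      have h1 : vv none (y / emb none p) ≤ 1 := by
        rw [Valuation.map_div, hpe]
        exact div_le_one_of_le₀ hy (by exact zero_le)
      obtain ⟨r, hr, hr1⟩ := hx _ h1
      refine ⟨r, hr, ?_⟩
      have e : y - emb none p * r = emb none p * (y / emb none p - r) := by
        field_simp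
      rw [e, Valuation.map_mul, hpe]
      calc exp (-1 : ℤ) * vv none (y / emb none p - r) ≤ exp (-1 : ℤ) * exp (-(n : ℤ)) :=
            mul_le_mul_right hr1 _
        _ = exp (-((n + 1 : ℕ) : ℤ)) := by rw [← exp_add]; congr 1; push_cast; ring
    obtain ⟨k, hk, hk1⟩ := cfi_dens none 1 x hx1
    have hk' : vv none (x - emb none k) < 1 := by
      rw [vv_lt_one]; simpa using hk
    rcases cfi_res_none k hk1 with h | h
    · have hy : vv none x < 1 := by
        have e : x = (x - emb none k) + emb none k := by ring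
        rw [e]
        exact Valuation.map_add_lt _ hk' (by rw [emb_val]; exact h)
      obtain ⟨r, hr, hr1⟩ := key x hy
      exact ⟨_, Or.inl ⟨r, hr, rfl⟩, hr1⟩
    · have hy : vv none (x - 1) < 1 := by
        have e : x - 1 = (x - emb none k) + emb none (k - 1) := by rw [map_sub, map_one]; ring
        rw [e]
        exact Valuation.map_add_lt _ hk' (by rw [emb_val]; exact h)
      obtain ⟨r, hr, hr1⟩ := key _ hy
      refine ⟨_, Or.inr ⟨r, hr, rfl⟩, ?_⟩
      have e : x - (1 + emb none p * r) = x - 1 - emb none p * r := by ring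
      show vv none (x - (1 + emb none p * r)) ≤ _
      rw [e]; exact hr1

theorem cfi_rep_all (P : Pl) (n : ℕ) : cfi_rep P n := by
  cases P with
  | none => exact cfi_rep_none n
  | some v => exact cfi_rep_some v n

theorem cfi_close (P : Pl) (n : ℕ) (g h : G P) (hg : g ∈ cong P 0)
    (hgh : ∀ i j, vv P ((h : Matrix (Fin 2) (Fin 2) (Kv P)) i j - (g : Matrix (Fin 2) (Fin 2) (Kv P)) i j) ≤ exp (-(n : ℤ)))
    (i j : Fin 2) :
    vv P (((g⁻¹ * h : G P) : Matrix (Fin 2) (Fin 2) (Kv P)) i j - (1 : Matrix (Fin 2) (Fin 2) (Kv P)) i j) ≤ exp (-(n : ℤ)) := by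
  have e0 : ((g⁻¹ * h : G P) : Matrix (Fin 2) (Fin 2) (Kv P)) - 1
      = ((g⁻¹ : G P) : Matrix (Fin 2) (Fin 2) (Kv P)) * ((h : Matrix (Fin 2) (Fin 2) (Kv P)) - (g : Matrix (Fin 2) (Fin 2) (Kv P))) := by
    have h2 : ((g⁻¹ : G P) : Matrix (Fin 2) (Fin 2) (Kv P)) * (g : Matrix (Fin 2) (Fin 2) (Kv P)) = 1 := by
      rw [← Units.val_mul, inv_mul_cancel, Units.val_one]
    rw [mul_sub, h2, Units.val_mul]
  have e : ((g⁻¹ * h : G P) : Matrix (Fin 2) (Fin 2) (Kv P)) i j - (1 : Matrix (Fin 2) (Fin 2) (Kv P)) i j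
      = ((g⁻¹ : G P) : Matrix (Fin 2) (Fin 2) (Kv P)) i 0 * ((h : Matrix (Fin 2) (Fin 2) (Kv P)) 0 j - (g : Matrix (Fin 2) (Fin 2) (Kv P)) 0 j)
      + ((g⁻¹ : G P) : Matrix (Fin 2) (Fin 2) (Kv P)) i 1 * ((h : Matrix (Fin 2) (Fin 2) (Kv P)) 1 j - (g : Matrix (Fin 2) (Fin 2) (Kv P)) 1 j) := by
    have := congrFun (congrFun e0 i) j
    rw [Matrix.sub_apply] at this
    rw [this, Matrix.mul_apply, Fin.sum_univ_two, Matrix.sub_apply, Matrix.sub_apply]
  rw [e]
  have hm : ∀ k, vv P (((g⁻¹ : G P) : Matrix (Fin 2) (Fin 2) (Kv P)) i k * ((h : Matrix (Fin 2) (Fin 2) (Kv P)) k j - (g : Matrix (Fin 2) (Fin 2) (Kv P)) k j)) ≤ exp (-(n : ℤ)) := by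
    intro k
    rw [Valuation.map_mul]
    calc _ ≤ 1 * exp (-(n : ℤ)) := mul_le_mul' (int_entry P _ (inv_mem hg) i k) (hgh k j)
      _ = _ := one_mul _
  exact Valuation.map_add_le _ (hm 0) (hm 1)

theorem t_CFI : CFin := by
  intro P n
  obtain ⟨T, hT, hx⟩ := cfi_rep_all P n
  choose! r hr1 hr2 using hx
  haveI : Finite T := hT
  let f : cong P 0 → (Fin 2 → Fin 2 → T) × (Fin 2 → Fin 2 → T) := fun g =>
    (fun i j => ⟨r ((g.1 : Matrix (Fin 2) (Fin 2) (Kv P)) i j), hr1 _ (int_entry P _ g.2 i j)⟩,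
     fun i j => ⟨r (((g.1⁻¹ : G P) : Matrix (Fin 2) (Fin 2) (Kv P)) i j), hr1 _ (int_entry P _ (inv_mem g.2) i j)⟩)
  have hf : ∀ g h : cong P 0, f g = f h → g⁻¹ * h ∈ (cong P n).subgroupOf (cong P 0) := by
    intro g h hgh
    rw [Subgroup.mem_subgroupOf]
    have hcl : ∀ i j, vv P ((h.1 : Matrix (Fin 2) (Fin 2) (Kv P)) i j - (g.1 : Matrix (Fin 2) (Fin 2) (Kv P)) i j) ≤ exp (-(n : ℤ)) := by
      intro i j
      have h1 := congrArg Subtype.val (congrFun (congrFun (congrArg Prod.fst hgh) i) j)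
      have h1' : r ((g.1 : Matrix (Fin 2) (Fin 2) (Kv P)) i j) = r ((h.1 : Matrix (Fin 2) (Fin 2) (Kv P)) i j) := h1
      have e : (h.1 : Matrix (Fin 2) (Fin 2) (Kv P)) i j - (g.1 : Matrix (Fin 2) (Fin 2) (Kv P)) i j
          = ((h.1 : Matrix (Fin 2) (Fin 2) (Kv P)) i j - r ((h.1 : Matrix (Fin 2) (Fin 2) (Kv P)) i j))
            - ((g.1 : Matrix (Fin 2) (Fin 2) (Kv P)) i j - r ((g.1 : Matrix (Fin 2) (Fin 2) (Kv P)) i j)) := by
        rw [h1']; ring
      rw [e]
      exact Valuation.map_sub_le _ (hr2 _ (int_entry P _ h.2 i j)) (hr2 _ (int_entry P _ g.2 i j))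
    refine ⟨fun i j => ?_, fun i j => ?_⟩
    · exact cfi_close P n g.1 h.1 g.2 hcl i j
    · have e : (((g⁻¹ * h : cong P 0) : G P))⁻¹ = h.1⁻¹ * g.1 := by simp
      rw [e]
      refine cfi_close P n h.1 g.1 h.2 ?_ i j
      intro i j
      rw [Valuation.map_sub_swap]; exact hcl i j
  haveI : Finite (cong P 0 ⧸ (cong P n).subgroupOf (cong P 0)) := by
    refine Finite.of_injective (fun q => f (Quotient.out q)) ?_
    intro q q' hq
    have h1 := hf _ _ hq
    rw [← QuotientGroup.eq] at h1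
    rw [← Quotient.out_eq q, ← Quotient.out_eq q']
    exact h1
  exact Subgroup.finiteIndex_of_finite_quotient

end Pool.Agent.H757L
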