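import Pool.Agent.H757L.Defs2

set_option autoImplicit false
set_option linter.all false
noncomputable section

namespace Pool.Agent.H757L

open Polynomial IsDedekindDomain Matrix WithZero

theorem cla_inv {F : Type} [Field F] (a d : Fˣ) (b : F) :
    ((tri a d b)⁻¹ : GL (Fin 2) F) = tri a⁻¹ d⁻¹ (-((a⁻¹ : Fˣ) * b * (d⁻¹ : Fˣ))) := by
  rw [inv_eq_iff_mul_eq_one]
  ext i j
  have ha : (a : F) ≠ 0 := a.ne_zero
  have hd : (d : F) ≠ 0 := d.ne_zero
  fin_cases i <;> fin_cases j <;>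
    simp [tri, Matrix.mul_apply, Fin.sum_univ_two]
  field_simp
  ring

theorem cla_c0 (P : Pl) (g : G P)
    (h : ∀ i j, vv P ((g : Matrix (Fin 2) (Fin 2) (Kv P)) i j) ≤ 1)
    (h' : ∀ i j, vv P (((g⁻¹ : G P) : Matrix (Fin 2) (Fin 2) (Kv P)) i j) ≤ 1) :
    g ∈ cong P 0 := by
  have e : (exp (-((0 : ℕ) : ℤ)) : WithZero (Multiplicative ℤ)) = 1 := by simp
  refine ⟨fun i j => ?_, fun i j => ?_⟩
  · rw [e]
    exact (Valuation.map_sub _ _ _).trans (max_le (h i j) (vone P i j))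
  · rw [e]
    exact (Valuation.map_sub _ _ _).trans (max_le (h' i j) (vone P i j))

theorem cla_tri (P : Pl) (a d : (Kv P)ˣ) (b : Kv P) (ha : vv P (a : Kv P) = 1)
    (hd : vv P (d : Kv P) = 1) (hb : vv P b ≤ 1) : tri a d b ∈ cong P 0 := by
  have ha' : vv P ((a⁻¹ : (Kv P)ˣ) : Kv P) = 1 := by simp [ha]
  have hd' : vv P ((d⁻¹ : (Kv P)ˣ) : Kv P) = 1 := by simp [hd]
  refine cla_c0 P _ (fun i j => ?_) (fun i j => ?_)
  · fin_cases i <;> fin_cases j <;> simp [tri, ha, hd, hb]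
  · rw [cla_inv]
    fin_cases i <;> fin_cases j <;> simp [tri, ha, hd, hb]

theorem cla_map {F F' : Type} [Field F] [Field F'] (f : F →+* F') (a d : Fˣ) (b : F) :
    Matrix.GeneralLinearGroup.map f (tri a d b)
      = tri (Units.map (f : F →* F') a) (Units.map (f : F →* F') d) (f b) := by
  ext i j
  fin_cases i <;> fin_cases j <;> simp [tri]

theorem cla_mul {F : Type} [Field F] (a d a' d' : Fˣ) (b b' : F) :
    tri a d b * tri a' d' b' = tri (a * a') (d * d') (a * b' + b * d') := by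
  ext i j
  fin_cases i <;> fin_cases j <;> simp [tri, Matrix.mul_apply, Fin.sum_univ_two]

theorem t_CLA : Iwas → IdC → AddC → Cla := by
  intro hI hC hA g
  have h1 : ∀ P, ∃ (a d : (Kv P)ˣ) (b : Kv P) (k : G P), g.1 P = tri a d b * k ∧
      (P ≠ none → k ∈ cong P 0) ∧
      ((P = none ∨ g.1 P ∈ cong P 0) → a = 1 ∧ d = 1 ∧ b = 0) := by
    intro P
    by_cases hP : P = none ∨ g.1 P ∈ cong P 0
    · refine ⟨1, 1, 0, g.1 P, ?_, ?_, fun _ => ⟨rfl, rfl, rfl⟩⟩
      · have : (tri 1 1 0 : G P) = 1 := by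
          ext i j
          fin_cases i <;> fin_cases j <;> simp [tri]
        rw [this, one_mul]
      · intro h
        exact hP.resolve_left h
    · obtain ⟨a, d, b, k, hk, he⟩ := hI P (g.1 P)
      exact ⟨a, d, b, k, he, fun _ => hk, fun h => absurd h hP⟩
  choose a d b k hg hk h0 using h1
  have hfin : {P | g.1 P ∉ cong P 0}.Finite := g.2
  obtain ⟨α, hα⟩ := hC ⟨a, by
    refine hfin.subset ?_
    intro P hP h
    apply hP
    show vv P (a P : Kv P) = 1
    rw [(h0 P (Or.inr h)).1]; simp⟩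
  obtain ⟨δ, hδ⟩ := hC ⟨d, by
    refine hfin.subset ?_
    intro P hP h
    apply hP
    show vv P (d P : Kv P) = 1
    rw [(h0 P (Or.inr h)).2.1]; simp⟩
  obtain ⟨β, hβ⟩ := hA ⟨fun P => b P / emb P (α : K) * (emb P (δ : K) / (d P : Kv P)), by
    refine hfin.subset ?_
    intro P hP h
    apply hP
    show vv P (b P / emb P (α : K) * (emb P (δ : K) / (d P : Kv P))) ≤ 1
    rw [(h0 P (Or.inr h)).2.2]; simp⟩
  simp only at hα hδ hβ
  set γ : GL (Fin 2) K := tri α δ ((α : K) * β) with hγ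
  have key : ∀ v : HeightOneSpectrum R,
      (Matrix.GeneralLinearGroup.map (emb (some v)) γ)⁻¹ * g.1 (some v) ∈ cong (some v) 0 := by
    intro v
    set P : Pl := some v with hP
    set αP : (Kv P)ˣ := Units.map (emb P : K →* Kv P) α with hαP
    set δP : (Kv P)ˣ := Units.map (emb P : K →* Kv P) δ with hδP
    have eα : (αP : Kv P) = emb P (α : K) := rfl
    have eδ : (δP : Kv P) = emb P (δ : K) := rfl
    have hα0 : vv P (αP : Kv P) ≠ 0 := (Valuation.ne_zero_iff _).2 αP.ne_zero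
    have hδ0 : vv P (δP : Kv P) ≠ 0 := (Valuation.ne_zero_iff _).2 δP.ne_zero
    set b2 : Kv P := b P / emb P (α : K) * (emb P (δ : K) / (d P : Kv P)) with hb2
    have e1 : tri (a P) (d P) (b P) = Matrix.GeneralLinearGroup.map (emb P) γ
        * tri (αP⁻¹ * a P) (δP⁻¹ * d P) ((b2 - emb P β) * ((δP⁻¹ * d P : (Kv P)ˣ) : Kv P)) := by
      rw [hγ, cla_map, cla_mul]
      have h1 : αP * (αP⁻¹ * a P) = a P := by group
      have h2 : δP * (δP⁻¹ * d P) = d P := by group
      rw [h1, h2]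
      congr 1
      rw [hb2, map_mul, ← eα, ← eδ]
      have n1 := αP.ne_zero
      have n2 := δP.ne_zero
      have n3 := (d P).ne_zero
      push_cast
      field_simp
      ring
    rw [hg P, e1, mul_assoc, inv_mul_cancel_left]
    have va : vv P ((αP⁻¹ * a P : (Kv P)ˣ) : Kv P) = 1 := by
      push_cast
      rw [Valuation.map_mul, hα v, ← eα, map_inv₀]
      exact inv_mul_cancel₀ hα0
    have vd : vv P ((δP⁻¹ * d P : (Kv P)ˣ) : Kv P) = 1 := by
      push_cast
      rw [Valuation.map_mul, hδ v, ← eδ, map_inv₀]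
      exact inv_mul_cancel₀ hδ0
    refine mul_mem (cla_tri P _ _ _ va vd ?_) (hk P (by rw [hP]; exact Option.some_ne_none v))
    rw [Valuation.map_mul, vd, mul_one]
    exact hβ v
  refine ⟨γ, ⟨fun P => (Matrix.GeneralLinearGroup.map (emb P) γ)⁻¹ * g.1 P, ?_⟩, ?_, ?_⟩
  · refine (Set.finite_singleton none).subset ?_
    intro P hP
    by_contra h
    rcases P with _ | v
    · exact h rfl
    · exact hP (key v)
  · intro v
    exact key v
  · intro P
    show g.1 P = Matrix.GeneralLinearGroup.map (emb P) γ *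
      ((Matrix.GeneralLinearGroup.map (emb P) γ)⁻¹ * g.1 P)
    rw [mul_inv_cancel_left]

end Pool.Agent.H757L
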