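import Pool.Agent.H757L.Defs2

set_option autoImplicit false
set_option linter.all false
noncomputable section

namespace Pool.Agent.H757L

open Polynomial IsDedekindDomain Matrix WithZero

theorem cnj_bd1 (P : Pl) (x : Kv P) : ∃ A : ℕ, vv P x ≤ exp (A : ℤ) := by
  rcases vv_cases P x with rfl | ⟨n, hn⟩
  · exact ⟨0, by simp⟩
  · exact ⟨n.natAbs, by rw [hn]; exact exp_le_exp.2 (Int.le_natAbs)⟩

theorem cnj_bd (P : Pl) (M : Matrix (Fin 2) (Fin 2) (Kv P)) :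
    ∃ A : ℕ, ∀ i j, vv P (M i j) ≤ exp (A : ℤ) := by
  choose f hf using fun x : Kv P => cnj_bd1 P x
  refine ⟨∑ i : Fin 2, ∑ j : Fin 2, f (M i j), fun i j => (hf (M i j)).trans (exp_le_exp.2 ?_)⟩
  have h1 : f (M i j) ≤ ∑ j : Fin 2, f (M i j) :=
    Finset.single_le_sum (f := fun j => f (M i j)) (fun _ _ => Nat.zero_le _) (Finset.mem_univ j)
  have h2 : ∑ j : Fin 2, f (M i j) ≤ ∑ i : Fin 2, ∑ j : Fin 2, f (M i j) :=
    Finset.single_le_sum (f := fun i => ∑ j : Fin 2, f (M i j)) (fun _ _ => Nat.zero_le _)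
      (Finset.mem_univ i)
  exact_mod_cast h1.trans h2

theorem cnj_tri (P : Pl) (a d b : Matrix (Fin 2) (Fin 2) (Kv P)) (A m n : ℕ)
    (ha : ∀ i j, vv P (a i j) ≤ exp (A : ℤ)) (hb : ∀ i j, vv P (b i j) ≤ exp (A : ℤ))
    (hd : ∀ i j, vv P (d i j) ≤ exp (-(m : ℤ))) (hm : n + 2 * A ≤ m) (i j : Fin 2) :
    vv P ((a * d * b) i j) ≤ exp (-(n : ℤ)) := by
  rw [Matrix.mul_apply]
  refine Valuation.map_sum_le _ fun l _ => ?_
  rw [Matrix.mul_apply, Finset.sum_mul]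
  refine Valuation.map_sum_le _ fun k _ => ?_
  rw [Valuation.map_mul, Valuation.map_mul]
  calc vv P (a i k) * vv P (d k l) * vv P (b l j)
      ≤ exp (A : ℤ) * exp (-(m : ℤ)) * exp (A : ℤ) :=
        mul_le_mul' (mul_le_mul' (ha i k) (hd k l)) (hb l j)
    _ = exp ((A : ℤ) + -(m : ℤ) + (A : ℤ)) := by rw [exp_add, exp_add]
    _ ≤ exp (-(n : ℤ)) := exp_le_exp.2 (by omega)

theorem cnj_one (P : Pl) (g k : G P) (A m n : ℕ)
    (ha : ∀ i j, vv P ((g : Matrix (Fin 2) (Fin 2) (Kv P)) i j) ≤ exp (A : ℤ))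
    (ha' : ∀ i j, vv P (((g⁻¹ : G P) : Matrix (Fin 2) (Fin 2) (Kv P)) i j) ≤ exp (A : ℤ))
    (hm : n + 2 * A ≤ m)
    (hk : ∀ i j, vv P ((k : Matrix (Fin 2) (Fin 2) (Kv P)) i j
      - (1 : Matrix (Fin 2) (Fin 2) (Kv P)) i j) ≤ exp (-(m : ℤ))) (i j : Fin 2) :
    vv P (((g⁻¹ * k * g : G P) : Matrix (Fin 2) (Fin 2) (Kv P)) i j
      - (1 : Matrix (Fin 2) (Fin 2) (Kv P)) i j) ≤ exp (-(n : ℤ)) := by
  have h1 : ((g⁻¹ : G P) : Matrix (Fin 2) (Fin 2) (Kv P)) * (g : Matrix (Fin 2) (Fin 2) (Kv P)) = 1 := by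
    rw [← Units.val_mul, inv_mul_cancel, Units.val_one]
  have h2 : ((g⁻¹ * k * g : G P) : Matrix (Fin 2) (Fin 2) (Kv P)) i j
      - (1 : Matrix (Fin 2) (Fin 2) (Kv P)) i j
      = (((g⁻¹ : G P) : Matrix (Fin 2) (Fin 2) (Kv P)) *
        ((k : Matrix (Fin 2) (Fin 2) (Kv P)) - 1) * (g : Matrix (Fin 2) (Fin 2) (Kv P))) i j := by
    rw [Matrix.mul_sub, Matrix.sub_mul, Matrix.mul_one, h1, Matrix.sub_apply, Units.val_mul,
      Units.val_mul]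
  rw [h2]
  exact cnj_tri P _ _ _ A m n ha' ha (fun i j => by rw [Matrix.sub_apply]; exact hk i j) hm i j

theorem cnj_conj (P : Pl) (g k : G P) (A m n : ℕ)
    (ha : ∀ i j, vv P ((g : Matrix (Fin 2) (Fin 2) (Kv P)) i j) ≤ exp (A : ℤ))
    (ha' : ∀ i j, vv P (((g⁻¹ : G P) : Matrix (Fin 2) (Fin 2) (Kv P)) i j) ≤ exp (A : ℤ))
    (hm : n + 2 * A ≤ m) (hk : k ∈ cong P m) : g⁻¹ * k * g ∈ cong P n := by
  refine ⟨fun i j => cnj_one P g k A m n ha ha' hm hk.1 i j, fun i j => ?_⟩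
  have h : (g⁻¹ * k * g)⁻¹ = g⁻¹ * k⁻¹ * g := by group
  rw [h]
  exact cnj_one P g k⁻¹ A m n ha ha' hm hk.2 i j

theorem cnj_loc (P : Pl) (g : G P) (n : ℕ) : ∃ m, ∀ k ∈ cong P m, g⁻¹ * k * g ∈ cong P n := by
  obtain ⟨A, hA⟩ := cnj_bd P (g : Matrix (Fin 2) (Fin 2) (Kv P))
  obtain ⟨B, hB⟩ := cnj_bd P ((g⁻¹ : G P) : Matrix (Fin 2) (Fin 2) (Kv P))
  refine ⟨n + 2 * (A + B), fun k hk => cnj_conj P g k (A + B) _ n
    (fun i j => (hA i j).trans (exp_le_exp.2 (by push_cast; omega)))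
    (fun i j => (hB i j).trans (exp_le_exp.2 (by push_cast; omega))) le_rfl hk⟩

theorem cnj_int (P : Pl) (g : G P) (hg : g ∈ cong P 0) (n : ℕ) (k : G P) (hk : k ∈ cong P n) :
    g⁻¹ * k * g ∈ cong P n := by
  refine cnj_conj P g k 0 n n (fun i j => ?_) (fun i j => ?_) (by omega) hk
  · simpa using int_entry P g hg i j
  · simpa using int_entry P g⁻¹ (inv_mem hg) i j

theorem t_CNJ : Cnj := by
  classical
  refine ⟨cnj_loc, fun g e => ?_⟩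
  choose f hf using fun P : Pl => cnj_loc P (g.1 P) (e P)
  have hfin : {P | g.1 P ∉ cong P 0}.Finite := g.2
  refine ⟨Finsupp.onFinset (hfin.toFinset ∪ e.support)
    (fun P => if g.1 P ∈ cong P 0 then e P else f P) (fun P hP => ?_), fun u hu P => ?_⟩
  · by_cases h : g.1 P ∈ cong P 0
    · rw [if_pos h] at hP
      exact Finset.mem_union_right _ (Finsupp.mem_support_iff.2 hP)
    · exact Finset.mem_union_left _ (hfin.mem_toFinset.2 h)
  · have hu' : u.1 P ∈ cong P (if g.1 P ∈ cong P 0 then e P else f P) := hu P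
    show (g.1 P)⁻¹ * u.1 P * g.1 P ∈ cong P (e P)
    by_cases h : g.1 P ∈ cong P 0
    · rw [if_pos h] at hu'
      exact cnj_int P _ h _ _ hu'
    · rw [if_neg h] at hu'
      exact hf P _ hu'

end Pool.Agent.H757L
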