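import Pool.Agent.H757L.Defs2
/-
Project LL (helper757, MP_5ae62c_nt, HARD, weight 10, full negative answer; GL_2 over F_2(t), representation theory in a completely explicit form).
Definitions and statements: Pool/Agent/H757L/Stm.lean, Defs.lean, Api.lean, Defs2.lean on origin/main (Mathlib only, all four compile; copy them to
/workdir/pool/Pool/Agent/H757L/ and run lake build Pool.Agent.H757L.Defs2, about 30 seconds).  Every statement has been checked on paper.
TARGET: prove the theorem below, statement unchanged, no sorry, no axioms.  Put auxiliary lemmas before it in the same namespace (give ALL your lemmas a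
prefix of your own such as cof_, the files are imported together; no straight double quotes anywhere).  Paste the full file back as result of the job.
File name: Pool/Agent/H757L/Cof.lean
If the statement is false or unclear: status='problem' and say why, or message helper757.  Deadline about 21:30 UTC; partial progress: message me.

Notation: K = F_2(t), R = F_2[t]; val P, vv P valuations, exp n (multiplicative ints with zero); emb P : K ->+* Kv P; cong P n congruence subgroups;
tri a d b = (a b; 0 d); nn P x = (1 x; 0 1); sw P = (0 1; 1 0); om = (0 t; 1 0); sc P a scalar; gR P : GL_2(R) -> GL_2(K_P); Iw Iwahori subgroup at infinity.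
We have om^2 = scalar t, sw om = diag(1,t), om sw = diag(t,1), and om normalises Iw.  Api.lean: emb_val, unif, unif_pow, dens, vv_cases, vv_lt_one.

PROOF.
Given u fixed by S_u <= S of finite index in S: the map s -> rho(s)u on S factors through the finite set S/S_u; let A(u) = (1/[S:S_u]) sum over S/S_u of rho(s)u (the average does
not depend on the choice of the subgroup; for finitely many vectors take a common one, and pass to the normal core in S: a finite index subgroup normal in S which fixes u and all
rho(h)u, h in S).  A(rho(h)u) = A(u) for h in S, so A kills the finitely many terms of x = sum (rho h_j u_j - u_j), while A(x) = x if x is S-fixed: (1).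
(2): z' = A(z) is in the span of the rho(h)z, is S-fixed, and z - z' = (1/m) sum (z - rho(s)z) is in co.
Hint: it may be convenient to take S0 = normal core (in S) of the intersection of the stabilisers, index m, and to define A(v) = (1/m) sum over the finite quotient S/S0 of rho(q.out) v as a linear map
on the submodule of S0-fixed vectors.
-/

set_option autoImplicit false
set_option linter.all false
noncomputable section

namespace Pool.Agent.H757L

open Polynomial IsDedekindDomain Matrix WithZero

/-- the average over a finite quotient -/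
def cof_A {G V : Type} [Group G] [AddCommGroup V] [Module ℂ V] (ρ : Representation ℂ G V) (N : Subgroup G)
    [Fintype (G ⧸ N)] (v : V) : V :=
  ((Fintype.card (G ⧸ N) : ℂ)⁻¹) • ∑ q : G ⧸ N, ρ q.out v

theorem cof_A_add {G V : Type} [Group G] [AddCommGroup V] [Module ℂ V] (ρ : Representation ℂ G V) (N : Subgroup G)
    [Fintype (G ⧸ N)] (v w : V) : cof_A ρ N (v + w) = cof_A ρ N v + cof_A ρ N w := by
  simp only [cof_A, map_add, Finset.sum_add_distrib, smul_add]

theorem cof_A_smul {G V : Type} [Group G] [AddCommGroup V] [Module ℂ V] (ρ : Representation ℂ G V) (N : Subgroup G)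
    [Fintype (G ⧸ N)] (c : ℂ) (v : V) : cof_A ρ N (c • v) = c • cof_A ρ N v := by
  simp only [cof_A, map_smul, ← Finset.smul_sum]
  rw [smul_comm]

theorem cof_A_sub {G V : Type} [Group G] [AddCommGroup V] [Module ℂ V] (ρ : Representation ℂ G V) (N : Subgroup G)
    [Fintype (G ⧸ N)] (v w : V) : cof_A ρ N (v - w) = cof_A ρ N v - cof_A ρ N w := by
  simp only [cof_A, map_sub, Finset.sum_sub_distrib, smul_sub]

/-- the value only depends on the class -/
theorem cof_out {G V : Type} [Group G] [AddCommGroup V] [Module ℂ V] (ρ : Representation ℂ G V) (N : Subgroup G)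
    (v : V) (hv : ∀ h ∈ N, ρ h v = v) (g : G) (q : G ⧸ N) (hq : (QuotientGroup.mk g : G ⧸ N) = q) :
    ρ q.out v = ρ g v := by
  have h1 : (QuotientGroup.mk g : G ⧸ N) = QuotientGroup.mk q.out := by
    rw [hq]; exact (QuotientGroup.out_eq' q).symm
  have h2 : g⁻¹ * q.out ∈ N := QuotientGroup.eq.mp h1
  have h3 : q.out = g * (g⁻¹ * q.out) := by group
  rw [h3, map_mul, Module.End.mul_apply, hv _ h2]

theorem cof_A_right {G V : Type} [Group G] [AddCommGroup V] [Module ℂ V] (ρ : Representation ℂ G V) (N : Subgroup G)
    [Fintype (G ⧸ N)] [N.Normal] (v : V) (hv : ∀ h ∈ N, ρ h v = v) (g : G) :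
    cof_A ρ N (ρ g v) = cof_A ρ N v := by
  unfold cof_A
  congr 1
  refine Fintype.sum_equiv (Equiv.mulRight (QuotientGroup.mk g : G ⧸ N)) _ _ ?_
  intro q
  have h := cof_out ρ N v hv (q.out * g) (q * QuotientGroup.mk g) (by
    rw [QuotientGroup.mk_mul, QuotientGroup.out_eq' q])
  rw [Equiv.coe_mulRight, h, map_mul, Module.End.mul_apply]

theorem cof_A_left {G V : Type} [Group G] [AddCommGroup V] [Module ℂ V] (ρ : Representation ℂ G V) (N : Subgroup G)
    [Fintype (G ⧸ N)] [N.Normal] (v : V) (hv : ∀ h ∈ N, ρ h v = v) (g : G) :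
    ρ g (cof_A ρ N v) = cof_A ρ N v := by
  unfold cof_A
  rw [map_smul, map_sum]
  congr 1
  refine Fintype.sum_equiv (Equiv.mulLeft (QuotientGroup.mk g : G ⧸ N)) _ _ ?_
  intro q
  have h := cof_out ρ N v hv (g * q.out) (QuotientGroup.mk g * q) (by
    rw [QuotientGroup.mk_mul, QuotientGroup.out_eq' q])
  rw [Equiv.coe_mulLeft, h, map_mul, Module.End.mul_apply]

theorem cof_card {G : Type} [Group G] (N : Subgroup G) [Fintype (G ⧸ N)] :
    ((Fintype.card (G ⧸ N) : ℕ) : ℂ) ≠ 0 := by
  have : 0 < Fintype.card (G ⧸ N) := Fintype.card_pos_iff.mpr ⟨QuotientGroup.mk 1⟩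
  exact_mod_cast this.ne'

theorem cof_A_fix {G V : Type} [Group G] [AddCommGroup V] [Module ℂ V] (ρ : Representation ℂ G V) (N : Subgroup G)
    [Fintype (G ⧸ N)] (v : V) (hv : ∀ h, ρ h v = v) : cof_A ρ N v = v := by
  unfold cof_A
  simp only [hv, Finset.sum_const, Finset.card_univ]
  rw [← Nat.cast_smul_eq_nsmul ℂ, smul_smul, inv_mul_cancel₀ (cof_card N), one_smul]

theorem cof_co {H V : Type} [Group H] [AddCommGroup V] [Module ℂ V] (ρ : Representation ℂ H V)
    (S : Subgroup H) (hLF : LF ρ S) (x : V) (hx : x ∈ co ρ S) :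
    ∃ T : Subgroup S, T.FiniteIndex ∧ ∀ (N : Subgroup S) [Fintype (S ⧸ N)] [N.Normal], N ≤ T →
      cof_A (ρ.comp S.subtype) N x = 0 := by
  unfold co at hx
  induction hx using Submodule.span_induction with
  | mem w hw =>
    obtain ⟨h, hh, u, rfl⟩ := hw
    obtain ⟨S', hS', hfi, hfix⟩ := hLF u
    refine ⟨S'.subgroupOf S, hfi, ?_⟩
    intro N _ _ hN
    have hv : ∀ g ∈ N, (ρ.comp S.subtype) g u = u := by
      intro g hg
      exact hfix _ (Subgroup.mem_subgroupOf.mp (hN hg))
    have h1 := cof_A_right (ρ.comp S.subtype) N u hv ⟨h, hh⟩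
    rw [cof_A_sub]
    exact sub_eq_zero.mpr h1
  | zero =>
    refine ⟨⊤, inferInstance, ?_⟩
    intro N _ _ _
    exact cof_A_fix _ N 0 (fun h => map_zero _)
  | add a b _ _ ha hb =>
    obtain ⟨T1, hT1, h1⟩ := ha
    obtain ⟨T2, hT2, h2⟩ := hb
    refine ⟨T1 ⊓ T2, inferInstance, ?_⟩
    intro N _ _ hN
    rw [cof_A_add, h1 N (hN.trans inf_le_left), h2 N (hN.trans inf_le_right), add_zero]
  | smul c a _ ha =>
    obtain ⟨T1, hT1, h1⟩ := ha
    refine ⟨T1, hT1, ?_⟩
    intro N _ _ hN
    rw [cof_A_smul, h1 N hN, smul_zero]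

theorem t_COF : Cof := by
  intro H V _ _ _ ρ S hLF
  classical
  constructor
  · intro x hx hco
    obtain ⟨T, hT, h⟩ := cof_co ρ S hLF x hco
    haveI : T.normalCore.FiniteIndex := inferInstance
    haveI : Fintype (S ⧸ T.normalCore) := Fintype.ofFinite _
    have h1 := h T.normalCore (Subgroup.normalCore_le T)
    rw [cof_A_fix (ρ.comp S.subtype) T.normalCore x (fun g => hx _ g.2)] at h1
    exact h1
  · intro z
    obtain ⟨S', hS', hfi, hfix⟩ := hLF z
    haveI : (S'.subgroupOf S).normalCore.FiniteIndex := inferInstance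
    haveI : Fintype (S ⧸ (S'.subgroupOf S).normalCore) := Fintype.ofFinite _
    have hv : ∀ g ∈ (S'.subgroupOf S).normalCore, (ρ.comp S.subtype) g z = z := by
      intro g hg
      exact hfix _ (Subgroup.mem_subgroupOf.mp (Subgroup.normalCore_le _ hg))
    refine ⟨cof_A (ρ.comp S.subtype) (S'.subgroupOf S).normalCore z, ?_, ?_, ?_⟩
    · refine Submodule.smul_mem _ _ (Submodule.sum_mem _ ?_)
      intro q _
      exact Submodule.subset_span ⟨_, q.out.2, rfl⟩
    · intro h hh
      exact cof_A_left (ρ.comp S.subtype) _ z hv ⟨h, hh⟩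
    · have h1 : z - cof_A (ρ.comp S.subtype) (S'.subgroupOf S).normalCore z =
          ((Fintype.card (S ⧸ (S'.subgroupOf S).normalCore) : ℂ)⁻¹) •
            ∑ q : S ⧸ (S'.subgroupOf S).normalCore, (z - (ρ.comp S.subtype) q.out z) := by
        rw [Finset.sum_sub_distrib, smul_sub]
        unfold cof_A
        congr 1
        rw [Finset.sum_const, Finset.card_univ, ← Nat.cast_smul_eq_nsmul ℂ, smul_smul,
          inv_mul_cancel₀ (cof_card _), one_smul]
      rw [h1]
      refine Submodule.smul_mem _ _ (Submodule.sum_mem _ ?_)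
      intro q _
      rw [← neg_sub]
      exact Submodule.neg_mem _ (Submodule.subset_span ⟨_, q.out.2, z, rfl⟩)

end Pool.Agent.H757L
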