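import Pool.Agent.H757L.Defs2

set_option autoImplicit false
set_option linter.all false
noncomputable section

namespace Pool.Agent.H757L

open Polynomial IsDedekindDomain Matrix WithZero

theorem cos_resK (k : K) (hk : val none k ≤ 1) : val none k < 1 ∨ val none (k - 1) < 1 := by
  classical
  have hpoly : ∀ p : R, p ≠ 0 → val none (algebraMap R K p) = exp (p.natDegree : ℤ) := by
    intro p hp
    show RatFunc.inftyValuation (ZMod 2) (algebraMap R K p) = _
    convert RatFunc.inftyValuation.polynomial (ZMod 2) hp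
    rfl
  by_cases hk0 : k = 0
  · left; rw [hk0, map_zero]; exact zero_lt_one
  set p := k.num with hp
  set q := k.denom with hq
  have hp0 : p ≠ 0 := RatFunc.num_ne_zero hk0
  have hq0 : q ≠ 0 := RatFunc.denom_ne_zero k
  have hkpq : k * algebraMap R K q = algebraMap R K p := by
    have h1 := RatFunc.num_div_denom k
    have h2 : algebraMap R K q ≠ 0 := by
      rw [Ne, map_eq_zero_iff _ (IsFractionRing.injective R K)]; exact hq0
    exact ((div_eq_iff h2).1 h1).symm
  have hvq : val none (algebraMap R K q) = exp (q.natDegree : ℤ) := hpoly q hq0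
  have hvp : val none (algebraMap R K p) = exp (p.natDegree : ℤ) := hpoly p hp0
  have hle : p.natDegree ≤ q.natDegree := by
    have h1 : val none (algebraMap R K p) ≤ val none (algebraMap R K q) := by
      rw [← hkpq, map_mul]
      calc _ ≤ 1 * val none (algebraMap R K q) := mul_le_mul' hk le_rfl
        _ = _ := one_mul _
    rw [hvq, hvp, exp_le_exp] at h1
    exact_mod_cast h1
  have hlt : ∀ z : K, val none (z * algebraMap R K q) < exp (q.natDegree : ℤ) → val none z < 1 := by
    intro z hz
    by_contra hcon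
    push Not at hcon
    have : exp (q.natDegree : ℤ) ≤ val none (z * algebraMap R K q) := by
      rw [map_mul, hvq]
      calc exp (q.natDegree : ℤ) = 1 * exp (q.natDegree : ℤ) := (one_mul _).symm
        _ ≤ _ := mul_le_mul' hcon le_rfl
    exact absurd hz (not_lt.2 this)
  rcases Nat.lt_or_ge p.natDegree q.natDegree with h | h
  · left
    apply hlt
    rw [hkpq, hvp, exp_lt_exp]
    exact_mod_cast h
  · right
    have hdeg : p.natDegree = q.natDegree := le_antisymm hle h
    apply hlt
    have e : (k - 1) * algebraMap R K q = algebraMap R K (p - q) := by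
      rw [sub_mul, one_mul, hkpq, map_sub]
    rw [e]
    by_cases hpq : p - q = 0
    · rw [hpq, map_zero, map_zero]; exact exp_pos
    · rw [hpoly _ hpq, exp_lt_exp]
      have hz2 : ∀ a : ZMod 2, a ≠ 0 → a = 1 := by decide
      have hlc : p.leadingCoeff = q.leadingCoeff := by
        rw [hz2 _ (leadingCoeff_ne_zero.2 hp0), hz2 _ (leadingCoeff_ne_zero.2 hq0)]
      have hd : p.degree = q.degree := by
        rw [degree_eq_natDegree hp0, degree_eq_natDegree hq0, hdeg]
      have h1 := degree_sub_lt hd hp0 hlc
      rw [hd] at h1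
      have h2 := natDegree_lt_natDegree hpq h1
      exact_mod_cast h2

theorem cos_res (x : Kv none) (hx : vv none x ≤ 1) :
    ∃ e : Kv none, (e = 0 ∨ e = 1) ∧ vv none (x - e) ≤ exp (-1 : ℤ) := by
  obtain ⟨k, hk⟩ := dens none x (-1)
  have hlt1 : exp (-1 : ℤ) ≤ (1 : WithZero (Multiplicative ℤ)) := by
    rw [← exp_zero]; exact exp_le_exp.2 (by norm_num)
  have hk1 : val none k ≤ 1 := by
    rw [← emb_val]
    have e : emb none k = x - (x - emb none k) := by ring
    rw [e]
    exact (Valuation.map_sub _ _ _).trans (max_le hx (hk.trans hlt1))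
  rcases cos_resK k hk1 with h | h
  · refine ⟨0, Or.inl rfl, ?_⟩
    rw [sub_zero]
    have e : x = (x - emb none k) + emb none k := by ring
    rw [e]
    refine Valuation.map_add_le _ hk ?_
    rw [← vv_lt_one, emb_val]
    exact h
  · refine ⟨1, Or.inr rfl, ?_⟩
    have e : x - 1 = (x - emb none k) + emb none (k - 1) := by rw [map_sub, map_one]; ring
    rw [e]
    refine Valuation.map_add_le _ hk ?_
    rw [← vv_lt_one, emb_val]
    exact h

theorem cos_mem (g : G none) (h1 : ∀ i j, vv none ((g : Matrix (Fin 2) (Fin 2) (Kv none)) i j) ≤ 1)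
    (h2 : ∀ i j, vv none (((g⁻¹ : G none) : Matrix (Fin 2) (Fin 2) (Kv none)) i j) ≤ 1) : g ∈ cong none 0 := by
  have hs : ∀ a : Kv none, vv none a ≤ 1 → ∀ i j, vv none (a - (1 : Matrix (Fin 2) (Fin 2) (Kv none)) i j) ≤ exp (-((0 : ℕ) : ℤ)) := by
    intro a ha i j
    rw [Nat.cast_zero, neg_zero, exp_zero]
    exact (Valuation.map_sub _ _ _).trans (max_le ha (vone none i j))
  exact ⟨fun i j => hs _ (h1 i j) i j, fun i j => hs _ (h2 i j) i j⟩

theorem cos_sw_sq : sw none * sw none = 1 := by
  ext i j
  fin_cases i <;> fin_cases j <;> simp [sw, Matrix.GeneralLinearGroup.mkOfDetNeZero, Matrix.mul_apply, Fin.sum_univ_two]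

theorem cos_nn_neg (e : Kv none) : nn none e * nn none (-e) = 1 := by
  ext i j
  fin_cases i <;> fin_cases j <;> simp [nn, tri, Matrix.mul_apply, Fin.sum_univ_two]

theorem cos_sw_mem : sw none ∈ cong none 0 := by
  have hinv : (sw none)⁻¹ = sw none := inv_eq_of_mul_eq_one_left cos_sw_sq
  have h : ∀ i j, vv none ((sw none : Matrix (Fin 2) (Fin 2) (Kv none)) i j) ≤ 1 := by
    intro i j
    fin_cases i <;> fin_cases j <;> simp [sw, Matrix.GeneralLinearGroup.mkOfDetNeZero]
  refine cos_mem _ h ?_
  rw [hinv]; exact h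

theorem t_COS : CosK := by
  intro k hk
  set M := (k : Matrix (Fin 2) (Fin 2) (Kv none)) with hM
  by_cases h : vv none (M 1 0) ≤ exp (-1 : ℤ)
  · exact Or.inl ⟨hk, h⟩
  · right
    have hc1 : vv none (M 1 0) = 1 := by
      refine le_antisymm (int_entry none k hk 1 0) ?_
      by_contra hlt
      push Not at hlt
      exact h ((vv_lt_one _ _).1 hlt)
    have hc0 : M 1 0 ≠ 0 := by
      intro h0
      rw [h0, map_zero] at hc1
      exact zero_ne_one hc1
    have hx : vv none (M 0 0 / M 1 0) ≤ 1 := by
      rw [map_div₀, hc1, div_one]; exact int_entry none k hk 0 0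
    obtain ⟨e, he, hee⟩ := cos_res _ hx
    have hev : vv none (-e) ≤ 1 := by
      rw [Valuation.map_neg]
      rcases he with rfl | rfl <;> simp
    refine ⟨e, he, sw none * nn none (-e) * k, ⟨?_, ?_⟩, ?_⟩
    · exact mul_mem (mul_mem cos_sw_mem (tri_int none (-e) hev)) hk
    · have e1 : ((sw none * nn none (-e) * k : G none) : Matrix (Fin 2) (Fin 2) (Kv none)) 1 0
          = M 1 0 * (M 0 0 / M 1 0 - e) := by
        have e2 : ((sw none * nn none (-e) * k : G none) : Matrix (Fin 2) (Fin 2) (Kv none)) 1 0
            = M 0 0 - e * M 1 0 := by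
          simp [sw, nn, tri, Matrix.GeneralLinearGroup.mkOfDetNeZero, Matrix.mul_apply, Fin.sum_univ_two, hM]
          ring
        rw [e2]
        field_simp
      rw [e1, Valuation.map_mul, hc1, one_mul]
      exact hee
    · calc k = (nn none e * (sw none * sw none) * nn none (-e)) * k := by
            rw [cos_sw_sq, mul_one, cos_nn_neg, one_mul]
        _ = nn none e * sw none * (sw none * nn none (-e) * k) := by group

end Pool.Agent.H757L

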