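import Pool.Agent.H757L.Defs2

set_option autoImplicit false
set_option linter.all false
noncomputable section

namespace Pool.Agent.H757L

open Polynomial IsDedekindDomain Matrix WithZero

theorem cs1_comm {F : Type} [Field F] (a d : Fˣ) (b x y : F) :
    tri 1 1 (x + ((a : F) / (d : F)) * y) * tri a d b = tri 1 1 x * (tri a d b * tri 1 1 y) := by
  have hd : (d : F) ≠ 0 := d.ne_zero
  ext i j
  fin_cases i <;> fin_cases j <;>
    simp [tri, Matrix.mul_apply, Fin.sum_univ_two]
  field_simp
  ring

theorem cs1_key (g : AG) (x : AA) (a d : (Kv (some v0))ˣ) (b : Kv (some v0)) (k : G (some v0))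
    (h : g.1 (some v0) = tri a d b * k) (y : Kv (some v0)) :
    unip (x + iot (((a : Kv (some v0)) / (d : Kv (some v0))) * y)) * g =
      unip x * g * incl (some v0) (k⁻¹ * nn (some v0) y * k) := by
  classical
  apply Subtype.ext
  funext P
  by_cases hP : P = some v0
  · subst hP
    have e1 : (unip (x + iot (((a : Kv (some v0)) / (d : Kv (some v0))) * y)) * g).1 (some v0) =
        tri 1 1 (x.1 (some v0) + ((a : Kv (some v0)) / (d : Kv (some v0))) * y) * (tri a d b * k) := by
      rw [← h]
      show tri 1 1 ((x + iot (((a : Kv (some v0)) / (d : Kv (some v0))) * y)).1 (some v0)) *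
        g.1 (some v0) = _
      congr 2
      show x.1 (some v0) + (Pi.single (some v0) (((a : Kv (some v0)) / (d : Kv (some v0))) * y) :
        ∀ P, Kv P) (some v0) = _
      rw [Pi.single_eq_same]
    have e2 : (unip x * g * incl (some v0) (k⁻¹ * nn (some v0) y * k)).1 (some v0) =
        tri 1 1 (x.1 (some v0)) * (tri a d b * k) * (k⁻¹ * tri 1 1 y * k) := by
      rw [← h]
      show tri 1 1 (x.1 (some v0)) * g.1 (some v0) *
        (Pi.mulSingle (some v0) (k⁻¹ * nn (some v0) y * k) : ∀ P, G P) (some v0) = _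
      rw [Pi.mulSingle_eq_same]
      rfl
    rw [e1, e2, ← mul_assoc, cs1_comm]
    group
  · have e1 : (unip (x + iot (((a : Kv (some v0)) / (d : Kv (some v0))) * y)) * g).1 P =
        tri 1 1 (x.1 P) * g.1 P := by
      show tri 1 1 ((x + iot (((a : Kv (some v0)) / (d : Kv (some v0))) * y)).1 P) * g.1 P = _
      congr 2
      show x.1 P + (Pi.single (some v0) (((a : Kv (some v0)) / (d : Kv (some v0))) * y) :
        ∀ P, Kv P) P = _
      rw [Pi.single_eq_of_ne hP, add_zero]
    have e2 : (unip x * g * incl (some v0) (k⁻¹ * nn (some v0) y * k)).1 P =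
        tri 1 1 (x.1 P) * g.1 P := by
      show tri 1 1 (x.1 P) * g.1 P *
        (Pi.mulSingle (some v0) (k⁻¹ * nn (some v0) y * k) : ∀ P, G P) P = _
      rw [Pi.mulSingle_eq_of_ne hP, mul_one]
    rw [e1, e2]

theorem t_CS1 : Iwas → Cs1 := by
  intro hI φ0 hC g
  obtain ⟨a, d, b, k, hk, hg⟩ := hI (some v0) (g.1 (some v0))
  refine ⟨(a : Kv (some v0)) / (d : Kv (some v0)), div_ne_zero a.ne_zero d.ne_zero, fun x => ?_⟩
  have h1 := hC (unip x * g) k hk
  have h2 : (fun y => φ0 (unip (x + iot (((a : Kv (some v0)) / (d : Kv (some v0))) * y)) * g)) =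
      fun y => φ0 (unip x * g * incl (some v0) (k⁻¹ * nn (some v0) y * k)) := by
    funext y
    rw [cs1_key g x a d b k hg y]
  rw [h2]
  exact h1

end Pool.Agent.H757L
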