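import Pool.Agent.H757L.Defs2

set_option autoImplicit false
set_option linter.all false
noncomputable section

namespace Pool.Agent.H757L

open Polynomial IsDedekindDomain Matrix WithZero

theorem cs2_out {A : Type} [AddCommGroup A] (B : AddSubgroup A) (G : A → ℂ)
    (hG : ∀ x, ∀ b ∈ B, G (x + b) = G x) (x : A) :
    G (Quotient.out (QuotientAddGroup.mk x : A ⧸ B)) = G x := by
  have h : (QuotientAddGroup.mk (Quotient.out (QuotientAddGroup.mk x : A ⧸ B)) : A ⧸ B)
      = QuotientAddGroup.mk x := Quotient.out_eq _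
  have h2 := (QuotientAddGroup.eq).1 h
  have h3 := hG (Quotient.out (QuotientAddGroup.mk x : A ⧸ B)) _ h2
  rw [← h3]
  congr 1
  abel

theorem cs2_step {A : Type} [AddCommGroup A] (B D : AddSubgroup A) [Finite D] (G : A → ℂ)
    (hG : ∀ x, ∀ b ∈ B, G (x + b) = G x)
    (h0 : ∑ᶠ q : A ⧸ B, ∑ᶠ d : D, G (Quotient.out q + (d : A)) = 0) :
    ∑ᶠ q : A ⧸ B, G (Quotient.out q) = 0 := by
  classical
  haveI := Fintype.ofFinite D
  by_cases hf : (Function.support (fun q : A ⧸ B => G (Quotient.out q))).Finite
  swap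
  · exact finsum_of_infinite_support hf
  have e1 : ∀ (q : A ⧸ B) (d : D), G (Quotient.out q + (d : A))
      = G (Quotient.out (q + (QuotientAddGroup.mk (d : A) : A ⧸ B))) := by
    intro q d
    rw [← cs2_out B G hG (Quotient.out q + (d : A))]
    congr 2
    rw [QuotientAddGroup.mk_add]
    congr 1
    exact Quotient.out_eq q
  have e2 : ∑ᶠ q : A ⧸ B, ∑ᶠ d : D, G (Quotient.out q + (d : A))
      = ∑ᶠ q : A ⧸ B, ∑ d : D, G (Quotient.out (q + (QuotientAddGroup.mk (d : A) : A ⧸ B))) := by
    apply finsum_congr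
    intro q
    rw [finsum_eq_sum_of_fintype]
    exact Finset.sum_congr rfl fun d _ => e1 q d
  have e3 : ∑ᶠ q : A ⧸ B, ∑ d : D, G (Quotient.out (q + (QuotientAddGroup.mk (d : A) : A ⧸ B)))
      = ∑ d : D, ∑ᶠ q : A ⧸ B, G (Quotient.out (q + (QuotientAddGroup.mk (d : A) : A ⧸ B))) := by
    apply finsum_sum_comm
    intro d _
    have : (Function.support fun q : A ⧸ B => G (Quotient.out (q + (QuotientAddGroup.mk (d : A) : A ⧸ B))))
        = (fun q : A ⧸ B => q + (QuotientAddGroup.mk (d : A) : A ⧸ B)) ⁻¹'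
          (Function.support (fun q : A ⧸ B => G (Quotient.out q))) := by
      ext q; simp
    show (Function.support fun q : A ⧸ B => G (Quotient.out (q + (QuotientAddGroup.mk (d : A) : A ⧸ B)))).Finite
    rw [this]
    exact hf.preimage (fun a _ b _ h => add_right_cancel h)
  have e4 : ∀ d : D, ∑ᶠ q : A ⧸ B, G (Quotient.out (q + (QuotientAddGroup.mk (d : A) : A ⧸ B)))
      = ∑ᶠ q : A ⧸ B, G (Quotient.out q) := by
    intro d
    exact finsum_comp_equiv (Equiv.addRight (QuotientAddGroup.mk (d : A) : A ⧸ B))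
      (f := fun q : A ⧸ B => G (Quotient.out q))
  rw [e2, e3, Finset.sum_congr rfl (fun d _ => e4 d), Finset.sum_const, nsmul_eq_mul] at h0
  rcases mul_eq_zero.1 h0 with h | h
  · exfalso
    have h5 : (Finset.univ : Finset D).card ≠ 0 := by
      rw [Finset.card_univ]
      exact Fintype.card_ne_zero
    exact h5 (by exact_mod_cast h)
  · exact h

theorem t_CS2 : Cs2 := by
  intro A _ B J s
  classical
  induction s using Finset.induction_on with
  | empty =>
    intro F D _ _ _
    simp
  | insert a s ha ih =>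
    intro F D hD hz hB
    haveI : Finite (D a) := hD a (Finset.mem_insert_self a s)
    haveI := Fintype.ofFinite (D a)
    apply cs2_step B (D a) (fun x => ∑ j ∈ insert a s, F j x) hB
    have key := ih (fun j x => ∑ᶠ d : D a, F j (x + (d : A))) D
      (fun j hj => hD j (Finset.mem_insert_of_mem hj)) ?_ ?_
    · have e : ∀ q : A ⧸ B, ∑ᶠ d : D a, ∑ j ∈ insert a s, F j (Quotient.out q + (d : A))
          = ∑ j ∈ s, ∑ᶠ d : D a, F j (Quotient.out q + (d : A)) := by
        intro q
        rw [finsum_sum_comm _ _ (fun j _ => Set.toFinite _), Finset.sum_insert ha,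
          hz a (Finset.mem_insert_self a s), zero_add]
      rw [finsum_congr e]
      exact key
    · intro j hj x
      haveI : Finite (D j) := hD j (Finset.mem_insert_of_mem hj)
      haveI := Fintype.ofFinite (D j)
      have h1 : ∀ y, ∑ d : D j, F j (y + (d : A)) = 0 := by
        intro y
        rw [← finsum_eq_sum_of_fintype]
        exact hz j (Finset.mem_insert_of_mem hj) y
      rw [finsum_eq_sum_of_fintype]
      simp only [finsum_eq_sum_of_fintype]
      rw [Finset.sum_comm]
      apply Finset.sum_eq_zero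
      intro d _
      rw [← h1 (x + (d : A))]
      refine Finset.sum_congr rfl fun e _ => ?_
      congr 1
      abel
    · intro x b hb
      have h2 : ∀ y, ∑ j ∈ s, ∑ᶠ d : D a, F j (y + (d : A))
          = ∑ᶠ d : D a, ∑ j ∈ insert a s, F j (y + (d : A)) := by
        intro y
        rw [finsum_sum_comm _ _ (fun j _ => Set.toFinite _), Finset.sum_insert ha,
          hz a (Finset.mem_insert_self a s), zero_add]
      show ∑ j ∈ s, ∑ᶠ d : D a, F j (x + b + (d : A)) = ∑ j ∈ s, ∑ᶠ d : D a, F j (x + (d : A))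
      rw [h2, h2]
      refine finsum_congr fun d => ?_
      have := hB (x + (d : A)) b hb
      rw [← this]
      refine Finset.sum_congr rfl fun j _ => ?_
      congr 1
      abel

end Pool.Agent.H757L
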