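import Pool.Agent.H757L.Defs2
/-
Project LL (helper757, MP_5ae62c_nt): vanishing of the constant terms.
-/

set_option autoImplicit false
set_option linter.all false
noncomputable section

namespace Pool.Agent.H757L

open Polynomial IsDedekindDomain Matrix WithZero

theorem cst_char2 : (1 : Kv (some v0)) + 1 = 0 := by
  have h : (1 : K) + 1 = 0 := by
    have h2 : (1 : ZMod 2) + 1 = 0 := by decide
    have h3 := congrArg (algebraMap (ZMod 2) K) h2
    rwa [map_add, map_one, map_zero] at h3
  have := congrArg (emb (some v0)) h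
  rwa [map_add, map_one, map_zero] at this

theorem cst_self (x : Kv (some v0)) : x + x = 0 := by
  have : x + x = (1 + 1) * x := by ring
  rw [this, cst_char2, zero_mul]

theorem cst_t_ne_one : tP (some v0) ≠ 1 := by
  unfold tP
  intro h
  rw [← map_one (emb (some v0))] at h
  have h2 := (emb (some v0)).injective h
  have h3 := congrArg RatFunc.intDegree h2
  rw [RatFunc.intDegree_X, RatFunc.intDegree_one] at h3
  exact one_ne_zero h3

theorem cst_one_add_t : 1 + tP (some v0) ≠ 0 := by
  intro h
  apply cst_t_ne_one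
  have : tP (some v0) = (1 + tP (some v0)) - 1 := by ring
  rw [h, zero_sub] at this
  rw [this, neg_eq_iff_add_eq_zero]
  exact cst_char2

/-- the representatives of the residue field, a subgroup -/
def cst_V : AddSubgroup (Kv (some v0)) where
  carrier := {y | y = 0 ∨ y = 1 ∨ y = tP (some v0) ∨ y = 1 + tP (some v0)}
  zero_mem' := Or.inl rfl
  add_mem' := by
    have h1 := cst_char2
    have h2 := cst_self (tP (some v0))
    rintro a b (rfl | rfl | rfl | rfl) (rfl | rfl | rfl | rfl)
    · left; rw [add_zero]
    · right; left; rw [zero_add]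
    · right; right; left; rw [zero_add]
    · right; right; right; rw [zero_add]
    · right; left; rw [add_zero]
    · left; exact h1
    · right; right; right; rfl
    · right; right; left; rw [← add_assoc, h1, zero_add]
    · right; right; left; rw [add_zero]
    · right; right; right; rw [add_comm]
    · left; exact h2
    · right; left; rw [add_comm, add_assoc, h2, add_zero]
    · right; right; right; rw [add_zero]
    · right; right; left; rw [add_comm, ← add_assoc, h1, zero_add]
    · right; left; rw [add_assoc, h2, add_zero]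
    · left; exact cst_self _
  neg_mem' := by
    intro a ha
    have : -a = a := by
      rw [neg_eq_iff_add_eq_zero]
      exact cst_self a
    show -a = 0 ∨ _
    rw [this]
    exact ha

open scoped Classical in
theorem cst_V_coe : ((cst_V : AddSubgroup (Kv (some v0))) : Set (Kv (some v0))) =
    (({0, 1, tP (some v0), 1 + tP (some v0)} : Finset (Kv (some v0))) : Set (Kv (some v0))) := by
  ext y
  simp [cst_V]

open scoped Classical in
theorem cst_sum (f : Kv (some v0) → ℂ) : ∑ᶠ y ∈ (cst_V : Set (Kv (some v0))), f y = S4 f := by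
  rw [cst_V_coe, finsum_mem_coe_finset, Finset.sum_insert, Finset.sum_insert, Finset.sum_insert, Finset.sum_singleton]
  · unfold S4
    ring
  · rw [Finset.mem_singleton]
    intro h
    exact one_ne_zero (left_eq_add.mp (h.trans (add_comm _ _)))
  · rw [Finset.mem_insert, Finset.mem_singleton, not_or]
    refine ⟨fun h => cst_t_ne_one h.symm, fun h => tP_ne _ (left_eq_add.mp h)⟩
  · rw [Finset.mem_insert, Finset.mem_insert, Finset.mem_singleton, not_or, not_or]
    exact ⟨zero_ne_one, (tP_ne _).symm, cst_one_add_t.symm⟩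

/-- the map `y -> iot (c y)` -/
def cst_m (c : Kv (some v0)) : Kv (some v0) →+ AA := iot.comp (AddMonoidHom.mulLeft c)

open scoped Classical in
theorem cst_m_inj (c : Kv (some v0)) (hc : c ≠ 0) : Function.Injective (cst_m c) := by
  intro x y h
  have h1 := congrArg (fun z : AA => z.1 (some v0)) h
  have h2 : ∀ w, (cst_m c w).1 (some v0) = c * w := by
    intro w
    show (Pi.single (some v0) (c * w) : ∀ P, Kv P) (some v0) = c * w
    rw [Pi.single_eq_same]
  simp only [h2] at h1
  exact mul_left_cancel₀ hc h1

theorem cst_D (c : Kv (some v0)) (hc : c ≠ 0) (f : AA → ℂ) :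
    ∑ᶠ d : (cst_V.map (cst_m c)), f (d : AA) = S4 (fun y => f (iot (c * y))) := by
  have h1 : ∑ᶠ d : (cst_V.map (cst_m c)), f (d : AA) = ∑ᶠ d ∈ ((cst_V.map (cst_m c) : AddSubgroup AA) : Set AA), f d :=
    finsum_subtype_eq_finsum_cond _
  rw [h1, AddSubgroup.coe_map, finsum_mem_image (cst_m_inj c hc).injOn, cst_sum]
  rfl

theorem cst_tri (P : Pl) (k : K) (x : Kv P) :
    (tri 1 1 (x + emb P k) : G P) = Matrix.GeneralLinearGroup.map (emb P) (tri 1 1 k) * tri 1 1 x := by
  ext i j
  fin_cases i <;> fin_cases j <;> simp [tri, Matrix.mul_apply, Fin.sum_univ_two]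

theorem t_CST : Cs1 → Cs2 → Cst := by
  intro h1 h2 φ0 hL hC φ hφ g e hbox
  obtain ⟨n, c, ψ, hsum⟩ := (Submodule.mem_span_set').1 hφ
  choose gg hgg using fun i => (ψ i).2
  choose cc hcc using fun i => h1 φ0 hC (g * gg i)
  have hval : ∀ x : AG, φ x = ∑ i, c i * φ0 (x * gg i) := by
    intro x
    rw [← hsum, Finset.sum_apply]
    refine Finset.sum_congr rfl fun i _ => ?_
    rw [Pi.smul_apply, smul_eq_mul, hgg i]
    rfl
  have hLI : LeftInv φ := by
    intro γ a b hab
    rw [hval, hval]
    refine Finset.sum_congr rfl fun i _ => ?_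
    rw [hL γ (a * gg i) (b * gg i)]
    intro P
    show b.1 P * (gg i).1 P = _ * (a.1 P * (gg i).1 P)
    rw [hab P, mul_assoc]
  have key := h2 AA (KK ⊔ box e) (Fin n) Finset.univ (fun i x => c i * φ0 (unip x * g * gg i))
    (fun i => cst_V.map (cst_m (cc i))) ?_ ?_ ?_
  · rw [← key]
    refine finsum_congr fun q => ?_
    rw [hval]
  · intro i _
    have : Finite (cst_V : AddSubgroup (Kv (some v0))) := by
      classical
      have := cst_V_coe
      have h3 : (cst_V : Set (Kv (some v0))).Finite := by
        rw [this]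
        exact Finset.finite_toSet _
      exact h3
    have h4 : (((cst_V.map (cst_m (cc i)) : AddSubgroup AA)) : Set AA).Finite := by
      rw [AddSubgroup.coe_map]
      exact Set.Finite.image _ (Set.toFinite (cst_V : Set (Kv (some v0))))
    exact h4
  · intro i _ x
    rw [cst_D (cc i) (hcc i).1 (fun d => c i * φ0 (unip (x + d) * g * gg i))]
    have h5 := (hcc i).2 x
    unfold S4 at h5 ⊢
    simp only [← mul_assoc] at h5
    rw [← mul_add, ← mul_add, ← mul_add]
    simp only [mul_assoc] at h5 ⊢
    rw [h5, mul_zero]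
  · intro x b hb
    obtain ⟨k, hk, b', hb', rfl⟩ := AddSubgroup.mem_sup.1 hb
    show ∑ i, c i * φ0 (unip (x + (k + b')) * g * gg i) = ∑ i, c i * φ0 (unip x * g * gg i)
    rw [← hval, ← hval, ← add_assoc, hbox (x + k) b' hb']
    obtain ⟨k0, hk0⟩ := hk
    refine hLI (tri 1 1 k0) _ _ ?_
    intro P
    show tri 1 1 (x.1 P + k.1 P) * g.1 P = _ * (tri 1 1 (x.1 P) * g.1 P)
    rw [hk0 P, cst_tri, mul_assoc]

end Pool.Agent.H757L
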