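import Pool.Agent.H757L.Stm

set_option autoImplicit false
set_option linter.all false
noncomputable section

namespace Pool.Agent.H757L

open Polynomial IsDedekindDomain Matrix WithZero

/-! ### abstract part -/

/-- span of the vectors ρ h u - u, h in S -/
def co {H V : Type} [Group H] [AddCommGroup V] [Module ℂ V] (ρ : Representation ℂ H V) (S : Subgroup H) :
    Submodule ℂ V := Submodule.span ℂ {w | ∃ h ∈ S, ∃ u, w = ρ h u - u}

/-- each vector is fixed by a subgroup of finite index of S -/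
def LF {H V : Type} [Group H] [AddCommGroup V] [Module ℂ V] (ρ : Representation ℂ H V) (S : Subgroup H) : Prop :=
  ∀ v, ∃ S' : Subgroup H, S' ≤ S ∧ (S'.subgroupOf S).FiniteIndex ∧ ∀ h ∈ S', ρ h v = v

/-- COF: averaging -/
def Cof : Prop := ∀ (H V : Type) [Group H] [AddCommGroup V] [Module ℂ V] (ρ : Representation ℂ H V)
  (S : Subgroup H), LF ρ S →
  (∀ x, (∀ h ∈ S, ρ h x = x) → x ∈ co ρ S → x = 0) ∧
  ∀ z, ∃ z' ∈ Submodule.span ℂ {w | ∃ h ∈ S, w = ρ h z}, (∀ h ∈ S, ρ h z' = z') ∧ z - z' ∈ co ρ S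

/-- QUO: irreducible quotients -/
def Quo : Prop := ∀ (H V : Type) [Group H] [AddCommGroup V] [Module ℂ V] (ρ : Representation ℂ H V)
  (N : Submodule ℂ V) (x : V), (∀ h, ∀ n ∈ N, ρ h n ∈ N) → x ∉ N →
  (∀ W : Submodule ℂ V, (∀ h, ∀ w ∈ W, ρ h w ∈ W) → N ≤ W → x ∈ W → W = ⊤) →
  ∃ (π : Rp H) (f : V →ₗ[ℂ] π.V), Function.Surjective f ∧ (∀ h v, f (ρ h v) = π.ρ h (f v)) ∧
    (∀ n ∈ N, f n = 0) ∧ f x ≠ 0 ∧ Irred π

/-- TRV -/
def Trv : Prop := ∀ (L H : Type) [Group L] [Group H] (i : L →* H) (G2 S : Subgroup H) (π : Rp H) (x : π.V),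
  Irred π → (∀ a, ∀ b ∈ G2, i a * b = b * i a) → (∀ h, ∃ a, ∃ b ∈ G2, h = i a * b) → S ≤ G2 →
  LF π.ρ S → x ≠ 0 → (∀ h ∈ S, π.ρ h x = x) → (∀ b ∈ G2, π.ρ b x - x ∈ co π.ρ S) →
  ∀ b ∈ G2, ∀ v, π.ρ b v = v

/-- the data for TYP and ISO -/
structure Dat {L H : Type} [Group L] [Group H] (i : L →* H) (G2 : Subgroup H) (S : Subgroup L) (χ : L → ℂ)
    (π : Rp H) (x : π.V) : Prop where
  irr : Irred π
  comm : ∀ a, ∀ b ∈ G2, i a * b = b * i a
  gen : ∀ h, ∃ a, ∃ b ∈ G2, h = i a * b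
  lf : LF π.ρ (S.map i)
  ne : x ≠ 0
  fix : ∀ s ∈ S, π.ρ (i s) x = x
  eig : ∀ g, π.ρ (i g) x - χ g • x ∈ co π.ρ (S.map i)

/-- the L-span of x -/
def spn {L H : Type} [Group L] [Group H] (i : L →* H) (π : Rp H) (x : π.V) : Submodule ℂ π.V :=
  Submodule.span ℂ (Set.range fun g => π.ρ (i g) x)

theorem spn_stable {L H : Type} [Group L] [Group H] (i : L →* H) (π : Rp H) (x : π.V) (g : L) (v : π.V)
    (hv : v ∈ spn i π x) : π.ρ (i g) v ∈ spn i π x := by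
  refine Submodule.span_induction (p := fun v _ => π.ρ (i g) v ∈ spn i π x) ?_ ?_ ?_ ?_ hv
  · rintro _ ⟨a, rfl⟩
    refine Submodule.subset_span ⟨g * a, ?_⟩
    simp [map_mul]
  · simp
  · intro a b _ _ ha hb; rw [map_add]; exact add_mem ha hb
  · intro c a _ ha; rw [map_smul]; exact Submodule.smul_mem _ c ha

/-- the representation of L generated by x -/
def subr {L H : Type} [Group L] [Group H] (i : L →* H) (π : Rp H) (x : π.V) : Rp L where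
  V := ↥(spn i π x)
  ρ := { toFun := fun g => (π.ρ (i g)).restrict (fun v hv => spn_stable i π x g v hv)
         map_one' := by ext v; simp
         map_mul' := by intro a b; ext v; simp [LinearMap.restrict_apply] }

/-- the restriction of π to L is a sum of copies of σ -/
def Isot {L H : Type} [Group L] [Group H] (i : L →* H) (π : Rp H) (σ : Rp L) : Prop :=
  ∀ v : π.V, v ∈ Submodule.span ℂ {w | ∃ (T : σ.V →ₗ[ℂ] π.V) (s : σ.V),
    (∀ h s, T (σ.ρ h s) = π.ρ (i h) (T s)) ∧ T s = w}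

/-- TYP -/
def Typ : Prop := ∀ (L H : Type) [Group L] [Group H] (i : L →* H) (G2 : Subgroup H) (S : Subgroup L)
  (χ : L → ℂ) (π : Rp H) (x : π.V), Dat i G2 S χ π x →
  Irred (subr i π x) ∧ Isot i π (subr i π x) ∧
  ∀ y ∈ spn i π x, (∀ s ∈ S, π.ρ (i s) y = y) → ∃ c : ℂ, y = c • x

/-- ISO -/
def Isoo : Prop := ∀ (L H : Type) [Group L] [Group H] (i : L →* H) (G2 : Subgroup H) (S : Subgroup L)
  (χ : L → ℂ) (π : Rp H) (x : π.V) (π' : Rp H) (x' : π'.V), Dat i G2 S χ π x → Dat i G2 S χ π' x' →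
  Iso (subr i π x) (subr i π' x')

/-- UNQ -/
def Unq : Prop := ∀ (L H : Type) [Group L] [Group H] (i : L →* H) (π : Rp H) (σ σ' : Rp L),
  Nontrivial π.V → Irred σ → Irred σ' → Isot i π σ → Isot i π σ' → Iso σ σ'

/-! ### the local group at infinity -/

/-- the prime t^2 + t + 1 -/
theorem irr_v0 : Irreducible (X ^ 2 + X + 1 : R) := by
  have hd : (X ^ 2 + X + 1 : R).natDegree = 2 := by compute_degree!
  refine Polynomial.irreducible_of_degree_le_three_of_not_isRoot ?_ ?_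
  · rw [hd]; decide
  · intro x
    simp only [IsRoot.def, eval_add, eval_pow, eval_X, eval_one]
    revert x; decide

/-- the place of F_2(t) with residue field F_4 -/
def v0 : HeightOneSpectrum R where
  asIdeal := Ideal.span {X ^ 2 + X + 1}
  isPrime := (Ideal.span_singleton_prime irr_v0.ne_zero).2 irr_v0.prime
  ne_bot := by
    rw [Ne, Ideal.span_singleton_eq_bot]; exact irr_v0.ne_zero

/-- t in the completion at P -/
def tP (P : Pl) : Kv P := emb P RatFunc.X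

theorem tP_ne (P : Pl) : tP P ≠ 0 := by
  unfold tP; rw [Ne, map_eq_zero]; exact RatFunc.X_ne_zero

/-- t as a unit of the completion -/
def tu (P : Pl) : (Kv P)ˣ := Units.mk0 (tP P) (tP_ne P)

/-- (0 1; 1 0) -/
def sw (P : Pl) : G P := Matrix.GeneralLinearGroup.mkOfDetNeZero !![0, 1; 1, 0] (by simp [Matrix.det_fin_two_of])

/-- (1 x; 0 1) -/
def nn (P : Pl) (x : Kv P) : G P := tri 1 1 x

/-- (0 t; 1 0) -/
def om : G none := Matrix.GeneralLinearGroup.mkOfDetNeZero !![0, tP none; 1, 0]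
  (by simp [Matrix.det_fin_two_of, tP_ne])

/-- the scalar matrices -/
def sc (P : Pl) (a : (Kv P)ˣ) : G P := tri a a 0

theorem int_entry (P : Pl) (g : G P) (hg : g ∈ cong P 0) (i j : Fin 2) :
    vv P ((g : Matrix (Fin 2) (Fin 2) (Kv P)) i j) ≤ 1 := vle P _ 0 hg.1 i j

/-- the Iwahori subgroup of GL_2(O) at infinity: upper triangular modulo the maximal ideal -/
def Iw : Subgroup (G none) where
  carrier := {g | g ∈ cong none 0 ∧ vv none ((g : Matrix (Fin 2) (Fin 2) (Kv none)) 1 0) ≤ exp (-1 : ℤ)}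
  one_mem' := ⟨one_mem _, by simp⟩
  mul_mem' := by
    rintro a b ⟨ha, ha'⟩ ⟨hb, hb'⟩
    refine ⟨mul_mem ha hb, ?_⟩
    have e : ((a * b : G none) : Matrix (Fin 2) (Fin 2) (Kv none)) 1 0
        = (a : Matrix (Fin 2) (Fin 2) (Kv none)) 1 0 * (b : Matrix (Fin 2) (Fin 2) (Kv none)) 0 0
        + (a : Matrix (Fin 2) (Fin 2) (Kv none)) 1 1 * (b : Matrix (Fin 2) (Fin 2) (Kv none)) 1 0 := by
      simp [Matrix.mul_apply, Fin.sum_univ_two]
    rw [e]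
    refine Valuation.map_add_le _ ?_ ?_
    · rw [Valuation.map_mul]
      calc _ ≤ exp (-1 : ℤ) * 1 := mul_le_mul' ha' (int_entry none b hb 0 0)
        _ = _ := mul_one _
    · rw [Valuation.map_mul]
      calc _ ≤ 1 * exp (-1 : ℤ) := mul_le_mul' (int_entry none a ha 1 1) hb'
        _ = _ := one_mul _
  inv_mem' := by
    rintro a ⟨ha, ha'⟩
    have hi := inv_mem ha
    refine ⟨hi, ?_⟩
    have h1 : ((a⁻¹ * a : G none) : Matrix (Fin 2) (Fin 2) (Kv none)) 1 0 = 0 := by simp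
    have h2 : ((a * a⁻¹ : G none) : Matrix (Fin 2) (Fin 2) (Kv none)) 1 0 = 0 := by simp
    have h3 : ((a⁻¹ * a : G none) : Matrix (Fin 2) (Fin 2) (Kv none)) 0 0 = 1 := by simp
    have h4 : ((a * a⁻¹ : G none) : Matrix (Fin 2) (Fin 2) (Kv none)) 1 1 = 1 := by simp
    have h5 : ((a * a⁻¹ : G none) : Matrix (Fin 2) (Fin 2) (Kv none)) 0 0 = 1 := by simp
    have h6 : ((a⁻¹ * a : G none) : Matrix (Fin 2) (Fin 2) (Kv none)) 1 1 = 1 := by simp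
    simp only [Units.val_mul, Matrix.mul_apply, Fin.sum_univ_two] at h1 h2 h3 h4 h5 h6
    set p := (a : Matrix (Fin 2) (Fin 2) (Kv none)) with hp
    set q := ((a⁻¹ : G none) : Matrix (Fin 2) (Fin 2) (Kv none)) with hq
    have key : q 1 0 = - (q 0 0 * q 1 1 - q 0 1 * q 1 0) * p 1 0 := by
      linear_combination (-(q 1 0)) * h3 + (q 0 0) * h1
    have hdet : vv none (q 0 0 * q 1 1 - q 0 1 * q 1 0) ≤ 1 := by
      refine (Valuation.map_sub _ _ _).trans (max_le ?_ ?_)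
      · rw [Valuation.map_mul]
        exact mul_le_one' (int_entry none _ hi 0 0) (int_entry none _ hi 1 1)
      · rw [Valuation.map_mul]
        exact mul_le_one' (int_entry none _ hi 0 1) (int_entry none _ hi 1 0)
    rw [key, Valuation.map_mul, Valuation.map_neg]
    calc _ ≤ 1 * exp (-1 : ℤ) := mul_le_mul' hdet ha'
      _ = _ := one_mul _

/-- Steinberg vectors of a representation of GL_2 at infinity -/
def St {V : Type} [AddCommGroup V] [Module ℂ V] (ρ : Representation ℂ (G none) V) (x : V) : Prop :=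
  (∀ h ∈ Iw, ρ h x = x) ∧ (∀ a, ρ (sc none a) x = x) ∧ ρ om x = -x ∧
  x + ρ (sw none) x + ρ (nn none 1 * sw none) x = 0

/-- Steinberg relations for functions on GL_2 at infinity, with constant c -/
def StF (f : G none → ℂ) (c : ℂ) : Prop :=
  (∀ g, ∀ h ∈ Iw, f (g * h) = f g) ∧ (∀ g a, f (g * sc none a) = f g) ∧ (∀ g, f (g * om) = - f g) ∧
  ∀ g, f g + f (g * sw none) + f (g * (nn none 1 * sw none)) = c

/-- the matrices over F_2[t] in GL_2(K_P) -/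
def gR (P : Pl) : GL (Fin 2) R →* G P := Matrix.GeneralLinearGroup.map ((emb P).comp (algebraMap R K))

/-- GEN -/
def GenInf : Prop := ∀ Y : Set (G none), 1 ∈ Y → (∀ x ∈ Y, ∀ k ∈ cong none 0, x * k ∈ Y) →
  (∀ x ∈ Y, ∀ a, x * sc none a ∈ Y) → (∀ x ∈ Y, x * om ∈ Y) → ∀ g, g ∈ Y

/-- COS -/
def CosK : Prop := ∀ k ∈ cong none 0, k ∈ Iw ∨ ∃ c : Kv none, (c = 0 ∨ c = 1) ∧ ∃ i ∈ Iw, k = nn none c * sw none * i

/-- DEG -/
def DecG : Prop := ∀ g : G none, ∃ (γ : GL (Fin 2) R) (n δ : ℕ) (i : G none) (a : (Kv none)ˣ), δ ≤ 1 ∧ i ∈ Iw ∧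
  g = gR none γ * tri (tu none ^ n) 1 0 * om ^ δ * i * sc none a

/-- DEI -/
def DecI : Prop := ∀ g : G none, ∃ (i : G none) (ε n δ : ℕ) (i' : G none) (a : (Kv none)ˣ),
  i ∈ Iw ∧ i' ∈ Iw ∧ ε ≤ 1 ∧ δ ≤ 1 ∧
  g = i * om ^ ε * tri 1 (tu none ^ n) 0 * om ^ δ * i' * sc none a

/-- HEC -/
def Hec : Prop := ∃ χ : G none → ℂ, ∀ (V : Type) [AddCommGroup V] [Module ℂ V] (ρ : Representation ℂ (G none) V)
  (x : V), St ρ x → ∀ g, ρ g x - χ g • x ∈ co ρ Iw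

/-- CFI -/
def CFin : Prop := ∀ (P : Pl) (n : ℕ), ((cong P n).subgroupOf (cong P 0)).FiniteIndex

/-- ADM -/
def Adm : Prop := ∀ (V : Type) [AddCommGroup V] [Module ℂ V] (ρ : Representation ℂ (G none) V) (x : V), St ρ x →
  ∀ n, ∃ S : Finset (G none), ∀ g, ∃ c : G none → ℂ, ρ g x - ∑ s ∈ S, c s • ρ s x ∈ co ρ (cong none n)

/-! ### the adelic part -/

/-- the elements trivial at infinity -/
def Gf : Subgroup AG where
  carrier := {g | g.1 none = 1}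
  one_mem' := rfl
  mul_mem' := by intro a b ha hb; show (a.1 * b.1) none = 1; rw [Pi.mul_apply, ha, hb, one_mul]
  inv_mem' := by intro a ha; show (a.1⁻¹) none = 1; rw [Pi.inv_apply, ha, inv_one]

/-- the product of the GL_2(O_P), P finite -/
def Uf : Subgroup AG where
  carrier := {g | g.1 none = 1 ∧ ∀ P, g.1 P ∈ cong P 0}
  one_mem' := ⟨rfl, fun P => one_mem _⟩
  mul_mem' := by
    rintro a b ⟨ha, ha'⟩ ⟨hb, hb'⟩
    exact ⟨Gf.mul_mem ha hb, fun P => mul_mem (ha' P) (hb' P)⟩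
  inv_mem' := by
    rintro a ⟨ha, ha'⟩
    exact ⟨Gf.inv_mem ha, fun P => inv_mem (ha' P)⟩

/-- CNJ -/
def Cnj : Prop := (∀ (P : Pl) (g : G P) (n : ℕ), ∃ m, ∀ k ∈ cong P m, g⁻¹ * k * g ∈ cong P n) ∧
  ∀ (g : AG) (e : Pl →₀ ℕ), ∃ e' : Pl →₀ ℕ, ∀ u ∈ U e', g⁻¹ * u * g ∈ U e

/-- UFI -/
def UFin : Prop := (∀ e : Pl →₀ ℕ, ((U e).subgroupOf (U 0)).FiniteIndex) ∧
  ∀ π : Rp AG, SmoothA π → LF π.ρ (Iw.map (incl none)) ∧ LF π.ρ Uf

/-- IWA -/
def Iwas : Prop := ∀ (P : Pl) (g : G P), ∃ (a d : (Kv P)ˣ) (b : Kv P) (k : G P), k ∈ cong P 0 ∧ g = tri a d b * k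

/-- IDC -/
def IdC : Prop := ∀ x : IA, ∃ k : Kˣ, ∀ v : HeightOneSpectrum R,
  vv (some v) (x.1 (some v) : Kv (some v)) = vv (some v) (emb (some v) (k : K))

/-- ADC -/
def AddC : Prop := ∀ x : AA, ∃ k : K, ∀ v : HeightOneSpectrum R, vv (some v) (x.1 (some v) - emb (some v) k) ≤ 1

/-- g = γ u -/
def LMul (g : AG) (γ : GL (Fin 2) K) (u : AG) : Prop :=
  ∀ P, g.1 P = Matrix.GeneralLinearGroup.map (emb P) γ * u.1 P

/-- integral at the finite places -/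
def IntF (u : AG) : Prop := ∀ v : HeightOneSpectrum R, u.1 (some v) ∈ cong (some v) 0

/-- CLA -/
def Cla : Prop := ∀ g : AG, ∃ (γ : GL (Fin 2) K) (u : AG), IntF u ∧ LMul g γ u

/-- ITG -/
def Itg : Prop := ∀ γ : GL (Fin 2) K,
  (∀ v : HeightOneSpectrum R, Matrix.GeneralLinearGroup.map (emb (some v)) γ ∈ cong (some v) 0) →
  ∃ γ' : GL (Fin 2) R, Matrix.GeneralLinearGroup.map (algebraMap R K) γ' = γ

/-- EXT -/
def Ext : Prop := ∀ Φ : G none → G (some v0) → ℂ,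
  (∀ (γ : GL (Fin 2) R) g κ, Φ (gR none γ * g) (gR (some v0) γ * κ) = Φ g κ) →
  ∃ φ : AG → ℂ, LeftInv φ ∧ ∀ u, IntF u → φ u = Φ (u.1 none) (u.1 (some v0))

/-- WFN -/
def WFun : Prop := ∃ w : G none → ℂ, (∀ (γ : GL (Fin 2) R) g, w (gR none γ * g) = w g) ∧ StF w 1

/-- WUN -/
def WUni : Prop := ∀ f : G none → ℂ, (∀ (γ : GL (Fin 2) R) g, f (gR none γ * g) = f g) → StF f 0 → f = 0

/-- Steinberg relations at infinity modulo constants for functions on GL_2(A) -/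
def StC (φ : AG → ℂ) (c : ℂ) : Prop :=
  (∀ h ∈ Iw, rt (incl none h) φ = φ) ∧ (∀ a, rt (incl none (sc none a)) φ = φ) ∧ rt (incl none om) φ = -φ ∧
  φ + rt (incl none (sw none)) φ + rt (incl none (nn none 1 * sw none)) φ = fun _ => c

/-- PH1 -/
def Ph1 : Prop := ∃ φ : AG → ℂ, LeftInv φ ∧ StC φ 1 ∧ (∀ u ∈ Uf, rt u φ = φ) ∧ ∃ e : Pl →₀ ℕ, ∀ u ∈ U e, rt u φ = φ

/-- AV1 -/
def Av1 : Prop := ∀ φ : AG → ℂ, LeftInv φ → StC φ 1 → (∀ u ∈ Uf, rt u φ = φ) → ∀ h ∈ Gf,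
  ∃ s : Finset AG, s.Nonempty ∧ (∀ u ∈ s, u ∈ Uf) ∧ ∑ u ∈ s, rt u (rt h φ) = (s.card : ℂ) • φ

/-- sum over the representatives 0, 1, t, 1 + t of the residue field F_4 -/
def S4 (F : Kv (some v0) → ℂ) : ℂ := F 0 + F 1 + F (tP (some v0)) + F (1 + tP (some v0))

/-- FFU -/
def F4F : Prop := ∃ h : G (some v0) → ℂ,
  (∀ m ∈ cong (some v0) 0, ∀ k ∈ cong (some v0) 1, h (m * k) = h m ∧ h (k * m) = h m) ∧
  (∀ m ∈ cong (some v0) 0, h (m * nn (some v0) 1) = h m ∧ h (m * nn (some v0) (tP (some v0))) = - h m ∧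
    h m + h (m * sw (some v0)) + h (m * (nn (some v0) 1 * sw (some v0))) = 0) ∧
  (∀ k ∈ cong (some v0) 0, ∀ m ∈ cong (some v0) 0, S4 (fun y => h (k * nn (some v0) y * m)) = 0) ∧
  h 1 ≠ 0

/-- TRE -/
def CuF : Prop := ∃ Φ : G none → G (some v0) → ℂ,
  (∀ (γ : GL (Fin 2) R) g κ, Φ (gR none γ * g) (gR (some v0) γ * κ) = Φ g κ) ∧
  (∀ κ, StF (fun g => Φ g κ) 0) ∧
  (∀ g κ, ∀ k ∈ cong (some v0) 1, Φ g (κ * k) = Φ g κ) ∧
  (∀ g κ, ∀ k ∈ cong (some v0) 0, S4 (fun y => Φ g (κ * (k⁻¹ * nn (some v0) y * k))) = 0) ∧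
  ∃ g, ∃ κ ∈ cong (some v0) 0, Φ g κ ≠ 0

/-- cuspidal type at v0 -/
def Cus (φ : AG → ℂ) : Prop := ∀ (g : AG), ∀ k ∈ cong (some v0) 0,
  S4 (fun y => φ (g * incl (some v0) (k⁻¹ * nn (some v0) y * k))) = 0

/-- PH2 -/
def Ph2 : Prop := ∃ φ : AG → ℂ, LeftInv φ ∧ StC φ 0 ∧ Cus φ ∧ φ ≠ 0 ∧ ∃ e : Pl →₀ ℕ, ∀ u ∈ U e, rt u φ = φ

/-- CST -/
def Cst : Prop := ∀ φ0 : AG → ℂ, LeftInv φ0 → Cus φ0 → ∀ φ ∈ Submodule.span ℂ {ψ | ∃ g, ψ = rt g φ0},
  ∀ (g : AG) (e : Pl →₀ ℕ), (∀ x, ∀ b ∈ box e, φ (unip (x + b) * g) = φ (unip x * g)) →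
    ∑ᶠ q : AA ⧸ (KK ⊔ box e), φ (unip (Quotient.out q) * g) = 0

/-- AUT -/
def Aut : Prop := ∀ (φ0 : AG → ℂ) (c : ℂ), LeftInv φ0 → StC φ0 c → (∃ e : Pl →₀ ℕ, ∀ u ∈ U e, rt u φ0 = φ0) →
  ∀ φ ∈ Submodule.span ℂ ({ψ | ∃ g, ψ = rt g φ0} ∪ {fun _ => (1 : ℂ)}), IsAutForm φ

/-- PRD: the product formula -/
def Prd : Prop := ∀ (k : Kˣ) (x : IA), (∀ P, x.1 P = Units.map (emb P : K →* Kv P) k) → nrmA x = 1

/-- the trivial representation of H -/
def trivR (H : Type) [Group H] : Rp H where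
  V := ℂ
  ρ := 1

/-- TRI -/
def Tri : Prop := IsIsobaric (trivR AG)

end Pool.Agent.H757L
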