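import Pool.Agent.H757L.Api

set_option autoImplicit false
set_option linter.all false
noncomputable section

namespace Pool.Agent.H757L

open Polynomial IsDedekindDomain Matrix WithZero

/-- TRZ -/
def TrZ : Prop := (∀ (γ : GL (Fin 2) R) (i : G none) (a : (Kv none)ˣ), i ∈ Iw → gR none γ = i * sc none a →
    γ = 1 ∨ ∀ P, gR P γ = nn P 1) ∧
  (∀ (γ γ' : GL (Fin 2) R) (i i' : G none) (a a' : (Kv none)ˣ), i ∈ Iw → i' ∈ Iw →
    gR none γ * i * sc none a ≠ gR none γ' * om * i' * sc none a') ∧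
  ∀ (γ : GL (Fin 2) R) (i : G none) (a : (Kv none)ˣ), i ∈ Iw →
    tri (tu none) 1 0 ≠ gR none γ * i * sc none a ∧ tri (tu none) 1 0 ≠ gR none γ * om * i * sc none a

/-- NFU -/
def NFun : Prop := ∃ n : G none → ℕ, (∀ (γ : GL (Fin 2) R) g, n (gR none γ * g) = n g) ∧
  (∀ g, ∀ k ∈ cong none 0, n (g * k) = n g) ∧ (∀ g a, n (g * sc none a) = n g) ∧
  ∀ m : ℕ, n (tri (tu none ^ m) 1 0) = m

open scoped Classical in
/-- the inclusion of the completion at v0 in the adeles -/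
def iot : Kv (some v0) →+ AA where
  toFun y := ⟨Pi.single (some v0) y, by
    refine (Set.finite_singleton (some v0)).subset ?_
    intro Q hQ
    by_contra h
    exact hQ (by simp only [Set.mem_singleton_iff] at h; rw [Pi.single_eq_of_ne h]; simp)⟩
  map_zero' := by ext1; simp
  map_add' a b := by ext1; simp [Pi.single_add]

/-- CS1 -/
def Cs1 : Prop := ∀ φ0 : AG → ℂ, Cus φ0 → ∀ g : AG, ∃ c : Kv (some v0), c ≠ 0 ∧ ∀ x : AA,
  S4 (fun y => φ0 (unip (x + iot (c * y)) * g)) = 0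

/-- CS2 -/
def Cs2 : Prop := ∀ (A : Type) [AddCommGroup A] (B : AddSubgroup A) (J : Type) (s : Finset J)
  (F : J → A → ℂ) (D : J → AddSubgroup A), (∀ j ∈ s, Finite (D j)) →
  (∀ j ∈ s, ∀ x, ∑ᶠ d : D j, F j (x + (d : A)) = 0) →
  (∀ x, ∀ b ∈ B, ∑ j ∈ s, F j (x + b) = ∑ j ∈ s, F j x) →
  ∑ᶠ q : A ⧸ B, ∑ j ∈ s, F j (Quotient.out q) = 0

/-- the field with four elements 0, 1, 2 = om, 3 = om + 1 -/
def add4 (a b : Fin 4) : Fin 4 :=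
  (![![0, 1, 2, 3], ![1, 0, 3, 2], ![2, 3, 0, 1], ![3, 2, 1, 0]] : Fin 4 → Fin 4 → Fin 4) a b
def mul4 (a b : Fin 4) : Fin 4 :=
  (![![0, 0, 0, 0], ![0, 1, 2, 3], ![0, 2, 3, 1], ![0, 3, 1, 2]] : Fin 4 → Fin 4 → Fin 4) a b

/-- RED -/
def Red4 : Prop := ∃ r : Kv (some v0) → Fin 4,
  (∀ x y, vv (some v0) x ≤ 1 → vv (some v0) y ≤ 1 → r (x + y) = add4 (r x) (r y) ∧ r (x * y) = mul4 (r x) (r y)) ∧
  (∀ x y, vv (some v0) x ≤ 1 → vv (some v0) y ≤ 1 → (r x = r y ↔ vv (some v0) (x - y) ≤ exp (-1 : ℤ))) ∧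
  r 0 = 0 ∧ r 1 = 1 ∧ r (tP (some v0)) = 2 ∧ vv (some v0) (tP (some v0)) ≤ 1

/-- REA -/
def RepA : Prop := ∃ (π : Rp AG) (x : π.V), IsAutomorphic π ∧ x ≠ 0 ∧ (∀ b ∈ Gf, ∀ v, π.ρ b v = v) ∧
  St (π.ρ.comp (incl none)) x

/-- REC -/
def RepC : Prop := ∃ (π : Rp AG) (x : π.V), IsAutomorphic π ∧ Subquot IsCuspForm π ∧ x ≠ 0 ∧
  St (π.ρ.comp (incl none)) x

end Pool.Agent.H757L
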