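import Pool.Agent.H757L.Defs2

set_option autoImplicit false
set_option linter.all false
noncomputable section

namespace Pool.Agent.H757L

open Polynomial IsDedekindDomain Matrix WithZero

theorem deg_tri_mul {F : Type} [Field F] (a d a' d' : Fˣ) (b b' : F) :
    tri a d b * tri a' d' b' = tri (a * a') (d * d') ((a : F) * b' + b * (d' : F)) := by
  ext i j
  fin_cases i <;> fin_cases j <;> simp [tri, Matrix.mul_apply, Fin.sum_univ_two]

theorem deg_tri_one {F : Type} [Field F] : tri (1 : Fˣ) 1 (0 : F) = 1 := by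
  ext i j
  fin_cases i <;> fin_cases j <;> simp [tri]

theorem deg_sc_comm (P : Pl) (a : (Kv P)ˣ) (g : G P) : sc P a * g = g * sc P a := by
  ext i j
  fin_cases i <;> fin_cases j <;>
    simp [sc, tri, Matrix.mul_apply, Fin.sum_univ_two, mul_comm]

theorem deg_sc_mul (P : Pl) (a b : (Kv P)ˣ) : sc P a * sc P b = sc P (a * b) := by
  unfold sc
  rw [deg_tri_mul]; simp

theorem deg_sc_one (P : Pl) : sc P 1 = 1 := by
  unfold sc
  exact deg_tri_one

theorem deg_om_sq : om * om = sc none (tu none) := by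
  ext i j
  fin_cases i <;> fin_cases j <;>
    simp [om, sc, tu, tri, Matrix.mul_apply, Fin.sum_univ_two]

theorem deg_om_sw : om * sw none = tri (tu none) 1 0 := by
  ext i j
  fin_cases i <;> fin_cases j <;>
    simp [om, sw, tu, tri, Matrix.mul_apply, Fin.sum_univ_two]

theorem deg_D1_sw : tri (tu none) 1 0 * sw none = om := by
  ext i j
  fin_cases i <;> fin_cases j <;>
    simp [om, sw, tu, tri, Matrix.mul_apply, Fin.sum_univ_two]

theorem deg_D_nn (P : Pl) (a : (Kv P)ˣ) (x : Kv P) :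
    tri a 1 0 * nn P x = nn P ((a : Kv P) * x) * tri a 1 0 := by
  unfold nn
  rw [deg_tri_mul, deg_tri_mul]
  simp

theorem deg_char (P : Pl) : (1 : Kv P) + 1 = 0 := by
  have h : (1 : ZMod 2) + 1 = 0 := by decide
  have h2 : (1 : R) + 1 = 0 := by
    have := congrArg (C : ZMod 2 → R) h
    simpa using this
  have h3 := congrArg ((emb P).comp (algebraMap R K)) h2
  rw [map_add, map_one, map_zero] at h3
  exact h3

theorem deg_om_nn_sw : om * (nn none 1 * sw none) = nn none (tP none) * (om * nn none 1) := by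
  have h2 : tP none + tP none = 0 := by
    have := deg_char none
    calc tP none + tP none = tP none * (1 + 1) := by ring
      _ = 0 := by rw [this, mul_zero]
  ext i j
  fin_cases i <;> fin_cases j <;>
    simp [om, sw, nn, tri, Matrix.mul_apply, Fin.sum_univ_two, h2]

/-- unipotent matrices over F_2[t] -/
def deg_nR (p : R) : GL (Fin 2) R :=
  ⟨!![1, p; 0, 1], !![1, -p; 0, 1], by
    ext i j; fin_cases i <;> fin_cases j <;> simp [Matrix.mul_apply, Fin.sum_univ_two], by
    ext i j; fin_cases i <;> fin_cases j <;> simp [Matrix.mul_apply, Fin.sum_univ_two]⟩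

theorem deg_gR_nR (P : Pl) (p : R) : gR P (deg_nR p) = nn P (emb P (algebraMap R K p)) := by
  ext i j
  fin_cases i <;> fin_cases j <;> simp [gR, deg_nR, nn, tri]

def deg_swR : GL (Fin 2) R :=
  ⟨!![0, 1; 1, 0], !![0, 1; 1, 0], by
    ext i j; fin_cases i <;> fin_cases j <;> simp [Matrix.mul_apply, Fin.sum_univ_two], by
    ext i j; fin_cases i <;> fin_cases j <;> simp [Matrix.mul_apply, Fin.sum_univ_two]⟩

theorem deg_gR_swR (P : Pl) : gR P deg_swR = sw P := by
  ext i j
  fin_cases i <;> fin_cases j <;> simp [gR, deg_swR, sw]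

theorem deg_tn (P : Pl) (n : ℕ) :
    emb P (algebraMap R K (X ^ n)) = ((tu P ^ n : (Kv P)ˣ) : Kv P) := by
  rw [map_pow, map_pow, RatFunc.algebraMap_X]
  simp [tu, tP]

theorem deg_vt : vv none (tP none) = exp (1 : ℤ) := by
  classical
  unfold tP
  rw [emb_val]
  unfold val
  have := RatFunc.inftyValuation.X_zpow (ZMod 2) 1
  rw [zpow_one] at this
  convert this

theorem deg_vtinv : vv none ((tP none)⁻¹) = exp (-1 : ℤ) := by
  rw [map_inv₀, deg_vt, WithZero.exp_neg]

/-- the inverse of om -/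
theorem deg_om_inv : om⁻¹ = Matrix.GeneralLinearGroup.mkOfDetNeZero !![0, 1; (tP none)⁻¹, 0]
    (by simp [Matrix.det_fin_two_of, tP_ne]) := by
  rw [inv_eq_iff_mul_eq_one]
  ext i j
  fin_cases i <;> fin_cases j <;>
    simp [om, Matrix.mul_apply, Fin.sum_univ_two, tP_ne]

theorem deg_conj_entries (g : G none) :
    ((om⁻¹ * g * om : G none) : Matrix (Fin 2) (Fin 2) (Kv none)) =
      !![(g : Matrix (Fin 2) (Fin 2) (Kv none)) 1 1,
        (g : Matrix (Fin 2) (Fin 2) (Kv none)) 1 0 * tP none;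
        (tP none)⁻¹ * (g : Matrix (Fin 2) (Fin 2) (Kv none)) 0 1,
        (g : Matrix (Fin 2) (Fin 2) (Kv none)) 0 0] := by
  rw [deg_om_inv]
  ext i j
  have h := tP_ne none
  fin_cases i <;> fin_cases j <;> simp only [Units.val_mul, Matrix.mul_apply, Fin.sum_univ_two]
  · simp [om]
  · simp [om]
  · simp [om]
  · simp [om]
    field_simp

theorem deg_sub_one (P : Pl) (x : Matrix (Fin 2) (Fin 2) (Kv P)) (h : ∀ i j, vv P (x i j) ≤ 1)
    (i j : Fin 2) : vv P (x i j - (1 : Matrix (Fin 2) (Fin 2) (Kv P)) i j) ≤ exp (-((0 : ℕ) : ℤ)) := by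
  have h0 : exp (-((0 : ℕ) : ℤ)) = (1 : WithZero (Multiplicative ℤ)) := by simp
  rw [h0]
  exact (Valuation.map_sub _ _ _).trans (max_le (h i j) (vone P i j))

theorem deg_conj_int (g : G none) (hg : g ∈ Iw) (i j : Fin 2) :
    vv none (((om⁻¹ * g * om : G none) : Matrix (Fin 2) (Fin 2) (Kv none)) i j) ≤ 1 := by
  have h := int_entry none g hg.1
  rw [deg_conj_entries]
  fin_cases i <;> fin_cases j
  · exact h 1 1
  · show vv none (_ * tP none) ≤ 1
    rw [Valuation.map_mul, deg_vt]
    calc _ ≤ exp (-1 : ℤ) * exp (1 : ℤ) := mul_le_mul' hg.2 le_rfl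
      _ = 1 := by rw [← exp_add]; simp
  · show vv none ((tP none)⁻¹ * _) ≤ 1
    rw [Valuation.map_mul, deg_vtinv]
    calc _ ≤ exp (-1 : ℤ) * 1 := mul_le_mul' le_rfl (h 0 1)
      _ ≤ 1 := by rw [mul_one, ← exp_zero, exp_le_exp]; omega
  · exact h 0 0

theorem deg_conj (g : G none) (hg : g ∈ Iw) : om⁻¹ * g * om ∈ Iw := by
  refine ⟨⟨fun i j => deg_sub_one none _ (deg_conj_int g hg) i j, fun i j => ?_⟩, ?_⟩
  · have e : (om⁻¹ * g * om)⁻¹ = om⁻¹ * g⁻¹ * om := by group
    rw [e]
    exact deg_sub_one none _ (deg_conj_int g⁻¹ (inv_mem hg)) i j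
  · rw [deg_conj_entries]
    show vv none ((tP none)⁻¹ * _) ≤ exp (-1 : ℤ)
    rw [Valuation.map_mul, deg_vtinv]
    calc _ ≤ exp (-1 : ℤ) * 1 := mul_le_mul' le_rfl (int_entry none g hg.1 0 1)
      _ = _ := mul_one _

theorem deg_nn_one : nn none 1 ∈ Iw := by
  refine ⟨tri_int none 1 (by simp), ?_⟩
  simp [nn, tri]

/-- the power of D -/
theorem deg_D_succ (P : Pl) (n : ℕ) :
    tri (tu P ^ (n + 1)) 1 (0 : Kv P) = tri (tu P ^ n) 1 0 * tri (tu P) 1 0 := by
  rw [deg_tri_mul, pow_succ]; simp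

theorem t_DEG : GenInf → CosK → DecG := by
  intro hG hK g
  refine hG {g | ∃ (γ : GL (Fin 2) R) (n δ : ℕ) (i : G none) (a : (Kv none)ˣ), δ ≤ 1 ∧ i ∈ Iw ∧
    g = gR none γ * tri (tu none ^ n) 1 0 * om ^ δ * i * sc none a} ?_ ?_ ?_ ?_ g
  · refine ⟨1, 0, 0, 1, 1, by omega, one_mem _, ?_⟩
    rw [map_one, pow_zero, pow_zero, deg_tri_one, deg_sc_one]; simp
  · rintro x ⟨γ, n, δ, i, a, hδ, hi, rfl⟩ k hk
    have hik : i * k ∈ cong none 0 := mul_mem hi.1 hk
    have e : gR none γ * tri (tu none ^ n) 1 0 * om ^ δ * i * sc none a * k =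
        gR none γ * tri (tu none ^ n) 1 0 * om ^ δ * (i * k) * sc none a := by
      rw [mul_assoc _ (sc none a) k, deg_sc_comm]
      group
    rw [e]
    rcases hK _ hik with h1 | ⟨c, hc, i1, hi1, h1⟩
    · exact ⟨γ, n, δ, i * k, a, hδ, h1, rfl⟩
    · rw [h1]
      have hcR : ∀ m : ℕ, ∃ γ' : GL (Fin 2) R, gR none γ' = nn none (((tu none ^ m : (Kv none)ˣ) : Kv none) * c) := by
        intro m
        rcases hc with rfl | rfl
        · refine ⟨1, ?_⟩
          rw [map_one, mul_zero]
          exact deg_tri_one.symm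
        · refine ⟨deg_nR (X ^ m), ?_⟩
          rw [deg_gR_nR, deg_tn, mul_one]
      have hδ' : δ = 0 ∨ δ = 1 := by omega
      rcases hδ' with rfl | rfl
      · obtain ⟨γ', hγ'⟩ := hcR n
        rw [pow_zero, mul_one]
        have e1 : gR none γ * tri (tu none ^ n) 1 0 * (nn none c * sw none * i1) * sc none a =
            gR none (γ * γ') * (tri (tu none ^ n) 1 0 * sw none) * i1 * sc none a := by
          rw [map_mul, hγ']
          have := deg_D_nn none (tu none ^ n) c
          calc _ = gR none γ * (tri (tu none ^ n) 1 0 * nn none c) * sw none * i1 * sc none a := by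
                group
            _ = _ := by rw [this]; group
        rw [e1]
        cases n with
        | zero =>
          refine ⟨γ * γ' * deg_swR, 0, 0, i1, a, by omega, hi1, ?_⟩
          rw [map_mul (gR none) (γ * γ'), deg_gR_swR, pow_zero, pow_zero, deg_tri_one]
          group
        | succ n =>
          refine ⟨γ * γ', n, 1, i1, a, le_rfl, hi1, ?_⟩
          rw [deg_D_succ, mul_assoc (tri (tu none ^ n) 1 0), deg_D1_sw, pow_one]
          group
      · rw [pow_one]
        rcases hc with rfl | rfl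
        · refine ⟨γ, n + 1, 0, i1, a, by omega, hi1, ?_⟩
          have e0 : nn none (0 : Kv none) = 1 := deg_tri_one
          rw [e0, one_mul, pow_zero, deg_D_succ, ← deg_om_sw]
          group
        · obtain ⟨γ', hγ'⟩ : ∃ γ' : GL (Fin 2) R, gR none γ' =
              nn none (((tu none ^ (n + 1) : (Kv none)ˣ) : Kv none)) := by
            refine ⟨deg_nR (X ^ (n + 1)), ?_⟩
            rw [deg_gR_nR, deg_tn]
          refine ⟨γ * γ', n, 1, nn none 1 * i1, a, le_rfl, mul_mem deg_nn_one hi1, ?_⟩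
          rw [map_mul, hγ', pow_one]
          have e2 := deg_D_nn none (tu none ^ n) (tP none)
          have e3 : ((tu none ^ n : (Kv none)ˣ) : Kv none) * tP none =
              ((tu none ^ (n + 1) : (Kv none)ˣ) : Kv none) := by
            rw [pow_succ]; simp [tu]
          rw [e3] at e2
          calc _ = gR none γ * tri (tu none ^ n) 1 0 * (om * (nn none 1 * sw none)) * i1 *
                sc none a := by group
            _ = gR none γ * (tri (tu none ^ n) 1 0 * nn none (tP none)) * (om * nn none 1) * i1 *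
                sc none a := by rw [deg_om_nn_sw]; group
            _ = _ := by rw [e2]; group
  · rintro x ⟨γ, n, δ, i, a, hδ, hi, rfl⟩ b
    refine ⟨γ, n, δ, i, a * b, hδ, hi, ?_⟩
    rw [← deg_sc_mul]
    simp only [mul_assoc]
  · rintro x ⟨γ, n, δ, i, a, hδ, hi, rfl⟩
    have e : gR none γ * tri (tu none ^ n) 1 0 * om ^ δ * i * sc none a * om =
        gR none γ * tri (tu none ^ n) 1 0 * (om ^ δ * om) * (om⁻¹ * i * om) * sc none a := by
      rw [mul_assoc _ (sc none a) om, deg_sc_comm]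
      group
    rw [e]
    have hδ' : δ = 0 ∨ δ = 1 := by omega
    rcases hδ' with rfl | rfl
    · refine ⟨γ, n, 1, om⁻¹ * i * om, a, le_rfl, deg_conj i hi, ?_⟩
      rw [pow_zero, pow_one, one_mul]
    · refine ⟨γ, n, 0, om⁻¹ * i * om, tu none * a, by omega, deg_conj i hi, ?_⟩
      rw [pow_one, deg_om_sq, pow_zero, mul_one, ← deg_sc_mul, mul_assoc _ (sc none (tu none)),
        deg_sc_comm]
      group

end Pool.Agent.H757L
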