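import Pool.Agent.H757L.Defs2

set_option autoImplicit false
set_option linter.all false
noncomputable section

namespace Pool.Agent.H757L

open Polynomial IsDedekindDomain Matrix WithZero

theorem dei_vT : vv none (tP none) = exp (1 : ℤ) := by
  classical
  unfold tP
  rw [emb_val]
  unfold val
  have h := RatFunc.inftyValuation.X_zpow (ZMod 2) 1
  rw [zpow_one] at h
  convert h

theorem dei_vTinv : vv none (tP none)⁻¹ = exp (-1 : ℤ) := by
  rw [map_inv₀, dei_vT, ← WithZero.exp_neg]

theorem dei_two : (1 : Kv none) + 1 = 0 := by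
  have h : emb none (algebraMap (ZMod 2) K (1 + 1)) = 1 + 1 := by
    rw [map_add, map_add, map_one, map_one]
  rw [← h]
  have h2 : (1 + 1 : ZMod 2) = 0 := by decide
  rw [h2, map_zero, map_zero]

theorem dei_TT : tP none + tP none = 0 := by
  have h : tP none + tP none = tP none * (1 + 1) := by ring
  rw [h, dei_two, mul_zero]

theorem dei_sc_comm (z : (Kv none)ˣ) (g : G none) : sc none z * g = g * sc none z := by
  ext i j
  fin_cases i <;> fin_cases j <;> simp [sc, tri, Matrix.mul_apply, Fin.sum_univ_two, mul_comm]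

theorem dei_sc_mul (a b : (Kv none)ˣ) : sc none a * sc none b = sc none (a * b) := by
  ext i j
  fin_cases i <;> fin_cases j <;> simp [sc, tri, Matrix.mul_apply, Fin.sum_univ_two]

theorem dei_sc_one : sc none 1 = 1 := by
  ext i j
  fin_cases i <;> fin_cases j <;> simp [sc, tri]

theorem dei_om2 : om * om = sc none (tu none) := by
  ext i j
  fin_cases i <;> fin_cases j <;> simp [sc, tri, om, tu, Matrix.mul_apply, Fin.sum_univ_two]

theorem dei_A_nn (n : ℕ) (c : Kv none) : tri 1 (tu none ^ n) 0 * nn none c =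
    nn none (c * (tP none ^ n)⁻¹) * tri 1 (tu none ^ n) 0 := by
  have h := tP_ne none
  ext i j
  fin_cases i <;> fin_cases j <;> simp [nn, tri, tu, Matrix.mul_apply, Fin.sum_univ_two, h]

theorem dei_A_sw (n : ℕ) : (tri 1 (tu none ^ n) 0 : G none) * sw none =
    tri 1 (tu none ^ (n + 1)) 0 * om * sc none (tu none)⁻¹ := by
  have h := tP_ne none
  ext i j
  fin_cases i <;> fin_cases j <;>
    simp [nn, tri, tu, om, sw, sc, Matrix.mul_apply, Fin.sum_univ_two, h, pow_succ]

theorem dei_A_om_sw (n : ℕ) : (tri 1 (tu none ^ (n + 1)) 0 : G none) * om * sw none =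
    tri 1 (tu none ^ n) 0 * sc none (tu none) := by
  have h := tP_ne none
  ext i j
  fin_cases i <;> fin_cases j <;>
    simp [nn, tri, tu, om, sw, sc, Matrix.mul_apply, Fin.sum_univ_two, h, pow_succ]

theorem dei_om_sw : om * sw none = om * (tri 1 (tu none ^ 1) 0 : G none) * om * sc none (tu none)⁻¹ := by
  have h := tP_ne none
  ext i j
  fin_cases i <;> fin_cases j <;>
    simp [nn, tri, tu, om, sw, sc, Matrix.mul_apply, Fin.sum_univ_two, h, pow_succ]

theorem dei_om_nn_sw : om * nn none 1 * sw none = nn none (tP none) * om * nn none 1 := by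
  have h := tP_ne none
  have h2 := dei_TT
  ext i j
  fin_cases i <;> fin_cases j <;>
    simp [nn, tri, tu, om, sw, sc, Matrix.mul_apply, Fin.sum_univ_two, h, pow_succ, h2]

theorem dei_cong (g : G none) (h1 : ∀ i j, vv none ((g : Matrix (Fin 2) (Fin 2) (Kv none)) i j) ≤ 1)
    (h2 : ∀ i j, vv none (((g⁻¹ : G none) : Matrix (Fin 2) (Fin 2) (Kv none)) i j) ≤ 1) :
    g ∈ cong none 0 := by
  refine ⟨fun i j => ?_, fun i j => ?_⟩
  · refine (Valuation.map_sub _ _ _).trans (max_le ?_ ?_)
    · simpa using h1 i j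
    · simpa using vone none i j
  · refine (Valuation.map_sub _ _ _).trans (max_le ?_ ?_)
    · simpa using h2 i j
    · simpa using vone none i j

theorem dei_nn_inv (x : Kv none) : (nn none x)⁻¹ = nn none (-x) := by
  rw [inv_eq_iff_mul_eq_one]
  ext i j
  fin_cases i <;> fin_cases j <;> simp [nn, tri, Matrix.mul_apply, Fin.sum_univ_two]

theorem dei_nn_Iw (x : Kv none) (hx : vv none x ≤ 1) : nn none x ∈ Iw :=
  ⟨tri_int none x hx, by simp [nn, tri]⟩

theorem dei_om_inv : (om⁻¹ : G none) = Matrix.GeneralLinearGroup.mkOfDetNeZero !![0, 1; (tP none)⁻¹, 0]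
    (by simp [Matrix.det_fin_two_of, tP_ne]) := by
  have h := tP_ne none
  rw [inv_eq_iff_mul_eq_one]
  ext i j
  fin_cases i <;> fin_cases j <;> simp [om, Matrix.mul_apply, Fin.sum_univ_two, h]

/-- the entries of the conjugate -/
theorem dei_conj_entries (i : G none) :
    ((om * i * om⁻¹ : G none) : Matrix (Fin 2) (Fin 2) (Kv none)) =
      !![(i : Matrix (Fin 2) (Fin 2) (Kv none)) 1 1, tP none * (i : Matrix (Fin 2) (Fin 2) (Kv none)) 1 0;
        (tP none)⁻¹ * (i : Matrix (Fin 2) (Fin 2) (Kv none)) 0 1, (i : Matrix (Fin 2) (Fin 2) (Kv none)) 0 0] := by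
  have h := tP_ne none
  rw [dei_om_inv]
  ext a b
  fin_cases a <;> fin_cases b <;>
    simp [om, Matrix.mul_apply, Fin.sum_univ_two, h, mul_comm, Matrix.vecMul, dotProduct]

theorem dei_conj_int (i : G none) (hi : i ∈ Iw) (a b : Fin 2) :
    vv none (((om * i * om⁻¹ : G none) : Matrix (Fin 2) (Fin 2) (Kv none)) a b) ≤ 1 := by
  rw [dei_conj_entries]
  have h11 := int_entry none i hi.1 1 1
  have h00 := int_entry none i hi.1 0 0
  have h01 := int_entry none i hi.1 0 1
  have h10 := hi.2
  fin_cases a <;> fin_cases b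
  · simpa using h11
  · simp only [Fin.zero_eta, Fin.mk_one, Matrix.of_apply, Matrix.cons_val', Matrix.cons_val_zero,
      Matrix.cons_val_one, Matrix.cons_val_fin_one]
    rw [map_mul, dei_vT]
    calc _ ≤ exp (1 : ℤ) * exp (-1 : ℤ) := mul_le_mul' le_rfl h10
      _ = 1 := by rw [← exp_add]; simp
  · simp only [Fin.zero_eta, Fin.mk_one, Matrix.of_apply, Matrix.cons_val', Matrix.cons_val_zero,
      Matrix.cons_val_one, Matrix.cons_val_fin_one]
    rw [map_mul, dei_vTinv]
    calc _ ≤ exp (-1 : ℤ) * 1 := mul_le_mul' le_rfl h01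
      _ ≤ 1 := by rw [mul_one, ← exp_zero]; exact exp_le_exp.2 (by omega)
  · simpa using h00

theorem dei_conj_Iw (i : G none) (hi : i ∈ Iw) : om * i * om⁻¹ ∈ Iw := by
  refine ⟨dei_cong _ (dei_conj_int i hi) ?_, ?_⟩
  · have e : (om * i * om⁻¹)⁻¹ = om * i⁻¹ * om⁻¹ := by group
    rw [e]
    exact dei_conj_int i⁻¹ (inv_mem hi)
  · rw [dei_conj_entries]
    have h01 := int_entry none i hi.1 0 1
    simp only [Fin.zero_eta, Fin.mk_one, Matrix.of_apply, Matrix.cons_val', Matrix.cons_val_zero,
      Matrix.cons_val_one, Matrix.cons_val_fin_one]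
    rw [map_mul, dei_vTinv]
    calc _ ≤ exp (-1 : ℤ) * 1 := mul_le_mul' le_rfl h01
      _ = _ := mul_one _

/-- move an Iwahori element to the left of om^ε -/
theorem dei_left (ε : ℕ) (hε : ε ≤ 1) (l : G none) (hl : l ∈ Iw) : ∃ l' ∈ Iw, om ^ ε * l = l' * om ^ ε := by
  interval_cases ε
  · exact ⟨l, hl, by simp⟩
  · refine ⟨om * l * om⁻¹, dei_conj_Iw l hl, ?_⟩
    rw [pow_one]
    group

/-- move an Iwahori element to the right of om -/
theorem dei_right (l : G none) (hl : l ∈ Iw) : ∃ l' ∈ Iw, l * om = om * l' := by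
  refine ⟨om⁻¹ * l * om, ?_, by group⟩
  have e : om⁻¹ * l * om = om * l * om⁻¹ := by
    have h1 : om * om * (om⁻¹ * l * om) = om * l * om := by group
    have h2 : om * om * (om * l * om⁻¹) = om * l * om := by
      rw [dei_om2, dei_sc_comm, ← dei_om2]
      group
    exact mul_left_cancel (h1.trans h2.symm)
  rw [e]
  exact dei_conj_Iw l hl

/-- the set of the elements of the stated form -/
def dei_Y : Set (G none) := {g | ∃ (i : G none) (ε n δ : ℕ) (i' : G none) (a : (Kv none)ˣ),
  i ∈ Iw ∧ i' ∈ Iw ∧ ε ≤ 1 ∧ δ ≤ 1 ∧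
  g = i * om ^ ε * tri 1 (tu none ^ n) 0 * om ^ δ * i' * sc none a}

theorem dei_lmul (l g : G none) (hl : l ∈ Iw) (hg : g ∈ dei_Y) : l * g ∈ dei_Y := by
  obtain ⟨i, ε, n, δ, i', a, hi, hi', hε, hδ, rfl⟩ := hg
  exact ⟨l * i, ε, n, δ, i', a, mul_mem hl hi, hi', hε, hδ, by simp only [mul_assoc]⟩

theorem dei_rmul (g l : G none) (hg : g ∈ dei_Y) (hl : l ∈ Iw) : g * l ∈ dei_Y := by
  obtain ⟨i, ε, n, δ, i', a, hi, hi', hε, hδ, rfl⟩ := hg
  refine ⟨i, ε, n, δ, i' * l, a, hi, mul_mem hi' hl, hε, hδ, ?_⟩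
  rw [mul_assoc _ (sc none a) l, dei_sc_comm]
  simp only [mul_assoc]

theorem dei_rsc (g : G none) (a : (Kv none)ˣ) (hg : g ∈ dei_Y) : g * sc none a ∈ dei_Y := by
  obtain ⟨i, ε, n, δ, i', b, hi, hi', hε, hδ, rfl⟩ := hg
  refine ⟨i, ε, n, δ, i', b * a, hi, hi', hε, hδ, ?_⟩
  rw [← dei_sc_mul]
  simp only [mul_assoc]

theorem dei_base (ε n δ : ℕ) (hε : ε ≤ 1) (hδ : δ ≤ 1) :
    om ^ ε * tri 1 (tu none ^ n) 0 * om ^ δ ∈ dei_Y :=
  ⟨1, ε, n, δ, 1, 1, one_mem _, one_mem _, hε, hδ, by rw [dei_sc_one]; simp⟩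

/-- om^ε om sw -/
theorem dei_w0 (ε : ℕ) (hε : ε ≤ 1) : om ^ ε * (om * sw none) ∈ dei_Y := by
  rw [dei_om_sw]
  interval_cases ε
  · have h := dei_rsc _ (tu none)⁻¹ (dei_base 1 1 1 le_rfl le_rfl)
    simpa [mul_assoc] using h
  · have h := dei_base 0 1 1 (by omega) le_rfl
    have e : om ^ 1 * (om * tri 1 (tu none ^ 1) 0 * om * sc none (tu none)⁻¹) =
        om ^ 0 * tri 1 (tu none ^ 1) 0 * om ^ 1 := by
      rw [pow_one, pow_zero, one_mul]
      have e1 : om * (om * tri 1 (tu none ^ 1) 0 * om * sc none (tu none)⁻¹) =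
          (om * om) * (tri 1 (tu none ^ 1) 0 * om * sc none (tu none)⁻¹) := by
        simp only [mul_assoc]
      rw [e1, dei_om2, dei_sc_comm, mul_assoc, dei_sc_mul, inv_mul_cancel, dei_sc_one, mul_one, pow_one]
    rw [e]
    exact h

/-- the main step -/
theorem dei_word (ε n δ : ℕ) (hε : ε ≤ 1) (hδ : δ ≤ 1) (c : Kv none) (hc : c = 0 ∨ c = 1) :
    om ^ ε * tri 1 (tu none ^ n) 0 * om ^ δ * (nn none c * sw none) ∈ dei_Y := by
  have hvc : vv none c ≤ 1 := by rcases hc with rfl | rfl <;> simp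
  have hvTn : ∀ n : ℕ, vv none (tP none ^ n)⁻¹ = exp (-(n : ℤ)) := by
    intro n
    rw [map_inv₀, map_pow, dei_vT, ← WithZero.exp_nsmul, WithZero.exp_neg]
    simp
  have hvTn1 : ∀ n : ℕ, vv none (tP none ^ n)⁻¹ ≤ 1 := by
    intro n
    rw [hvTn, ← exp_zero]
    exact exp_le_exp.2 (by omega)
  interval_cases δ
  · have hx : vv none (c * (tP none ^ n)⁻¹) ≤ 1 := by
      rw [map_mul]
      exact mul_le_one' hvc (hvTn1 n)
    obtain ⟨l, hl, hle⟩ := dei_left ε hε _ (dei_nn_Iw _ hx)
    have e : om ^ ε * tri 1 (tu none ^ n) 0 * om ^ 0 * (nn none c * sw none) =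
        l * ((om ^ ε * tri 1 (tu none ^ (n + 1)) 0 * om ^ 1) * sc none (tu none)⁻¹) := by
      calc om ^ ε * tri 1 (tu none ^ n) 0 * om ^ 0 * (nn none c * sw none)
          = om ^ ε * (tri 1 (tu none ^ n) 0 * nn none c) * sw none := by
            rw [pow_zero, mul_one]; simp only [mul_assoc]
        _ = (om ^ ε * nn none (c * (tP none ^ n)⁻¹)) * (tri 1 (tu none ^ n) 0 * sw none) := by
            rw [dei_A_nn]; simp only [mul_assoc]
        _ = _ := by
            rw [hle, dei_A_sw, pow_one]; simp only [mul_assoc]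
    rw [e]
    exact dei_lmul _ _ hl (dei_rsc _ _ (dei_base ε (n + 1) 1 hε le_rfl))
  · rcases hc with rfl | rfl
    · have hn0 : nn none (0 : Kv none) = 1 := by
        ext i j
        fin_cases i <;> fin_cases j <;> simp [nn, tri]
      rw [hn0, one_mul]
      cases n with
      | zero =>
        have e : om ^ ε * tri 1 (tu none ^ 0) 0 * om ^ 1 * sw none = om ^ ε * (om * sw none) := by
          have e1 : (tri 1 (tu none ^ 0) 0 : G none) = 1 := by
            ext i j
            fin_cases i <;> fin_cases j <;> simp [nn, tri]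
          rw [e1, mul_one, pow_one, mul_assoc]
        rw [e]
        exact dei_w0 ε hε
      | succ n =>
        have e : om ^ ε * tri 1 (tu none ^ (n + 1)) 0 * om ^ 1 * sw none =
            (om ^ ε * tri 1 (tu none ^ n) 0 * om ^ 0) * sc none (tu none) := by
          calc om ^ ε * tri 1 (tu none ^ (n + 1)) 0 * om ^ 1 * sw none
              = om ^ ε * (tri 1 (tu none ^ (n + 1)) 0 * om * sw none) := by
                rw [pow_one]; simp only [mul_assoc]
            _ = _ := by
                rw [dei_A_om_sw, pow_zero, mul_one]; simp only [mul_assoc]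
        rw [e]
        exact dei_rsc _ _ (dei_base ε n 0 hε (by omega))
    · cases n with
      | zero =>
        obtain ⟨l, hl, hle⟩ := dei_left 1 le_rfl _ (dei_nn_Iw 1 (by simp))
        obtain ⟨l', hl', hle'⟩ := dei_left ε hε l hl
        rw [pow_one] at hle
        have e : om ^ ε * tri 1 (tu none ^ 0) 0 * om ^ 1 * (nn none 1 * sw none) =
            l' * (om ^ ε * (om * sw none)) := by
          have e1 : (tri 1 (tu none ^ 0) 0 : G none) = 1 := by
            ext i j
            fin_cases i <;> fin_cases j <;> simp [nn, tri]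
          calc om ^ ε * tri 1 (tu none ^ 0) 0 * om ^ 1 * (nn none 1 * sw none)
              = om ^ ε * (om * nn none 1) * sw none := by
                rw [e1, mul_one, pow_one]; simp only [mul_assoc]
            _ = (om ^ ε * l) * om * sw none := by rw [hle]; simp only [mul_assoc]
            _ = _ := by rw [hle']; simp only [mul_assoc]
        rw [e]
        exact dei_lmul _ _ hl' (dei_w0 ε hε)
      | succ n =>
        have hx : vv none (tP none * (tP none ^ (n + 1))⁻¹) ≤ 1 := by
          have h := tP_ne none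
          have e : tP none * (tP none ^ (n + 1))⁻¹ = (tP none ^ n)⁻¹ := by
            rw [pow_succ]
            field_simp
          rw [e]
          exact hvTn1 n
        obtain ⟨l, hl, hle⟩ := dei_left ε hε _ (dei_nn_Iw _ hx)
        have e : om ^ ε * tri 1 (tu none ^ (n + 1)) 0 * om ^ 1 * (nn none 1 * sw none) =
            l * ((om ^ ε * tri 1 (tu none ^ (n + 1)) 0 * om ^ 1) * nn none 1) := by
          calc om ^ ε * tri 1 (tu none ^ (n + 1)) 0 * om ^ 1 * (nn none 1 * sw none)
              = om ^ ε * tri 1 (tu none ^ (n + 1)) 0 * (om * nn none 1 * sw none) := by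
                rw [pow_one]; simp only [mul_assoc]
            _ = om ^ ε * (tri 1 (tu none ^ (n + 1)) 0 * nn none (tP none)) * om * nn none 1 := by
                rw [dei_om_nn_sw]; simp only [mul_assoc]
            _ = (om ^ ε * nn none (tP none * (tP none ^ (n + 1))⁻¹)) * tri 1 (tu none ^ (n + 1)) 0 * om *
                  nn none 1 := by
                rw [dei_A_nn]; simp only [mul_assoc]
            _ = _ := by
                rw [hle, pow_one]; simp only [mul_assoc]
        rw [e]
        exact dei_lmul _ _ hl (dei_rmul _ _ (dei_base ε (n + 1) 1 hε le_rfl) (dei_nn_Iw 1 (by simp)))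

theorem t_DEI : GenInf → CosK → DecI := by
  intro hG hC g
  have hmem : g ∈ dei_Y := by
    refine hG dei_Y ?_ ?_ ?_ ?_ g
    · have h := dei_base 0 0 0 (by omega) (by omega)
      have e : om ^ 0 * tri 1 (tu none ^ 0) 0 * om ^ 0 = (1 : G none) := by
        have e1 : (tri 1 (tu none ^ 0) 0 : G none) = 1 := by
          ext i j
          fin_cases i <;> fin_cases j <;> simp [nn, tri]
        rw [e1, pow_zero, mul_one, mul_one]
      rwa [e] at h
    · rintro x ⟨i, ε, n, δ, i', a, hi, hi', hε, hδ, rfl⟩ k hk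
      have e : i * om ^ ε * tri 1 (tu none ^ n) 0 * om ^ δ * i' * sc none a * k =
          i * (om ^ ε * tri 1 (tu none ^ n) 0 * om ^ δ) * (i' * k) * sc none a := by
        rw [mul_assoc _ (sc none a) k, dei_sc_comm]
        simp only [mul_assoc]
      rw [e]
      apply dei_rsc
      rw [mul_assoc]
      apply dei_lmul _ _ hi
      rcases hC (i' * k) (mul_mem hi'.1 hk) with h | ⟨c, hc, i2, hi2, h⟩
      · exact dei_rmul _ _ (dei_base ε n δ hε hδ) h
      · rw [h, ← mul_assoc]
        exact dei_rmul _ _ (dei_word ε n δ hε hδ c hc) hi2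
    · intro x hx a
      exact dei_rsc x a hx
    · rintro x ⟨i, ε, n, δ, i', a, hi, hi', hε, hδ, rfl⟩
      obtain ⟨l, hl, hle⟩ := dei_right i' hi'
      have e : i * om ^ ε * tri 1 (tu none ^ n) 0 * om ^ δ * i' * sc none a * om =
          i * ((om ^ ε * tri 1 (tu none ^ n) 0 * om ^ δ * om) * l) * sc none a := by
        rw [mul_assoc _ (sc none a) om, dei_sc_comm]
        calc i * om ^ ε * tri 1 (tu none ^ n) 0 * om ^ δ * i' * (om * sc none a)
            = i * om ^ ε * tri 1 (tu none ^ n) 0 * om ^ δ * (i' * om) * sc none a := by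
              simp only [mul_assoc]
          _ = _ := by rw [hle]; simp only [mul_assoc]
      rw [e]
      apply dei_rsc
      apply dei_lmul _ _ hi
      refine dei_rmul _ _ ?_ hl
      interval_cases δ
      · have h := dei_base ε n 1 hε le_rfl
        rw [pow_zero, mul_one]
        rwa [pow_one] at h
      · have h := dei_rsc _ (tu none) (dei_base ε n 0 hε (by omega))
        rw [pow_one, mul_assoc, dei_om2]
        rwa [pow_zero, mul_one] at h
  exact hmem

end Pool.Agent.H757L
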