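import Pool.Agent.H757L.Defs2
/-
Project LL (helper757, MP_5ae62c_nt), file EXT: functions on the double quotient.  Proved by helper603.
-/

set_option autoImplicit false
set_option linter.all false
noncomputable section

namespace Pool.Agent.H757L

open Polynomial IsDedekindDomain Matrix WithZero

theorem ext_gR (P : Pl) (γ : GL (Fin 2) R) :
    gR P γ = Matrix.GeneralLinearGroup.map (emb P) (Matrix.GeneralLinearGroup.map (algebraMap R K) γ) := by
  ext i j
  rfl

theorem ext_key (hI : Itg) (Φ : G none → G (some v0) → ℂ)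
    (hΦ : ∀ (γ : GL (Fin 2) R) g κ, Φ (gR none γ * g) (gR (some v0) γ * κ) = Φ g κ)
    (g : AG) (γ1 γ2 : GL (Fin 2) K) (u1 u2 : AG) (h1 : LMul g γ1 u1) (h2 : LMul g γ2 u2)
    (i1 : IntF u1) (i2 : IntF u2) :
    Φ (u1.1 none) (u1.1 (some v0)) = Φ (u2.1 none) (u2.1 (some v0)) := by
  have e : ∀ P, Matrix.GeneralLinearGroup.map (emb P) (γ2⁻¹ * γ1) * u1.1 P = u2.1 P := by
    intro P
    rw [map_mul, map_inv, mul_assoc, ← h1 P, h2 P, inv_mul_cancel_left]
  obtain ⟨δ, hδ⟩ := hI (γ2⁻¹ * γ1) (by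
    intro v
    have := e (some v)
    rw [eq_mul_inv_of_mul_eq this]
    exact mul_mem (i2 v) (inv_mem (i1 v)))
  have f : ∀ P, gR P δ * u1.1 P = u2.1 P := by
    intro P
    rw [ext_gR, hδ, e P]
  rw [← f none, ← f (some v0), hΦ]

theorem t_EXT : Cla → Itg → Ext := by
  intro hC hI Φ hΦ
  choose γ u hu hγ using hC
  refine ⟨fun g => Φ ((u g).1 none) ((u g).1 (some v0)), ?_, ?_⟩
  · intro γ' g g' h
    refine ext_key hI Φ hΦ g' (γ g') (γ' * γ g) (u g') (u g) (hγ g') ?_ (hu g') (hu g)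
    intro P
    rw [h P, hγ g P, map_mul, mul_assoc]
  · intro w hw
    refine ext_key hI Φ hΦ w (γ w) 1 (u w) w (hγ w) ?_ (hu w) hw
    intro P
    rw [map_one, one_mul]

end Pool.Agent.H757L
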