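import Pool.Agent.H757L.Defs2

set_option autoImplicit false
set_option linter.all false
noncomputable section

namespace Pool.Agent.H757L

open Polynomial IsDedekindDomain Matrix WithZero

/-- the field with four elements -/
def ffuF : Type := Fin 4

instance : DecidableEq ffuF := inferInstanceAs (DecidableEq (Fin 4))
instance : Fintype ffuF := inferInstanceAs (Fintype (Fin 4))

instance : Zero ffuF := ⟨(0 : Fin 4)⟩
instance : One ffuF := ⟨(1 : Fin 4)⟩
instance : Add ffuF := ⟨fun a b => add4 a b⟩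
instance : Mul ffuF := ⟨fun a b => mul4 a b⟩
instance : Neg ffuF := ⟨fun a => a⟩

instance ffu_ring : CommRing ffuF where
  add_assoc := by decide +kernel
  zero_add := by decide +kernel
  add_zero := by decide +kernel
  add_comm := by decide +kernel
  left_distrib := by decide +kernel
  right_distrib := by decide +kernel
  zero_mul := by decide +kernel
  mul_zero := by decide +kernel
  mul_assoc := by decide +kernel
  one_mul := by decide +kernel
  mul_one := by decide +kernel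
  neg_add_cancel := by decide +kernel
  mul_comm := by decide +kernel
  nsmul := nsmulRec
  zsmul := zsmulRec

def ffu_w : ffuF := (2 : Fin 4)
def ffu_v : ffuF := (3 : Fin 4)

def ffu_chi (a b c d : ffuF) : ℤ :=
  if b = 0 ∧ c = 0 ∧ a = d then 6 else if a + d = 0 then -2 else
    if (a + d) * (a * d + b * c) = 1 then 0 else 1

def ffu_H (a b c d : ffuF) : ℤ :=
  ffu_chi a b c d + ffu_chi a (a + b) c (c + d) - ffu_chi a (a * ffu_w + b) c (c * ffu_w + d)
    - ffu_chi a (a * ffu_v + b) c (c * ffu_v + d)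

theorem ffu_c1 : ∀ a b c d : ffuF, a * d + b * c ≠ 0 →
    ffu_H a b c d + ffu_H b a d c + ffu_H (a + b) a (c + d) c = 0 := by
  decide +kernel

theorem ffu_c2 : ∀ a b c d : ffuF, a * d + b * c ≠ 0 →
    ffu_chi a b c d + ffu_chi (a + c) (b + d) c d + ffu_chi (a + ffu_w * c) (b + ffu_w * d) c d
      + ffu_chi (a + ffu_v * c) (b + ffu_v * d) c d = 0 := by
  decide +kernel

theorem ffu_c3 : ∀ a b c d : ffuF, ffu_H a (a + b) c (c + d) = ffu_H a b c d ∧
    ffu_H a (a * ffu_w + b) c (c * ffu_w + d) = - ffu_H a b c d := by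
  decide +kernel

theorem ffu_c4 : ffu_H 1 0 0 1 = 8 := by
  decide +kernel

abbrev ffu_M : Type := Matrix (Fin 2) (Fin 2) ffuF

def ffu_X (M : ffu_M) : ℤ := ffu_chi (M 0 0) (M 0 1) (M 1 0) (M 1 1)
def ffu_HH (M : ffu_M) : ℤ := ffu_H (M 0 0) (M 0 1) (M 1 0) (M 1 1)
def ffu_n (y : ffuF) : ffu_M := !![1, y; 0, 1]
def ffu_s : ffu_M := !![0, 1; 1, 0]

theorem ffu_neg (x : ffuF) : -x = x := rfl

theorem ffu_det (M : ffu_M) : M.det = M 0 0 * M 1 1 + M 0 1 * M 1 0 := by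
  rw [Matrix.det_fin_two, sub_eq_add_neg, ffu_neg]

theorem ffu_HH_eq (M : ffu_M) : ffu_HH M = ffu_X M + ffu_X (M * ffu_n 1) - ffu_X (M * ffu_n ffu_w)
    - ffu_X (M * ffu_n ffu_v) := by
  simp [ffu_HH, ffu_H, ffu_X, ffu_n, Matrix.mul_apply, Fin.sum_univ_two]

theorem ffu_X_eq (M : ffu_M) : ffu_X M = if (∃ s : ffuF, M = s • (1 : ffu_M)) then 6 else
    if M.trace = 0 then -2 else if M.trace * M.det = 1 then 0 else 1 := by
  have h1 : (∃ s : ffuF, M = s • (1 : ffu_M)) ↔ (M 0 1 = 0 ∧ M 1 0 = 0 ∧ M 0 0 = M 1 1) := by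
    constructor
    · rintro ⟨s, rfl⟩
      simp
    · rintro ⟨a, b, c⟩
      refine ⟨M 0 0, ?_⟩
      ext i j
      fin_cases i <;> fin_cases j <;> simp [a, b, c]
  unfold ffu_X ffu_chi
  rw [ffu_det, Matrix.trace_fin_two]
  simp only [h1]

theorem ffu_sc_comm (x y x' : ffu_M) (hx : x * x' = 1) (s : ffuF) (h : x * y = s • (1 : ffu_M)) :
    y * x = s • (1 : ffu_M) := by
  have hx' : x' * x = 1 := _root_.mul_eq_one_comm.1 hx
  have h1 : y = s • x' := by
    calc y = (x' * x) * y := by rw [hx', one_mul]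
      _ = x' * (x * y) := by rw [mul_assoc]
      _ = s • x' := by rw [h, Matrix.mul_smul, mul_one]
  rw [h1, Matrix.smul_mul, hx']

theorem ffu_X_comm (x y x' y' : ffu_M) (hx : x * x' = 1) (hy : y * y' = 1) :
    ffu_X (x * y) = ffu_X (y * x) := by
  rw [ffu_X_eq, ffu_X_eq, Matrix.trace_mul_comm x y, Matrix.det_mul_comm x y]
  have h : (∃ s : ffuF, x * y = s • (1 : ffu_M)) ↔ (∃ s : ffuF, y * x = s • (1 : ffu_M)) :=
    ⟨fun ⟨s, h⟩ => ⟨s, ffu_sc_comm x y x' hx s h⟩, fun ⟨s, h⟩ => ⟨s, ffu_sc_comm y x y' hy s h⟩⟩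
  simp only [h]

theorem ffu_det_ne (x x' : ffu_M) (hx : x * x' = 1) : x 0 0 * x 1 1 + x 0 1 * x 1 0 ≠ 0 := by
  rw [← ffu_det]
  intro h
  have h1 := congrArg Matrix.det hx
  rw [Matrix.det_mul, h, zero_mul, Matrix.det_one] at h1
  exact absurd h1 (by decide +kernel)

theorem ffu_sum1 (N N' : ffu_M) (h : N * N' = 1) :
    ffu_X (ffu_n 0 * N) + ffu_X (ffu_n 1 * N) + ffu_X (ffu_n ffu_w * N) + ffu_X (ffu_n ffu_v * N) = 0 := by
  have h1 := ffu_c2 _ _ _ _ (ffu_det_ne N N' h)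
  simpa [ffu_X, ffu_n, Matrix.mul_apply, Fin.sum_univ_two] using h1

theorem ffu_n_inv (y : ffuF) : ffu_n y * ffu_n y = 1 := by
  revert y
  have : ∀ y : ffuF, y + y = 0 := by decide +kernel
  intro y
  ext i j
  fin_cases i <;> fin_cases j <;> simp [ffu_n, Matrix.mul_apply, Fin.sum_univ_two, this]

theorem ffu_sum2 (A A' B B' : ffu_M) (hA : A * A' = 1) (hB : B * B' = 1) (z : ffuF) :
    ffu_X (A * ffu_n 0 * B * ffu_n z) + ffu_X (A * ffu_n 1 * B * ffu_n z)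
      + ffu_X (A * ffu_n ffu_w * B * ffu_n z) + ffu_X (A * ffu_n ffu_v * B * ffu_n z) = 0 := by
  have key : ∀ y, ffu_X (A * ffu_n y * B * ffu_n z) = ffu_X (ffu_n y * (B * ffu_n z * A)) := by
    intro y
    have e1 : A * ffu_n y * B * ffu_n z = A * (ffu_n y * B * ffu_n z) := by
      simp only [mul_assoc]
    have e2 : ffu_n y * (B * ffu_n z * A) = (ffu_n y * B * ffu_n z) * A := by
      simp only [mul_assoc]
    rw [e1, e2]
    refine ffu_X_comm _ _ A' (ffu_n z * B' * ffu_n y) hA ?_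
    calc ffu_n y * B * ffu_n z * (ffu_n z * B' * ffu_n y)
        = ffu_n y * (B * ((ffu_n z * ffu_n z) * B')) * ffu_n y := by simp only [mul_assoc]
      _ = 1 := by rw [ffu_n_inv, one_mul, hB, mul_one, ffu_n_inv]
  rw [key, key, key, key]
  refine ffu_sum1 _ (A' * ffu_n z * B') ?_
  calc B * ffu_n z * A * (A' * ffu_n z * B') = B * (ffu_n z * (A * A') * ffu_n z) * B' := by
        simp only [mul_assoc]
    _ = 1 := by rw [hA, mul_one, ffu_n_inv, mul_one, hB]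

theorem ffu_sum3 (A A' B B' : ffu_M) (hA : A * A' = 1) (hB : B * B' = 1) :
    ffu_HH (A * ffu_n 0 * B) + ffu_HH (A * ffu_n 1 * B) + ffu_HH (A * ffu_n ffu_w * B)
      + ffu_HH (A * ffu_n ffu_v * B) = 0 := by
  simp only [ffu_HH_eq]
  have h0 := ffu_sum2 A A' B B' hA hB 0
  have h1 := ffu_sum2 A A' B B' hA hB 1
  have h2 := ffu_sum2 A A' B B' hA hB ffu_w
  have h3 := ffu_sum2 A A' B B' hA hB ffu_v
  have e : ffu_n 0 = 1 := by
    ext i j
    fin_cases i <;> fin_cases j <;> simp [ffu_n]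
  have h0' : ffu_X (A * ffu_n 0 * B) + ffu_X (A * ffu_n 1 * B)
      + ffu_X (A * ffu_n ffu_w * B) + ffu_X (A * ffu_n ffu_v * B) = 0 := by
    have h00 := h0
    rw [show ∀ M : ffu_M, M * ffu_n 0 = M from fun M => by rw [e, mul_one]] at h00
    rw [show ∀ M : ffu_M, M * ffu_n 0 = M from fun M => by rw [e, mul_one]]
    simpa [e] using h0
  linarith

/-! ### the reduction -/

abbrev ffu_P : Pl := some v0

/-- the reduction of a matrix -/
def ffu_red (r : Kv ffu_P → ffuF) (m : G ffu_P) : ffu_M :=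
  Matrix.of fun i j => r ((m : Matrix (Fin 2) (Fin 2) (Kv ffu_P)) i j)

theorem ffu_red4 (H : Red4) : ∃ r : Kv ffu_P → ffuF,
  (∀ x y, vv ffu_P x ≤ 1 → vv ffu_P y ≤ 1 → r (x + y) = r x + r y ∧ r (x * y) = r x * r y) ∧
  (∀ x y, vv ffu_P x ≤ 1 → vv ffu_P y ≤ 1 → (r x = r y ↔ vv ffu_P (x - y) ≤ exp (-1 : ℤ))) ∧
  r 0 = 0 ∧ r 1 = 1 ∧ r (tP ffu_P) = ffu_w ∧ vv ffu_P (tP ffu_P) ≤ 1 := H

theorem ffu_cong_le (k : G ffu_P) (hk : k ∈ cong ffu_P 1) : k ∈ cong ffu_P 0 := by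
  obtain ⟨h1, h2⟩ := hk
  refine ⟨fun i j => (h1 i j).trans ?_, fun i j => (h2 i j).trans ?_⟩ <;>
  exact exp_le_exp.2 (by norm_num)

theorem ffu_sw_mem : sw ffu_P ∈ cong ffu_P 0 := by
  have hi : ((sw ffu_P)⁻¹ : G ffu_P) = sw ffu_P := by
    rw [inv_eq_iff_mul_eq_one]
    ext i j
    fin_cases i <;> fin_cases j <;> simp [sw, Matrix.mul_apply, Fin.sum_univ_two]
  have h : ∀ i j, vv ffu_P ((sw ffu_P : Matrix (Fin 2) (Fin 2) (Kv ffu_P)) i j
      - (1 : Matrix (Fin 2) (Fin 2) (Kv ffu_P)) i j) ≤ exp (-((0 : ℕ) : ℤ)) := by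
    intro i j
    fin_cases i <;> fin_cases j <;> simp [sw]
  refine ⟨h, ?_⟩
  rw [hi]
  exact h

theorem t_FFU : Red4 → F4F := by
  classical
  intro H4
  obtain ⟨r, hr, hc, h0, h1, ht, htv⟩ := ffu_red4 H4
  have hint : ∀ m ∈ cong ffu_P 0, ∀ i j, vv ffu_P ((m : Matrix (Fin 2) (Fin 2) (Kv ffu_P)) i j) ≤ 1 :=
    fun m hm i j => int_entry ffu_P m hm i j
  have rmul : ∀ m ∈ cong ffu_P 0, ∀ k ∈ cong ffu_P 0,
      ffu_red r (m * k) = ffu_red r m * ffu_red r k := by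
    intro m hm k hk
    ext i j
    have e : ((m * k : G ffu_P) : Matrix (Fin 2) (Fin 2) (Kv ffu_P)) i j
        = (m : Matrix (Fin 2) (Fin 2) (Kv ffu_P)) i 0 * (k : Matrix (Fin 2) (Fin 2) (Kv ffu_P)) 0 j
        + (m : Matrix (Fin 2) (Fin 2) (Kv ffu_P)) i 1 * (k : Matrix (Fin 2) (Fin 2) (Kv ffu_P)) 1 j := by
      simp [Matrix.mul_apply, Fin.sum_univ_two]
    rw [Matrix.mul_apply, Fin.sum_univ_two]
    show r (((m * k : G ffu_P) : Matrix (Fin 2) (Fin 2) (Kv ffu_P)) i j) = _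
    rw [e]
    have hv : ∀ l, vv ffu_P ((m : Matrix (Fin 2) (Fin 2) (Kv ffu_P)) i l
        * (k : Matrix (Fin 2) (Fin 2) (Kv ffu_P)) l j) ≤ 1 := by
      intro l
      rw [Valuation.map_mul]
      exact mul_le_one' (hint m hm i l) (hint k hk l j)
    rw [(hr _ _ (hv 0) (hv 1)).1, (hr _ _ (hint m hm i 0) (hint k hk 0 j)).2,
      (hr _ _ (hint m hm i 1) (hint k hk 1 j)).2]
    rfl
  have rone : ffu_red r 1 = 1 := by
    ext i j
    fin_cases i <;> fin_cases j <;> simp [ffu_red, h0, h1]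
  have rinv : ∀ m ∈ cong ffu_P 0, ffu_red r m * ffu_red r m⁻¹ = 1 := by
    intro m hm
    rw [← rmul m hm _ (inv_mem hm), mul_inv_cancel, rone]
  have rk : ∀ k ∈ cong ffu_P 1, ffu_red r k = 1 := by
    intro k hk
    rw [← rone]
    ext i j
    have h2 : vv ffu_P (((1 : G ffu_P) : Matrix (Fin 2) (Fin 2) (Kv ffu_P)) i j) ≤ 1 := by
      exact hint 1 (one_mem _) i j
    have h3 := (hc ((k : Matrix (Fin 2) (Fin 2) (Kv ffu_P)) i j)
      (((1 : G ffu_P) : Matrix (Fin 2) (Fin 2) (Kv ffu_P)) i j) (hint k (ffu_cong_le k hk) i j) h2).2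
      (by simpa using hk.1 i j)
    exact h3
  have nmem : ∀ y, vv ffu_P y ≤ 1 → nn ffu_P y ∈ cong ffu_P 0 := fun y hy => tri_int ffu_P y hy
  have rn : ∀ y, ffu_red r (nn ffu_P y) = ffu_n (r y) := by
    intro y
    ext i j
    fin_cases i <;> fin_cases j <;> simp [ffu_red, ffu_n, nn, tri, h0, h1]
  have rs : ffu_red r (sw ffu_P) = ffu_s := by
    ext i j
    fin_cases i <;> fin_cases j <;> simp [ffu_red, ffu_s, sw, h0, h1]
  have v1 : vv ffu_P (1 : Kv ffu_P) ≤ 1 := by simp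
  refine ⟨fun m => if m ∈ cong ffu_P 0 then ((ffu_HH (ffu_red r m) : ℤ) : ℂ) else 0, ?_, ?_, ?_, ?_⟩
  · intro m hm k hk
    have hk0 := ffu_cong_le k hk
    simp only [if_pos hm, if_pos (mul_mem hm hk0), if_pos (mul_mem hk0 hm), rmul m hm k hk0,
      rmul k hk0 m hm, rk k hk, mul_one, one_mul, and_self]
  · intro m hm
    have hn1 := nmem 1 v1
    have hnt := nmem (tP ffu_P) htv
    have hs := ffu_sw_mem
    simp only [if_pos hm, if_pos (mul_mem hm hn1), if_pos (mul_mem hm hnt), if_pos (mul_mem hm hs),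
      if_pos (mul_mem hm (mul_mem hn1 hs)), rmul m hm _ hn1, rmul m hm _ hnt, rmul m hm _ hs,
      rmul m hm _ (mul_mem hn1 hs), rmul _ hn1 _ hs, rn, rs, h1, ht]
    have hd := ffu_det_ne _ _ (rinv m hm)
    set M := ffu_red r m with hM
    have c3 := ffu_c3 (M 0 0) (M 0 1) (M 1 0) (M 1 1)
    have c1 := ffu_c1 _ _ _ _ hd
    have e1 : ffu_HH (M * ffu_n 1) = ffu_HH M := by
      rw [show ffu_HH M = ffu_H (M 0 0) (M 0 1) (M 1 0) (M 1 1) from rfl, ← c3.1]
      simp [ffu_HH, ffu_n, Matrix.mul_apply, Fin.sum_univ_two]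
    have e2 : ffu_HH (M * ffu_n ffu_w) = - ffu_HH M := by
      rw [show ffu_HH M = ffu_H (M 0 0) (M 0 1) (M 1 0) (M 1 1) from rfl, ← c3.2]
      simp [ffu_HH, ffu_n, Matrix.mul_apply, Fin.sum_univ_two]
    have e3 : ffu_HH M + ffu_HH (M * ffu_s) + ffu_HH (M * (ffu_n 1 * ffu_s)) = 0 := by
      rw [← c1]
      simp [ffu_HH, ffu_n, ffu_s, Matrix.mul_apply, Fin.sum_univ_two]
    refine ⟨?_, ?_, ?_⟩
    · exact_mod_cast e1
    · exact_mod_cast e2
    · exact_mod_cast e3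
  · intro k hk m hm
    have hv1t : vv ffu_P (1 + tP ffu_P) ≤ 1 := Valuation.map_add_le _ v1 htv
    have r1t : r (1 + tP ffu_P) = ffu_v := by
      rw [(hr _ _ v1 htv).1, h1, ht]
      rfl
    have v00 : vv ffu_P (0 : Kv ffu_P) ≤ 1 := by simp
    have key : ∀ y, vv ffu_P y ≤ 1 →
        (if k * nn ffu_P y * m ∈ cong ffu_P 0 then ((ffu_HH (ffu_red r (k * nn ffu_P y * m)) : ℤ) : ℂ) else 0)
        = ((ffu_HH (ffu_red r k * ffu_n (r y) * ffu_red r m) : ℤ) : ℂ) := by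
      intro y hy
      rw [if_pos (mul_mem (mul_mem hk (nmem y hy)) hm), rmul _ (mul_mem hk (nmem y hy)) _ hm,
        rmul _ hk _ (nmem y hy), rn]
    unfold S4
    beta_reduce
    rw [key 0 v00, key 1 v1, key _ htv, key _ hv1t, h0, h1, ht, r1t]
    have := ffu_sum3 _ _ _ _ (rinv k hk) (rinv m hm)
    exact_mod_cast this
  · have h8 : ffu_HH (1 : ffu_M) = 8 := by
      rw [← ffu_c4]
      simp [ffu_HH]
    simp only [if_pos (one_mem (cong ffu_P 0)), rone, h8]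
    norm_num

end Pool.Agent.H757L
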