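import Pool.Agent.H757L.Defs2

set_option autoImplicit false
set_option linter.all false
noncomputable section

namespace Pool.Agent.H757L

open Polynomial IsDedekindDomain Matrix WithZero

/-! ### isomorphism is an equivalence relation -/

theorem fi_refl {H : Type} [Group H] (π : Rp H) : Iso π π :=
  ⟨LinearMap.id, Function.bijective_id, fun _ _ => rfl⟩

theorem fi_symm {H : Type} [Group H] {π π' : Rp H} (h : Iso π π') : Iso π' π := by
  obtain ⟨T, hT, hi⟩ := h
  let e := LinearEquiv.ofBijective T hT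
  refine ⟨e.symm.toLinearMap, e.symm.bijective, ?_⟩
  intro h v
  apply hT.1
  have h1 : T (e.symm (π'.ρ h v)) = π'.ρ h v := e.apply_symm_apply _
  have h2 : T (e.symm v) = v := e.apply_symm_apply _
  show T (e.symm (π'.ρ h v)) = T (π.ρ h (e.symm v))
  rw [h1, hi, h2]

theorem fi_trans {H : Type} [Group H] {π π' π'' : Rp H} (h : Iso π π') (h' : Iso π' π'') : Iso π π'' := by
  obtain ⟨T, hT, hi⟩ := h
  obtain ⟨S, hS, hj⟩ := h'
  refine ⟨S.comp T, hS.comp hT, ?_⟩
  intro h v
  show S (T (π.ρ h v)) = π''.ρ h (S (T v))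
  rw [hi, hj]

theorem fi_cls {P : Pl} {σ τ : Rp (G P)} (h : Irred σ) (h' : SmoothL P σ) (k : Irred τ) (k' : SmoothL P τ) :
    cls σ h h' = cls τ k k' ↔ Iso σ τ := by
  constructor
  · intro e
    have e1 := Quot.eqvGen_exact e
    have key : ∀ a b : {σ : Rp (G P) // Irred σ ∧ SmoothL P σ},
        Relation.EqvGen (fun σ τ : {σ : Rp (G P) // Irred σ ∧ SmoothL P σ} => Iso σ.1 τ.1) a b → Iso a.1 b.1 := by
      intro a b hab
      induction hab with
      | rel _ _ h => exact h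
      | refl _ => exact fi_refl _
      | symm _ _ _ h => exact fi_symm h
      | trans _ _ _ _ _ h h' => exact fi_trans h h'
    exact key _ _ e1
  · intro e
    exact Quot.sound e

/-! ### the adelic group -/

theorem fi_comm (a : G none) (b : AG) (hb : b ∈ Gf) : incl none a * b = b * incl none a := by
  classical
  ext1
  funext P
  show (Pi.mulSingle none a : ∀ P, G P) P * b.1 P = b.1 P * (Pi.mulSingle none a : ∀ P, G P) P
  by_cases h : P = none
  · subst h
    have hb1 : b.1 none = 1 := hb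
    rw [hb1, one_mul, mul_one]
  · rw [Pi.mulSingle_eq_of_ne h, one_mul, mul_one]

theorem fi_incl_same (P : Pl) (a : G P) : (incl P a).1 P = a := by
  classical
  show (Pi.mulSingle P a : ∀ P, G P) P = a
  exact Pi.mulSingle_eq_same _ _

theorem fi_incl_ne (P Q : Pl) (a : G P) (h : Q ≠ P) : (incl P a).1 Q = 1 := by
  classical
  show (Pi.mulSingle P a : ∀ P, G P) Q = 1
  exact Pi.mulSingle_eq_of_ne h _

theorem fi_gen (h : AG) : ∃ a, ∃ b ∈ Gf, h = incl none a * b := by
  refine ⟨h.1 none, (incl none (h.1 none))⁻¹ * h, ?_, by group⟩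
  show ((incl none (h.1 none))⁻¹ * h).1 none = 1
  show ((incl none (h.1 none)).1 none)⁻¹ * h.1 none = 1
  rw [fi_incl_same, inv_mul_cancel]

theorem fi_incl_U (P : Pl) (e : Pl →₀ ℕ) (k : G P) (hk : k ∈ cong P (e P)) : incl P k ∈ U e := by
  intro Q
  by_cases h : Q = P
  · subst h; rw [fi_incl_same]; exact hk
  · rw [fi_incl_ne P Q k h]; exact one_mem _

theorem fi_co {L H V : Type} [Group L] [Group H] [AddCommGroup V] [Module ℂ V] (i : L →* H)
    (ρ : Representation ℂ H V) (S : Subgroup L) : co (ρ.comp i) S = co ρ (S.map i) := by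
  unfold co
  congr 1
  ext w
  constructor
  · rintro ⟨h, hh, u, rfl⟩
    exact ⟨i h, ⟨h, hh, rfl⟩, u, rfl⟩
  · rintro ⟨_, ⟨h, hh, rfl⟩, u, rfl⟩
    exact ⟨h, hh, u, rfl⟩

/-- the data -/
theorem fi_dat (χ : G none → ℂ)
    (hχ : ∀ (V : Type) [AddCommGroup V] [Module ℂ V] (ρ : Representation ℂ (G none) V)
      (x : V), St ρ x → ∀ g, ρ g x - χ g • x ∈ co ρ Iw)
    (hu : UFin) (π : Rp AG) (x : π.V) (hπ : IsAutomorphic π) (hx : x ≠ 0) (hs : St (π.ρ.comp (incl none)) x) :
    Dat (incl none) Gf Iw χ π x := by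
  refine ⟨hπ.1, fi_comm, fi_gen, (hu.2 π hπ.2.1).1, hx, fun s h => hs.1 s h, fun g => ?_⟩
  have := hχ π.V (π.ρ.comp (incl none)) x hs g
  rw [fi_co] at this
  exact this

/-- smoothness of the local components -/
theorem fi_smooth (π : Rp AG) (hπ : SmoothA π) (x : π.V) : SmoothL none (subr (incl none) π x) := by
  intro s
  obtain ⟨e, he⟩ := hπ s.1
  refine ⟨e none, fun k hk => ?_⟩
  apply Subtype.ext
  exact he _ (fi_incl_U none e k hk)

/-! ### trivial representations -/

theorem fi_triv_span {H : Type} [Group H] (σ : Rp H) (h : Irred σ) (ht : ∀ g v, σ.ρ g v = v) (s : σ.V) (hs : s ≠ 0) :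
    ∀ v, ∃ c : ℂ, v = c • s := by
  intro v
  rcases h.2 (Submodule.span ℂ {s}) (fun g w hw => by rw [ht]; exact hw) with h1 | h1
  · exact absurd ((Submodule.span_singleton_eq_bot).1 h1) hs
  · have : v ∈ Submodule.span ℂ {s} := by rw [h1]; trivial
    obtain ⟨c, hc⟩ := Submodule.mem_span_singleton.1 this
    exact ⟨c, hc.symm⟩

/-- two irreducible representations with trivial action are isomorphic -/
theorem fi_triv_iso {H : Type} [Group H] (σ : Rp H) (h : Irred σ) (ht : ∀ g v, σ.ρ g v = v) :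
    Iso (trivR H) σ := by
  haveI := h.1
  obtain ⟨s, hs⟩ := exists_ne (0 : σ.V)
  refine ⟨LinearMap.toSpanSingleton ℂ σ.V s, ⟨?_, ?_⟩, ?_⟩
  · intro a b hab
    have hab' : (show ℂ from a) • s = (show ℂ from b) • s := hab
    exact smul_left_injective ℂ hs hab'
  · intro v
    obtain ⟨c, hc⟩ := fi_triv_span σ h ht s hs v
    exact ⟨c, hc.symm⟩
  · intro g v
    rw [ht]
    rfl

/-- a nonzero intertwining map from a component -/
theorem fi_exT {π : Rp AG} {P : Pl} {σ : Rp (G P)} (hn : Nontrivial π.V) (h : IsComponent π P σ) :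
    ∃ T : σ.V →ₗ[ℂ] π.V, (∀ h s, T (σ.ρ h s) = π.ρ (incl P h) (T s)) ∧ Function.Injective T := by
  obtain ⟨v, hv⟩ := exists_ne (0 : π.V)
  by_contra hcon
  push Not at hcon
  apply hv
  have hz : ∀ T : σ.V →ₗ[ℂ] π.V, (∀ h s, T (σ.ρ h s) = π.ρ (incl P h) (T s)) → T = 0 := by
    intro T hT
    have hni := hcon T hT
    rcases h.1.2 (LinearMap.ker T) (fun g w hw => by
      rw [LinearMap.mem_ker] at hw ⊢; rw [hT, hw, map_zero]) with h1 | h1
    · exact absurd (LinearMap.ker_eq_bot.1 h1) hni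
    · exact LinearMap.ker_eq_top.1 h1
  have hsp := h.2.2 v
  have : Submodule.span ℂ {w | ∃ (T : σ.V →ₗ[ℂ] π.V) (s : σ.V),
    (∀ h s, T (σ.ρ h s) = π.ρ (incl P h) (T s)) ∧ T s = w} ≤ ⊥ := by
    rw [Submodule.span_le]
    rintro w ⟨T, s, hT, rfl⟩
    rw [hz T hT]; simp
  exact (Submodule.mem_bot ℂ).1 (this hsp)

/-- a component of a representation on which the local group acts trivially is trivial -/
theorem fi_comp_triv {π : Rp AG} {P : Pl} {σ : Rp (G P)} (hn : Nontrivial π.V) (h : IsComponent π P σ)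
    (ht : ∀ g v, π.ρ (incl P g) v = v) : ∀ g v, σ.ρ g v = v := by
  obtain ⟨T, hT, hi⟩ := fi_exT hn h
  intro g v
  apply hi
  rw [hT, ht]

theorem fi_triv_irr (H : Type) [Group H] : Irred (trivR H) := by
  refine ⟨inferInstanceAs (Nontrivial ℂ), fun W _ => ?_⟩
  exact eq_bot_or_eq_top (α := Submodule ℂ ℂ) W

theorem fi_triv_comp : IsComponent (trivR AG) none (trivR (G none)) := by
  refine ⟨fi_triv_irr _, fun s => ⟨0, fun k _ => rfl⟩, fun v => ?_⟩
  exact Submodule.subset_span ⟨LinearMap.id, v, fun _ _ => rfl, rfl⟩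

/-- final assembly -/
theorem t_FIN : RepA → RepC → Hec → Typ → Isoo → Unq → UFin → Tri → ¬ ∃ l : Irr none → Irr none, Predicts l := by
  rintro ⟨π1, x1, ha1, hx1, ht1, hs1⟩ ⟨π2, x2, ha2, hc2, hx2, hs2⟩ ⟨χ, hχ⟩ hTyp hIso hUnq hUf hTri ⟨l, hl⟩
  have d1 := fi_dat χ hχ hUf π1 x1 ha1 hx1 hs1
  have d2 := fi_dat χ hχ hUf π2 x2 ha2 hx2 hs2
  obtain ⟨i1, s1, f1⟩ := hTyp _ _ _ _ _ _ _ _ d1
  obtain ⟨i2, s2, f2⟩ := hTyp _ _ _ _ _ _ _ _ d2
  have hσ := hIso _ _ _ _ _ _ _ _ _ _ d1 d2
  have m1 := fi_smooth π1 ha1.2.1 x1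
  have m2 := fi_smooth π2 ha2.2.1 x2
  have c1 : IsComponent π1 none (subr (incl none) π1 x1) := ⟨i1, m1, s1⟩
  have c2 : IsComponent π2 none (subr (incl none) π2 x2) := ⟨i2, m2, s2⟩
  -- the lifting of π1 is the trivial representation
  have L1 : IsLifting π1 (trivR AG) := by
    refine ⟨hTri, ?_⟩
    intro P σ τ hσ' hτ hur
    have hτt : ∀ g v, τ.ρ g v = v := fi_comp_triv (inferInstanceAs (Nontrivial ℂ)) hτ (fun _ _ => rfl)
    have hστ : (∀ g v, σ.ρ g v = v) → Iso σ τ := fun hσt =>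
      fi_trans (fi_symm (fi_triv_iso σ hσ'.1 hσt)) (fi_triv_iso τ hτ.1 hτt)
    cases P with
    | some v =>
      apply hστ
      refine fi_comp_triv ha1.1.1 hσ' ?_
      intro g w
      refine ht1 _ ?_ w
      show (incl (some v) g).1 none = 1
      exact fi_incl_ne _ _ _ (by simp)
    | none =>
      exfalso
      have e : Iso σ (subr (incl none) π1 x1) := hUnq _ _ _ _ _ _ ha1.1.1 hσ'.1 i1 hσ'.2.2 s1
      obtain ⟨T, hT, hi⟩ := e
      obtain ⟨s, hs0, hs⟩ := hur
      have hy0 : T s ≠ 0 := fun h => hs0 (hT.1 (h.trans (map_zero T).symm))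
      have hyk : ∀ k ∈ cong none 0, π1.ρ (incl none k) (T s).1 = (T s).1 := by
        intro k hk
        have := hi k s
        rw [hs k hk] at this
        exact (congrArg Subtype.val this).symm
      obtain ⟨c, hc⟩ := f1 (T s).1 (T s).2 (fun k hk => hyk k hk.1)
      have hc0 : c ≠ 0 := by
        rintro rfl
        rw [zero_smul] at hc
        exact hy0 (Subtype.ext hc)
      have hxk : ∀ k ∈ cong none 0, π1.ρ (incl none k) x1 = x1 := by
        intro k hk
        have := hyk k hk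
        rw [hc, map_smul] at this
        exact smul_right_injective _ hc0 this
      have hsw : sw none ∈ cong none 0 := by
        have hinv : (sw none)⁻¹ = sw none := by
          rw [inv_eq_iff_mul_eq_one]
          ext i j
          fin_cases i <;> fin_cases j <;> simp [sw, Matrix.mul_apply, Fin.sum_univ_two]
        have hent : ∀ i j, vv none ((sw none : Matrix (Fin 2) (Fin 2) (Kv none)) i j
            - (1 : Matrix (Fin 2) (Fin 2) (Kv none)) i j) ≤ exp (-((0 : ℕ) : ℤ)) := by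
          intro i j
          fin_cases i <;> fin_cases j <;> simp [sw]
        exact ⟨hent, by rw [hinv]; exact hent⟩
      have hn : nn none 1 ∈ cong none 0 := tri_int none 1 (by simp)
      have h3 := hs1.2.2.2
      have e1 : (π1.ρ.comp (incl none)) (sw none) x1 = x1 := hxk _ hsw
      have e2 : (π1.ρ.comp (incl none)) (nn none 1 * sw none) x1 = x1 := hxk _ (mul_mem hn hsw)
      rw [e1, e2] at h3
      have h4 : (3 : ℂ) • x1 = 0 := by
        rw [← h3]
        module
      exact hx1 ((smul_eq_zero.1 h4).resolve_left (by norm_num))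
  -- π2 is its own lifting
  have L2 : IsLifting π2 π2 := by
    refine ⟨⟨ha2.1, ha2.2.1, Or.inl hc2⟩, ?_⟩
    intro P σ τ hσ' hτ _
    exact hUnq _ _ _ _ _ _ ha2.1.1 hσ'.1 hτ.1 hσ'.2.2 hτ.2.2
  have p1 := hl π1 (trivR AG) ha1 L1 _ _ c1 fi_triv_comp
  have p2 := hl π2 π2 ha2 L2 _ _ c2 c2
  have q : cls (subr (incl none) π1 x1) c1.1 c1.2.1 = cls (subr (incl none) π2 x2) c2.1 c2.2.1 :=
    (fi_cls _ _ _ _).2 hσ
  rw [q, p2] at p1
  obtain ⟨T, hT, hi⟩ := (fi_cls _ _ _ _).1 p1
  -- the component of π2 would be trivial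
  have ht : ∀ g v, (subr (incl none) π2 x2).ρ g v = v := by
    intro g v
    apply hT.1
    rw [hi]
    rfl
  have hx2m : x2 ∈ spn (incl none) π2 x2 := Submodule.subset_span ⟨1, by simp⟩
  have h5 : π2.ρ (incl none om) x2 = x2 := congrArg Subtype.val (ht om ⟨x2, hx2m⟩)
  have h6 : π2.ρ (incl none om) x2 = -x2 := hs2.2.2.1
  rw [h5] at h6
  have h7 : (2 : ℂ) • x2 = 0 := by
    have h8 : x2 + x2 = 0 := by
      nth_rewrite 1 [h6]
      exact neg_add_cancel _
    rw [two_smul]; exact h8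
  exact hx2 ((smul_eq_zero.1 h7).resolve_left (by norm_num))

end Pool.Agent.H757L
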