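import Pool.Agent.H757L.Defs2

set_option autoImplicit false
set_option linter.all false
noncomputable section

namespace Pool.Agent.H757L

open Polynomial IsDedekindDomain Matrix WithZero

theorem gen_vt : vv none (tP none) = exp (1 : ℤ) := by
  classical
  unfold tP
  rw [emb_val]
  unfold val
  have := RatFunc.inftyValuation.X_zpow (ZMod 2) 1
  rw [zpow_one] at this
  convert this

theorem gen_sw_mem : sw none ∈ cong none 0 := by
  have hi : ((sw none)⁻¹ : G none) = sw none := by
    rw [inv_eq_iff_mul_eq_one]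
    ext i j
    fin_cases i <;> fin_cases j <;> simp [sw, Matrix.mul_apply, Fin.sum_univ_two]
  refine ⟨fun i j => ?_, fun i j => ?_⟩
  · fin_cases i <;> fin_cases j <;> simp [sw]
  · rw [hi]; fin_cases i <;> fin_cases j <;> simp [sw]

theorem gen_tri_mul {F : Type} [Field F] (a d a' d' : Fˣ) (b b' : F) :
    tri a d b * tri a' d' b' = tri (a * a') (d * d') ((a : F) * b' + b * (d' : F)) := by
  ext i j
  fin_cases i <;> fin_cases j <;> simp [tri, Matrix.mul_apply, Fin.sum_univ_two]

theorem gen_diag_mem (u : (Kv none)ˣ) (hu : vv none (u : Kv none) = 1) : tri u 1 0 ∈ cong none 0 := by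
  have hi : ((tri u 1 0)⁻¹ : G none) = tri u⁻¹ 1 0 := by
    rw [inv_eq_iff_mul_eq_one, gen_tri_mul]
    simp only [mul_inv_cancel, mul_one, mul_zero, zero_mul, add_zero]
    ext i j
    fin_cases i <;> fin_cases j <;> simp [tri]
  have h1 : vv none ((u : Kv none) - 1) ≤ 1 := by
    refine (Valuation.map_sub _ _ _).trans (max_le hu.le ?_)
    simp
  have hu' : vv none ((u⁻¹ : (Kv none)ˣ) : Kv none) = 1 := by
    rw [Units.val_inv_eq_inv_val, map_inv₀, hu, inv_one]
  have h2 : vv none (((u⁻¹ : (Kv none)ˣ) : Kv none) - 1) ≤ 1 := by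
    refine (Valuation.map_sub _ _ _).trans (max_le hu'.le ?_)
    simp
  refine ⟨fun i j => ?_, fun i j => ?_⟩
  · fin_cases i <;> fin_cases j <;> simp [tri, h1]
  · rw [hi]
    rw [Units.val_inv_eq_inv_val] at h2
    fin_cases i <;> fin_cases j <;> simp [tri, h2]

theorem gen_omsw : om * sw none = tri (tu none) 1 0 := by
  ext i j
  fin_cases i <;> fin_cases j <;> simp [tri, om, sw, tu, Matrix.mul_apply, Fin.sum_univ_two]

theorem gen_swom : sw none * om = tri 1 (tu none) 0 := by
  ext i j
  fin_cases i <;> fin_cases j <;> simp [tri, om, sw, tu, Matrix.mul_apply, Fin.sum_univ_two]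

theorem t_GEN : GenInf := by
  intro Y h1 hk hs ho
  -- the stabiliser
  let Z : Submonoid (G none) :=
    { carrier := {h | ∀ x ∈ Y, x * h ∈ Y}
      one_mem' := fun x hx => by rw [mul_one]; exact hx
      mul_mem' := by
        intro a b ha hb x hx
        rw [← mul_assoc]
        exact hb _ (ha x hx) }
  have hZk : ∀ k ∈ cong none 0, k ∈ Z := fun k hk' x hx => hk x hx k hk'
  have hZs : ∀ a, sc none a ∈ Z := fun a x hx => hs x hx a
  have hZo : om ∈ Z := fun x hx => ho x hx
  have hsw : sw none ∈ Z := hZk _ gen_sw_mem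
  have ht : tri (tu none) 1 0 ∈ Z := by rw [← gen_omsw]; exact Z.mul_mem hZo hsw
  have ht' : tri (tu none)⁻¹ 1 0 ∈ Z := by
    have e : tri (tu none)⁻¹ 1 0 = sc none (tu none)⁻¹ * (sw none * om) := by
      rw [gen_swom, sc, gen_tri_mul]
      simp
    rw [e]; exact Z.mul_mem (hZs _) (Z.mul_mem hsw hZo)
  have hpow : ∀ (u : (Kv none)ˣ) (n : ℕ), tri u 1 (0 : Kv none) ∈ Z → tri (u ^ n) 1 (0 : Kv none) ∈ Z := by
    intro u n hu
    induction n with
    | zero =>
      have : tri (u ^ 0) 1 (0 : Kv none) = sc none 1 := by rw [pow_zero]; rfl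
      rw [this]; exact hZs 1
    | succ n ih =>
      have e : tri (u ^ (n + 1)) 1 (0 : Kv none) = tri (u ^ n) 1 0 * tri u 1 0 := by
        rw [gen_tri_mul, pow_succ]; simp
      rw [e]; exact Z.mul_mem ih hu
  have hzpow : ∀ n : ℤ, tri ((tu none) ^ n) 1 (0 : Kv none) ∈ Z := by
    intro n
    rcases Int.eq_nat_or_neg n with ⟨m, rfl | rfl⟩
    · rw [zpow_natCast]; exact hpow _ m ht
    · rw [_root_.zpow_neg, ← _root_.inv_zpow, zpow_natCast]; exact hpow _ m ht'
  have hvt : ∀ n : ℤ, vv none (((tu none) ^ n : (Kv none)ˣ) : Kv none) = exp n := by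
    intro n
    rw [Units.val_zpow_eq_zpow_val, map_zpow₀]
    have : ((tu none : (Kv none)ˣ) : Kv none) = tP none := rfl
    rw [this, gen_vt, ← WithZero.exp_zsmul]
    simp
  have hdiag1 : ∀ a : (Kv none)ˣ, tri a 1 (0 : Kv none) ∈ Z := by
    intro a
    rcases vv_cases none (a : Kv none) with h0 | ⟨n, hn⟩
    · exact absurd h0 a.ne_zero
    · have e : tri a 1 (0 : Kv none) = tri ((tu none) ^ n) 1 0 * tri (((tu none) ^ n)⁻¹ * a) 1 0 := by
        rw [gen_tri_mul]; simp
      rw [e]
      refine Z.mul_mem (hzpow n) (hZk _ (gen_diag_mem _ ?_))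
      rw [Units.val_mul, Valuation.map_mul, hn, ← _root_.zpow_neg, hvt, ← WithZero.exp_add]
      simp
  have hdiag : ∀ a d : (Kv none)ˣ, tri a d (0 : Kv none) ∈ Z := by
    intro a d
    have e : tri a d (0 : Kv none) = sc none d * tri (d⁻¹ * a) 1 0 := by
      rw [sc, gen_tri_mul]; simp
    rw [e]; exact Z.mul_mem (hZs d) (hdiag1 _)
  have hnn : ∀ x : Kv none, tri 1 1 x ∈ Z := by
    intro x
    rcases vv_cases none x with rfl | ⟨n, hn⟩
    · exact hdiag1 1
    · have e : tri 1 1 x = tri ((tu none) ^ n) 1 0 *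
          (tri 1 1 ((((tu none) ^ (-n) : (Kv none)ˣ) : Kv none) * x) * tri ((tu none) ^ (-n)) 1 0) := by
        rw [gen_tri_mul, gen_tri_mul]
        congr 1
        · rw [one_mul, _root_.zpow_neg, mul_inv_cancel]
        · simp
        · rw [mul_zero, zero_add, Units.val_one, mul_one, zero_mul, add_zero, ← mul_assoc, ← Units.val_mul,
            _root_.zpow_neg, mul_inv_cancel, Units.val_one, one_mul]
      rw [e]
      refine Z.mul_mem (hzpow n) (Z.mul_mem (hZk _ (tri_int none _ ?_)) (hzpow (-n)))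
      rw [Valuation.map_mul, hvt, hn, ← WithZero.exp_add]
      simp
  have htri : ∀ (a d : (Kv none)ˣ) (b : Kv none), tri a d b ∈ Z := by
    intro a d b
    have e : tri a d b = tri a d 0 * tri 1 1 (((a⁻¹ : (Kv none)ˣ) : Kv none) * b) := by
      rw [gen_tri_mul]; simp [← mul_assoc]
    rw [e]; exact Z.mul_mem (hdiag a d) (hnn _)
  intro g
  have hg : g ∈ Z := by
    have hdet : (g : Matrix (Fin 2) (Fin 2) (Kv none)).det ≠ 0 := by
      have := (Matrix.GeneralLinearGroup.det g).ne_zero
      exact this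
    rw [Matrix.det_fin_two] at hdet
    by_cases hc : (g : Matrix (Fin 2) (Fin 2) (Kv none)) 1 0 = 0
    · rw [hc, mul_zero, sub_zero] at hdet
      have ha := left_ne_zero_of_mul hdet
      have hd := right_ne_zero_of_mul hdet
      have e : g = tri (Units.mk0 _ ha) (Units.mk0 _ hd) ((g : Matrix (Fin 2) (Fin 2) (Kv none)) 0 1) := by
        ext i j
        fin_cases i <;> fin_cases j <;> simp [tri, hc]
      rw [e]; exact htri _ _ _
    · have he : (g : Matrix (Fin 2) (Fin 2) (Kv none)) 0 1 -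
          (g : Matrix (Fin 2) (Fin 2) (Kv none)) 0 0 * (g : Matrix (Fin 2) (Fin 2) (Kv none)) 1 1 /
            (g : Matrix (Fin 2) (Fin 2) (Kv none)) 1 0 ≠ 0 := by
        intro h0
        apply hdet
        field_simp at h0
        linear_combination -h0
      have e : g = tri 1 1 ((g : Matrix (Fin 2) (Fin 2) (Kv none)) 0 0 / (g : Matrix (Fin 2) (Fin 2) (Kv none)) 1 0) *
          (sw none * tri (Units.mk0 _ hc) (Units.mk0 _ he) ((g : Matrix (Fin 2) (Fin 2) (Kv none)) 1 1)) := by
        ext i j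
        fin_cases i <;> fin_cases j <;> simp [tri, sw, Matrix.mul_apply, Fin.sum_univ_two]
        · field_simp
        · field_simp
          ring
      rw [e]; exact Z.mul_mem (hnn _) (Z.mul_mem hsw (htri _ _ _))
  have := hg 1 h1
  rwa [one_mul] at this

end Pool.Agent.H757L
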