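import Pool.Agent.H757L.Dei
import Pool.Agent.H757L.Adm

set_option autoImplicit false
set_option linter.all false
noncomputable section

namespace Pool.Agent.H757L

open Polynomial IsDedekindDomain Matrix WithZero

section
variable {V : Type} [AddCommGroup V] [Module ℂ V] (ρ : Representation ℂ (G none) V) (x : V)

theorem hq_mem (i : G none) (hi : i ∈ Iw) (w : V) : ρ i w - w ∈ co ρ Iw := Submodule.subset_span ⟨i, hi, w, rfl⟩

theorem hq_Iw (i : G none) (hi : i ∈ Iw) (w : V) (hw : w ∈ co ρ Iw) : ρ i w ∈ co ρ Iw := by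
  have := Submodule.add_mem _ (hq_mem ρ i hi w) hw
  simpa using this

theorem hq_om (w : V) (hw : w ∈ co ρ Iw) : ρ om w ∈ co ρ Iw := by
  refine Submodule.span_induction (p := fun w _ => ρ om w ∈ co ρ Iw) ?_ ?_ ?_ ?_ hw
  · rintro _ ⟨h, hh, u, rfl⟩
    rw [map_sub]
    refine Submodule.subset_span ⟨om * h * om⁻¹, dei_conj_Iw h hh, ρ om u, ?_⟩
    rw [← Module.End.mul_apply, ← map_mul, ← Module.End.mul_apply, ← map_mul]
    congr 3
    group
  · simp
  · intro a b _ _ ha hb; rw [map_add]; exact add_mem ha hb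
  · intro c a _ ha; rw [map_smul]; exact Submodule.smul_mem _ c ha

theorem hq_pow (hx : St ρ x) (n : ℕ) : ρ (adm_a n) x - ((1 / 2 : ℂ) ^ n) • x ∈ co ρ Iw := by
  induction n with
  | zero => simp [adm_a_zero]
  | succ n ih =>
    have e := adm_rel' ρ x hx n
    have hy : vv none ((tP none)⁻¹ ^ n) ≤ 1 := by
      rw [adm_val_inv, ← exp_zero]; exact exp_le_exp.2 (by omega)
    have h1 := hq_mem ρ (nn none ((tP none)⁻¹ ^ n)) (dei_nn_Iw _ hy) (ρ (adm_a (n + 1)) x)
    rw [← Module.End.mul_apply, ← map_mul] at h1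
    have h2 := Submodule.smul_mem _ (1 / 2 : ℂ) (Submodule.sub_mem _ ih h1)
    rw [e] at h2
    convert h2 using 1
    rw [pow_succ]
    module

theorem hq_eps (hx : St ρ x) (n ε : ℕ) (hε : ε ≤ 1) :
    ρ (om ^ ε * adm_a n) x - ((-1 : ℂ) ^ ε * (1 / 2 : ℂ) ^ n) • x ∈ co ρ Iw := by
  interval_cases ε
  · simpa using hq_pow ρ x hx n
  · have h := hq_om ρ _ (hq_pow ρ x hx n)
    rw [map_sub, map_smul, hx.2.2.1, ← Module.End.mul_apply, ← map_mul] at h
    convert h using 1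
    rw [pow_one]
    module

end

theorem t_HEC : DecI → Hec := by
  intro hD
  choose i ε n δ i' a hi hi' hε hδ hg using hD
  refine ⟨fun g => (-1 : ℂ) ^ (δ g) * ((-1 : ℂ) ^ (ε g) * (1 / 2 : ℂ) ^ (n g)), ?_⟩
  intro V _ _ ρ x hx g
  have e1 : ρ g x = ((-1 : ℂ) ^ (δ g)) • ρ (i g) (ρ (om ^ (ε g) * adm_a (n g)) x) := by
    have h0 : ρ (om ^ (δ g)) x = ((-1 : ℂ) ^ (δ g)) • x := by
      have := hδ g
      interval_cases (δ g)
      · simp
      · rw [pow_one, pow_one, hx.2.2.1]; module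
    calc ρ g x = ρ (i g * om ^ ε g * tri 1 (tu none ^ n g) 0 * om ^ δ g * i' g * sc none (a g)) x := by rw [← hg g]
      _ = ρ (i g) (ρ (om ^ (ε g) * adm_a (n g)) (ρ (om ^ (δ g)) (ρ (i' g) (ρ (sc none (a g)) x)))) := by
          simp only [map_mul, Module.End.mul_apply, adm_a]
      _ = _ := by rw [hx.2.1, hx.1 _ (hi' g), h0, map_smul, map_smul]
  rw [e1]
  have h1 := hq_Iw ρ (i g) (hi g) _ (hq_eps ρ x hx (n g) (ε g) (hε g))
  rw [map_sub, map_smul] at h1
  have h2 := Submodule.smul_mem _ (((-1 : ℂ) ^ (ε g) * (1 / 2 : ℂ) ^ (n g))) (hq_mem ρ (i g) (hi g) x)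
  have h3 := Submodule.smul_mem _ ((-1 : ℂ) ^ (δ g)) (Submodule.add_mem _ h1 h2)
  convert h3 using 1
  module

end Pool.Agent.H757L
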