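import Pool.Agent.H757L.Defs2

set_option autoImplicit false
set_option linter.all false
noncomputable section

namespace Pool.Agent.H757L

open Polynomial IsDedekindDomain Matrix WithZero

theorem idc_gen (v : HeightOneSpectrum R) : ∃ p : Kˣ, val (some v) (p : K) = exp (-1 : ℤ) ∧
    ∀ w : HeightOneSpectrum R, w ≠ v → val (some w) (p : K) = 1 := by
  obtain ⟨r, hr⟩ := (IsPrincipalIdealRing.principal v.asIdeal).principal
  have hspan : v.asIdeal = Ideal.span {r} := hr
  have hr0 : r ≠ 0 := by
    rintro rfl
    apply v.ne_bot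
    rw [hspan]
    simp
  have hinj : algebraMap R K r ≠ 0 := by
    rw [Ne, map_eq_zero_iff _ (IsFractionRing.injective R K)]
    exact hr0
  refine ⟨Units.mk0 (algebraMap R K r) hinj, ?_, ?_⟩
  · rw [Units.val_mk0]
    show v.valuation K (algebraMap R K r) = _
    rw [HeightOneSpectrum.valuation_of_algebraMap]
    exact v.intValuation_singleton hr0 hspan
  · intro w hw
    rw [Units.val_mk0]
    show w.valuation K (algebraMap R K r) = _
    rw [HeightOneSpectrum.valuation_of_algebraMap, HeightOneSpectrum.intValuation_eq_one_iff]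
    intro hmem
    apply hw
    have hle : v.asIdeal ≤ w.asIdeal := by
      rw [hspan, Ideal.span_le, Set.singleton_subset_iff]
      exact hmem
    have hmax : v.asIdeal.IsMaximal := v.isPrime.isMaximal v.ne_bot
    have heq : v.asIdeal = w.asIdeal := hmax.eq_of_le w.isPrime.ne_top hle
    exact HeightOneSpectrum.ext heq.symm

theorem t_IDC : IdC := by
  classical
  intro x
  choose p hp1 hp2 using idc_gen
  have hfin : {v : HeightOneSpectrum R | vv (some v) (x.1 (some v) : Kv (some v)) ≠ 1}.Finite := by
    have h := x.2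
    have h1 : {P : Pl | vv P (x.1 P : Kv P) ≠ 1}.Finite := h
    exact h1.preimage (Option.some_injective _).injOn
  set n : HeightOneSpectrum R → ℤ := fun v => -WithZero.log (vv (some v) (x.1 (some v) : Kv (some v)))
    with hn
  refine ⟨∏ v ∈ hfin.toFinset, p v ^ n v, fun w => ?_⟩
  rw [emb_val, Units.coe_prod, map_prod]
  have hne : vv (some w) (x.1 (some w) : Kv (some w)) ≠ 0 :=
    (Valuation.ne_zero_iff _).2 (Units.ne_zero _)
  have hterm : ∀ v, val (some w) ((p v ^ n v : Kˣ) : K) =
      if v = w then vv (some w) (x.1 (some w) : Kv (some w)) else 1 := by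
    intro v
    rw [Units.val_zpow_eq_zpow_val, map_zpow₀]
    split_ifs with h
    · subst h
      rw [hp1, ← WithZero.exp_zsmul, hn]
      simp only [smul_eq_mul, mul_neg, mul_one, neg_neg]
      exact exp_log hne
    · rw [hp2 v w (Ne.symm h), _root_.one_zpow]
  rw [Finset.prod_congr rfl fun v _ => hterm v, Finset.prod_ite_eq']
  split_ifs with h
  · rfl
  · rw [Set.Finite.mem_toFinset, Set.mem_setOf_eq, not_not] at h
    exact h

end Pool.Agent.H757L
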