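import Pool.Agent.H757L.Defs2
/-
Project LL (helper757, MP_5ae62c_nt, HARD, weight 10, full negative answer; GL_2 over F_2(t), representation theory in a completely explicit form).
Definitions and statements: Pool/Agent/H757L/Stm.lean, Defs.lean, Api.lean, Defs2.lean on origin/main (Mathlib only, all four compile; copy them to
/workdir/pool/Pool/Agent/H757L/ and run lake build Pool.Agent.H757L.Defs2, about 30 seconds).  Every statement has been checked on paper.
TARGET: prove the theorem below, statement unchanged, no sorry, no axioms.  Put auxiliary lemmas before it in the same namespace (give ALL your lemmas a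
prefix of your own such as iso_, the files are imported together; no straight double quotes anywhere).  Paste the full file back as result of the job.
File name: Pool/Agent/H757L/Iso.lean
If the statement is false or unclear: status='problem' and say why, or message helper757.  Deadline about 21:30 UTC; partial progress: message me.

Notation: K = F_2(t), R = F_2[t]; val P, vv P valuations, exp n (multiplicative ints with zero); emb P : K ->+* Kv P; cong P n congruence subgroups;
tri a d b = (a b; 0 d); nn P x = (1 x; 0 1); sw P = (0 1; 1 0); om = (0 t; 1 0); sc P a scalar; gR P : GL_2(R) -> GL_2(K_P); Iw Iwahori subgroup at infinity.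
We have om^2 = scalar t, sw om = diag(1,t), om sw = diag(t,1), and om normalises Iw.  Api.lean: emb_val, unif, unif_pow, dens, vv_cases, vv_lt_one.

PROOF.
(3a) (for a Dat) if y in V and rho(i g)y is in co(S.map i) for all g in L then y = 0: otherwise x = sum c_j rho(b_j) rho(i a_j) y (irreducibility: the span of the rho(h) y is everything; h = i a * b = b * i a), and
rho(b_j), b_j in G2, preserves co(S.map i) since it commutes with i(S); so x is in co and fixed, x = 0 by Cof (1), contradiction.
Let p, p' : (L ->0 C) -> spn x, spn x' be c -> sum c_j rho(i g_j)x (resp. x').  ker p = {c : for all g, sum_j c_j chi(g g_j) = 0} = ker p': if p c = 0 then 0 = rho(i g) p c = (sum_j c_j chi(g g_j)) x modulo co, so this multiple of x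
is in co and fixed, hence zero and the sum is 0 as x <> 0; conversely if all the sums vanish then rho(i g) p c is in co for all g and p c = 0 by (3a).  p, p' are surjective, so T = p' p^{-1} is a well-defined isomorphism
(LinearMap.quotKerEquivOfSurjective, Submodule.quotEquivOfEq) and intertwines (p (left translate of c) = rho(i g) p c).
-/

set_option autoImplicit false
set_option linter.all false
noncomputable section

namespace Pool.Agent.H757L

open Polynomial IsDedekindDomain Matrix WithZero

theorem iso_co_stable {L H : Type} [Group L] [Group H] (i : L →* H) (G2 : Subgroup H) (S : Subgroup L)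
    {V : Type} [AddCommGroup V] [Module ℂ V] (ρ : Representation ℂ H V)
    (hc : ∀ a, ∀ b ∈ G2, i a * b = b * i a) (b : H) (hb : b ∈ G2) (w : V) (hw : w ∈ co ρ (S.map i)) :
    ρ b w ∈ co ρ (S.map i) := by
  unfold co at *
  refine Submodule.span_induction (p := fun v _ => ρ b v ∈ _) ?_ ?_ ?_ ?_ hw
  · rintro _ ⟨h, hh, u, rfl⟩
    refine Submodule.subset_span ⟨h, hh, ρ b u, ?_⟩
    obtain ⟨s, hs, rfl⟩ := Subgroup.mem_map.1 hh
    rw [map_sub, ← Module.End.mul_apply, ← Module.End.mul_apply, ← map_mul, ← map_mul, hc s b hb]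
  · simp
  · intro u v _ _ hu hv; rw [map_add]; exact add_mem hu hv
  · intro c u _ hu; rw [map_smul]; exact Submodule.smul_mem _ c hu

theorem iso_zero (hcof : Cof) {L H : Type} [Group L] [Group H] (i : L →* H) (G2 : Subgroup H)
    (S : Subgroup L) (χ : L → ℂ) (π : Rp H) (x : π.V) (hd : Dat i G2 S χ π x) (y : π.V)
    (hy : ∀ g, π.ρ (i g) y ∈ co π.ρ (S.map i)) : y = 0 := by
  by_contra hne
  have hfix : ∀ h ∈ S.map i, π.ρ h x = x := by
    intro h hh
    obtain ⟨s, hs, rfl⟩ := Subgroup.mem_map.1 hh
    exact hd.fix s hs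
  refine hd.ne ((hcof H π.V π.ρ (S.map i) hd.lf).1 x hfix ?_)
  have hW : (Submodule.span ℂ (Set.range fun h => π.ρ h y)) = ⊥ ∨
      (Submodule.span ℂ (Set.range fun h => π.ρ h y)) = ⊤ := by
    refine hd.irr.2 _ ?_
    intro h w hw
    refine Submodule.span_induction
      (p := fun v _ => π.ρ h v ∈ Submodule.span ℂ (Set.range fun h => π.ρ h y)) ?_ ?_ ?_ ?_ hw
    · rintro _ ⟨a, rfl⟩
      refine Submodule.subset_span ⟨h * a, ?_⟩
      simp [map_mul]
    · simp
    · intro u v _ _ hu hv; rw [map_add]; exact add_mem hu hv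
    · intro c u _ hu; rw [map_smul]; exact Submodule.smul_mem _ c hu
  have hy0 : y ∈ Submodule.span ℂ (Set.range fun h => π.ρ h y) :=
    Submodule.subset_span ⟨1, by simp⟩
  rcases hW with hW | hW
  · rw [hW, Submodule.mem_bot] at hy0
    exact absurd hy0 hne
  · have hx : x ∈ Submodule.span ℂ (Set.range fun h => π.ρ h y) := by rw [hW]; trivial
    refine (Submodule.span_le.2 ?_) hx
    rintro _ ⟨h, rfl⟩
    obtain ⟨a, b, hb, rfl⟩ := hd.gen h
    have e : π.ρ (i a * b) y = π.ρ b (π.ρ (i a) y) := by
      rw [hd.comm a b hb, map_mul, Module.End.mul_apply]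
    show π.ρ (i a * b) y ∈ co π.ρ (S.map i)
    rw [e]
    exact iso_co_stable i G2 S π.ρ hd.comm b hb _ (hy a)

theorem iso_mod {L H : Type} [Group L] [Group H] (i : L →* H) (G2 : Subgroup H)
    (S : Subgroup L) (χ : L → ℂ) (π : Rp H) (x : π.V) (hd : Dat i G2 S χ π x) (c : L →₀ ℂ) (g : L) :
    π.ρ (i g) (Finsupp.linearCombination ℂ (fun g => π.ρ (i g) x) c)
      - (c.sum fun j a => a * χ (g * j)) • x ∈ co π.ρ (S.map i) := by
  induction c using Finsupp.induction_linear with
  | zero => simp
  | add u v hu hv =>
    rw [Finsupp.sum_add_index' (by simp) (by intro _ _ _; ring), map_add, map_add, add_smul]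
    have := add_mem hu hv
    convert this using 1
    abel
  | single j a =>
    rw [Finsupp.sum_single_index (by simp), Finsupp.linearCombination_single, map_smul, mul_smul, ← smul_sub]
    refine Submodule.smul_mem _ a ?_
    have := hd.eig (g * j)
    rw [map_mul, map_mul, Module.End.mul_apply] at this
    exact this

theorem iso_ker (hcof : Cof) {L H : Type} [Group L] [Group H] (i : L →* H) (G2 : Subgroup H)
    (S : Subgroup L) (χ : L → ℂ) (π : Rp H) (x : π.V) (hd : Dat i G2 S χ π x) (c : L →₀ ℂ) :
    Finsupp.linearCombination ℂ (fun g => π.ρ (i g) x) c = 0 ↔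
      ∀ g, (c.sum fun j a => a * χ (g * j)) = 0 := by
  constructor
  · intro h g
    have h1 := iso_mod i G2 S χ π x hd c g
    rw [h, map_zero, zero_sub] at h1
    have h2 : (c.sum fun j a => a * χ (g * j)) • x ∈ co π.ρ (S.map i) := by
      have := neg_mem h1
      rwa [neg_neg] at this
    have hfix : ∀ h ∈ S.map i, π.ρ h ((c.sum fun j a => a * χ (g * j)) • x)
        = (c.sum fun j a => a * χ (g * j)) • x := by
      intro h hh
      obtain ⟨s, hs, rfl⟩ := Subgroup.mem_map.1 hh
      rw [map_smul, hd.fix s hs]
    have h3 := (hcof H π.V π.ρ (S.map i) hd.lf).1 _ hfix h2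
    rcases smul_eq_zero.1 h3 with h4 | h4
    · exact h4
    · exact absurd h4 hd.ne
  · intro h
    refine iso_zero hcof i G2 S χ π x hd _ ?_
    intro g
    have h1 := iso_mod i G2 S χ π x hd c g
    rwa [h g, zero_smul, sub_zero] at h1

/-- the map from the group algebra -/
def isoP {L H : Type} [Group L] [Group H] (i : L →* H) (π : Rp H) (x : π.V) :
    (L →₀ ℂ) →ₗ[ℂ] (subr i π x).V :=
  (Finsupp.linearCombination ℂ (fun g => π.ρ (i g) x)).codRestrict (spn i π x) (by
    intro c
    have : Finsupp.linearCombination ℂ (fun g => π.ρ (i g) x) c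
        ∈ LinearMap.range (Finsupp.linearCombination ℂ (fun g => π.ρ (i g) x)) := ⟨c, rfl⟩
    rwa [Finsupp.range_linearCombination] at this)

/-- the inclusion -/
def isoV {L H : Type} [Group L] [Group H] (i : L →* H) (π : Rp H) (x : π.V) :
    (subr i π x).V →ₗ[ℂ] π.V := (spn i π x).subtype

theorem isoV_inj {L H : Type} [Group L] [Group H] (i : L →* H) (π : Rp H) (x : π.V) :
    Function.Injective (isoV i π x) := Subtype.val_injective

theorem isoV_P {L H : Type} [Group L] [Group H] (i : L →* H) (π : Rp H) (x : π.V) (c : L →₀ ℂ) :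
    isoV i π x (isoP i π x c) = Finsupp.linearCombination ℂ (fun g => π.ρ (i g) x) c := rfl

theorem isoV_rho {L H : Type} [Group L] [Group H] (i : L →* H) (π : Rp H) (x : π.V) (g : L)
    (v : (subr i π x).V) : isoV i π x ((subr i π x).ρ g v) = π.ρ (i g) (isoV i π x v) := rfl

theorem isoP_surj {L H : Type} [Group L] [Group H] (i : L →* H) (π : Rp H) (x : π.V) :
    Function.Surjective (isoP i π x) := by
  intro v
  have : isoV i π x v ∈ LinearMap.range (Finsupp.linearCombination ℂ (fun g => π.ρ (i g) x)) := by
    rw [Finsupp.range_linearCombination]; exact Subtype.property (show ↥(spn i π x) from v)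
  obtain ⟨c, hc⟩ := this
  exact ⟨c, isoV_inj i π x (by rw [isoV_P]; exact hc)⟩

theorem isoP_trans {L H : Type} [Group L] [Group H] (i : L →* H) (π : Rp H) (x : π.V) (g : L) (c : L →₀ ℂ) :
    isoP i π x (Finsupp.lmapDomain ℂ ℂ (fun j => g * j) c) = (subr i π x).ρ g (isoP i π x c) := by
  apply isoV_inj
  rw [isoV_P, isoV_rho, isoV_P]
  induction c using Finsupp.induction_linear with
  | zero => simp
  | add u v hu hv => rw [map_add, map_add, map_add, map_add, hu, hv]
  | single j a =>
    rw [Finsupp.lmapDomain_apply, Finsupp.mapDomain_single, Finsupp.linearCombination_single,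
      Finsupp.linearCombination_single, map_smul, map_mul, map_mul, Module.End.mul_apply]

theorem isoP_zero {L H : Type} [Group L] [Group H] (i : L →* H) (π : Rp H) (x : π.V) (c : L →₀ ℂ) :
    isoP i π x c = 0 ↔ Finsupp.linearCombination ℂ (fun g => π.ρ (i g) x) c = 0 := by
  rw [← isoV_P]
  constructor
  · intro h; rw [h, map_zero]
  · intro h; apply isoV_inj; rw [h, map_zero]

theorem t_ISO : Cof → Isoo := by
  intro hcof L H _ _ i G2 S χ π x π' x' hd hd'
  have hker : LinearMap.ker (isoP i π x) = LinearMap.ker (isoP i π' x') := by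
    ext c
    rw [LinearMap.mem_ker, LinearMap.mem_ker, isoP_zero, isoP_zero,
      iso_ker hcof i G2 S χ π x hd c, iso_ker hcof i G2 S χ π' x' hd' c]
  let T : (subr i π x).V →ₗ[ℂ] (subr i π' x').V :=
    ((LinearMap.ker (isoP i π x)).liftQ (isoP i π' x') (le_of_eq hker)).comp
      ((isoP i π x).quotKerEquivOfSurjective (isoP_surj i π x)).symm.toLinearMap
  have hT : ∀ c, T (isoP i π x c) = isoP i π' x' c := by
    intro c
    have h1 : ((isoP i π x).quotKerEquivOfSurjective (isoP_surj i π x)).symm (isoP i π x c)
        = (LinearMap.ker (isoP i π x)).mkQ c := by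
      rw [LinearEquiv.symm_apply_eq]
      rfl
    show (LinearMap.ker (isoP i π x)).liftQ (isoP i π' x') (le_of_eq hker)
      (((isoP i π x).quotKerEquivOfSurjective (isoP_surj i π x)).symm (isoP i π x c)) = _
    rw [h1]
    rfl
  refine ⟨T, ⟨?_, ?_⟩, ?_⟩
  · rw [injective_iff_map_eq_zero]
    intro v hv
    obtain ⟨c, rfl⟩ := isoP_surj i π x v
    rw [hT] at hv
    have : c ∈ LinearMap.ker (isoP i π' x') := hv
    rw [← hker] at this
    exact this
  · intro v
    obtain ⟨c, rfl⟩ := isoP_surj i π' x' v
    exact ⟨isoP i π x c, hT c⟩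
  · intro h v
    obtain ⟨c, rfl⟩ := isoP_surj i π x v
    rw [← isoP_trans, hT, hT, isoP_trans]

end Pool.Agent.H757L
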