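import Pool.Agent.H757L.Defs2

set_option autoImplicit false
set_option linter.all false
noncomputable section

namespace Pool.Agent.H757L

open Polynomial IsDedekindDomain Matrix WithZero

theorem itg_entry (x : K) (h : ∀ v : HeightOneSpectrum R, vv (some v) (emb (some v) x) ≤ 1) :
    ∃ y : R, algebraMap R K y = x := by
  have h1 : ∀ v : HeightOneSpectrum R, v.valuation K x ≤ 1 := by
    intro v
    have h2 := h v
    rw [emb_val] at h2
    exact h2
  exact HeightOneSpectrum.mem_integers_of_valuation_le_one K x h1

theorem itg_inj : Function.Injective (algebraMap R K) := IsFractionRing.injective R K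

theorem itg_mul (A B : Matrix (Fin 2) (Fin 2) R) (C D : Matrix (Fin 2) (Fin 2) K)
    (hA : ∀ i j, algebraMap R K (A i j) = C i j) (hB : ∀ i j, algebraMap R K (B i j) = D i j)
    (h : C * D = 1) : A * B = 1 := by
  have hC : A.map (algebraMap R K) = C := by
    ext i j
    exact hA i j
  have hD : B.map (algebraMap R K) = D := by
    ext i j
    exact hB i j
  have hm : Function.Injective (fun M : Matrix (Fin 2) (Fin 2) R => M.map (algebraMap R K)) :=
    Matrix.map_injective itg_inj
  apply hm
  show (A * B).map (algebraMap R K) = (1 : Matrix (Fin 2) (Fin 2) R).map (algebraMap R K)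
  rw [Matrix.map_mul, hC, hD, h, Matrix.map_one _ (map_zero _) (map_one _)]

theorem t_ITG : Itg := by
  intro γ hγ
  have h1 : ∀ i j, ∃ y : R, algebraMap R K y = (γ : Matrix (Fin 2) (Fin 2) K) i j := by
    intro i j
    apply itg_entry
    intro v
    exact int_entry (some v) _ (hγ v) i j
  have h2 : ∀ i j, ∃ y : R, algebraMap R K y = ((γ⁻¹ : GL (Fin 2) K) : Matrix (Fin 2) (Fin 2) K) i j := by
    intro i j
    apply itg_entry
    intro v
    have h3 := inv_mem (hγ v)
    rw [← map_inv] at h3
    exact int_entry (some v) _ h3 i j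
  choose A hA using h1
  choose B hB using h2
  refine ⟨⟨Matrix.of A, Matrix.of B, ?_, ?_⟩, ?_⟩
  · exact itg_mul _ _ _ _ hA hB (by rw [← Units.val_mul, mul_inv_cancel, Units.val_one])
  · exact itg_mul _ _ _ _ hB hA (by rw [← Units.val_mul, inv_mul_cancel, Units.val_one])
  · ext i j
    exact hA i j

end Pool.Agent.H757L
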