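import Pool.Agent.H757L.Defs2
/-
Project LL (helper757, MP_5ae62c_nt, HARD, weight 10, full negative answer; GL_2 over F_2(t), representation theory in a completely explicit form).
Definitions and statements: Pool/Agent/H757L/Stm.lean, Defs.lean, Api.lean, Defs2.lean on origin/main (Mathlib only, all four compile; copy them to
/workdir/pool/Pool/Agent/H757L/ and run lake build Pool.Agent.H757L.Defs2, about 30 seconds).  Every statement has been checked on paper.
TARGET: prove the theorem below, statement unchanged, no sorry, no axioms.  Put auxiliary lemmas before it in the same namespace (give ALL your lemmas a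
prefix of your own such as iwa_, the files are imported together; no straight double quotes anywhere).  Paste the full file back as result of the job.
File name: Pool/Agent/H757L/Iwa.lean
If the statement is false or unclear: status='problem' and say why, or message helper757.  Deadline about 21:30 UTC; partial progress: message me.

Notation: K = F_2(t), R = F_2[t]; val P, vv P valuations, exp n (multiplicative ints with zero); emb P : K ->+* Kv P; cong P n congruence subgroups;
tri a d b = (a b; 0 d); nn P x = (1 x; 0 1); sw P = (0 1; 1 0); om = (0 t; 1 0); sc P a scalar; gR P : GL_2(R) -> GL_2(K_P); Iw Iwahori subgroup at infinity.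
We have om^2 = scalar t, sw om = diag(1,t), om sw = diag(t,1), and om normalises Iw.  Api.lean: emb_val, unif, unif_pow, dens, vv_cases, vv_lt_one.

PROOF.
g = (p q; r s) with bottom row (r,s) <> 0.  If vv r <= vv s: s <> 0, k = (1 0; r/s 1) in cong P 0 (inverse (1 0; -r/s 1)), g k^-1 is upper triangular (bottom row (0,s)), invertible, so = tri a d b.  If vv r > vv s: apply the first case to g sw.
-/

set_option autoImplicit false
set_option linter.all false
noncomputable section

namespace Pool.Agent.H757L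

open Polynomial IsDedekindDomain Matrix WithZero

/-- the matrix (1 0; x 1) -/
def iwa_low (P : Pl) (x : Kv P) : G P :=
  Matrix.GeneralLinearGroup.mkOfDetNeZero !![1, 0; x, 1] (by simp [Matrix.det_fin_two_of])

theorem iwa_low_int (P : Pl) (x : Kv P) (hx : vv P x ≤ 1) : iwa_low P x ∈ cong P 0 := by
  have hi : ((iwa_low P x)⁻¹ : G P) = iwa_low P (-x) := by
    rw [inv_eq_iff_mul_eq_one]
    ext i j
    fin_cases i <;> fin_cases j <;> simp [iwa_low, Matrix.mul_apply, Fin.sum_univ_two]
  refine ⟨fun i j => ?_, fun i j => ?_⟩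
  · fin_cases i <;> fin_cases j <;> simp [iwa_low, hx]
  · rw [hi]; fin_cases i <;> fin_cases j <;> simp [iwa_low, hx]

theorem iwa_sw_sq (P : Pl) : sw P * sw P = 1 := by
  ext i j
  fin_cases i <;> fin_cases j <;> simp [sw, Matrix.mul_apply, Fin.sum_univ_two]

theorem iwa_sw_int (P : Pl) : sw P ∈ cong P 0 := by
  have hi : ((sw P)⁻¹ : G P) = sw P := by
    rw [inv_eq_iff_mul_eq_one]; exact iwa_sw_sq P
  have h1 : ∀ i j, vv P ((sw P : Matrix (Fin 2) (Fin 2) (Kv P)) i j
      - (1 : Matrix (Fin 2) (Fin 2) (Kv P)) i j) ≤ exp (-((0 : ℕ) : ℤ)) := by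
    intro i j
    fin_cases i <;> fin_cases j <;> simp [sw]
  refine ⟨h1, fun i j => ?_⟩
  rw [hi]; exact h1 i j

theorem iwa_case (P : Pl) (g : G P)
    (h : vv P ((g : Matrix (Fin 2) (Fin 2) (Kv P)) 1 0) ≤ vv P ((g : Matrix (Fin 2) (Fin 2) (Kv P)) 1 1)) :
    ∃ (a d : (Kv P)ˣ) (b : Kv P) (k : G P), k ∈ cong P 0 ∧ g = tri a d b * k := by
  have hdet : (g : Matrix (Fin 2) (Fin 2) (Kv P)) 0 0 * (g : Matrix (Fin 2) (Fin 2) (Kv P)) 1 1
      - (g : Matrix (Fin 2) (Fin 2) (Kv P)) 0 1 * (g : Matrix (Fin 2) (Fin 2) (Kv P)) 1 0 ≠ 0 := by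
    rw [← Matrix.det_fin_two]
    exact g.det_ne_zero
  set p := (g : Matrix (Fin 2) (Fin 2) (Kv P)) 0 0 with hp
  set q := (g : Matrix (Fin 2) (Fin 2) (Kv P)) 0 1 with hq
  set r := (g : Matrix (Fin 2) (Fin 2) (Kv P)) 1 0 with hr
  set s := (g : Matrix (Fin 2) (Fin 2) (Kv P)) 1 1 with hs
  have hs0 : s ≠ 0 := by
    intro h0
    rw [h0, map_zero, le_zero_iff, Valuation.zero_iff] at h
    apply hdet
    rw [h0, h]; ring
  have ha0 : (p * s - q * r) / s ≠ 0 := div_ne_zero hdet hs0
  refine ⟨Units.mk0 _ ha0, Units.mk0 s hs0, q, iwa_low P (r / s), iwa_low_int P _ ?_, ?_⟩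
  · rw [map_div₀]
    exact div_le_one_of_le₀ h zero_le'
  · ext i j
    fin_cases i <;> fin_cases j
    · simp [tri, iwa_low, Matrix.mul_apply, Fin.sum_univ_two, ← hp]
      field_simp
      ring
    · simp [tri, iwa_low, Matrix.mul_apply, Fin.sum_univ_two, ← hq]
    · simp [tri, iwa_low, Matrix.mul_apply, Fin.sum_univ_two, ← hr]
      field_simp
    · simp [tri, iwa_low, Matrix.mul_apply, Fin.sum_univ_two, ← hs]

theorem t_IWA : Iwas := by
  intro P g
  rcases le_total (vv P ((g : Matrix (Fin 2) (Fin 2) (Kv P)) 1 0))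
    (vv P ((g : Matrix (Fin 2) (Fin 2) (Kv P)) 1 1)) with h | h
  · exact iwa_case P g h
  · have e1 : ((g * sw P : G P) : Matrix (Fin 2) (Fin 2) (Kv P)) 1 0
        = (g : Matrix (Fin 2) (Fin 2) (Kv P)) 1 1 := by
      simp [sw, Matrix.mul_apply, Fin.sum_univ_two]
    have e2 : ((g * sw P : G P) : Matrix (Fin 2) (Fin 2) (Kv P)) 1 1
        = (g : Matrix (Fin 2) (Fin 2) (Kv P)) 1 0 := by
      simp [sw, Matrix.mul_apply, Fin.sum_univ_two]
    obtain ⟨a, d, b, k, hk, hg⟩ := iwa_case P (g * sw P) (by rw [e1, e2]; exact h)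
    refine ⟨a, d, b, k * sw P, mul_mem hk (iwa_sw_int P), ?_⟩
    rw [← mul_assoc, ← hg, mul_assoc, iwa_sw_sq, mul_one]

end Pool.Agent.H757L
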