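import Pool.Agent.H757L.Defs2

set_option autoImplicit false
set_option linter.all false
noncomputable section

namespace Pool.Agent.H757L

open Polynomial IsDedekindDomain Matrix WithZero

theorem nfu_valpoly (p : R) (hp : p ≠ 0) :
    vv none (emb none (algebraMap R K p)) = exp (p.natDegree : ℤ) := by
  classical
  rw [emb_val]
  have h := RatFunc.inftyValuation.polynomial (F := ZMod 2) hp
  rw [← RatFunc.inftyValuation_apply] at h
  unfold val
  convert h

theorem nfu_valt : vv none (tP none) = exp (1 : ℤ) := by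
  unfold tP
  rw [emb_val]
  unfold val
  convert RatFunc.inftyValuation.X (F := ZMod 2) using 2

theorem nfu_det_cong (k : G none) (hk : k ∈ cong none 0) :
    vv none ((k : Matrix (Fin 2) (Fin 2) (Kv none)) 0 0 * (k : Matrix (Fin 2) (Fin 2) (Kv none)) 1 1
      - (k : Matrix (Fin 2) (Fin 2) (Kv none)) 0 1 * (k : Matrix (Fin 2) (Fin 2) (Kv none)) 1 0) = 1 := by
  have hle : ∀ g : G none, g ∈ cong none 0 → vv none ((g : Matrix (Fin 2) (Fin 2) (Kv none)).det) ≤ 1 := by
    intro g hg
    rw [Matrix.det_fin_two]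
    refine (Valuation.map_sub _ _ _).trans (max_le ?_ ?_)
    · rw [Valuation.map_mul]
      exact mul_le_one' (int_entry none _ hg 0 0) (int_entry none _ hg 1 1)
    · rw [Valuation.map_mul]
      exact mul_le_one' (int_entry none _ hg 0 1) (int_entry none _ hg 1 0)
  rw [← Matrix.det_fin_two]
  have h1 := hle k hk
  have h2 := hle k⁻¹ (inv_mem hk)
  have h3 : vv none ((k : Matrix (Fin 2) (Fin 2) (Kv none)).det) *
      vv none (((k⁻¹ : G none) : Matrix (Fin 2) (Fin 2) (Kv none)).det) = 1 := by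
    rw [← Valuation.map_mul, ← Matrix.det_mul]
    have : (k : Matrix (Fin 2) (Fin 2) (Kv none)) * ((k⁻¹ : G none) : Matrix (Fin 2) (Fin 2) (Kv none)) = 1 := by
      rw [← Units.val_mul]; simp
    rw [this]; simp
  refine le_antisymm h1 ?_
  calc (1 : WithZero (Multiplicative ℤ)) = _ := h3.symm
    _ ≤ vv none ((k : Matrix (Fin 2) (Fin 2) (Kv none)).det) * 1 := mul_le_mul' le_rfl h2
    _ = _ := mul_one _

theorem nfu_entry (γ : GL (Fin 2) R) (i j : Fin 2) :
    ((gR none γ : G none) : Matrix (Fin 2) (Fin 2) (Kv none)) i j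
      = emb none (algebraMap R K ((γ : Matrix (Fin 2) (Fin 2) R) i j)) := by
  rfl

theorem nfu_uniq (γ : GL (Fin 2) R) (m l : ℕ) (k : G none) (a : (Kv none)ˣ) (hk : k ∈ cong none 0)
    (h : tri (tu none ^ m) 1 0 * k * sc none a = gR none γ * tri (tu none ^ l) 1 0) : m = l := by
  have hv := congrArg (fun g : G none => (g : Matrix (Fin 2) (Fin 2) (Kv none))) h
  simp only [Units.val_mul] at hv
  have ht : ∀ n : ℕ, vv none (((tu none ^ n : (Kv none)ˣ) : Kv none)) = exp (n : ℤ) := by
    intro n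
    rw [Units.val_pow_eq_pow_val]
    show vv none (tP none ^ n) = _
    rw [Valuation.map_pow, nfu_valt, ← WithZero.exp_nsmul]; simp
  -- entries
  set A := (k : Matrix (Fin 2) (Fin 2) (Kv none)) with hA
  set B := (γ : Matrix (Fin 2) (Fin 2) R) with hB
  set T : Kv none := ((tu none ^ m : (Kv none)ˣ) : Kv none) with hT
  set T' : Kv none := ((tu none ^ l : (Kv none)ˣ) : Kv none) with hT'
  let e : R → Kv none := fun p => emb none (algebraMap R K p)
  have e00 : T * A 0 0 * (a : Kv none) = e (B 0 0) * T' := by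
    have := congrFun (congrFun hv 0) 0
    simp only [Matrix.mul_apply, Fin.sum_univ_two, tri, sc, Matrix.GeneralLinearGroup.mkOfDetNeZero,
      nfu_entry] at this
    simp [Matrix.GeneralLinearGroup.mkOfDetNeZero, Matrix.unitOfDetInvertible, Matrix.GeneralLinearGroup.mk'] at this
    try rw [hT]
    try rw [hT']
    try rw [Units.val_pow_eq_pow_val]
    try rw [Units.val_pow_eq_pow_val]
    exact this
  have e10 : A 1 0 * (a : Kv none) = e (B 1 0) * T' := by
    have := congrFun (congrFun hv 1) 0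
    simp only [Matrix.mul_apply, Fin.sum_univ_two, tri, sc, Matrix.GeneralLinearGroup.mkOfDetNeZero,
      nfu_entry] at this
    simp [Matrix.GeneralLinearGroup.mkOfDetNeZero, Matrix.unitOfDetInvertible, Matrix.GeneralLinearGroup.mk'] at this
    try rw [hT]
    try rw [hT']
    try rw [Units.val_pow_eq_pow_val]
    try rw [Units.val_pow_eq_pow_val]
    exact this
  have e01 : T * A 0 1 * (a : Kv none) = e (B 0 1) := by
    have := congrFun (congrFun hv 0) 1
    simp only [Matrix.mul_apply, Fin.sum_univ_two, tri, sc, Matrix.GeneralLinearGroup.mkOfDetNeZero,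
      nfu_entry] at this
    simp [Matrix.GeneralLinearGroup.mkOfDetNeZero, Matrix.unitOfDetInvertible, Matrix.GeneralLinearGroup.mk'] at this
    try rw [hT]
    try rw [hT']
    try rw [Units.val_pow_eq_pow_val]
    try rw [Units.val_pow_eq_pow_val]
    exact this
  have e11 : A 1 1 * (a : Kv none) = e (B 1 1) := by
    have := congrFun (congrFun hv 1) 1
    simp only [Matrix.mul_apply, Fin.sum_univ_two, tri, sc, Matrix.GeneralLinearGroup.mkOfDetNeZero,
      nfu_entry] at this
    simp [Matrix.GeneralLinearGroup.mkOfDetNeZero, Matrix.unitOfDetInvertible, Matrix.GeneralLinearGroup.mk'] at this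
    try rw [hT]
    try rw [hT']
    try rw [Units.val_pow_eq_pow_val]
    try rw [Units.val_pow_eq_pow_val]
    exact this
  -- determinant of B
  have hBdet : IsUnit (B.det) := by
    have := γ.isUnit
    exact (Matrix.isUnit_iff_isUnit_det _).1 this
  have hBne : B.det ≠ 0 := hBdet.ne_zero
  have hBdeg : (B.det).natDegree = 0 := Polynomial.natDegree_eq_zero_of_isUnit hBdet
  have hBv : vv none (e (B.det)) = 1 := by
    show vv none (emb none (algebraMap R K (B.det))) = 1
    rw [nfu_valpoly _ hBne, hBdeg]; simp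
  have hBe : e (B.det) = e (B 0 0) * e (B 1 1) - e (B 0 1) * e (B 1 0) := by
    show emb none (algebraMap R K (B.det)) = _
    rw [Matrix.det_fin_two]; simp [e]
  obtain ⟨z, hz⟩ : ∃ z : ℤ, vv none (a : Kv none) = exp z := by
    rcases vv_cases none (a : Kv none) with h0 | h0
    · exact absurd h0 a.ne_zero
    · exact h0
  -- determinant equation
  have hdet : T * (A 0 0 * A 1 1 - A 0 1 * A 1 0) * (a : Kv none) * (a : Kv none) = e (B.det) * T' := by
    rw [hBe]
    linear_combination (A 1 1 * (a : Kv none)) * e00 + (e (B 0 0) * T') * e11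
      - (A 1 0 * (a : Kv none)) * e01 - (e (B 0 1)) * e10
  have hval := congrArg (vv none) hdet
  simp only [Valuation.map_mul] at hval
  rw [nfu_det_cong k hk, hBv, hT, hT', ht, ht, hz, one_mul, mul_one, ← exp_add, ← exp_add, exp_inj] at hval
  -- hval : m + z + z = l
  have key : ∀ (x : Kv none) (p : R) (y : Kv none) (c d : ℤ), p ≠ 0 → vv none x ≤ 1 →
      vv none y = exp c → e p * y = x * (a : Kv none) → (p.natDegree : ℤ) + c ≤ z := by
    intro x p y c d hp hx hy hxy
    have := congrArg (vv none) hxy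
    simp only [Valuation.map_mul] at this
    rw [show vv none (e p) = exp (p.natDegree : ℤ) from nfu_valpoly p hp, hy, hz, ← exp_add] at this
    rw [← exp_le_exp, this]
    calc _ ≤ 1 * exp z := mul_le_mul' hx le_rfl
      _ = _ := one_mul _
  by_cases hr : B 1 0 = 0
  · have hd : B.det = B 0 0 * B 1 1 := by rw [Matrix.det_fin_two, hr]; ring
    have hp : B 0 0 ≠ 0 := by
      intro h0; rw [h0, zero_mul] at hd; exact hBne hd
    have hs : B 1 1 ≠ 0 := by
      intro h0; rw [h0, mul_zero] at hd; exact hBne hd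
    have h1 : (((B 1 1).natDegree : ℤ)) + 0 ≤ z := by
      refine key (A 1 1) (B 1 1) 1 0 0 hs (int_entry none k hk 1 1) (by simp) ?_
      rw [mul_one]; exact e11.symm
    have h2 : vv none (T * A 0 0 * (a : Kv none)) = vv none (e (B 0 0) * T') := by rw [e00]
    simp only [Valuation.map_mul] at h2
    rw [hT, hT', ht, ht, hz, show vv none (e (B 0 0)) = exp ((B 0 0).natDegree : ℤ) from nfu_valpoly _ hp,
      ← exp_add] at h2
    have h3 : exp (((B 0 0).natDegree : ℤ) + (l : ℤ)) ≤ exp ((m : ℤ) + z) := by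
      rw [← h2, exp_add]
      calc exp (m : ℤ) * vv none (A 0 0) * exp z ≤ exp (m : ℤ) * 1 * exp z :=
            mul_le_mul' (mul_le_mul' le_rfl (int_entry none k hk 0 0)) le_rfl
        _ = _ := by rw [mul_one]
    rw [exp_le_exp] at h3
    omega
  · have h1 : (((B 1 0).natDegree : ℤ)) + (l : ℤ) ≤ z := by
      refine key (A 1 0) (B 1 0) T' l 0 hr (int_entry none k hk 1 0) (ht l) ?_
      exact e10.symm
    omega

/-- the relation -/
def nfu_rel (m : ℕ) (g : G none) : Prop :=
  ∃ (γ : GL (Fin 2) R) (k : G none) (a : (Kv none)ˣ), k ∈ cong none 0 ∧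
    g = gR none γ * tri (tu none ^ m) 1 0 * k * sc none a

theorem nfu_sc_comm (a : (Kv none)ˣ) (g : G none) : sc none a * g = g * sc none a := by
  ext i j
  fin_cases i <;> fin_cases j <;>
    simp [sc, tri, Matrix.mul_apply, Fin.sum_univ_two, mul_comm]

theorem nfu_sc_mul (a b : (Kv none)ˣ) : sc none a * sc none b = sc none (a * b) := by
  ext i j
  fin_cases i <;> fin_cases j <;>
    simp [sc, tri, Matrix.mul_apply, Fin.sum_univ_two]

theorem nfu_sc_one : sc none 1 = 1 := by
  ext i j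
  fin_cases i <;> fin_cases j <;>
    simp [sc, tri]

theorem nfu_sw_mem : sw none ∈ cong none 0 := by
  have hi : (sw none)⁻¹ = sw none := by
    rw [inv_eq_iff_mul_eq_one]
    ext i j
    fin_cases i <;> fin_cases j <;> simp [sw, Matrix.mul_apply, Fin.sum_univ_two]
  have h : ∀ i j, vv none ((sw none : Matrix (Fin 2) (Fin 2) (Kv none)) i j
      - (1 : Matrix (Fin 2) (Fin 2) (Kv none)) i j) ≤ exp (-((0 : ℕ) : ℤ)) := by
    intro i j
    fin_cases i <;> fin_cases j <;> simp [sw]
  exact ⟨h, by rw [hi]; exact h⟩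

theorem nfu_om (m : ℕ) : tri (tu none ^ m) 1 0 * om = tri (tu none ^ (m + 1)) 1 0 * sw none := by
  ext i j
  fin_cases i <;> fin_cases j <;>
    simp [om, sw, tri, tu, Matrix.mul_apply, Fin.sum_univ_two, pow_succ]

theorem nfu_ex (hD : DecG) (g : G none) : ∃ m, nfu_rel m g := by
  obtain ⟨γ, n, δ, i, a, hδ, hi, hg⟩ := hD g
  have hi' : i ∈ cong none 0 := hi.1
  interval_cases δ
  · exact ⟨n, γ, i, a, hi', by rw [hg]; simp⟩
  · refine ⟨n + 1, γ, sw none * i, a, mul_mem nfu_sw_mem hi', ?_⟩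
    rw [hg, pow_one, mul_assoc (gR none γ) _ om, nfu_om]
    simp only [mul_assoc]

theorem nfu_un (m l : ℕ) (g : G none) (hm : nfu_rel m g) (hl : nfu_rel l g) : m = l := by
  obtain ⟨γ, k, a, hk, hg⟩ := hm
  obtain ⟨γ', k', a', hk', hg'⟩ := hl
  refine nfu_uniq (γ⁻¹ * γ') m l (k * k'⁻¹) (a * a'⁻¹) (mul_mem hk (inv_mem hk')) ?_
  have h1 : gR none γ * tri (tu none ^ m) 1 0 * k * sc none a
      = gR none γ' * tri (tu none ^ l) 1 0 * k' * sc none a' := by rw [← hg, ← hg']
  have h2 : (sc none a') * sc none (a'⁻¹) = 1 := by rw [nfu_sc_mul, mul_inv_cancel, nfu_sc_one]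
  have h3 : tri (tu none ^ m) 1 0 * k * sc none a
      = (gR none γ)⁻¹ * (gR none γ' * tri (tu none ^ l) 1 0 * k' * sc none a') := by
    rw [← h1]; group
  calc tri (tu none ^ m) 1 0 * (k * k'⁻¹) * sc none (a * a'⁻¹)
      = tri (tu none ^ m) 1 0 * k * (k'⁻¹ * sc none a) * sc none a'⁻¹ := by
        rw [← nfu_sc_mul]; simp only [mul_assoc]
    _ = tri (tu none ^ m) 1 0 * k * (sc none a * k'⁻¹) * sc none a'⁻¹ := by
        rw [nfu_sc_comm]
    _ = (tri (tu none ^ m) 1 0 * k * sc none a) * k'⁻¹ * sc none a'⁻¹ := by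
        simp only [mul_assoc]
    _ = ((gR none γ)⁻¹ * (gR none γ' * tri (tu none ^ l) 1 0 * k' * sc none a')) * k'⁻¹ * sc none a'⁻¹ := by
        rw [h3]
    _ = ((gR none γ)⁻¹ * (gR none γ' * tri (tu none ^ l) 1 0 * k' * (sc none a' * k'⁻¹))) * sc none a'⁻¹ := by
        simp only [mul_assoc]
    _ = ((gR none γ)⁻¹ * (gR none γ' * tri (tu none ^ l) 1 0 * k' * (k'⁻¹ * sc none a'))) * sc none a'⁻¹ := by
        rw [nfu_sc_comm]
    _ = (gR none γ)⁻¹ * (gR none γ' * tri (tu none ^ l) 1 0) * (k' * k'⁻¹) * (sc none a' * sc none a'⁻¹) := by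
        simp only [mul_assoc]
    _ = gR none (γ⁻¹ * γ') * tri (tu none ^ l) 1 0 := by
        rw [h2, mul_inv_cancel, map_mul, map_inv]; simp only [mul_assoc, mul_one]

theorem t_NFU : DecG → NFun := by
  intro hD
  choose n hn using nfu_ex hD
  refine ⟨n, ?_, ?_, ?_, ?_⟩
  · intro γ g
    refine nfu_un _ _ (gR none γ * g) (hn _) ?_
    obtain ⟨γ', k, a, hk, hg⟩ := hn g
    refine ⟨γ * γ', k, a, hk, ?_⟩
    conv_lhs => rw [hg]
    rw [map_mul]; simp only [mul_assoc]
  · intro g k hk
    refine nfu_un _ _ (g * k) (hn _) ?_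
    obtain ⟨γ', k', a, hk', hg⟩ := hn g
    refine ⟨γ', k' * k, a, mul_mem hk' hk, ?_⟩
    conv_lhs => rw [hg]
    rw [mul_assoc _ (sc none a) k, nfu_sc_comm]; simp only [mul_assoc]
  · intro g b
    refine nfu_un _ _ (g * sc none b) (hn _) ?_
    obtain ⟨γ', k', a, hk', hg⟩ := hn g
    refine ⟨γ', k', a * b, hk', ?_⟩
    conv_lhs => rw [hg]
    rw [← nfu_sc_mul]; simp only [mul_assoc]
  · intro m
    refine nfu_un _ _ _ (hn _) ?_
    refine ⟨1, 1, 1, one_mem _, ?_⟩
    rw [nfu_sc_one]; simp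

end Pool.Agent.H757L
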