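import Pool.Agent.H757L.Defs2
/-
Project LL (helper757, MP_5ae62c_nt, HARD, weight 10, full negative answer; GL_2 over F_2(t), representation theory in a completely explicit form).
Definitions and statements: Pool/Agent/H757L/Stm.lean, Defs.lean, Api.lean, Defs2.lean on origin/main (Mathlib only, all four compile; copy them to
/workdir/pool/Pool/Agent/H757L/ and run lake build Pool.Agent.H757L.Defs2, about 30 seconds).  Every statement has been checked on paper.
TARGET: prove the theorem below, statement unchanged, no sorry, no axioms.  Put auxiliary lemmas before it in the same namespace (give ALL your lemmas a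
prefix of your own such as ph1_, the files are imported together; no straight double quotes anywhere).  Paste the full file back as result of the job.
File name: Pool/Agent/H757L/Ph1.lean
If the statement is false or unclear: status='problem' and say why, or message helper757.  Deadline about 21:30 UTC; partial progress: message me.

Notation: K = F_2(t), R = F_2[t]; val P, vv P valuations, exp n (multiplicative ints with zero); emb P : K ->+* Kv P; cong P n congruence subgroups;
tri a d b = (a b; 0 d); nn P x = (1 x; 0 1); sw P = (0 1; 1 0); om = (0 t; 1 0); sc P a scalar; gR P : GL_2(R) -> GL_2(K_P); Iw Iwahori subgroup at infinity.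
We have om^2 = scalar t, sw om = diag(1,t), om sw = diag(t,1), and om normalises Iw.  Api.lean: emb_val, unif, unif_pow, dens, vv_cases, vv_lt_one.

PROOF.
Ext with Phi(g,kappa) = w(g) gives phi with LeftInv and phi u = w(u none) for IntF u.  For any g = gamma u (Cla; LMul) and h in AG whose finite components are in cong P 0: g h = gamma (u h), IntF (u h), so phi(g h) = w(u_none h_none), phi g = w(u_none)
(LeftInv).  With h = incl none (..) (components 1 at the finite places) this gives StC phi 1 from StF w 1; with h in Uf: invariance; U e with e = single none 1: the component at none is in cong none 1 <= Iw and the others are integral.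
-/

set_option autoImplicit false
set_option linter.all false
noncomputable section

namespace Pool.Agent.H757L

open Polynomial IsDedekindDomain Matrix WithZero

theorem ph1_cong_mono (P : Pl) (g : G P) (h : g ∈ cong P 1) : g ∈ cong P 0 := by
  have e : (exp (-((1 : ℕ) : ℤ)) : WithZero (Multiplicative ℤ)) ≤ exp (-((0 : ℕ) : ℤ)) :=
    exp_le_exp.2 (by norm_num)
  exact ⟨fun i j => (h.1 i j).trans e, fun i j => (h.2 i j).trans e⟩

theorem ph1_iw (g : G none) (h : g ∈ cong none 1) : g ∈ Iw := by
  refine ⟨ph1_cong_mono none g h, ?_⟩
  have h1 := h.1 1 0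
  rw [Matrix.one_apply_ne (show (1 : Fin 2) ≠ 0 by decide), sub_zero] at h1
  simpa using h1

theorem ph1_incl_none (h : G none) : (incl none h).1 none = h := by
  simp [incl]

theorem ph1_incl_some (h : G none) (v : HeightOneSpectrum R) :
    (incl none h).1 (some v) = 1 := by
  simp [incl]

theorem ph1_key (φ : AG → ℂ) (w : G none → ℂ) (hL : LeftInv φ)
    (hφ : ∀ u, IntF u → φ u = w (u.1 none)) (hC : Cla) (g : AG) :
    ∃ a : G none, ∀ h : AG, (∀ v : HeightOneSpectrum R, h.1 (some v) ∈ cong (some v) 0) →
      φ (g * h) = w (a * h.1 none) := by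
  obtain ⟨γ, u, hu, hg⟩ := hC g
  refine ⟨u.1 none, fun h hh => ?_⟩
  have h1 : φ (g * h) = φ (u * h) := by
    refine hL γ (u * h) (g * h) fun P => ?_
    show g.1 P * h.1 P = _ * (u.1 P * h.1 P)
    rw [hg P, mul_assoc]
  have h2 : IntF (u * h) := fun v => mul_mem (hu v) (hh v)
  rw [h1, hφ _ h2]
  rfl

theorem t_PH1 : Ext → Cla → WFun → Ph1 := by
  intro hE hC hW
  obtain ⟨w, hw1, hw2, hw3, hw4, hw5⟩ := hW
  obtain ⟨φ, hL, hφ⟩ := hE (fun g _ => w g) (fun γ g _ => hw1 γ g)
  have key := ph1_key φ w hL hφ hC
  have key2 : ∀ g : AG, ∃ a : G none, φ g = w a ∧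
      (∀ h : G none, φ (g * incl none h) = w (a * h)) ∧
      ∀ h : AG, (∀ v : HeightOneSpectrum R, h.1 (some v) ∈ cong (some v) 0) →
        φ (g * h) = w (a * h.1 none) := by
    intro g
    obtain ⟨a, ha⟩ := key g
    refine ⟨a, ?_, fun h => ?_, ha⟩
    · have h1 := ha 1 (fun v => one_mem _)
      rw [mul_one] at h1
      rw [h1]
      show w (a * 1) = w a
      rw [mul_one]
    · have h1 := ha (incl none h) (fun v => by rw [ph1_incl_some]; exact one_mem _)
      rw [h1, ph1_incl_none]
  refine ⟨φ, hL, ⟨?_, ?_, ?_, ?_⟩, ?_, Finsupp.single none 1, ?_⟩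
  · intro h hh
    funext g
    obtain ⟨a, h1, h2, _⟩ := key2 g
    show φ (g * incl none h) = φ g
    rw [h2, h1, hw2 a h hh]
  · intro b
    funext g
    obtain ⟨a, h1, h2, _⟩ := key2 g
    show φ (g * incl none (sc none b)) = φ g
    rw [h2, h1, hw3]
  · funext g
    obtain ⟨a, h1, h2, _⟩ := key2 g
    show φ (g * incl none om) = - φ g
    rw [h2, h1, hw4]
  · funext g
    obtain ⟨a, h1, h2, _⟩ := key2 g
    show φ g + φ (g * incl none (sw none)) + φ (g * incl none (nn none 1 * sw none)) = 1
    rw [h2, h2, h1, hw5]
  · intro u hu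
    funext g
    obtain ⟨a, h1, _, h3⟩ := key2 g
    show φ (g * u) = φ g
    rw [h3 u (fun v => hu.2 (some v)), h1, hu.1, mul_one]
  · intro u hu
    funext g
    obtain ⟨a, h1, _, h3⟩ := key2 g
    show φ (g * u) = φ g
    have hu1 : u.1 none ∈ cong none 1 := by
      have := hu none
      simpa using this
    rw [h3 u (fun v => by
      have := hu (some v)
      simpa using this), h1, hw2 a _ (ph1_iw _ hu1)]

end Pool.Agent.H757L
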