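import Pool.Agent.H757L.Defs2

set_option autoImplicit false
set_option linter.all false
noncomputable section

namespace Pool.Agent.H757L

open Polynomial IsDedekindDomain Matrix WithZero

theorem ph2_incl_same (P : Pl) (g : G P) : (incl P g).1 P = g := by
  classical
  show (Pi.mulSingle P g : ∀ P, G P) P = g
  exact Pi.mulSingle_eq_same P g

theorem ph2_incl_ne {P Q : Pl} (h : Q ≠ P) (g : G P) : (incl P g).1 Q = 1 := by
  classical
  show (Pi.mulSingle P g : ∀ P, G P) Q = 1
  exact Pi.mulSingle_eq_of_ne h g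

theorem ph2_cong_mono (P : Pl) {n m : ℕ} (h : m ≤ n) (g : G P) (hg : g ∈ cong P n) :
    g ∈ cong P m := by
  have h1 : exp (-(n : ℤ)) ≤ exp (-(m : ℤ)) := exp_le_exp.2 (by omega)
  exact ⟨fun i j => (hg.1 i j).trans h1, fun i j => (hg.2 i j).trans h1⟩

theorem ph2_cong_one_Iw (g : G none) (hg : g ∈ cong none 1) : g ∈ Iw := by
  refine ⟨ph2_cong_mono none (Nat.zero_le 1) g hg, ?_⟩
  have h := hg.1 1 0
  rw [Matrix.one_apply_ne (show (1 : Fin 2) ≠ 0 by decide), sub_zero] at h
  exact_mod_cast h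

theorem ph2_tP : vv (some v0) (tP (some v0)) ≤ 1 := by
  unfold tP
  rw [emb_val]
  show v0.valuation K RatFunc.X ≤ 1
  rw [← RatFunc.algebraMap_X]
  exact v0.valuation_le_one _

theorem ph2_nn (y : Kv (some v0)) (hy : vv (some v0) y ≤ 1) (k : G (some v0))
    (hk : k ∈ cong (some v0) 0) : k⁻¹ * nn (some v0) y * k ∈ cong (some v0) 0 :=
  mul_mem (mul_mem (inv_mem hk) (tri_int _ _ hy)) hk

theorem ph2_int_incl_none (h : G none) : IntF (incl none h) := by
  intro v
  rw [ph2_incl_ne (by simp)]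
  exact one_mem _

theorem ph2_int_incl_v0 (h : G (some v0)) (hh : h ∈ cong (some v0) 0) :
    IntF (incl (some v0) h) := by
  intro v
  by_cases hv : v = v0
  · subst hv
    rw [ph2_incl_same]
    exact hh
  · rw [ph2_incl_ne (by simpa using hv)]
    exact one_mem _

theorem ph2_int_mul {a b : AG} (ha : IntF a) (hb : IntF b) : IntF (a * b) :=
  fun v => mul_mem (ha v) (hb v)

theorem t_PH2 : Ext → Cla → CuF → Ph2 := by
  rintro hE hC ⟨Φ, h1, h2, h3, h4, g0, κ0, hκ0, h5⟩
  obtain ⟨φ, hL, hφ⟩ := hE Φ h1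
  have key : ∀ g : AG, ∃ (a : G none) (b : G (some v0)), ∀ h : AG, IntF h →
      φ (g * h) = Φ (a * h.1 none) (b * h.1 (some v0)) := by
    intro g
    obtain ⟨γ, u, hu, hg⟩ := hC g
    refine ⟨u.1 none, u.1 (some v0), fun h hh => ?_⟩
    rw [hL γ (u * h) (g * h) ?_, hφ _ (ph2_int_mul hu hh)]
    · rfl
    · intro P
      show g.1 P * h.1 P = _ * (u.1 P * h.1 P)
      rw [hg P, mul_assoc]
  have hone : ∀ g : AG, ∀ (a : G none) (b : G (some v0)), (∀ h : AG, IntF h →
      φ (g * h) = Φ (a * h.1 none) (b * h.1 (some v0))) → φ g = Φ a b := by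
    intro g a b hab
    have h6 := hab 1 (fun v => one_mem _)
    rw [mul_one] at h6
    rw [h6]
    show Φ (a * 1) (b * 1) = Φ a b
    rw [mul_one, mul_one]
  have hnone : ∀ g : AG, ∀ (a : G none) (b : G (some v0)), (∀ h : AG, IntF h →
      φ (g * h) = Φ (a * h.1 none) (b * h.1 (some v0))) → ∀ h : G none,
      φ (g * incl none h) = Φ (a * h) b := by
    intro g a b hab h
    rw [hab _ (ph2_int_incl_none h), ph2_incl_same, ph2_incl_ne (by simp), mul_one]
  refine ⟨φ, hL, ⟨?_, ?_, ?_, ?_⟩, ?_, ?_, ?_⟩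
  · intro h hh
    funext x
    obtain ⟨a, b, hab⟩ := key x
    show φ (x * incl none h) = φ x
    rw [hnone x a b hab h, hone x a b hab]
    exact (h2 b).1 a h hh
  · intro c
    funext x
    obtain ⟨a, b, hab⟩ := key x
    show φ (x * incl none (sc none c)) = φ x
    rw [hnone x a b hab _, hone x a b hab]
    exact (h2 b).2.1 a c
  · funext x
    obtain ⟨a, b, hab⟩ := key x
    show φ (x * incl none om) = -φ x
    rw [hnone x a b hab _, hone x a b hab]
    exact (h2 b).2.2.1 a
  · funext x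
    obtain ⟨a, b, hab⟩ := key x
    show φ x + φ (x * incl none (sw none)) + φ (x * incl none (nn none 1 * sw none)) = 0
    rw [hnone x a b hab _, hnone x a b hab _, hone x a b hab]
    exact (h2 b).2.2.2 a
  · intro g k hk
    obtain ⟨a, b, hab⟩ := key g
    have hv : ∀ y : Kv (some v0), vv (some v0) y ≤ 1 →
        φ (g * incl (some v0) (k⁻¹ * nn (some v0) y * k)) =
          Φ a (b * (k⁻¹ * nn (some v0) y * k)) := by
      intro y hy
      rw [hab _ (ph2_int_incl_v0 _ (ph2_nn y hy k hk)), ph2_incl_same,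
        ph2_incl_ne (by simp), mul_one]
    have h6 := h4 a b k hk
    unfold S4 at h6 ⊢
    have e0 : vv (some v0) (0 : Kv (some v0)) ≤ 1 := by simp
    have e1 : vv (some v0) (1 : Kv (some v0)) ≤ 1 := by simp
    have e2 := ph2_tP
    have e3 : vv (some v0) (1 + tP (some v0)) ≤ 1 := Valuation.map_add_le _ e1 e2
    simp only [hv _ e0, hv _ e1, hv _ e2, hv _ e3]
    exact h6
  · intro h0
    apply h5
    have h6 := hφ (incl none g0 * incl (some v0) κ0)
      (ph2_int_mul (ph2_int_incl_none g0) (ph2_int_incl_v0 κ0 hκ0))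
    rw [h0] at h6
    have e1 : (incl none g0 * incl (some v0) κ0).1 none = g0 := by
      show (incl none g0).1 none * (incl (some v0) κ0).1 none = g0
      rw [ph2_incl_same, ph2_incl_ne (by simp), mul_one]
    have e2 : (incl none g0 * incl (some v0) κ0).1 (some v0) = κ0 := by
      show (incl none g0).1 (some v0) * (incl (some v0) κ0).1 (some v0) = κ0
      rw [ph2_incl_same, ph2_incl_ne (by simp), one_mul]
    rw [e1, e2] at h6
    exact h6.symm
  · classical
    refine ⟨Finsupp.single none 1 + Finsupp.single (some v0) 1, ?_⟩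
    intro u hu
    funext x
    obtain ⟨a, b, hab⟩ := key x
    show φ (x * u) = φ x
    have hui : IntF u := fun v => ph2_cong_mono _ (Nat.zero_le _) _ (hu (some v))
    rw [hab u hui, hone x a b hab]
    have e1 : u.1 none ∈ Iw := by
      refine ph2_cong_one_Iw _ ?_
      refine ph2_cong_mono _ ?_ _ (hu none)
      simp
    have e2 : u.1 (some v0) ∈ cong (some v0) 1 := by
      refine ph2_cong_mono _ ?_ _ (hu (some v0))
      simp
    rw [h3 _ _ _ e2]
    exact (h2 b).1 a _ e1

end Pool.Agent.H757L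

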