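import Pool.Agent.H757L.Defs2

set_option autoImplicit false
set_option linter.all false
noncomputable section

namespace Pool.Agent.H757L

open Polynomial IsDedekindDomain Matrix WithZero

/-- the local factor of the product formula -/
def prd_F (k : K) (P : Pl) : ℝ := (qq P : ℝ) ^ (WithZero.log (val P k))

/-- the product formula for k -/
def prd_Good (k : K) : Prop :=
  k ≠ 0 ∧ (Function.mulSupport (prd_F k)).Finite ∧ ∏ᶠ P, prd_F k P = 1

theorem prd_card (p : R) (hp : p ≠ 0) : Nat.card (R ⧸ Ideal.span {p}) = 2 ^ p.natDegree := by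
  have hb := AdjoinRoot.powerBasis (K := ZMod 2) hp
  have h1 : Module.finrank (ZMod 2) (AdjoinRoot p) = p.natDegree := by
    rw [(AdjoinRoot.powerBasis (K := ZMod 2) hp).finrank, AdjoinRoot.powerBasis_dim]
  haveI : Module.Finite (ZMod 2) (AdjoinRoot p) :=
    (AdjoinRoot.powerBasis (K := ZMod 2) hp).finite
  have h2 := Module.natCard_eq_pow_finrank (K := ZMod 2) (V := AdjoinRoot p)
  rw [h1, Nat.card_zmod] at h2
  exact h2

theorem prd_qq (P : Pl) : (qq P : ℝ) ≠ 0 := by
  cases P with
  | none => norm_num [qq]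
  | some v =>
    obtain ⟨a, ha⟩ := (IsPrincipalIdealRing.principal v.asIdeal).principal
    have ha' : v.asIdeal = Ideal.span {a} := ha
    have ha0 : a ≠ 0 := by
      rintro rfl
      apply v.ne_bot
      rw [ha']
      simp
    have h := prd_card a ha0
    rw [← ha'] at h
    show ((Nat.card (R ⧸ v.asIdeal) : ℕ) : ℝ) ≠ 0
    rw [h]
    positivity

theorem prd_val_ne (P : Pl) {k : K} (hk : k ≠ 0) : val P k ≠ 0 := (Valuation.ne_zero_iff _).2 hk

theorem prd_F_mul {k l : K} (hk : k ≠ 0) (hl : l ≠ 0) (P : Pl) :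
    prd_F (k * l) P = prd_F k P * prd_F l P := by
  unfold prd_F
  rw [map_mul, WithZero.log_mul (prd_val_ne P hk) (prd_val_ne P hl), zpow_add₀ (prd_qq P)]

theorem prd_F_inv (k : K) (P : Pl) : prd_F k⁻¹ P = (prd_F k P)⁻¹ := by
  unfold prd_F
  rw [map_inv₀, WithZero.log_inv, _root_.zpow_neg]

theorem prd_good_mul {k l : K} (hk : prd_Good k) (hl : prd_Good l) : prd_Good (k * l) := by
  obtain ⟨hk0, hk1, hk2⟩ := hk
  obtain ⟨hl0, hl1, hl2⟩ := hl
  have e : prd_F (k * l) = fun P => prd_F k P * prd_F l P := funext (prd_F_mul hk0 hl0)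
  refine ⟨mul_ne_zero hk0 hl0, ?_, ?_⟩
  · rw [e]
    refine (hk1.union hl1).subset ?_
    exact Function.mulSupport_mul _ _
  · simp only [e]
    rw [finprod_mul_distrib hk1 hl1, hk2, hl2, one_mul]

theorem prd_good_inv {k : K} (hk : prd_Good k) : prd_Good k⁻¹ := by
  obtain ⟨hk0, hk1, hk2⟩ := hk
  have e : prd_F k⁻¹ = fun P => (prd_F k P)⁻¹ := funext (prd_F_inv k)
  refine ⟨inv_ne_zero hk0, ?_, ?_⟩
  · rw [e]
    refine hk1.subset ?_
    intro P hP hP'
    apply hP
    simp only
    rw [hP', inv_one]
  · simp only [e]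
    rw [finprod_inv_distrib, hk2, inv_one]

theorem prd_good_one : prd_Good 1 := by
  have e : prd_F 1 = fun _ => (1 : ℝ) := by
    funext P
    unfold prd_F
    rw [map_one, WithZero.log_one, zpow_zero]
  refine ⟨one_ne_zero, ?_, ?_⟩
  · rw [e]
    simp
  · simp only [e]
    simp

theorem prd_unit (u : R) (hu : IsUnit u) : u = 1 := by
  obtain ⟨c, hc, rfl⟩ := Polynomial.isUnit_iff.1 hu
  have : c = 1 := by
    have h0 : c ≠ 0 := hc.ne_zero
    revert h0
    revert c
    intro c hc _ h0
    fin_cases c
    · exact absurd rfl h0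
    · rfl
  rw [this, map_one]

theorem prd_good_irr (p : R) (hp : Irreducible p) : prd_Good (algebraMap R K p) := by
  classical
  have hp0 : p ≠ 0 := hp.ne_zero
  have hprime : (Ideal.span {p}).IsPrime := (Ideal.span_singleton_prime hp0).2 hp.prime
  have hbot : (Ideal.span {p} : Ideal R) ≠ ⊥ := by
    rw [Ne, Ideal.span_singleton_eq_bot]
    exact hp0
  set v : HeightOneSpectrum R := ⟨Ideal.span {p}, hprime, hbot⟩ with hv
  have hinf : prd_F (algebraMap R K p) none = (2 : ℝ) ^ p.natDegree := by
    unfold prd_F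
    have h1 : val none (algebraMap R K p) = exp (p.natDegree : ℤ) := by
      show RatFunc.inftyValuation (ZMod 2) (algebraMap R K p) = _
      exact RatFunc.inftyValuation.polynomial (ZMod 2) hp0
    rw [h1, WithZero.log_exp]
    show ((2 : ℕ) : ℝ) ^ ((p.natDegree : ℕ) : ℤ) = _
    rw [zpow_natCast]
    norm_num
  have hfin : prd_F (algebraMap R K p) (some v) = ((2 : ℝ) ^ p.natDegree)⁻¹ := by
    unfold prd_F
    have h1 : val (some v) (algebraMap R K p) = exp (-1 : ℤ) := by
      show v.valuation K (algebraMap R K p) = _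
      rw [HeightOneSpectrum.valuation_of_algebraMap]
      exact v.intValuation_singleton hp0 rfl
    rw [h1, WithZero.log_exp, _root_.zpow_neg, zpow_one]
    have h2 : qq (some v) = 2 ^ p.natDegree := prd_card p hp0
    rw [h2]
    push_cast
    rfl
  have hoth : ∀ w : HeightOneSpectrum R, w ≠ v → prd_F (algebraMap R K p) (some w) = 1 := by
    intro w hw
    unfold prd_F
    have h1 : val (some w) (algebraMap R K p) = 1 := by
      show w.valuation K (algebraMap R K p) = 1
      rw [HeightOneSpectrum.valuation_of_algebraMap, HeightOneSpectrum.intValuation_eq_one_iff]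
      intro hmem
      apply hw
      have hle : Ideal.span {p} ≤ w.asIdeal := by
        rw [Ideal.span_singleton_le_iff_mem]
        exact hmem
      have hmax : (Ideal.span {p} : Ideal R).IsMaximal := hprime.isMaximal hbot
      have heq := hmax.eq_of_le w.isPrime.ne_top hle
      apply HeightOneSpectrum.ext
      exact heq.symm
    rw [h1, WithZero.log_one, zpow_zero]
  have hsub : Function.mulSupport (prd_F (algebraMap R K p)) ⊆
      (({none, some v} : Finset Pl) : Set Pl) := by
    intro P hP
    by_contra hcon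
    apply hP
    cases P with
    | none => exact absurd (by simp) hcon
    | some w =>
      apply hoth w
      rintro rfl
      exact hcon (by simp)
  refine ⟨?_, (Finset.finite_toSet _).subset hsub, ?_⟩
  · intro h
    exact hp0 ((map_eq_zero_iff _ (IsFractionRing.injective R K)).1 h)
  · rw [finprod_eq_prod_of_mulSupport_subset _ hsub, Finset.prod_pair (by simp), hinf, hfin]
    exact mul_inv_cancel₀ (by positivity)

theorem prd_good_poly (p : R) (hp : p ≠ 0) : prd_Good (algebraMap R K p) := by
  induction p using WfDvdMonoid.induction_on_irreducible with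
  | zero => exact absurd rfl hp
  | unit u hu =>
    rw [prd_unit u hu, map_one]
    exact prd_good_one
  | mul a i ha hi ih =>
    rw [map_mul]
    exact prd_good_mul (prd_good_irr i hi) (ih ha)

theorem prd_good_all (k : K) (hk : k ≠ 0) : prd_Good k := by
  obtain ⟨a, b, hb, rfl⟩ := IsFractionRing.div_surjective (A := R) k
  have hb0 : b ≠ 0 := nonZeroDivisors.ne_zero hb
  have ha0 : a ≠ 0 := by
    rintro rfl
    simp at hk
  rw [div_eq_mul_inv]
  exact prd_good_mul (prd_good_poly a ha0) (prd_good_inv (prd_good_poly b hb0))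

theorem t_PRD : Prd := by
  intro k x hx
  have h := (prd_good_all (k : K) k.ne_zero).2.2
  unfold nrmA
  rw [← h]
  apply finprod_congr
  intro P
  unfold nrm prd_F
  have e : ((x.1 P : (Kv P)ˣ) : Kv P) = emb P (k : K) := by
    rw [hx P]
    rfl
  rw [e, emb_val]

end Pool.Agent.H757L
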