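import Pool.Agent.H757L.Defs2
/-
Project LL (helper757, MP_5ae62c_nt). QUO: irreducible quotients (Zorn).
-/

set_option autoImplicit false
set_option linter.all false
noncomputable section

namespace Pool.Agent.H757L

open Polynomial IsDedekindDomain Matrix WithZero

/-- a maximal stable submodule without x -/
theorem quo_max {H V : Type} [Group H] [AddCommGroup V] [Module ℂ V] (ρ : Representation ℂ H V)
    (N : Submodule ℂ V) (x : V) (hN : ∀ h, ∀ n ∈ N, ρ h n ∈ N) (hx : x ∉ N) :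
    ∃ W : Submodule ℂ V, (∀ h, ∀ w ∈ W, ρ h w ∈ W) ∧ x ∉ W ∧ N ≤ W ∧
      ∀ W' : Submodule ℂ V, (∀ h, ∀ w ∈ W', ρ h w ∈ W') → x ∉ W' → W ≤ W' → W' = W := by
  obtain ⟨W, hNW, hW⟩ := zorn_le_nonempty₀
    {W : Submodule ℂ V | (∀ h, ∀ w ∈ W, ρ h w ∈ W) ∧ x ∉ W} (by
      intro c hc hch y hy
      refine ⟨sSup c, ⟨?_, ?_⟩, fun z hz => le_sSup hz⟩
      · intro h w hw
        rw [Submodule.mem_sSup_of_directed ⟨y, hy⟩ hch.directedOn] at hw ⊢
        obtain ⟨z, hz, hwz⟩ := hw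
        exact ⟨z, hz, (hc hz).1 h w hwz⟩
      · intro hxs
        rw [Submodule.mem_sSup_of_directed ⟨y, hy⟩ hch.directedOn] at hxs
        obtain ⟨z, hz, hxz⟩ := hxs
        exact (hc hz).2 hxz) N ⟨hN, hx⟩
  refine ⟨W, hW.prop.1, hW.prop.2, hNW, fun W' h1 h2 h3 => ?_⟩
  exact le_antisymm (hW.2 ⟨h1, h2⟩ h3) h3

/-- the quotient representation -/
def quo_rep {H V : Type} [Group H] [AddCommGroup V] [Module ℂ V] (ρ : Representation ℂ H V)
    (W : Submodule ℂ V) (hW : ∀ h, ∀ w ∈ W, ρ h w ∈ W) : Representation ℂ H (V ⧸ W) where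
  toFun h := W.mapQ W (ρ h) (fun w hw => hW h w hw)
  map_one' := by
    apply Submodule.linearMap_qext
    ext v
    simp
  map_mul' a b := by
    apply Submodule.linearMap_qext
    ext v
    simp

theorem t_QUO : Quo := by
  intro H V _ _ _ ρ N x hN hx hT
  obtain ⟨W, hW1, hW2, hW3, hW4⟩ := quo_max ρ N x hN hx
  refine ⟨⟨V ⧸ W, quo_rep ρ W hW1⟩, W.mkQ, W.mkQ_surjective, ?_, ?_, ?_, ?_, ?_⟩
  · intro h v
    rfl
  · intro n hn
    rw [Submodule.mkQ_apply, Submodule.Quotient.mk_eq_zero]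
    exact hW3 hn
  · rw [Submodule.mkQ_apply, Ne, Submodule.Quotient.mk_eq_zero]
    exact hW2
  · refine ⟨⟨W.mkQ x, 0, ?_⟩⟩
    rw [Submodule.mkQ_apply, Ne, Submodule.Quotient.mk_eq_zero]
    exact hW2
  · intro U hU
    have hU' : ∀ h, ∀ w ∈ U.comap W.mkQ, ρ h w ∈ U.comap W.mkQ := by
      intro h w hw
      rw [Submodule.mem_comap] at hw ⊢
      exact hU h _ hw
    have hWU : W ≤ U.comap W.mkQ := by
      intro w hw
      rw [Submodule.mem_comap, Submodule.mkQ_apply, (Submodule.Quotient.mk_eq_zero W).2 hw]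
      exact U.zero_mem
    by_cases hxU : x ∈ U.comap W.mkQ
    · right
      have h1 := hT _ hU' (hW3.trans hWU) hxU
      rw [eq_top_iff]
      intro u _
      obtain ⟨v, rfl⟩ := W.mkQ_surjective u
      have h2 : v ∈ U.comap W.mkQ := by rw [h1]; trivial
      exact h2
    · left
      have h1 := hW4 _ hU' hxU hWU
      rw [eq_bot_iff]
      intro u hu
      obtain ⟨v, rfl⟩ := W.mkQ_surjective u
      have h2 : v ∈ U.comap W.mkQ := hu
      rw [h1] at h2
      rw [Submodule.mem_bot, Submodule.mkQ_apply, Submodule.Quotient.mk_eq_zero]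
      exact h2

end Pool.Agent.H757L
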