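import Pool.Agent.H757L.Fin

set_option autoImplicit false
set_option linter.all false
noncomputable section

namespace Pool.Agent.H757L

open Polynomial IsDedekindDomain Matrix WithZero

/-- the span of the translates of a function and of the constants -/
def rq_M (φ : AG → ℂ) : Submodule ℂ (AG → ℂ) :=
  Submodule.span ℂ ({ψ | ∃ g, ψ = rt g φ} ∪ {fun _ => (1 : ℂ)})

theorem rq_stable (φ : AG → ℂ) (g : AG) (v : AG → ℂ) (hv : v ∈ rq_M φ) : rt g v ∈ rq_M φ := by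
  refine Submodule.span_induction (p := fun v _ => rt g v ∈ rq_M φ) ?_ ?_ ?_ ?_ hv
  · rintro _ (⟨a, rfl⟩ | h)
    · refine Submodule.subset_span (Or.inl ⟨g * a, ?_⟩)
      rw [map_mul]
      rfl
    · rw [Set.mem_singleton_iff] at h
      subst h
      exact Submodule.subset_span (Or.inr rfl)
  · rw [map_zero]; exact zero_mem _
  · intro a b _ _ ha hb; rw [map_add]; exact add_mem ha hb
  · intro c a _ ha; rw [map_smul]; exact Submodule.smul_mem _ c ha

/-- the representation -/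
def rq_rho (φ : AG → ℂ) : Representation ℂ AG (rq_M φ) where
  toFun g := (rt g).restrict (fun v hv => rq_stable φ g v hv)
  map_one' := by ext v; simp
  map_mul' a b := by ext v; simp [LinearMap.restrict_apply]

theorem rq_one (φ : AG → ℂ) : (fun _ => (1 : ℂ)) ∈ rq_M φ := Submodule.subset_span (Or.inr rfl)

theorem rq_gen (φ : AG → ℂ) (h0 : φ ∈ rq_M φ) (W : Submodule ℂ (rq_M φ))
    (hW : ∀ h, ∀ w ∈ W, rq_rho φ h w ∈ W) (h1 : (⟨_, rq_one φ⟩ : rq_M φ) ∈ W)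
    (hx : (⟨φ, h0⟩ : rq_M φ) ∈ W) : W = ⊤ := by
  rw [eq_top_iff]
  rintro ⟨w, hw⟩ -
  refine Submodule.span_induction (p := fun v hv => (⟨v, hv⟩ : rq_M φ) ∈ W) ?_ ?_ ?_ ?_ hw
  · rintro _ (⟨a, rfl⟩ | h)
    · exact hW a _ hx
    · rw [Set.mem_singleton_iff] at h
      subst h
      exact h1
  · exact zero_mem W
  · intro a b ha hb h1 h2
    exact add_mem h1 h2
  · intro c a ha h1
    exact Submodule.smul_mem W c h1

theorem t_REA : Ph1 → Quo → Trv → Av1 → UFin → Aut → RepA := by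
  rintro ⟨φ, hL, hSt, hUf, hU⟩ hQuo hTrv hAv hUFin hAut
  have h0 : φ ∈ rq_M φ := Submodule.subset_span (Or.inl ⟨1, by rw [map_one]; rfl⟩)
  have hA : ∀ m ∈ rq_M φ, IsAutForm m := fun m hm => hAut φ 1 hL hSt hU m hm
  have hone : ∀ h : AG, rq_rho φ h ⟨_, rq_one φ⟩ = ⟨_, rq_one φ⟩ := fun h => Subtype.ext rfl
  obtain ⟨π, f, hf, hint, hN, hfx, hirr⟩ := hQuo AG (rq_M φ) (rq_rho φ)
    (Submodule.span ℂ {⟨_, rq_one φ⟩}) ⟨φ, h0⟩
    (fun h n hn => by
      obtain ⟨c, rfl⟩ := Submodule.mem_span_singleton.1 hn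
      rw [map_smul, hone]
      exact Submodule.smul_mem _ _ (Submodule.mem_span_singleton_self _))
    (fun h => by
      obtain ⟨c, hc⟩ := Submodule.mem_span_singleton.1 h
      have hc' : (fun _ => c) = φ := by
        have h7 : ((c • (⟨_, rq_one φ⟩ : rq_M φ) : rq_M φ) : AG → ℂ) = φ := congrArg Subtype.val hc
        funext x
        have h8 := congrFun h7 x
        change c * 1 = φ x at h8
        rw [← h8, mul_one]
      have h3 := congrFun hSt.2.2.1 1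
      have h4 := congrFun hSt.2.2.2 1
      rw [← hc'] at h3 h4
      change c = -c at h3
      change c + c + c = 1 at h4
      have h5 : c = 0 := by linear_combination (1 / 2 : ℂ) * h3
      rw [h5] at h4
      norm_num at h4)
    (fun W hW hNW hx => rq_gen φ h0 W hW (hNW (Submodule.mem_span_singleton_self _)) hx)
  have hf1 : f ⟨_, rq_one φ⟩ = 0 := hN _ (Submodule.mem_span_singleton_self _)
  have hsub : ∀ (g : AG) (a b : rq_M φ), (b : AG → ℂ) = rt g a → f b = π.ρ g (f a) := by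
    intro g a b hab
    rw [← hint]
    congr 1
    exact Subtype.ext hab
  have hfix : ∀ g : AG, rt g φ = φ → π.ρ g (f ⟨φ, h0⟩) = f ⟨φ, h0⟩ := fun g hg =>
    (hsub g ⟨φ, h0⟩ ⟨φ, h0⟩ hg.symm).symm
  have hsm : SmoothA π := by
    intro s
    obtain ⟨m, rfl⟩ := hf s
    obtain ⟨-, ⟨e, he⟩, -⟩ := hA m.1 m.2
    exact ⟨e, fun u hu => (hsub u m m (he u hu).symm).symm⟩
  have hst : St (π.ρ.comp (incl none)) (f ⟨φ, h0⟩) := by
    refine ⟨?_, ?_, ?_, ?_⟩
    · intro h hh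
      exact hfix _ (hSt.1 h hh)
    · intro a
      exact hfix _ (hSt.2.1 a)
    · have h1 := hsub (incl none om) ⟨φ, h0⟩ (-⟨φ, h0⟩) (by
        rw [hSt.2.2.1]; rfl)
      rw [map_neg] at h1
      exact h1.symm
    · have e1 := hint (incl none (sw none)) ⟨φ, h0⟩
      have e2 := hint (incl none (nn none 1 * sw none)) ⟨φ, h0⟩
      show f ⟨φ, h0⟩ + π.ρ (incl none (sw none)) (f ⟨φ, h0⟩) +
        π.ρ (incl none (nn none 1 * sw none)) (f ⟨φ, h0⟩) = 0
      rw [← e1, ← e2, ← map_add, ← map_add]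
      have e3 : ((⟨φ, h0⟩ : rq_M φ) + rq_rho φ (incl none (sw none)) ⟨φ, h0⟩ +
          rq_rho φ (incl none (nn none 1 * sw none)) ⟨φ, h0⟩) = ⟨_, rq_one φ⟩ := by
        apply Subtype.ext
        exact hSt.2.2.2
      rw [e3, hf1]
  refine ⟨π, f ⟨φ, h0⟩, ⟨hirr, hsm, rq_M φ, hA, fun g ψ hψ => rq_stable φ g ψ hψ, f, hf, hsub⟩, hfx, ?_, hst⟩
  refine hTrv (G none) AG (incl none) Gf Uf π (f ⟨φ, h0⟩) hirr fi_comm fi_gen ?_ (hUFin.2 π hsm).2 hfx ?_ ?_
  · intro u hu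
    exact hu.1
  · intro h hh
    exact hfix _ (hUf h hh)
  · intro b hb
    obtain ⟨s, hs, hsU, hsum⟩ := hAv φ hL hSt hUf b hb
    have hc : (s.card : ℂ) ≠ 0 := by
      rw [Nat.cast_ne_zero]; exact Finset.card_ne_zero.2 hs
    -- the relation in π
    have key : ∑ u ∈ s, π.ρ u (π.ρ b (f ⟨φ, h0⟩)) = (s.card : ℂ) • f ⟨φ, h0⟩ := by
      have h1 : ∀ u ∈ s, π.ρ u (π.ρ b (f ⟨φ, h0⟩)) = f (rq_rho φ u (rq_rho φ b ⟨φ, h0⟩)) := by
        intro u _
        rw [hint, hint]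
      rw [Finset.sum_congr rfl h1, ← map_sum, ← map_smul]
      congr 1
      apply Subtype.ext
      have h2 : ((∑ u ∈ s, rq_rho φ u (rq_rho φ b ⟨φ, h0⟩) : rq_M φ) : AG → ℂ)
          = ∑ u ∈ s, rt u (rt b φ) := by
        rw [Submodule.coe_sum]
        rfl
      rw [h2, hsum]
      rfl
    have e : π.ρ b (f ⟨φ, h0⟩) - f ⟨φ, h0⟩ = (-(s.card : ℂ)⁻¹) •
        ∑ u ∈ s, (π.ρ u (π.ρ b (f ⟨φ, h0⟩)) - π.ρ b (f ⟨φ, h0⟩)) := by
      rw [Finset.sum_sub_distrib, key, Finset.sum_const, ← Nat.cast_smul_eq_nsmul ℂ, smul_sub, smul_smul,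
        smul_smul, neg_mul, inv_mul_cancel₀ hc]
      module
    rw [e]
    refine Submodule.smul_mem _ _ (Submodule.sum_mem _ fun u hu => ?_)
    exact Submodule.subset_span ⟨u, hsU u hu, _, rfl⟩

end Pool.Agent.H757L
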