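import Pool.Agent.H757L.Defs2
/-! Project LL (helper757, MP_5ae62c_nt): the second representation. -/

set_option autoImplicit false
set_option linter.all false
noncomputable section

namespace Pool.Agent.H757L

open Polynomial IsDedekindDomain Matrix WithZero

/-- the span of the translates of a function -/
def rec_M (φ : AG → ℂ) : Submodule ℂ (AG → ℂ) := Submodule.span ℂ {ψ | ∃ g, ψ = rt g φ}

theorem rec_stable (φ : AG → ℂ) (g : AG) (v : AG → ℂ) (hv : v ∈ rec_M φ) : rt g v ∈ rec_M φ := by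
  refine Submodule.span_induction (p := fun v _ => rt g v ∈ rec_M φ) ?_ ?_ ?_ ?_ hv
  · rintro _ ⟨a, rfl⟩
    refine Submodule.subset_span ⟨g * a, ?_⟩
    rw [map_mul]
    rfl
  · rw [map_zero]; exact zero_mem _
  · intro a b _ _ ha hb; rw [map_add]; exact add_mem ha hb
  · intro c a _ ha; rw [map_smul]; exact Submodule.smul_mem _ c ha

/-- the representation on the span of the translates -/
def rec_rho (φ : AG → ℂ) : Representation ℂ AG (rec_M φ) where
  toFun g := (rt g).restrict (fun v hv => rec_stable φ g v hv)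
  map_one' := by ext v; simp
  map_mul' a b := by ext v; simp [LinearMap.restrict_apply]

theorem rec_rho_coe (φ : AG → ℂ) (g : AG) (m : rec_M φ) :
    ((rec_rho φ g m : rec_M φ) : AG → ℂ) = rt g m := rfl

theorem rec_gen (φ : AG → ℂ) (h0 : φ ∈ rec_M φ) (W : Submodule ℂ (rec_M φ))
    (hW : ∀ h, ∀ w ∈ W, rec_rho φ h w ∈ W) (hx : (⟨φ, h0⟩ : rec_M φ) ∈ W) : W = ⊤ := by
  rw [eq_top_iff]
  rintro ⟨w, hw⟩ -
  refine Submodule.span_induction (p := fun v hv => (⟨v, hv⟩ : rec_M φ) ∈ W) ?_ ?_ ?_ ?_ hw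
  · rintro _ ⟨a, rfl⟩
    exact hW a _ hx
  · exact zero_mem W
  · intro a b ha hb h1 h2
    exact add_mem h1 h2
  · intro c a ha h1
    exact Submodule.smul_mem W c h1

theorem t_REC : Ph2 → Quo → Aut → Cst → RepC := by
  rintro ⟨φ, hL, hSt, hCus, hne, hU⟩ hQuo hAut hCst
  have h0 : φ ∈ rec_M φ := Submodule.subset_span ⟨1, by rw [map_one]; rfl⟩
  have hA : ∀ m ∈ rec_M φ, IsAutForm m := fun m hm =>
    hAut φ 0 hL hSt hU m (Submodule.span_mono Set.subset_union_left hm)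
  have hC : ∀ m ∈ rec_M φ, IsCuspForm m := fun m hm => ⟨hA m hm, hCst φ hL hCus m hm⟩
  obtain ⟨π, f, hf, hint, -, hfx, hirr⟩ := hQuo AG (rec_M φ) (rec_rho φ) ⊥ ⟨φ, h0⟩
    (fun h n hn => by
      rw [Submodule.mem_bot] at hn ⊢
      rw [hn, map_zero])
    (fun h => by
      rw [Submodule.mem_bot] at h
      exact hne (congrArg Subtype.val h))
    (fun W hW _ hx => rec_gen φ h0 W hW hx)
  have hsub : ∀ (g : AG) (a b : rec_M φ), (b : AG → ℂ) = rt g a → f b = π.ρ g (f a) := by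
    intro g a b hab
    rw [← hint]
    congr 1
    exact Subtype.ext hab
  have hfix : ∀ g : AG, rt g φ = φ → π.ρ g (f ⟨φ, h0⟩) = f ⟨φ, h0⟩ := fun g hg =>
    (hsub g ⟨φ, h0⟩ ⟨φ, h0⟩ hg.symm).symm
  refine ⟨π, f ⟨φ, h0⟩, ⟨hirr, ?_, rec_M φ, hA, fun g ψ hψ => rec_stable φ g ψ hψ, f, hf, hsub⟩,
    ⟨rec_M φ, hC, fun g ψ hψ => rec_stable φ g ψ hψ, f, hf, hsub⟩, hfx, ?_, ?_, ?_, ?_⟩
  · intro s
    obtain ⟨m, rfl⟩ := hf s
    obtain ⟨-, ⟨e, he⟩, -⟩ := hA m.1 m.2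
    exact ⟨e, fun u hu => (hsub u m m (he u hu).symm).symm⟩
  · intro h hh
    exact hfix _ (hSt.1 h hh)
  · intro a
    exact hfix _ (hSt.2.1 a)
  · have h1 := hsub (incl none om) ⟨φ, h0⟩ (-⟨φ, h0⟩) (by
      rw [hSt.2.2.1]; rfl)
    rw [map_neg] at h1
    exact h1.symm
  · have e1 := hint (incl none (sw none)) ⟨φ, h0⟩
    have e2 := hint (incl none (nn none 1 * sw none)) ⟨φ, h0⟩
    show f ⟨φ, h0⟩ + π.ρ (incl none (sw none)) (f ⟨φ, h0⟩) +
      π.ρ (incl none (nn none 1 * sw none)) (f ⟨φ, h0⟩) = 0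
    rw [← e1, ← e2, ← map_add, ← map_add]
    have e3 : ((⟨φ, h0⟩ : rec_M φ) + rec_rho φ (incl none (sw none)) ⟨φ, h0⟩ +
        rec_rho φ (incl none (nn none 1 * sw none)) ⟨φ, h0⟩) = 0 := by
      apply Subtype.ext
      exact hSt.2.2.2
    rw [e3, map_zero]

end Pool.Agent.H757L
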