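import Pool.Agent.H757L.Defs2
/-
Project LL (helper757, MP_5ae62c_nt, HARD, weight 10, full negative answer; GL_2 over F_2(t), representation theory in a completely explicit form).
Definitions and statements: Pool/Agent/H757L/Stm.lean, Defs.lean, Api.lean, Defs2.lean on origin/main (Mathlib only, all four compile; copy them to
/workdir/pool/Pool/Agent/H757L/ and run lake build Pool.Agent.H757L.Defs2, about 30 seconds).  Every statement has been checked on paper.
TARGET: prove the theorem below, statement unchanged, no sorry, no axioms.  Put auxiliary lemmas before it in the same namespace (give ALL your lemmas a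
prefix of your own such as red_, the files are imported together; no straight double quotes anywhere).  Paste the full file back as result of the job.
File name: Pool/Agent/H757L/Red.lean
If the statement is false or unclear: status='problem' and say why, or message helper757.  Deadline about 21:30 UTC; partial progress: message me.

Notation: K = F_2(t), R = F_2[t]; val P, vv P valuations, exp n (multiplicative ints with zero); emb P : K ->+* Kv P; cong P n congruence subgroups;
tri a d b = (a b; 0 d); nn P x = (1 x; 0 1); sw P = (0 1; 1 0); om = (0 t; 1 0); sc P a scalar; gR P : GL_2(R) -> GL_2(K_P); Iw Iwahori subgroup at infinity.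
We have om^2 = scalar t, sw om = diag(1,t), om sw = diag(t,1), and om normalises Iw.  Api.lean: emb_val, unif, unif_pow, dens, vv_cases, vv_lt_one.

PROOF.
First: every x with vv x <= 1 has y in {0,1,t,1+t} with vv(x - y) <= exp(-1): by dens replace x by emb k, val (some v0) k <= 1; k = a/b with b not in v0 (e.g. from the localization, or cancel the prime X^2+X+1), b b' = 1 mod v0, k = a b' mod v0, and
a polynomial is congruent modulo X^2+X+1 to one of 0, 1, X, 1+X (divisibility by the monic polynomial: remainder of degree < 2, coefficients in ZMod 2).  The four elements are pairwise incongruent (differences 1, X, 1+X are not divisible by X^2+X+1: valuation 1).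
r x := the index 0,1,2,3 of y.  The table properties follow from t^2 = t + 1 mod v0 and characteristic 2 (check the 16 cases with the four representatives: vv (y + y' - y'') <= exp(-1), ultrametric).
val (some v0) of the image of a polynomial f is <= exp(-1) iff f in v0.asIdeal (HeightOneSpectrum.valuation_lt_one_iff_mem or valuation_of_algebraMap), <= 1 always.
-/

set_option autoImplicit false
set_option linter.all false
noncomputable section

namespace Pool.Agent.H757L

open Polynomial IsDedekindDomain Matrix WithZero

def red_a : Fin 4 → ZMod 2 := ![0, 1, 0, 1]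
def red_b : Fin 4 → ZMod 2 := ![0, 0, 1, 1]
def red_p (i : Fin 4) : R := C (red_b i) * X + C (red_a i)
def red_q : R := X ^ 2 + X + 1
def red_E : R →+* Kv (some v0) := (emb (some v0)).comp (algebraMap R K)

theorem red_val (k : K) : val (some v0) k = v0.valuation K k := rfl

theorem red_le (f : R) : vv (some v0) (red_E f) ≤ 1 := by
  unfold red_E
  rw [RingHom.comp_apply, emb_val, red_val]
  exact v0.valuation_le_one f

theorem red_lt (f : R) : vv (some v0) (red_E f) < 1 ↔ red_q ∣ f := by
  unfold red_E
  rw [RingHom.comp_apply, emb_val, red_val]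
  have h := v0.valuation_lt_one_iff_mem (K := K) f
  refine Iff.trans h ?_
  exact Ideal.mem_span_singleton

theorem red_deg : red_q.natDegree = 2 := by
  unfold red_q
  compute_degree!

theorem red_monic : red_q.Monic := by
  unfold red_q
  monicity!

theorem red_coef {a b : ZMod 2} (h : red_q ∣ C b * X + C a) : a = 0 ∧ b = 0 := by
  have h0 : (C b * X + C a : R) = 0 := by
    by_contra hne
    have h1 := Polynomial.natDegree_le_of_dvd h hne
    rw [red_deg] at h1
    have h2 : (C b * X + C a : R).natDegree ≤ 1 := Polynomial.natDegree_linear_le
    omega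
  have h3 := congrArg (fun p => Polynomial.coeff p 0) h0
  have h4 := congrArg (fun p => Polynomial.coeff p 1) h0
  simp at h3 h4
  exact ⟨h3, h4⟩

theorem red_inj {i j : Fin 4} (h : red_q ∣ red_p i - red_p j) : i = j := by
  have h1 : red_p i - red_p j = C (red_b i - red_b j) * X + C (red_a i - red_a j) := by
    unfold red_p
    rw [C_sub, C_sub]
    ring
  rw [h1] at h
  obtain ⟨h2, h3⟩ := red_coef h
  clear h h1
  revert h2 h3
  revert i j
  decide

theorem red_sur (a b : ZMod 2) : ∃ i, red_a i = a ∧ red_b i = b := by
  revert a b
  decide

theorem red_add (i j : Fin 4) : red_p i + red_p j = red_p (add4 i j) := by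
  have h1 : ∀ i j, red_a (add4 i j) = red_a i + red_a j ∧ red_b (add4 i j) = red_b i + red_b j := by
    decide
  unfold red_p
  rw [(h1 i j).1, (h1 i j).2, C_add, C_add]
  ring

theorem red_mul (i j : Fin 4) :
    red_p i * red_p j = red_p (mul4 i j) + C (red_b i * red_b j) * red_q := by
  have h1 : ∀ i j, red_a (mul4 i j) = red_a i * red_a j + red_b i * red_b j ∧
      red_b (mul4 i j) = red_a i * red_b j + red_b i * red_a j + red_b i * red_b j := by
    decide
  have h2 : (2 : R) = 0 := CharTwo.two_eq_zero
  unfold red_p red_q
  rw [(h1 i j).1, (h1 i j).2]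
  simp only [C_add, C_mul]
  linear_combination (-(C (red_b i) * C (red_b j) * X + C (red_b i) * C (red_b j))) * h2

theorem red_ex (x : Kv (some v0)) (hx : vv (some v0) x ≤ 1) :
    ∃ i : Fin 4, vv (some v0) (x - red_E (red_p i)) < 1 := by
  obtain ⟨k, hk⟩ := dens (some v0) x (-1)
  rw [← vv_lt_one] at hk
  have hk1 : v0.valuation K k ≤ 1 := by
    rw [← red_val, ← emb_val]
    have h1 : emb (some v0) k = x - (x - emb (some v0) k) := by ring
    rw [h1]
    exact (Valuation.map_sub _ _ _).trans (max_le hx hk.le)
  obtain ⟨a, ha⟩ := v0.exists_valuation_sub_lt_of_integer hk1 1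
  have hd := Polynomial.modByMonic_add_div a red_q
  have hdeg : (a %ₘ red_q).natDegree ≤ 1 := by
    have h1 := Polynomial.natDegree_modByMonic_lt a red_monic (by
      intro h
      have := red_deg
      rw [h] at this
      simp at this)
    rw [red_deg] at h1
    omega
  obtain ⟨b, c, hbc⟩ := Polynomial.exists_eq_X_add_C_of_natDegree_le_one hdeg
  obtain ⟨i, hi1, hi2⟩ := red_sur c b
  refine ⟨i, ?_⟩
  have h2 : x - red_E (red_p i) = (x - emb (some v0) k) +
      (emb (some v0) (k - algebraMap R K a) + red_E (red_q * (a /ₘ red_q))) := by
    have h3 : red_q * (a /ₘ red_q) = a - red_p i := by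
      unfold red_p
      rw [hi1, hi2, ← hbc]
      linear_combination hd
    rw [h3, map_sub, map_sub]
    have h4 : red_E a = emb (some v0) (algebraMap R K a) := rfl
    rw [h4]
    ring
  rw [h2]
  have h5 : vv (some v0) (emb (some v0) (k - algebraMap R K a)) < 1 := by
    rw [emb_val, red_val, Valuation.map_sub_swap]
    exact_mod_cast ha
  have h6 : vv (some v0) (red_E (red_q * (a /ₘ red_q))) < 1 := (red_lt _).2 (dvd_mul_right _ _)
  exact Valuation.map_add_lt _ hk (Valuation.map_add_lt _ h5 h6)

theorem red_uniq {x : Kv (some v0)} {i j : Fin 4} (hi : vv (some v0) (x - red_E (red_p i)) < 1)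
    (hj : vv (some v0) (x - red_E (red_p j)) < 1) : i = j := by
  apply red_inj
  rw [← red_lt]
  have h1 : red_E (red_p i - red_p j) = (x - red_E (red_p j)) - (x - red_E (red_p i)) := by
    rw [map_sub]
    ring
  rw [h1]
  exact (Valuation.map_sub _ _ _).trans_lt (max_lt hj hi)

open scoped Classical in
/-- the residue -/
def red_r (x : Kv (some v0)) : Fin 4 :=
  if h : ∃ i : Fin 4, vv (some v0) (x - red_E (red_p i)) < 1 then h.choose else 0

theorem red_spec {x : Kv (some v0)} (hx : vv (some v0) x ≤ 1) :
    vv (some v0) (x - red_E (red_p (red_r x))) < 1 := by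
  classical
  have h := red_ex x hx
  have h1 : red_r x = h.choose := by
    unfold red_r
    rw [dif_pos h]
  rw [h1]
  exact h.choose_spec

theorem red_eq {x : Kv (some v0)} (hx : vv (some v0) x ≤ 1) {i : Fin 4}
    (hi : vv (some v0) (x - red_E (red_p i)) < 1) : red_r x = i :=
  red_uniq (red_spec hx) hi

theorem t_RED : Red4 := by
  have hX : red_E X = tP (some v0) := by
    unfold red_E tP
    rw [RingHom.comp_apply, RatFunc.algebraMap_X]
  have hp0 : red_p 0 = 0 := by simp [red_p, red_a, red_b]
  have hp1 : red_p 1 = 1 := by simp [red_p, red_a, red_b]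
  have hp2 : red_p 2 = X := by simp [red_p, red_a, red_b]
  have hT : vv (some v0) (tP (some v0)) ≤ 1 := by
    rw [← hX]
    exact red_le X
  refine ⟨red_r, fun x y hx hy => ⟨?_, ?_⟩, fun x y hx hy => ?_, ?_, ?_, ?_, hT⟩
  · refine red_eq ((Valuation.map_add _ _ _).trans (max_le hx hy)) ?_
    have h1 : x + y - red_E (red_p (add4 (red_r x) (red_r y))) =
        (x - red_E (red_p (red_r x))) + (y - red_E (red_p (red_r y))) := by
      rw [← red_add, map_add]
      ring
    rw [h1]
    exact Valuation.map_add_lt _ (red_spec hx) (red_spec hy)
  · refine red_eq (by rw [Valuation.map_mul]; exact mul_le_one' hx hy) ?_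
    have h1 : x * y - red_E (red_p (mul4 (red_r x) (red_r y))) =
        (x - red_E (red_p (red_r x))) * y + red_E (red_p (red_r x)) * (y - red_E (red_p (red_r y))) +
        red_E (C (red_b (red_r x) * red_b (red_r y)) * red_q) := by
      have h2 := congrArg red_E (red_mul (red_r x) (red_r y))
      rw [map_mul, map_add] at h2
      linear_combination h2
    rw [h1]
    have h3 : vv (some v0) ((x - red_E (red_p (red_r x))) * y) < 1 := by
      rw [Valuation.map_mul]
      exact (mul_le_of_le_one_right' hy).trans_lt (red_spec hx)
    have h4 : vv (some v0) (red_E (red_p (red_r x)) * (y - red_E (red_p (red_r y)))) < 1 := by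
      rw [Valuation.map_mul]
      exact (mul_le_of_le_one_left' (red_le _)).trans_lt (red_spec hy)
    have h5 : vv (some v0) (red_E (C (red_b (red_r x) * red_b (red_r y)) * red_q)) < 1 :=
      (red_lt _).2 (dvd_mul_left _ _)
    exact Valuation.map_add_lt _ (Valuation.map_add_lt _ h3 h4) h5
  · rw [← vv_lt_one]
    constructor
    · intro h
      have h1 : x - y = (x - red_E (red_p (red_r x))) - (y - red_E (red_p (red_r y))) := by
        rw [h]
        ring
      rw [h1]
      exact (Valuation.map_sub _ _ _).trans_lt (max_lt (red_spec hx) (red_spec hy))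
    · intro h
      refine red_eq hx ?_
      have h1 : x - red_E (red_p (red_r y)) = (x - y) + (y - red_E (red_p (red_r y))) := by ring
      rw [h1]
      exact Valuation.map_add_lt _ h (red_spec hy)
  · refine red_eq (by simp) ?_
    rw [hp0, map_zero, sub_zero, map_zero]
    exact zero_lt_one
  · refine red_eq (by simp) ?_
    rw [hp1, map_one, sub_self, map_zero]
    exact zero_lt_one
  · refine red_eq hT ?_
    rw [hp2, hX, sub_self, map_zero]
    exact zero_lt_one

end Pool.Agent.H757L
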