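import Pool.Agent.H757L.Base

set_option autoImplicit false
set_option linter.all false
noncomputable section

namespace Pool.Agent.H757L

open Polynomial IsDedekindDomain Matrix WithZero

/-- the normalised absolute value on the units of the completion -/
def nrm (P : Pl) (x : (Kv P)ˣ) : ℝ := (qq P : ℝ) ^ (WithZero.log (vv P (x : Kv P)))

/-- the local group GL_2(K_P) -/
abbrev G (P : Pl) : Type := GL (Fin 2) (Kv P)

theorem vsum (P : Pl) (a b : Kv P) (n : ℤ) (ha : vv P a ≤ exp n) (hb : vv P b ≤ exp n) :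
    vv P (a + b) ≤ exp n := (Valuation.map_add_le _ ha hb)

theorem vone (P : Pl) (i j : Fin 2) : vv P ((1 : Matrix (Fin 2) (Fin 2) (Kv P)) i j) ≤ 1 := by
  by_cases h : i = j <;> simp [Matrix.one_apply, h]

theorem vle (P : Pl) (g : Matrix (Fin 2) (Fin 2) (Kv P)) (n : ℕ)
    (h : ∀ i j, vv P (g i j - (1 : Matrix (Fin 2) (Fin 2) (Kv P)) i j) ≤ exp (-(n : ℤ))) (i j : Fin 2) :
    vv P (g i j) ≤ 1 := by
  have h1 : g i j = (g i j - (1 : Matrix (Fin 2) (Fin 2) (Kv P)) i j)
      + (1 : Matrix (Fin 2) (Fin 2) (Kv P)) i j := by ring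
  rw [h1]
  refine Valuation.map_add_le _ ((h i j).trans ?_) (vone P i j)
  rw [← exp_zero]; exact exp_le_exp.2 (by omega)

theorem vmul (P : Pl) (g h : Matrix (Fin 2) (Fin 2) (Kv P)) (n : ℕ)
    (hg : ∀ i j, vv P (g i j - (1 : Matrix (Fin 2) (Fin 2) (Kv P)) i j) ≤ exp (-(n : ℤ)))
    (hh : ∀ i j, vv P (h i j - (1 : Matrix (Fin 2) (Fin 2) (Kv P)) i j) ≤ exp (-(n : ℤ))) (i j : Fin 2) :
    vv P ((g * h) i j - (1 : Matrix (Fin 2) (Fin 2) (Kv P)) i j) ≤ exp (-(n : ℤ)) := by
  have e : ∀ i j, (g * h) i j - (1 : Matrix (Fin 2) (Fin 2) (Kv P)) i j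
      = ((g i 0 - (1 : Matrix (Fin 2) (Fin 2) (Kv P)) i 0) * h 0 j
        + (g i 1 - (1 : Matrix (Fin 2) (Fin 2) (Kv P)) i 1) * h 1 j)
        + (h i j - (1 : Matrix (Fin 2) (Fin 2) (Kv P)) i j) := by
    simp only [Fin.forall_fin_two, Matrix.mul_apply, Fin.sum_univ_two, Matrix.one_apply_eq,
      Matrix.one_apply_ne (show (0 : Fin 2) ≠ 1 by decide), Matrix.one_apply_ne (show (1 : Fin 2) ≠ 0 by decide)]
    refine ⟨⟨?_, ?_⟩, ?_, ?_⟩ <;> ring
  rw [e i j]
  have hm : ∀ k, vv P ((g i k - (1 : Matrix (Fin 2) (Fin 2) (Kv P)) i k) * h k j) ≤ exp (-(n : ℤ)) := by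
    intro k
    rw [Valuation.map_mul]
    calc _ ≤ exp (-(n : ℤ)) * 1 := mul_le_mul' (hg i k) (vle P h n hh k j)
      _ = _ := mul_one _
  exact Valuation.map_add_le _ (Valuation.map_add_le _ (hm 0) (hm 1)) (hh i j)

/-- the congruence subgroup of level n of GL_2(O_P): the g with g, g^-1 integral and congruent
to 1 modulo the n-th power of the maximal ideal; for n = 0 this is GL_2(O_P) -/
def cong (P : Pl) (n : ℕ) : Subgroup (G P) where
  carrier := {g | (∀ i j, vv P ((g : Matrix (Fin 2) (Fin 2) (Kv P)) i j - (1 : Matrix (Fin 2) (Fin 2) (Kv P)) i j) ≤ exp (-(n : ℤ)))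
    ∧ (∀ i j, vv P (((g⁻¹ : G P) : Matrix (Fin 2) (Fin 2) (Kv P)) i j - (1 : Matrix (Fin 2) (Fin 2) (Kv P)) i j) ≤ exp (-(n : ℤ)))}
  one_mem' := by constructor <;> intro i j <;> simp
  mul_mem' := by
    rintro a b ⟨ha, ha'⟩ ⟨hb, hb'⟩
    refine ⟨fun i j => ?_, fun i j => ?_⟩
    · exact vmul P _ _ n ha hb i j
    · rw [_root_.mul_inv_rev]; exact vmul P _ _ n hb' ha' i j
  inv_mem' := by
    rintro a ⟨ha, ha'⟩
    exact ⟨ha', by simpa using ha⟩

/-- the adelic group GL_2(A): the families in the product of the GL_2(K_P) which lie in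
GL_2(O_P) for all but finitely many P -/
def AG : Subgroup (∀ P, G P) where
  carrier := {g | {P | g P ∉ cong P 0}.Finite}
  one_mem' := by
    simp only [Set.mem_setOf_eq, Pi.one_apply, one_mem, not_true_eq_false, Set.setOf_false,
      Set.finite_empty]
  mul_mem' := by
    intro a b ha hb
    refine (ha.union hb).subset ?_
    intro P hP
    by_contra h
    simp only [Set.mem_union, Set.mem_setOf_eq, not_or, not_not] at h
    exact hP (mul_mem h.1 h.2)
  inv_mem' := by
    intro a ha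
    refine ha.subset ?_
    intro P hP h
    exact hP (by simpa using inv_mem h)

/-- the open compact subgroup of GL_2(A) of level e -/
def U (e : Pl →₀ ℕ) : Subgroup AG where
  carrier := {g | ∀ P, g.1 P ∈ cong P (e P)}
  one_mem' := fun P => one_mem _
  mul_mem' := fun ha hb P => mul_mem (ha P) (hb P)
  inv_mem' := fun ha P => inv_mem (ha P)

open scoped Classical in
/-- the inclusion of GL_2(K_P) in GL_2(A) -/
def incl (P : Pl) : G P →* AG where
  toFun g := ⟨Pi.mulSingle P g, by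
    refine (Set.finite_singleton P).subset ?_
    intro Q hQ
    by_contra h
    exact hQ (by simp only [Set.mem_singleton_iff] at h; rw [Pi.mulSingle_eq_of_ne h]; exact one_mem _)⟩
  map_one' := by ext1; simp
  map_mul' a b := by ext1; simp [Pi.mulSingle_mul]

/-- right translation on the functions on GL_2(A) -/
def rt : Representation ℂ AG (AG → ℂ) where
  toFun g := { toFun := fun φ x => φ (x * g), map_add' := fun _ _ => rfl, map_smul' := fun _ _ => rfl }
  map_one' := by ext φ x; simp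
  map_mul' a b := by ext φ x; simp [mul_assoc]

/-- left invariance under GL_2(K) -/
def LeftInv (φ : AG → ℂ) : Prop :=
  ∀ (γ : GL (Fin 2) K) (g g' : AG), (∀ P, g'.1 P = Matrix.GeneralLinearGroup.map (emb P) γ * g.1 P) → φ g' = φ g

/-- the functions in the span of the GL_2(K_P)-translates of φ fixed by the congruence
subgroup of level n -/
def fixedSpan (P : Pl) (φ : AG → ℂ) (n : ℕ) : Submodule ℂ (AG → ℂ) where
  carrier := {ψ | ψ ∈ Submodule.span ℂ (Set.range fun h : G P => rt (incl P h) φ) ∧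
    ∀ k ∈ cong P n, rt (incl P k) ψ = ψ}
  zero_mem' := ⟨zero_mem _, fun k _ => map_zero _⟩
  add_mem' := fun ha hb => ⟨add_mem ha.1 hb.1, fun k hk => by rw [map_add, ha.2 k hk, hb.2 k hk]⟩
  smul_mem' := fun c _ ha => ⟨Submodule.smul_mem _ c ha.1, fun k hk => by rw [map_smul, ha.2 k hk]⟩

/-- automorphic forms on GL_2(A) (Borel-Jacquet, function field case): left invariant under GL_2(K),
right invariant under an open subgroup, and the translates under GL_2(K_P) generate an admissible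
representation for some place P -/
def IsAutForm (φ : AG → ℂ) : Prop :=
  LeftInv φ ∧ (∃ e : Pl →₀ ℕ, ∀ u ∈ U e, rt u φ = φ) ∧
    ∃ P, ∀ n, FiniteDimensional ℂ (fixedSpan P φ n)

/-- the adeles -/
def AA : AddSubgroup (∀ P, Kv P) where
  carrier := {x | {P | ¬ vv P (x P) ≤ 1}.Finite}
  zero_mem' := by simp
  add_mem' := by
    intro a b ha hb
    refine (ha.union hb).subset ?_
    intro P hP
    by_contra h
    simp only [Set.mem_union, Set.mem_setOf_eq, not_or, not_not] at h
    exact hP (Valuation.map_add_le _ h.1 h.2)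
  neg_mem' := by
    intro a ha
    refine ha.subset ?_
    intro P hP h
    exact hP (by simpa using h)

/-- the principal adeles -/
def KK : AddSubgroup AA where
  carrier := {x | ∃ k : K, ∀ P, x.1 P = emb P k}
  zero_mem' := ⟨0, fun P => by simp⟩
  add_mem' := by
    rintro a b ⟨k, hk⟩ ⟨l, hl⟩
    exact ⟨k + l, fun P => by simp [hk P, hl P]⟩
  neg_mem' := by
    rintro a ⟨k, hk⟩
    exact ⟨-k, fun P => by simp [hk P]⟩

/-- the open compact subgroup of the adeles of level e -/
def box (e : Pl →₀ ℕ) : AddSubgroup AA where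
  carrier := {x | ∀ P, vv P (x.1 P) ≤ exp (-(e P : ℤ))}
  zero_mem' := fun P => by simp
  add_mem' := fun ha hb P => Valuation.map_add_le _ (ha P) (hb P)
  neg_mem' := fun ha P => by simpa using ha P

/-- the matrix (a b; 0 d) -/
def tri {F : Type} [Field F] (a d : Fˣ) (b : F) : GL (Fin 2) F :=
  Matrix.GeneralLinearGroup.mkOfDetNeZero !![(a : F), b; 0, (d : F)] (by simp [Matrix.det_fin_two_of])

theorem tri_int (P : Pl) (x : Kv P) (hx : vv P x ≤ 1) : tri 1 1 x ∈ cong P 0 := by
  have hi : ((tri 1 1 x)⁻¹ : G P) = tri 1 1 (-x) := by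
    rw [inv_eq_iff_mul_eq_one]
    ext i j
    fin_cases i <;> fin_cases j <;> simp [tri, Matrix.mul_apply, Fin.sum_univ_two]
  refine ⟨fun i j => ?_, fun i j => ?_⟩
  · fin_cases i <;> fin_cases j <;> simp [tri, hx]
  · rw [hi]; fin_cases i <;> fin_cases j <;> simp [tri, hx]

/-- the unipotent matrix n(x), x an adele -/
def unip (x : AA) : AG := ⟨fun P => tri 1 1 (x.1 P), by
  refine x.2.subset ?_
  intro P hP h
  exact hP (tri_int P _ h)⟩

/-- cusp forms: the automorphic forms all of whose constant terms vanish. The function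
x -> φ(n(x) g) is invariant under K and, φ being smooth, under some box e; its integral over
the compact group A/K is a constant times the sum over the finite group A/(K + box e). -/
def IsCuspForm (φ : AG → ℂ) : Prop :=
  IsAutForm φ ∧ ∀ (g : AG) (e : Pl →₀ ℕ), (∀ x, ∀ b ∈ box e, φ (unip (x + b) * g) = φ (unip x * g)) →
    ∑ᶠ q : AA ⧸ (KK ⊔ box e), φ (unip (Quotient.out q) * g) = 0

/-- irreducible -/
def Irred {H : Type} [Group H] (π : Rp H) : Prop :=
  Nontrivial π.V ∧ ∀ W : Submodule ℂ π.V, (∀ h, ∀ w ∈ W, π.ρ h w ∈ W) → W = ⊥ ∨ W = ⊤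

/-- T intertwines -/
def Inter {H : Type} [Group H] (π π' : Rp H) (T : π.V →ₗ[ℂ] π'.V) : Prop :=
  ∀ h v, T (π.ρ h v) = π'.ρ h (T v)

/-- isomorphic representations -/
def Iso {H : Type} [Group H] (π π' : Rp H) : Prop :=
  ∃ T : π.V →ₗ[ℂ] π'.V, Function.Bijective T ∧ Inter π π' T

/-- smooth representation of GL_2(K_P) -/
def SmoothL (P : Pl) (σ : Rp (G P)) : Prop := ∀ s, ∃ n, ∀ k ∈ cong P n, σ.ρ k s = s

/-- smooth representation of GL_2(A) -/
def SmoothA (π : Rp AG) : Prop := ∀ s, ∃ e, ∀ u ∈ U e, π.ρ u s = s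

/-- π is a subquotient of the space of the functions with the property Q: a quotient of a stable
subspace M all of whose elements have the property Q -/
def Subquot (Q : (AG → ℂ) → Prop) (π : Rp AG) : Prop :=
  ∃ M : Submodule ℂ (AG → ℂ), (∀ φ ∈ M, Q φ) ∧ (∀ g, ∀ φ ∈ M, rt g φ ∈ M) ∧
    ∃ f : M →ₗ[ℂ] π.V, Function.Surjective f ∧
      ∀ (g : AG) (φ φ' : M), (φ' : AG → ℂ) = rt g φ → f φ' = π.ρ g (f φ)

/-- irreducible automorphic representations of GL_2(A) -/
def IsAutomorphic (π : Rp AG) : Prop := Irred π ∧ SmoothA π ∧ Subquot IsAutForm π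

/-- σ is the component of π at P: σ is irreducible and smooth and the restriction of π to GL_2(K_P)
is a sum of copies of σ -/
def IsComponent (π : Rp AG) (P : Pl) (σ : Rp (G P)) : Prop :=
  Irred σ ∧ SmoothL P σ ∧ ∀ v : π.V, v ∈ Submodule.span ℂ {w | ∃ (T : σ.V →ₗ[ℂ] π.V) (s : σ.V),
    (∀ h s, T (σ.ρ h s) = π.ρ (incl P h) (T s)) ∧ T s = w}

/-- unramified: there is a nonzero vector fixed by GL_2(O_P) -/
def Unram (P : Pl) (σ : Rp (G P)) : Prop := ∃ s : σ.V, s ≠ 0 ∧ ∀ k ∈ cong P 0, σ.ρ k s = s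

/-- the ideles -/
def IA : Subgroup (∀ P, (Kv P)ˣ) where
  carrier := {x | {P | vv P (x P : Kv P) ≠ 1}.Finite}
  one_mem' := by simp
  mul_mem' := by
    intro a b ha hb
    refine (ha.union hb).subset ?_
    intro P hP
    by_contra h
    simp only [Set.mem_union, Set.mem_setOf_eq, not_or, not_not] at h
    exact hP (by simp [h.1, h.2])
  inv_mem' := by
    intro a ha
    refine ha.subset ?_
    intro P hP h
    exact hP (by simp [h])

open scoped Classical in
/-- the inclusion of the units of K_P in the ideles -/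
def inclI (P : Pl) : (Kv P)ˣ →* IA where
  toFun g := ⟨Pi.mulSingle P g, by
    refine (Set.finite_singleton P).subset ?_
    intro Q hQ
    by_contra h
    exact hQ (by simp only [Set.mem_singleton_iff] at h; rw [Pi.mulSingle_eq_of_ne h]; simp)⟩
  map_one' := by ext1; simp
  map_mul' a b := by ext1; simp [Pi.mulSingle_mul]

/-- the absolute value of an idele -/
def nrmA (x : IA) : ℝ := ∏ᶠ P, nrm P (x.1 P)

/-- Hecke characters (quasi-characters of the idele class group) -/
structure HeckeChar where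
  μ : IA →* ℂˣ
  princ : ∀ (k : Kˣ) (x : IA), (∀ P, x.1 P = Units.map (emb P : K →* Kv P) k) → μ x = 1
  cont : ∃ e : Pl →₀ ℕ, ∀ x : IA, (∀ P, vv P (x.1 P : Kv P) = 1 ∧ vv P ((x.1 P : Kv P) - 1) ≤ exp (-(e P : ℤ))) → μ x = 1

/-- right translation on the functions on GL_2(K_P) -/
def rtL (P : Pl) : Representation ℂ (G P) (G P → ℂ) where
  toFun g := { toFun := fun f x => f (x * g), map_add' := fun _ _ => rfl, map_smul' := fun _ _ => rfl }
  map_one' := by ext φ x; simp
  map_mul' a b := by ext φ x; simp [mul_assoc]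

/-- the (normalised) principal series Ind(χ1, χ2) of GL_2(K_P) -/
def IsPS (P : Pl) (χ1 χ2 : (Kv P)ˣ →* ℂˣ) (f : G P → ℂ) : Prop :=
  (∀ (a d : (Kv P)ˣ) (b : Kv P) (g : G P),
    f (tri a d b * g) = (χ1 a : ℂ) * (χ2 d : ℂ) * (Real.sqrt (nrm P a / nrm P d) : ℂ) * f g) ∧
  ∃ n, ∀ k ∈ cong P n, ∀ g, f (g * k) = f g

/-- π is the isobaric sum of the Hecke characters χ1, χ2, |χ1| = |χ2| |.|^s with s ≥ 0: each component
is isomorphic to an irreducible subrepresentation of Ind(χ2, χ1), that is the Langlands quotient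
of Ind(χ1, χ2) -/
def IsSum (χ1 χ2 : HeckeChar) (π : Rp AG) : Prop :=
  (∃ s : ℝ, 0 ≤ s ∧ ∀ x : IA, ‖(χ1.μ x : ℂ)‖ = ‖(χ2.μ x : ℂ)‖ * nrmA x ^ s) ∧
  ∀ (P : Pl) (σ : Rp (G P)), IsComponent π P σ → ∃ T : σ.V →ₗ[ℂ] (G P → ℂ), Function.Injective T ∧
    (∀ s, IsPS P (χ2.μ.comp (inclI P)) (χ1.μ.comp (inclI P)) (T s)) ∧
    ∀ h s, T (σ.ρ h s) = rtL P h (T s)

/-- isobaric automorphic representations of GL_2(A): the cuspidal ones and the isobaric sums of
two Hecke characters -/
def IsIsobaric (π : Rp AG) : Prop :=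
  Irred π ∧ SmoothA π ∧ (Subquot IsCuspForm π ∨ ∃ χ1 χ2, IsSum χ1 χ2 π)

/-- π' is the global lifting of π with respect to the identity representation of GL_2(C):
π' is isobaric and the components agree at each place where that of π is unramified -/
def IsLifting (π π' : Rp AG) : Prop :=
  IsIsobaric π' ∧ ∀ (P : Pl) (σ τ : Rp (G P)), IsComponent π P σ → IsComponent π' P τ → Unram P σ → Iso σ τ

/-- Irr(GL_2(K_P)): the isomorphism classes of irreducible smooth representations -/
def Irr (P : Pl) : Type 1 :=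
  Quot (fun σ τ : {σ : Rp (G P) // Irred σ ∧ SmoothL P σ} => Iso σ.1 τ.1)

/-- the class -/
def cls {P : Pl} (σ : Rp (G P)) (h : Irred σ) (h' : SmoothL P σ) : Irr P := Quot.mk _ ⟨σ, h, h'⟩

/-- F = F_2((1/t)), G = GL_2, the identity representation: a map Irr(G) → Irr(GL_2(F)) which
predicts the component at infinity of each global lifting -/
def Predicts (l : Irr none → Irr none) : Prop :=
  ∀ π π' : Rp AG, IsAutomorphic π → IsLifting π π' →
    ∀ (σ τ : Rp (G none)) (h1 : IsComponent π none σ) (h2 : IsComponent π' none τ),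
      l (cls σ h1.1 h1.2.1) = cls τ h2.1 h2.2.1

end Pool.Agent.H757L
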