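import Pool.Agent.H757L.Defs2
/-
Project LL (helper757, MP_5ae62c_nt): the cuspidal function on tree x GL_2(K_v0).
-/

set_option autoImplicit false
set_option linter.all false
noncomputable section

namespace Pool.Agent.H757L

open Polynomial IsDedekindDomain Matrix WithZero

theorem tre_ext {P : Pl} {g h : G P} (e00 : (g : Matrix (Fin 2) (Fin 2) (Kv P)) 0 0 = (h : Matrix (Fin 2) (Fin 2) (Kv P)) 0 0)
    (e01 : (g : Matrix (Fin 2) (Fin 2) (Kv P)) 0 1 = (h : Matrix (Fin 2) (Fin 2) (Kv P)) 0 1)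
    (e10 : (g : Matrix (Fin 2) (Fin 2) (Kv P)) 1 0 = (h : Matrix (Fin 2) (Fin 2) (Kv P)) 1 0)
    (e11 : (g : Matrix (Fin 2) (Fin 2) (Kv P)) 1 1 = (h : Matrix (Fin 2) (Fin 2) (Kv P)) 1 1) : g = h := by
  apply Units.ext
  ext i j
  fin_cases i <;> fin_cases j
  · exact e00
  · exact e01
  · exact e10
  · exact e11

theorem tre_mul (P : Pl) (g h : G P) (i j : Fin 2) :
    ((g * h : G P) : Matrix (Fin 2) (Fin 2) (Kv P)) i j =
      (g : Matrix (Fin 2) (Fin 2) (Kv P)) i 0 * (h : Matrix (Fin 2) (Fin 2) (Kv P)) 0 j +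
      (g : Matrix (Fin 2) (Fin 2) (Kv P)) i 1 * (h : Matrix (Fin 2) (Fin 2) (Kv P)) 1 j := by
  simp [Matrix.mul_apply, Fin.sum_univ_two]

theorem tre_tri (P : Pl) (a d : (Kv P)ˣ) (b : Kv P) :
    ((tri a d b : G P) : Matrix (Fin 2) (Fin 2) (Kv P)) 0 0 = a ∧
    ((tri a d b : G P) : Matrix (Fin 2) (Fin 2) (Kv P)) 0 1 = b ∧
    ((tri a d b : G P) : Matrix (Fin 2) (Fin 2) (Kv P)) 1 0 = 0 ∧
    ((tri a d b : G P) : Matrix (Fin 2) (Fin 2) (Kv P)) 1 1 = d := by
  refine ⟨?_, ?_, ?_, ?_⟩ <;> simp [tri]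

theorem tre_sw (P : Pl) :
    ((sw P : G P) : Matrix (Fin 2) (Fin 2) (Kv P)) 0 0 = 0 ∧
    ((sw P : G P) : Matrix (Fin 2) (Fin 2) (Kv P)) 0 1 = 1 ∧
    ((sw P : G P) : Matrix (Fin 2) (Fin 2) (Kv P)) 1 0 = 1 ∧
    ((sw P : G P) : Matrix (Fin 2) (Fin 2) (Kv P)) 1 1 = 0 := by
  refine ⟨?_, ?_, ?_, ?_⟩ <;> simp [sw]

theorem tre_om :
    ((om : G none) : Matrix (Fin 2) (Fin 2) (Kv none)) 0 0 = 0 ∧
    ((om : G none) : Matrix (Fin 2) (Fin 2) (Kv none)) 0 1 = tP none ∧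
    ((om : G none) : Matrix (Fin 2) (Fin 2) (Kv none)) 1 0 = 1 ∧
    ((om : G none) : Matrix (Fin 2) (Fin 2) (Kv none)) 1 1 = 0 := by
  refine ⟨?_, ?_, ?_, ?_⟩ <;> simp [om]

theorem tre_sc_comm (P : Pl) (a : (Kv P)ˣ) (g : G P) : sc P a * g = g * sc P a := by
  obtain ⟨e1, e2, e3, e4⟩ := tre_tri P a a 0
  apply tre_ext <;> rw [tre_mul, tre_mul] <;> unfold sc <;> simp only [e1, e2, e3, e4] <;> ring

theorem tre_sc_mul (P : Pl) (a b : (Kv P)ˣ) : sc P a * sc P b = sc P (a * b) := by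
  obtain ⟨e1, e2, e3, e4⟩ := tre_tri P a a 0
  obtain ⟨f1, f2, f3, f4⟩ := tre_tri P b b 0
  obtain ⟨g1, g2, g3, g4⟩ := tre_tri P (a * b) (a * b) 0
  apply tre_ext <;> rw [tre_mul] <;> unfold sc <;>
    simp only [e1, e2, e3, e4, f1, f2, f3, f4, g1, g2, g3, g4, Units.val_mul] <;> ring

theorem tre_sc_one (P : Pl) : sc P 1 = 1 := by
  have h := tre_sc_mul P 1 1
  rw [mul_one] at h
  exact mul_eq_left.1 h

theorem tre_sc_inv (P : Pl) (a : (Kv P)ˣ) : (sc P a)⁻¹ = sc P a⁻¹ := by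
  rw [inv_eq_iff_mul_eq_one, tre_sc_mul, mul_inv_cancel, tre_sc_one]

theorem tre_om_sq : om * om = sc none (tu none) := by
  obtain ⟨e1, e2, e3, e4⟩ := tre_tri none (tu none) (tu none) 0
  obtain ⟨f1, f2, f3, f4⟩ := tre_om
  apply tre_ext <;> rw [tre_mul] <;> unfold sc <;>
    simp only [e1, e2, e3, e4, f1, f2, f3, f4] <;> simp [tu]

theorem tre_om_inv : (om : G none)⁻¹ = om * sc none (tu none)⁻¹ := by
  rw [inv_eq_iff_mul_eq_one, ← mul_assoc, tre_om_sq, tre_sc_mul, mul_inv_cancel, tre_sc_one]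

theorem tre_cong0 (P : Pl) (g : G P)
    (h1 : ∀ i j, vv P ((g : Matrix (Fin 2) (Fin 2) (Kv P)) i j) ≤ 1)
    (h2 : ∀ i j, vv P (((g⁻¹ : G P) : Matrix (Fin 2) (Fin 2) (Kv P)) i j) ≤ 1) : g ∈ cong P 0 := by
  refine ⟨fun i j => ?_, fun i j => ?_⟩
  · have e : exp (-((0 : ℕ) : ℤ)) = (1 : WithZero (Multiplicative ℤ)) := by simp
    rw [e]
    exact (Valuation.map_sub _ _ _).trans (max_le (h1 i j) (vone P i j))
  · have e : exp (-((0 : ℕ) : ℤ)) = (1 : WithZero (Multiplicative ℤ)) := by simp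
    rw [e]
    exact (Valuation.map_sub _ _ _).trans (max_le (h2 i j) (vone P i j))

theorem tre_vt : vv none (tP none) = exp (1 : ℤ) := by
  classical
  unfold tP
  rw [emb_val]
  unfold val
  have e : (RatFunc.X : K) = RatFunc.X ^ (1 : ℤ) := (zpow_one _).symm
  rw [e]
  convert RatFunc.inftyValuation.X_zpow (ZMod 2) 1

/-- entries of om^-1 i om -/
theorem tre_conj_entries (i : G none) :
    ((om⁻¹ * i * om : G none) : Matrix (Fin 2) (Fin 2) (Kv none)) 0 0 = (i : Matrix (Fin 2) (Fin 2) (Kv none)) 1 1 ∧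
    ((om⁻¹ * i * om : G none) : Matrix (Fin 2) (Fin 2) (Kv none)) 0 1 = tP none * (i : Matrix (Fin 2) (Fin 2) (Kv none)) 1 0 ∧
    ((om⁻¹ * i * om : G none) : Matrix (Fin 2) (Fin 2) (Kv none)) 1 0 = (tP none)⁻¹ * (i : Matrix (Fin 2) (Fin 2) (Kv none)) 0 1 ∧
    ((om⁻¹ * i * om : G none) : Matrix (Fin 2) (Fin 2) (Kv none)) 1 1 = (i : Matrix (Fin 2) (Fin 2) (Kv none)) 0 0 := by
  have h : om⁻¹ * i * om = sc none (tu none)⁻¹ * (om * i * om) := by
    rw [tre_om_inv, ← tre_sc_comm none (tu none)⁻¹ om]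
    simp only [mul_assoc]
  rw [h]
  obtain ⟨e1, e2, e3, e4⟩ := tre_tri none (tu none)⁻¹ (tu none)⁻¹ 0
  obtain ⟨f1, f2, f3, f4⟩ := tre_om
  have ht := tP_ne none
  have hti : (((tu none)⁻¹ : (Kv none)ˣ) : Kv none) = (tP none)⁻¹ := by simp [tu]
  unfold sc
  refine ⟨?_, ?_, ?_, ?_⟩ <;>
    simp only [tre_mul, e1, e2, e3, e4, f1, f2, f3, f4, hti] <;> field_simp <;> ring

theorem tre_Iw_iff (g : G none) : g ∈ Iw ↔ g ∈ cong none 0 ∧
    vv none ((g : Matrix (Fin 2) (Fin 2) (Kv none)) 1 0) ≤ exp (-1 : ℤ) := Iff.rfl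

theorem tre_conj (i : G none) (hi : i ∈ Iw) : om⁻¹ * i * om ∈ Iw := by
  have key : ∀ j ∈ Iw, (∀ a b, vv none (((om⁻¹ * j * om : G none) : Matrix (Fin 2) (Fin 2) (Kv none)) a b) ≤ 1) ∧
      vv none (((om⁻¹ * j * om : G none) : Matrix (Fin 2) (Fin 2) (Kv none)) 1 0) ≤ exp (-1 : ℤ) := by
    intro j hj
    obtain ⟨e1, e2, e3, e4⟩ := tre_conj_entries j
    obtain ⟨hj0, hj1⟩ := (tre_Iw_iff j).1 hj
    have hint := int_entry none j hj0
    have b01 : vv none (tP none * (j : Matrix (Fin 2) (Fin 2) (Kv none)) 1 0) ≤ 1 := by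
      rw [Valuation.map_mul, tre_vt]
      calc exp (1 : ℤ) * vv none ((j : Matrix (Fin 2) (Fin 2) (Kv none)) 1 0)
          ≤ exp (1 : ℤ) * exp (-1 : ℤ) := mul_le_mul_right hj1 _
        _ = 1 := by rw [← exp_add]; simp
    have b10 : vv none ((tP none)⁻¹ * (j : Matrix (Fin 2) (Fin 2) (Kv none)) 0 1) ≤ exp (-1 : ℤ) := by
      rw [Valuation.map_mul, map_inv₀, tre_vt]
      calc (exp (1 : ℤ))⁻¹ * vv none ((j : Matrix (Fin 2) (Fin 2) (Kv none)) 0 1)
          ≤ (exp (1 : ℤ))⁻¹ * 1 := mul_le_mul_right (hint 0 1) _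
        _ = exp (-1 : ℤ) := by rw [mul_one, ← WithZero.exp_neg]
    have hle : exp (-1 : ℤ) ≤ (1 : WithZero (Multiplicative ℤ)) := by
      rw [← exp_zero]; exact exp_le_exp.2 (by norm_num)
    refine ⟨fun a b => ?_, ?_⟩
    · fin_cases a <;> fin_cases b
      · show vv none (((om⁻¹ * j * om : G none) : Matrix (Fin 2) (Fin 2) (Kv none)) 0 0) ≤ 1
        rw [e1]; exact hint 1 1
      · show vv none (((om⁻¹ * j * om : G none) : Matrix (Fin 2) (Fin 2) (Kv none)) 0 1) ≤ 1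
        rw [e2]; exact b01
      · show vv none (((om⁻¹ * j * om : G none) : Matrix (Fin 2) (Fin 2) (Kv none)) 1 0) ≤ 1
        rw [e3]; exact b10.trans hle
      · show vv none (((om⁻¹ * j * om : G none) : Matrix (Fin 2) (Fin 2) (Kv none)) 1 1) ≤ 1
        rw [e4]; exact hint 0 0
    · rw [e3]; exact b10
  rw [tre_Iw_iff]
  refine ⟨tre_cong0 none _ (key i hi).1 ?_, (key i hi).2⟩
  have e : (om⁻¹ * i * om)⁻¹ = om⁻¹ * i⁻¹ * om := by group
  rw [e]
  exact (key i⁻¹ (inv_mem hi)).1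

/-- the other conjugation -/
theorem tre_conj' (i : G none) (hi : i ∈ Iw) : om * i * om⁻¹ ∈ Iw := by
  have h : om * i * om⁻¹ = om⁻¹ * i * om := by
    rw [tre_om_inv]
    have h1 : om * i * (om * sc none (tu none)⁻¹) = (om * i * om) * sc none (tu none)⁻¹ := by
      simp only [mul_assoc]
    have h2 : om * sc none (tu none)⁻¹ * i * om = (om * i * om) * sc none (tu none)⁻¹ := by
      rw [← tre_sc_comm none (tu none)⁻¹ om, ← tre_sc_comm none (tu none)⁻¹ (om * i * om)]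
      simp only [mul_assoc]
    rw [h1, h2]
  rw [h]
  exact tre_conj i hi

def tre_A (g : G none) (γ : GL (Fin 2) R) : Prop := ∃ i ∈ Iw, ∃ a, g = gR none γ * i * sc none a

def tre_B (g : G none) (γ : GL (Fin 2) R) : Prop := ∃ i ∈ Iw, ∃ a, g = gR none γ * om * i * sc none a

theorem tre_A_left (g : G none) (γ δ : GL (Fin 2) R) : tre_A (gR none δ * g) (δ * γ) ↔ tre_A g γ := by
  constructor
  · rintro ⟨i, hi, a, h⟩
    refine ⟨i, hi, a, ?_⟩
    rw [map_mul] at h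
    apply mul_left_cancel (a := gR none δ)
    rw [h]; simp only [mul_assoc]
  · rintro ⟨i, hi, a, h⟩
    refine ⟨i, hi, a, ?_⟩
    rw [map_mul, h]; simp only [mul_assoc]

theorem tre_B_left (g : G none) (γ δ : GL (Fin 2) R) : tre_B (gR none δ * g) (δ * γ) ↔ tre_B g γ := by
  constructor
  · rintro ⟨i, hi, a, h⟩
    refine ⟨i, hi, a, ?_⟩
    rw [map_mul] at h
    apply mul_left_cancel (a := gR none δ)
    rw [h]; simp only [mul_assoc]
  · rintro ⟨i, hi, a, h⟩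
    refine ⟨i, hi, a, ?_⟩
    rw [map_mul, h]; simp only [mul_assoc]

theorem tre_A_Iw {g : G none} {γ : GL (Fin 2) R} {k : G none} (hk : k ∈ Iw) (h : tre_A g γ) : tre_A (g * k) γ := by
  obtain ⟨i, hi, a, e⟩ := h
  refine ⟨i * k, mul_mem hi hk, a, ?_⟩
  rw [e, mul_assoc (gR none γ * i) (sc none a) k, tre_sc_comm none a k]
  simp only [mul_assoc]

theorem tre_B_Iw {g : G none} {γ : GL (Fin 2) R} {k : G none} (hk : k ∈ Iw) (h : tre_B g γ) : tre_B (g * k) γ := by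
  obtain ⟨i, hi, a, e⟩ := h
  refine ⟨i * k, mul_mem hi hk, a, ?_⟩
  rw [e, mul_assoc (gR none γ * om * i) (sc none a) k, tre_sc_comm none a k]
  simp only [mul_assoc]

theorem tre_A_sc {g : G none} {γ : GL (Fin 2) R} (b : (Kv none)ˣ) (h : tre_A g γ) : tre_A (g * sc none b) γ := by
  obtain ⟨i, hi, a, e⟩ := h
  refine ⟨i, hi, a * b, ?_⟩
  rw [e, ← tre_sc_mul]
  simp only [mul_assoc]

theorem tre_B_sc {g : G none} {γ : GL (Fin 2) R} (b : (Kv none)ˣ) (h : tre_B g γ) : tre_B (g * sc none b) γ := by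
  obtain ⟨i, hi, a, e⟩ := h
  refine ⟨i, hi, a * b, ?_⟩
  rw [e, ← tre_sc_mul]
  simp only [mul_assoc]

theorem tre_A_om {g : G none} {γ : GL (Fin 2) R} (h : tre_A g γ) : tre_B (g * om) γ := by
  obtain ⟨i, hi, a, e⟩ := h
  refine ⟨om⁻¹ * i * om, tre_conj i hi, a, ?_⟩
  rw [e, mul_assoc (gR none γ * i) (sc none a) om, tre_sc_comm none a om]
  group

theorem tre_B_om {g : G none} {γ : GL (Fin 2) R} (h : tre_B g γ) : tre_A (g * om) γ := by
  obtain ⟨i, hi, a, e⟩ := h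
  refine ⟨om⁻¹ * i * om, tre_conj i hi, tu none * a, ?_⟩
  rw [e, mul_assoc (gR none γ * om * i) (sc none a) om, tre_sc_comm none a om, ← tre_sc_mul, ← tre_om_sq]
  have h1 : gR none γ * (om⁻¹ * i * om) * (om * om * sc none a) =
      (gR none γ * (om⁻¹ * i * om)) * (om * om) * sc none a := by simp only [mul_assoc]
  have h2 : (gR none γ * (om⁻¹ * i * om)) * (om * om) = gR none γ * (om * om) * (om⁻¹ * i * om) := by
    rw [tre_om_sq, mul_assoc, ← tre_sc_comm none (tu none) (om⁻¹ * i * om), ← mul_assoc]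
  rw [h1, h2]
  group

theorem tre_A_uniq (ht : TrZ) {g : G none} {γ γ' : GL (Fin 2) R} (h : tre_A g γ) (h' : tre_A g γ') :
    γ' = γ ∨ ∀ P, gR P γ' = gR P γ * nn P 1 := by
  obtain ⟨i, hi, a, e⟩ := h
  obtain ⟨i', hi', a', e'⟩ := h'
  have h1 : gR none (γ⁻¹ * γ') = (i * i'⁻¹) * sc none (a * a'⁻¹) := by
    rw [map_mul, map_inv, ← tre_sc_mul, ← tre_sc_inv]
    have h2 : gR none γ * i * sc none a = gR none γ' * i' * sc none a' := e.symm.trans e'
    have h3 : gR none γ' = gR none γ * i * sc none a * (sc none a')⁻¹ * i'⁻¹ := by rw [h2]; group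
    rw [h3, tre_sc_inv]
    have h4 : gR none γ * i * sc none a * sc none a'⁻¹ * i'⁻¹ =
        gR none γ * i * (sc none a * (sc none a'⁻¹ * i'⁻¹)) := by simp only [mul_assoc]
    rw [h4, tre_sc_comm none a'⁻¹ i'⁻¹, ← mul_assoc (sc none a), tre_sc_comm none a i'⁻¹]
    group
  rcases ht.1 (γ⁻¹ * γ') _ _ (mul_mem hi (inv_mem hi')) h1 with h2 | h2
  · left
    exact (inv_mul_eq_one.1 h2).symm
  · right
    intro P
    rw [← h2 P, map_mul, map_inv]
    group

theorem tre_B_uniq (ht : TrZ) {g : G none} {γ γ' : GL (Fin 2) R} (h : tre_B g γ) (h' : tre_B g γ') :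
    γ' = γ ∨ ∀ P, gR P γ' = gR P γ * nn P 1 := tre_A_uniq ht (tre_B_om h) (tre_B_om h')

theorem tre_AB (ht : TrZ) {g : G none} {γ γ' : GL (Fin 2) R} (h : tre_A g γ) (h' : tre_B g γ') : False := by
  obtain ⟨i, hi, a, e⟩ := h
  obtain ⟨i', hi', a', e'⟩ := h'
  exact ht.2.1 γ γ' i i' a a' hi hi' (e.symm.trans e')

theorem tre_gR_int (γ : GL (Fin 2) R) : gR (some v0) γ ∈ cong (some v0) 0 := by
  have key : ∀ (δ : GL (Fin 2) R) (i j : Fin 2),
      vv (some v0) ((gR (some v0) δ : Matrix (Fin 2) (Fin 2) (Kv (some v0))) i j) ≤ 1 := by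
    intro δ i j
    have e : (gR (some v0) δ : Matrix (Fin 2) (Fin 2) (Kv (some v0))) i j =
        emb (some v0) (algebraMap R K ((δ : Matrix (Fin 2) (Fin 2) R) i j)) := rfl
    rw [e, emb_val]
    exact v0.valuation_le_one _
  apply tre_cong0 _ _ (key γ)
  rw [← map_inv]
  exact key γ⁻¹

/-- elements over R -/
def tre_s : GL (Fin 2) R := ⟨!![0, 1; 1, 0], !![0, 1; 1, 0], by
  ext i j; fin_cases i <;> fin_cases j <;> simp [Matrix.mul_apply, Fin.sum_univ_two], by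
  ext i j; fin_cases i <;> fin_cases j <;> simp [Matrix.mul_apply, Fin.sum_univ_two]⟩

def tre_n (x : R) : GL (Fin 2) R := ⟨!![1, x; 0, 1], !![1, -x; 0, 1], by
  ext i j; fin_cases i <;> fin_cases j <;> simp [Matrix.mul_apply, Fin.sum_univ_two], by
  ext i j; fin_cases i <;> fin_cases j <;> simp [Matrix.mul_apply, Fin.sum_univ_two]⟩

theorem tre_gR_entry (P : Pl) (γ : GL (Fin 2) R) (i j : Fin 2) :
    (gR P γ : Matrix (Fin 2) (Fin 2) (Kv P)) i j =
        emb P (algebraMap R K ((γ : Matrix (Fin 2) (Fin 2) R) i j)) := rfl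

theorem tre_gR_s (P : Pl) : gR P tre_s = sw P := by
  obtain ⟨e1, e2, e3, e4⟩ := tre_sw P
  apply tre_ext <;> rw [tre_gR_entry] <;> simp only [e1, e2, e3, e4] <;> simp [tre_s]

theorem tre_gR_n (P : Pl) (x : R) : gR P (tre_n x) = nn P (emb P (algebraMap R K x)) := by
  obtain ⟨e1, e2, e3, e4⟩ := tre_tri P 1 1 (emb P (algebraMap R K x))
  unfold nn
  apply tre_ext <;> rw [tre_gR_entry] <;> simp only [e1, e2, e3, e4] <;> simp [tre_n]

theorem tre_two (P : Pl) (x : Kv P) : x + x = 0 := by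
  have h1 : (2 : R) = 0 := by
    have := CharP.cast_eq_zero R 2
    exact_mod_cast this
  have h2 : (2 : Kv P) = 0 := by
    have h3 : ((emb P).comp (algebraMap R K)) 2 = ((emb P).comp (algebraMap R K)) 0 := congrArg _ h1
    rw [map_zero, map_ofNat] at h3
    exact h3
  rw [← two_mul, h2, zero_mul]

theorem tre_nn_inv (P : Pl) (y : Kv P) : (nn P y)⁻¹ = nn P y := by
  rw [inv_eq_iff_mul_eq_one]
  obtain ⟨e1, e2, e3, e4⟩ := tre_tri P 1 1 y
  unfold nn
  apply tre_ext <;> rw [tre_mul] <;> simp only [e1, e2, e3, e4] <;> simp [tre_two]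

theorem tre_sw_inv (P : Pl) : (sw P)⁻¹ = sw P := by
  rw [inv_eq_iff_mul_eq_one]
  obtain ⟨e1, e2, e3, e4⟩ := tre_sw P
  apply tre_ext <;> rw [tre_mul] <;> simp only [e1, e2, e3, e4] <;> simp

theorem tre_sw_mem (P : Pl) : sw P ∈ cong P 0 := by
  have key : ∀ i j, vv P ((sw P : Matrix (Fin 2) (Fin 2) (Kv P)) i j) ≤ 1 := by
    obtain ⟨e1, e2, e3, e4⟩ := tre_sw P
    intro i j
    fin_cases i <;> fin_cases j
    · show vv P ((sw P : Matrix (Fin 2) (Fin 2) (Kv P)) 0 0) ≤ 1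
      rw [e1]; simp
    · show vv P ((sw P : Matrix (Fin 2) (Fin 2) (Kv P)) 0 1) ≤ 1
      rw [e2]; simp
    · show vv P ((sw P : Matrix (Fin 2) (Fin 2) (Kv P)) 1 0) ≤ 1
      rw [e3]; simp
    · show vv P ((sw P : Matrix (Fin 2) (Fin 2) (Kv P)) 1 1) ≤ 1
      rw [e4]; simp
  apply tre_cong0 _ _ key
  rw [tre_sw_inv]
  exact key

theorem tre_n1_Iw : nn none 1 ∈ Iw := by
  rw [tre_Iw_iff]
  refine ⟨tri_int none 1 (by simp), ?_⟩
  obtain ⟨e1, e2, e3, e4⟩ := tre_tri none 1 1 1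
  unfold nn
  rw [e3]
  simp

theorem tre_one_not : ¬ ((1 : WithZero (Multiplicative ℤ)) ≤ exp (-1 : ℤ)) := by
  rw [← exp_zero, exp_le_exp]
  norm_num

theorem tre_sw_not : sw none ∉ Iw := by
  intro h
  have h1 := ((tre_Iw_iff _).1 h).2
  obtain ⟨e1, e2, e3, e4⟩ := tre_sw none
  rw [e3, Valuation.map_one] at h1
  exact tre_one_not h1

theorem tre_nsw_not : nn none 1 * sw none ∉ Iw := by
  intro h
  have h1 := mul_mem (inv_mem tre_n1_Iw) h
  rw [inv_mul_cancel_left] at h1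
  exact tre_sw_not h1

theorem tre_sns_not : (sw none)⁻¹ * (nn none 1 * sw none) ∉ Iw := by
  intro h
  have h1 := ((tre_Iw_iff _).1 h).2
  obtain ⟨e1, e2, e3, e4⟩ := tre_sw none
  obtain ⟨f1, f2, f3, f4⟩ := tre_tri none 1 1 1
  have e : (((sw none)⁻¹ * (nn none 1 * sw none) : G none) : Matrix (Fin 2) (Fin 2) (Kv none)) 1 0 = 1 := by
    rw [tre_sw_inv]
    unfold nn
    simp only [tre_mul, e1, e2, e3, e4, f1, f2, f3, f4]
    simp
  rw [e, Valuation.map_one] at h1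
  exact tre_one_not h1

/-- the sum over the three cosets is invariant under cong none 0 -/
theorem tre_sum (hk : CosK) (f : G none → ℂ) (hf : ∀ g, ∀ h ∈ Iw, f (g * h) = f g) (g k : G none)
    (hkk : k ∈ cong none 0) :
    f (g * k) + f (g * k * sw none) + f (g * k * (nn none 1 * sw none)) =
      f g + f (g * sw none) + f (g * (nn none 1 * sw none)) := by
  classical
  let F : G none ⧸ Iw → ℂ := Quotient.lift (s := QuotientGroup.leftRel Iw) (fun x => f (g * x)) (by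
    intro a b hab
    have h1 : a⁻¹ * b ∈ Iw := QuotientGroup.leftRel_apply.1 hab
    have h2 := hf (g * a) _ h1
    show f (g * a) = f (g * b)
    rw [← h2]
    congr 1
    group)
  have hF : ∀ x : G none, F (x : G none ⧸ Iw) = f (g * x) := fun x => rfl
  have hn1 : nn none 1 ∈ cong none 0 := ((tre_Iw_iff _).1 tre_n1_Iw).1
  have hsw := tre_sw_mem none
  let S : Finset (G none ⧸ Iw) := {((1 : G none) : G none ⧸ Iw), ((sw none : G none) : G none ⧸ Iw),
    ((nn none 1 * sw none : G none) : G none ⧸ Iw)}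
  have d1 : ((1 : G none) : G none ⧸ Iw) ≠ ((sw none : G none) : G none ⧸ Iw) := by
    intro h
    rw [QuotientGroup.eq] at h
    apply tre_sw_not
    simpa using h
  have d2 : ((1 : G none) : G none ⧸ Iw) ≠ ((nn none 1 * sw none : G none) : G none ⧸ Iw) := by
    intro h
    rw [QuotientGroup.eq] at h
    apply tre_nsw_not
    simpa using h
  have d3 : ((sw none : G none) : G none ⧸ Iw) ≠ ((nn none 1 * sw none : G none) : G none ⧸ Iw) := by
    intro h
    rw [QuotientGroup.eq] at h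
    exact tre_sns_not h
  have hS : ∀ F' : G none ⧸ Iw → ℂ, ∑ x ∈ S, F' x = F' ((1 : G none) : G none ⧸ Iw) +
      F' ((sw none : G none) : G none ⧸ Iw) + F' ((nn none 1 * sw none : G none) : G none ⧸ Iw) := by
    intro F'
    show ∑ x ∈ ({((1 : G none) : G none ⧸ Iw), ((sw none : G none) : G none ⧸ Iw),
      ((nn none 1 * sw none : G none) : G none ⧸ Iw)} : Finset (G none ⧸ Iw)), F' x = _
    rw [Finset.sum_insert, Finset.sum_insert, Finset.sum_singleton, add_assoc]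
    · simpa using d3
    · simp only [Finset.mem_insert, Finset.mem_singleton, not_or]
      exact ⟨d1, d2⟩
  have hmem : ∀ x ∈ cong none 0, (x : G none ⧸ Iw) ∈ S := by
    intro x hx
    rcases hk x hx with h | ⟨c, hc, i, hi, h⟩
    · have : (x : G none ⧸ Iw) = ((1 : G none) : G none ⧸ Iw) := by
        symm; rw [QuotientGroup.eq]; simpa using h
      rw [this]; simp [S]
    · have h2 : (x : G none ⧸ Iw) = ((nn none c * sw none : G none) : G none ⧸ Iw) := by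
        symm; rw [QuotientGroup.eq, h]; simpa [mul_assoc] using hi
      rcases hc with rfl | rfl
      · have h3 : nn none 0 = 1 := by
          obtain ⟨e1, e2, e3, e4⟩ := tre_tri none 1 1 0
          unfold nn
          apply tre_ext <;> simp only [e1, e2, e3, e4] <;> simp
        rw [h2, h3, one_mul]; simp [S]
      · rw [h2]; simp [S]
  have hmul : ∀ x : G none, x ∈ cong none 0 → (k • (x : G none ⧸ Iw)) ∈ S := by
    intro x hx
    have : k • (x : G none ⧸ Iw) = ((k * x : G none) : G none ⧸ Iw) := rfl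
    rw [this]
    exact hmem _ (mul_mem hkk hx)
  have hmaps : ∀ s ∈ S, k • s ∈ S := by
    intro s hs
    have hs' : s = ((1 : G none) : G none ⧸ Iw) ∨ s = ((sw none : G none) : G none ⧸ Iw) ∨
        s = ((nn none 1 * sw none : G none) : G none ⧸ Iw) := by
      simpa [S] using hs
    rcases hs' with h | h | h
    · rw [h]; exact hmul 1 (one_mem _)
    · rw [h]; exact hmul _ hsw
    · rw [h]; exact hmul _ (mul_mem hn1 hsw)
  have himg : S.image (fun s => k • s) = S := by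
    apply Finset.eq_of_subset_of_card_le
    · intro s hs
      obtain ⟨s', hs', rfl⟩ := Finset.mem_image.1 hs
      exact hmaps s' hs'
    · rw [Finset.card_image_of_injective _ (MulAction.injective k)]
  have hsum : ∑ s ∈ S, F (k • s) = ∑ s ∈ S, F s := by
    conv_rhs => rw [← himg]
    rw [Finset.sum_image]
    intro a _ b _ hab
    exact MulAction.injective k hab
  have hs1 := hS (fun s => F (k • s))
  have hs2 := hS F
  rw [hs2] at hsum
  rw [hs1] at hsum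
  have e1 : F (k • ((1 : G none) : G none ⧸ Iw)) = f (g * k) := by
    have : k • ((1 : G none) : G none ⧸ Iw) = ((k * 1 : G none) : G none ⧸ Iw) := rfl
    rw [this, hF, mul_one]
  have e2 : F (k • ((sw none : G none) : G none ⧸ Iw)) = f (g * k * sw none) := by
    have : k • ((sw none : G none) : G none ⧸ Iw) = ((k * sw none : G none) : G none ⧸ Iw) := rfl
    rw [this, hF, mul_assoc]
  have e3 : F (k • ((nn none 1 * sw none : G none) : G none ⧸ Iw)) = f (g * k * (nn none 1 * sw none)) := by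
    have : k • ((nn none 1 * sw none : G none) : G none ⧸ Iw) =
      ((k * (nn none 1 * sw none) : G none) : G none ⧸ Iw) := rfl
    rw [this, hF, mul_assoc]
  rw [e1, e2, e3, hF, hF, hF, mul_one] at hsum
  exact hsum

open scoped Classical in
/-- the function -/
def tre_Phi (h : G (some v0) → ℂ) (g : G none) (κ : G (some v0)) : ℂ :=
  if κ ∈ cong (some v0) 0 then
    if hA : ∃ γ, tre_A g γ then h (κ⁻¹ * gR (some v0) hA.choose)
    else if hB : ∃ γ, tre_B g γ then - h (κ⁻¹ * gR (some v0) hB.choose)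
    else 0
  else 0

theorem tre_Phi_n (h : G (some v0) → ℂ) (g : G none) (κ : G (some v0)) (hκ : κ ∉ cong (some v0) 0) :
    tre_Phi h g κ = 0 := by
  unfold tre_Phi
  rw [if_neg hκ]

theorem tre_Phi_0 (h : G (some v0) → ℂ) (g : G none) (κ : G (some v0)) (hA : ¬ ∃ γ, tre_A g γ)
    (hB : ¬ ∃ γ, tre_B g γ) : tre_Phi h g κ = 0 := by
  unfold tre_Phi
  rw [dif_neg hA, dif_neg hB, ite_self]

theorem tre_h_eq {h : G (some v0) → ℂ} (hn : ∀ m ∈ cong (some v0) 0, h (m * nn (some v0) 1) = h m)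
    {κ : G (some v0)} (hκ : κ ∈ cong (some v0) 0) {γ γ' : GL (Fin 2) R}
    (e : γ' = γ ∨ ∀ P, gR P γ' = gR P γ * nn P 1) : h (κ⁻¹ * gR (some v0) γ') = h (κ⁻¹ * gR (some v0) γ) := by
  rcases e with rfl | e
  · rfl
  · rw [e, ← mul_assoc]
    exact hn _ (mul_mem (inv_mem hκ) (tre_gR_int γ))

theorem tre_Phi_A (ht : TrZ) {h : G (some v0) → ℂ}
    (hn : ∀ m ∈ cong (some v0) 0, h (m * nn (some v0) 1) = h m) {g : G none} {κ : G (some v0)}
    (hκ : κ ∈ cong (some v0) 0) {γ : GL (Fin 2) R} (hA : tre_A g γ) :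
    tre_Phi h g κ = h (κ⁻¹ * gR (some v0) γ) := by
  have hE : ∃ γ, tre_A g γ := ⟨γ, hA⟩
  unfold tre_Phi
  rw [if_pos hκ, dif_pos hE]
  exact tre_h_eq hn hκ (tre_A_uniq ht hA hE.choose_spec)

theorem tre_Phi_B (ht : TrZ) {h : G (some v0) → ℂ}
    (hn : ∀ m ∈ cong (some v0) 0, h (m * nn (some v0) 1) = h m) {g : G none} {κ : G (some v0)}
    (hκ : κ ∈ cong (some v0) 0) {γ : GL (Fin 2) R} (hB : tre_B g γ) :
    tre_Phi h g κ = - h (κ⁻¹ * gR (some v0) γ) := by
  have hE : ∃ γ, tre_B g γ := ⟨γ, hB⟩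
  have hA : ¬ ∃ γ, tre_A g γ := by
    rintro ⟨γ', hA⟩
    exact tre_AB ht hA hB
  unfold tre_Phi
  rw [if_pos hκ, dif_neg hA, dif_pos hE]
  exact congrArg Neg.neg (tre_h_eq hn hκ (tre_B_uniq ht hB hE.choose_spec))

/-- right translations preserving A and B -/
theorem tre_Phi_inv (ht : TrZ) {h : G (some v0) → ℂ}
    (hn : ∀ m ∈ cong (some v0) 0, h (m * nn (some v0) 1) = h m) (g k : G none) (κ : G (some v0))
    (h1 : ∀ γ, tre_A (g * k) γ ↔ tre_A g γ) (h2 : ∀ γ, tre_B (g * k) γ ↔ tre_B g γ) :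
    tre_Phi h (g * k) κ = tre_Phi h g κ := by
  by_cases hκ : κ ∈ cong (some v0) 0
  · by_cases hA : ∃ γ, tre_A g γ
    · obtain ⟨γ, hA⟩ := hA
      rw [tre_Phi_A ht hn hκ hA, tre_Phi_A ht hn hκ ((h1 γ).2 hA)]
    · by_cases hB : ∃ γ, tre_B g γ
      · obtain ⟨γ, hB⟩ := hB
        rw [tre_Phi_B ht hn hκ hB, tre_Phi_B ht hn hκ ((h2 γ).2 hB)]
      · rw [tre_Phi_0 h g κ hA hB]
        apply tre_Phi_0
        · rintro ⟨γ, hγ⟩
          exact hA ⟨γ, (h1 γ).1 hγ⟩
        · rintro ⟨γ, hγ⟩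
          exact hB ⟨γ, (h2 γ).1 hγ⟩
  · rw [tre_Phi_n h _ κ hκ, tre_Phi_n h _ κ hκ]

theorem tre_Phi_Iw (ht : TrZ) {h : G (some v0) → ℂ}
    (hn : ∀ m ∈ cong (some v0) 0, h (m * nn (some v0) 1) = h m) (g : G none) (k : G none) (hk : k ∈ Iw)
    (κ : G (some v0)) : tre_Phi h (g * k) κ = tre_Phi h g κ := by
  apply tre_Phi_inv ht hn
  · intro γ
    refine ⟨fun h1 => ?_, tre_A_Iw hk⟩
    have h2 := tre_A_Iw (inv_mem hk) h1
    rwa [mul_inv_cancel_right] at h2
  · intro γ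
    refine ⟨fun h1 => ?_, tre_B_Iw hk⟩
    have h2 := tre_B_Iw (inv_mem hk) h1
    rwa [mul_inv_cancel_right] at h2

theorem tre_A_sc_iff (g : G none) (b : (Kv none)ˣ) (γ : GL (Fin 2) R) :
    tre_A (g * sc none b) γ ↔ tre_A g γ := by
  refine ⟨fun h1 => ?_, tre_A_sc b⟩
  have h2 := tre_A_sc b⁻¹ h1
  rwa [mul_assoc, tre_sc_mul, mul_inv_cancel, tre_sc_one, mul_one] at h2

theorem tre_B_sc_iff (g : G none) (b : (Kv none)ˣ) (γ : GL (Fin 2) R) :
    tre_B (g * sc none b) γ ↔ tre_B g γ := by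
  refine ⟨fun h1 => ?_, tre_B_sc b⟩
  have h2 := tre_B_sc b⁻¹ h1
  rwa [mul_assoc, tre_sc_mul, mul_inv_cancel, tre_sc_one, mul_one] at h2

theorem tre_Phi_sc (ht : TrZ) {h : G (some v0) → ℂ}
    (hn : ∀ m ∈ cong (some v0) 0, h (m * nn (some v0) 1) = h m) (g : G none) (b : (Kv none)ˣ)
    (κ : G (some v0)) : tre_Phi h (g * sc none b) κ = tre_Phi h g κ :=
  tre_Phi_inv ht hn g _ κ (tre_A_sc_iff g b) (tre_B_sc_iff g b)

theorem tre_Phi_om (ht : TrZ) {h : G (some v0) → ℂ}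
    (hn : ∀ m ∈ cong (some v0) 0, h (m * nn (some v0) 1) = h m) (g : G none)
    (κ : G (some v0)) : tre_Phi h (g * om) κ = - tre_Phi h g κ := by
  by_cases hκ : κ ∈ cong (some v0) 0
  · by_cases hA : ∃ γ, tre_A g γ
    · obtain ⟨γ, hA⟩ := hA
      rw [tre_Phi_A ht hn hκ hA, tre_Phi_B ht hn hκ (tre_A_om hA)]
    · by_cases hB : ∃ γ, tre_B g γ
      · obtain ⟨γ, hB⟩ := hB
        rw [tre_Phi_B ht hn hκ hB, tre_Phi_A ht hn hκ (tre_B_om hB), neg_neg]
      · rw [tre_Phi_0 h g κ hA hB, neg_zero]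
        apply tre_Phi_0
        · rintro ⟨γ, hγ⟩
          have h1 := tre_A_om hγ
          rw [mul_assoc, tre_om_sq, tre_B_sc_iff] at h1
          exact hB ⟨γ, h1⟩
        · rintro ⟨γ, hγ⟩
          have h1 := tre_B_om hγ
          rw [mul_assoc, tre_om_sq, tre_A_sc_iff] at h1
          exact hA ⟨γ, h1⟩
  · rw [tre_Phi_n h _ κ hκ, tre_Phi_n h _ κ hκ, neg_zero]

theorem tre_Phi_left (ht : TrZ) {h : G (some v0) → ℂ}
    (hn : ∀ m ∈ cong (some v0) 0, h (m * nn (some v0) 1) = h m) (δ : GL (Fin 2) R) (g : G none)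
    (κ : G (some v0)) : tre_Phi h (gR none δ * g) (gR (some v0) δ * κ) = tre_Phi h g κ := by
  have hδ := tre_gR_int δ
  by_cases hκ : κ ∈ cong (some v0) 0
  · have hκ' : gR (some v0) δ * κ ∈ cong (some v0) 0 := mul_mem hδ hκ
    have e : ∀ γ, (gR (some v0) δ * κ)⁻¹ * gR (some v0) (δ * γ) = κ⁻¹ * gR (some v0) γ := by
      intro γ
      rw [map_mul]; group
    by_cases hA : ∃ γ, tre_A g γ
    · obtain ⟨γ, hA⟩ := hA
      rw [tre_Phi_A ht hn hκ hA, tre_Phi_A ht hn hκ' ((tre_A_left g γ δ).2 hA), e]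
    · by_cases hB : ∃ γ, tre_B g γ
      · obtain ⟨γ, hB⟩ := hB
        rw [tre_Phi_B ht hn hκ hB, tre_Phi_B ht hn hκ' ((tre_B_left g γ δ).2 hB), e]
      · rw [tre_Phi_0 h g κ hA hB]
        apply tre_Phi_0
        · rintro ⟨γ, hγ⟩
          refine hA ⟨δ⁻¹ * γ, (tre_A_left g (δ⁻¹ * γ) δ).1 ?_⟩
          rwa [mul_inv_cancel_left]
        · rintro ⟨γ, hγ⟩
          refine hB ⟨δ⁻¹ * γ, (tre_B_left g (δ⁻¹ * γ) δ).1 ?_⟩
          rwa [mul_inv_cancel_left]
  · have hκ' : gR (some v0) δ * κ ∉ cong (some v0) 0 := by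
      intro h1
      apply hκ
      have h2 := mul_mem (inv_mem hδ) h1
      rwa [inv_mul_cancel_left] at h2
    rw [tre_Phi_n h _ _ hκ, tre_Phi_n h _ _ hκ']

theorem tre_om_sw : om * sw none = tri (tu none) 1 0 := by
  obtain ⟨e1, e2, e3, e4⟩ := tre_tri none (tu none) 1 0
  obtain ⟨f1, f2, f3, f4⟩ := tre_om
  obtain ⟨g1, g2, g3, g4⟩ := tre_sw none
  apply tre_ext <;> rw [tre_mul] <;>
    simp only [e1, e2, e3, e4, f1, f2, f3, f4, g1, g2, g3, g4] <;> simp [tu]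

theorem tre_om_nsw : om * (nn none 1 * sw none) = nn none (tP none) * om * nn none 1 := by
  obtain ⟨e1, e2, e3, e4⟩ := tre_tri none 1 1 1
  obtain ⟨f1, f2, f3, f4⟩ := tre_om
  obtain ⟨g1, g2, g3, g4⟩ := tre_sw none
  obtain ⟨h1, h2, h3, h4⟩ := tre_tri none 1 1 (tP none)
  unfold nn
  apply tre_ext <;>
    simp only [tre_mul, e1, e2, e3, e4, f1, f2, f3, f4, g1, g2, g3, g4, h1, h2, h3, h4] <;>
    simp [tre_two]

theorem tre_A_self (γ : GL (Fin 2) R) : tre_A (gR none γ) γ :=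
  ⟨1, one_mem _, 1, by rw [tre_sc_one, mul_one, mul_one]⟩

theorem tre_B_self (γ : GL (Fin 2) R) : tre_B (gR none γ * om) γ :=
  ⟨1, one_mem _, 1, by rw [tre_sc_one, mul_one, mul_one]⟩

/-- harmonicity -/
theorem tre_harm (hk : CosK) (ht : TrZ) {h : G (some v0) → ℂ}
    (hn : ∀ m ∈ cong (some v0) 0, h (m * nn (some v0) 1) = h m)
    (hT : ∀ m ∈ cong (some v0) 0, h (m * nn (some v0) (tP (some v0))) = - h m)
    (hS : ∀ m ∈ cong (some v0) 0, h m + h (m * sw (some v0)) + h (m * (nn (some v0) 1 * sw (some v0))) = 0)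
    (g : G none) (κ : G (some v0)) :
    tre_Phi h g κ + tre_Phi h (g * sw none) κ + tre_Phi h (g * (nn none 1 * sw none)) κ = 0 := by
  by_cases hκ : κ ∈ cong (some v0) 0
  swap
  · rw [tre_Phi_n h _ _ hκ, tre_Phi_n h _ _ hκ, tre_Phi_n h _ _ hκ, add_zero, add_zero]
  have hK := tre_sum hk (fun g => tre_Phi h g κ) (fun g k hk => tre_Phi_Iw ht hn g k hk κ)
  have hZ : ∀ (g : G none) (a : (Kv none)ˣ), tre_Phi h (g * sc none a) κ +
      tre_Phi h (g * sc none a * sw none) κ + tre_Phi h (g * sc none a * (nn none 1 * sw none)) κ =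
      tre_Phi h g κ + tre_Phi h (g * sw none) κ + tre_Phi h (g * (nn none 1 * sw none)) κ := by
    intro g a
    rw [mul_assoc g (sc none a) (sw none), tre_sc_comm none a (sw none), ← mul_assoc g (sw none),
      mul_assoc g (sc none a) (nn none 1 * sw none), tre_sc_comm none a (nn none 1 * sw none),
      ← mul_assoc g (nn none 1 * sw none) (sc none a), tre_Phi_sc ht hn, tre_Phi_sc ht hn, tre_Phi_sc ht hn]
  by_cases c1 : ∃ (γ : GL (Fin 2) R) (k : G none) (a : (Kv none)ˣ), k ∈ cong none 0 ∧ g = gR none γ * k * sc none a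
  · obtain ⟨γ, k, a, hkk, rfl⟩ := c1
    rw [hZ]
    have h1 := hK (gR none γ) k hkk
    rw [h1]
    have a1 : tre_A (gR none γ * sw none) (γ * tre_s) := by
      have := tre_A_self (γ * tre_s)
      rwa [map_mul, tre_gR_s] at this
    have a2 : tre_A (gR none γ * (nn none 1 * sw none)) (γ * (tre_n 1 * tre_s)) := by
      have := tre_A_self (γ * (tre_n 1 * tre_s))
      rwa [map_mul, map_mul, tre_gR_s, tre_gR_n, map_one, map_one] at this
    rw [tre_Phi_A ht hn hκ (tre_A_self γ), tre_Phi_A ht hn hκ a1, tre_Phi_A ht hn hκ a2]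
    have h2 := hS (κ⁻¹ * gR (some v0) γ) (mul_mem (inv_mem hκ) (tre_gR_int γ))
    rw [map_mul, map_mul, map_mul, tre_gR_s, tre_gR_n, map_one, map_one, ← mul_assoc κ⁻¹, ← mul_assoc κ⁻¹]
    exact h2
  by_cases c2 : ∃ (γ : GL (Fin 2) R) (k : G none) (a : (Kv none)ˣ), k ∈ cong none 0 ∧ g = gR none γ * om * k * sc none a
  · obtain ⟨γ, k, a, hkk, rfl⟩ := c2
    rw [hZ]
    have h1 := hK (gR none γ * om) k hkk
    rw [h1]
    have z : tre_Phi h (gR none γ * om * sw none) κ = 0 := by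
      rw [mul_assoc, tre_om_sw]
      apply tre_Phi_0
      · rintro ⟨γ', i, hi, b, e⟩
        apply (ht.2.2 (γ⁻¹ * γ') i b hi).1
        apply mul_left_cancel (a := gR none γ)
        rw [e, map_mul, map_inv]
        group
      · rintro ⟨γ', i, hi, b, e⟩
        apply (ht.2.2 (γ⁻¹ * γ') i b hi).2
        apply mul_left_cancel (a := gR none γ)
        rw [e, map_mul, map_inv]
        group
    have b2 : tre_B (gR none γ * om * (nn none 1 * sw none)) (γ * tre_n X) := by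
      refine ⟨nn none 1, tre_n1_Iw, 1, ?_⟩
      have e : gR none (tre_n X) = nn none (tP none) := by
        rw [tre_gR_n]
        unfold tP
        rw [RatFunc.algebraMap_X]
      rw [mul_assoc (gR none γ) om, tre_om_nsw, map_mul, e, tre_sc_one, mul_one]
      simp only [mul_assoc]
    rw [tre_Phi_B ht hn hκ (tre_B_self γ), z, tre_Phi_B ht hn hκ b2]
    have e : gR (some v0) (tre_n X) = nn (some v0) (tP (some v0)) := by
      rw [tre_gR_n]
      unfold tP
      rw [RatFunc.algebraMap_X]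
    rw [map_mul, e, ← mul_assoc κ⁻¹, hT _ (mul_mem (inv_mem hκ) (tre_gR_int γ))]
    ring
  · have key : ∀ x ∈ cong none 0, tre_Phi h (g * x) κ = 0 := by
      intro x hx
      apply tre_Phi_0
      · rintro ⟨γ, i, hi, a, e⟩
        refine c1 ⟨γ, i * x⁻¹, a, mul_mem ((tre_Iw_iff i).1 hi).1 (inv_mem hx), ?_⟩
        apply mul_right_cancel (b := x)
        rw [e, mul_assoc (gR none γ * (i * x⁻¹)), tre_sc_comm none a x]
        group
      · rintro ⟨γ, i, hi, a, e⟩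
        refine c2 ⟨γ, i * x⁻¹, a, mul_mem ((tre_Iw_iff i).1 hi).1 (inv_mem hx), ?_⟩
        apply mul_right_cancel (b := x)
        rw [e, mul_assoc (gR none γ * om * (i * x⁻¹)), tre_sc_comm none a x]
        group
    have k1 := key 1 (one_mem _)
    rw [mul_one] at k1
    rw [k1, key _ (tre_sw_mem none), key _ (mul_mem ((tre_Iw_iff _).1 tre_n1_Iw).1 (tre_sw_mem none)),
      add_zero, add_zero]

theorem tre_cong_le (P : Pl) : cong P 1 ≤ cong P 0 := by
  intro k hk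
  have hle : (exp (-((1 : ℕ) : ℤ)) : WithZero (Multiplicative ℤ)) ≤ exp (-((0 : ℕ) : ℤ)) :=
    exp_le_exp.2 (by norm_num)
  exact ⟨fun i j => (hk.1 i j).trans hle, fun i j => (hk.2 i j).trans hle⟩

theorem tre_S4_zero : S4 (fun _ => 0) = 0 := by
  unfold S4; simp

theorem tre_S4_congr (F F' : Kv (some v0) → ℂ) (hF : ∀ y, vv (some v0) y ≤ 1 → F y = F' y) : S4 F = S4 F' := by
  have ht : vv (some v0) (tP (some v0)) ≤ 1 := by
    unfold tP
    rw [emb_val, ← RatFunc.algebraMap_X]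
    exact v0.valuation_le_one _
  have h1 : vv (some v0) (1 : Kv (some v0)) ≤ 1 := by rw [Valuation.map_one]
  unfold S4
  rw [hF 0 (by simp), hF 1 h1, hF _ ht, hF _ (Valuation.map_add_le _ h1 ht)]

theorem t_TRE : CosK → F4F → TrZ → CuF := by
  rintro hk ⟨h, f1, f2, f3, f4⟩ ht
  have hn : ∀ m ∈ cong (some v0) 0, h (m * nn (some v0) 1) = h m := fun m hm => (f2 m hm).1
  refine ⟨tre_Phi h, fun γ g κ => tre_Phi_left ht hn γ g κ, ?_, ?_, ?_, ?_⟩
  · intro κ
    exact ⟨fun g k hk => tre_Phi_Iw ht hn g k hk κ, fun g a => tre_Phi_sc ht hn g a κ,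
      fun g => tre_Phi_om ht hn g κ,
      fun g => tre_harm hk ht hn (fun m hm => (f2 m hm).2.1) (fun m hm => (f2 m hm).2.2) g κ⟩
  · intro g κ k hk1
    have hk0 := tre_cong_le _ hk1
    by_cases hκ : κ ∈ cong (some v0) 0
    · have hκ' : κ * k ∈ cong (some v0) 0 := mul_mem hκ hk0
      have e : ∀ γ, h ((κ * k)⁻¹ * gR (some v0) γ) = h (κ⁻¹ * gR (some v0) γ) := by
        intro γ
        have e1 : (κ * k)⁻¹ * gR (some v0) γ = k⁻¹ * (κ⁻¹ * gR (some v0) γ) := by group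
        rw [e1]
        exact (f1 _ (mul_mem (inv_mem hκ) (tre_gR_int γ)) k⁻¹ (inv_mem hk1)).2
      by_cases hA : ∃ γ, tre_A g γ
      · obtain ⟨γ, hA⟩ := hA
        rw [tre_Phi_A ht hn hκ hA, tre_Phi_A ht hn hκ' hA, e]
      · by_cases hB : ∃ γ, tre_B g γ
        · obtain ⟨γ, hB⟩ := hB
          rw [tre_Phi_B ht hn hκ hB, tre_Phi_B ht hn hκ' hB, e]
        · rw [tre_Phi_0 h g _ hA hB, tre_Phi_0 h g _ hA hB]
    · have hκ' : κ * k ∉ cong (some v0) 0 := by
        intro h1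
        apply hκ
        have h2 := mul_mem h1 (inv_mem hk0)
        rwa [mul_inv_cancel_right] at h2
      rw [tre_Phi_n h _ _ hκ, tre_Phi_n h _ _ hκ']
  · intro g κ k hk0
    have hny : ∀ y, vv (some v0) y ≤ 1 → k⁻¹ * nn (some v0) y * k ∈ cong (some v0) 0 := by
      intro y hy
      exact mul_mem (mul_mem (inv_mem hk0) (tri_int _ y hy)) hk0
    by_cases hκ : κ ∈ cong (some v0) 0
    · have e : ∀ (y : Kv (some v0)) γ, (κ * (k⁻¹ * nn (some v0) y * k))⁻¹ * gR (some v0) γ =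
          k⁻¹ * nn (some v0) y * (k * κ⁻¹ * gR (some v0) γ) := by
        intro y γ
        conv_rhs => rw [← tre_nn_inv]
        group
      by_cases hA : ∃ γ, tre_A g γ
      · obtain ⟨γ, hA⟩ := hA
        rw [tre_S4_congr _ (fun y => h (k⁻¹ * nn (some v0) y * (k * κ⁻¹ * gR (some v0) γ)))]
        · exact f3 _ (inv_mem hk0) _ (mul_mem (mul_mem hk0 (inv_mem hκ)) (tre_gR_int γ))
        · intro y hy
          rw [tre_Phi_A ht hn (mul_mem hκ (hny y hy)) hA, e]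
      · by_cases hB : ∃ γ, tre_B g γ
        · obtain ⟨γ, hB⟩ := hB
          rw [tre_S4_congr _ (fun y => - h (k⁻¹ * nn (some v0) y * (k * κ⁻¹ * gR (some v0) γ)))]
          · have h5 := f3 _ (inv_mem hk0) _ (mul_mem (mul_mem hk0 (inv_mem hκ)) (tre_gR_int γ))
            unfold S4 at h5 ⊢
            linear_combination (-1) * h5
          · intro y hy
            rw [tre_Phi_B ht hn (mul_mem hκ (hny y hy)) hB, e]
        · rw [tre_S4_congr _ (fun _ => 0)]
          · exact tre_S4_zero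
          · intro y hy
            exact tre_Phi_0 h g _ hA hB
    · rw [tre_S4_congr _ (fun _ => 0)]
      · exact tre_S4_zero
      · intro y hy
        apply tre_Phi_n
        intro h1
        apply hκ
        have h2 := mul_mem h1 (inv_mem (hny y hy))
        rwa [mul_inv_cancel_right] at h2
  · refine ⟨1, 1, one_mem _, ?_⟩
    have a1 : tre_A 1 1 := by
      have := tre_A_self 1
      rwa [map_one] at this
    rw [tre_Phi_A ht hn (one_mem _) a1, map_one, inv_one, one_mul]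
    exact f4

end Pool.Agent.H757L
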