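import Pool.Agent.H757L.Defs2

set_option autoImplicit false
set_option linter.all false
noncomputable section

namespace Pool.Agent.H757L

open Polynomial IsDedekindDomain Matrix WithZero

theorem tri_qq_pos (P : Pl) : (0 : ℝ) < (qq P : ℝ) := by
  rcases P with _ | v
  · show (0 : ℝ) < ((2 : ℕ) : ℝ)
    norm_num
  · have hfin : Finite (R ⧸ v.asIdeal) := by
      obtain ⟨f, hf⟩ := (IsPrincipalIdealRing.principal v.asIdeal).principal
      have hf0 : f ≠ 0 := by
        rintro rfl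
        apply v.ne_bot
        rw [hf]
        simp
      have h1 : v.asIdeal = Ideal.span {f} := hf
      rw [h1]
      have h2 : Module.Finite (ZMod 2) (AdjoinRoot f) := (AdjoinRoot.powerBasis hf0).finite
      exact Module.finite_of_finite (ZMod 2) (M := AdjoinRoot f)
    have hne : Nonempty (R ⧸ v.asIdeal) := ⟨0⟩
    show (0 : ℝ) < ((Nat.card (R ⧸ v.asIdeal) : ℕ) : ℝ)
    exact_mod_cast Nat.card_pos

theorem tri_nrm_pos (P : Pl) (x : (Kv P)ˣ) : 0 < nrm P x := zpow_pos (tri_qq_pos P) _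

theorem tri_nrm_mul (P : Pl) (x y : (Kv P)ˣ) : nrm P (x * y) = nrm P x * nrm P y := by
  unfold nrm
  rw [Units.val_mul, Valuation.map_mul, WithZero.log_mul, zpow_add₀ (tri_qq_pos P).ne']
  · exact (Valuation.ne_zero_iff _).2 x.ne_zero
  · exact (Valuation.ne_zero_iff _).2 y.ne_zero

theorem tri_nrm_one (P : Pl) (x : (Kv P)ˣ) (hx : vv P (x : Kv P) = 1) : nrm P x = 1 := by
  unfold nrm
  rw [hx, WithZero.log_one, zpow_zero]

theorem tri_supp (x : IA) : (Function.mulSupport fun P => nrm P (x.1 P)).Finite := by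
  refine Set.Finite.subset x.2 ?_
  intro P hP h
  exact hP (tri_nrm_one P _ h)

theorem tri_nrmA_pos (x : IA) : 0 < nrmA x := by
  unfold nrmA
  exact finprod_induction (fun r : ℝ => 0 < r) one_pos (fun _ _ => mul_pos)
    (fun P => tri_nrm_pos P (x.1 P))

theorem tri_nrmA_mul (x y : IA) : nrmA (x * y) = nrmA x * nrmA y := by
  unfold nrmA
  rw [← finprod_mul_distrib (tri_supp x) (tri_supp y)]
  exact finprod_congr fun P => tri_nrm_mul P _ _

theorem tri_nrmA_one (x : IA) (hx : ∀ P, vv P (x.1 P : Kv P) = 1) : nrmA x = 1 := by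
  unfold nrmA
  exact finprod_eq_one_of_forall_eq_one fun P => tri_nrm_one P _ (hx P)

theorem tri_nrmA_incl (P : Pl) (a : (Kv P)ˣ) : nrmA (inclI P a) = nrm P a := by
  classical
  unfold nrmA
  rw [finprod_eq_single _ P]
  · congr 1
    simp [inclI]
  · intro Q hQ
    apply tri_nrm_one
    simp [inclI, Pi.mulSingle_eq_of_ne hQ]

/-- the character nrmA ^ s -/
def triMu (s : ℝ) : IA →* ℂˣ where
  toFun x := Units.mk0 (((nrmA x ^ s : ℝ)) : ℂ)
    (by exact_mod_cast (Real.rpow_pos_of_pos (tri_nrmA_pos x) s).ne')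
  map_one' := by
    ext
    simp [tri_nrmA_one 1 (fun P => by simp)]
  map_mul' x y := by
    ext
    simp only [Units.val_mk0, Units.val_mul]
    rw [tri_nrmA_mul, Real.mul_rpow (tri_nrmA_pos x).le (tri_nrmA_pos y).le]
    push_cast
    rfl

theorem triMu_apply (s : ℝ) (x : IA) : ((triMu s x : ℂˣ) : ℂ) = ((nrmA x ^ s : ℝ) : ℂ) := rfl

/-- the Hecke character nrmA ^ s -/
def triHC (h : Prd) (s : ℝ) : HeckeChar where
  μ := triMu s
  princ := by
    intro k x hx
    ext
    rw [triMu_apply, h k x hx, Real.one_rpow]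
    simp
  cont := by
    refine ⟨0, fun x hx => ?_⟩
    ext
    rw [triMu_apply, tri_nrmA_one x (fun P => (hx P).1), Real.one_rpow]
    simp

theorem t_TRI : Prd → Tri := by
  intro hPrd
  refine ⟨⟨?_, ?_⟩, ?_, Or.inr ⟨triHC hPrd (1 / 2), triHC hPrd (-(1 / 2)), ⟨1, zero_le_one, ?_⟩, ?_⟩⟩
  · show Nontrivial ℂ
    infer_instance
  · intro W _
    exact eq_bot_or_eq_top (α := Submodule ℂ ℂ) W
  · intro s
    exact ⟨0, fun u _ => rfl⟩
  · intro x
    have hp := tri_nrmA_pos x
    show ‖((triMu (1 / 2) x : ℂˣ) : ℂ)‖ = ‖((triMu (-(1 / 2)) x : ℂˣ) : ℂ)‖ * nrmA x ^ (1 : ℝ)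
    rw [triMu_apply, triMu_apply, Complex.norm_real, Complex.norm_real,
      Real.norm_of_nonneg (Real.rpow_pos_of_pos hp _).le,
      Real.norm_of_nonneg (Real.rpow_pos_of_pos hp _).le, ← Real.rpow_add hp]
    norm_num
  · intro P σ hσ
    obtain ⟨hirr, _, hspan⟩ := hσ
    -- a nonzero intertwining map
    obtain ⟨T0, s0, hT0, hne⟩ : ∃ (T : σ.V →ₗ[ℂ] (trivR AG).V) (s : σ.V),
        (∀ h s, T (σ.ρ h s) = (trivR AG).ρ (incl P h) (T s)) ∧ T s ≠ 0 := by
      by_contra hcon
      push Not at hcon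
      have h1 := hspan (1 : ℂ)
      have h2 : Submodule.span ℂ {w : (trivR AG).V | ∃ (T : σ.V →ₗ[ℂ] (trivR AG).V) (s : σ.V),
          (∀ h s, T (σ.ρ h s) = (trivR AG).ρ (incl P h) (T s)) ∧ T s = w} ≤ ⊥ := by
        rw [Submodule.span_le]
        rintro w ⟨T, s, hT, rfl⟩
        exact hcon T s hT
      have h3 : (1 : ℂ) = 0 := h2 h1
      exact one_ne_zero h3
    have hinv : ∀ h s, T0 (σ.ρ h s) = T0 s := fun h s => hT0 h s
    have hker : LinearMap.ker T0 = ⊥ := by
      rcases hirr.2 (LinearMap.ker T0) (fun h w hw => by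
        rw [LinearMap.mem_ker] at hw ⊢
        rw [hinv, hw]) with h | h
      · exact h
      · exfalso
        apply hne
        have : s0 ∈ LinearMap.ker T0 := by rw [h]; trivial
        exact this
    have hinj : Function.Injective T0 := LinearMap.ker_eq_bot.1 hker
    let T : σ.V →ₗ[ℂ] (G P → ℂ) :=
      { toFun := fun s _ => (T0 s : ℂ)
        map_add' := fun s t => by funext g; exact T0.map_add s t
        map_smul' := fun c s => by funext g; exact T0.map_smul c s }
    refine ⟨T, ?_, ?_, ?_⟩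
    · intro s t hst
      exact hinj (congrFun hst 1)
    · intro s
      refine ⟨fun a d b g => ?_, 0, fun k _ g => rfl⟩
      have goal : ∀ z : ℂ, z = ((triMu (-(1 / 2)) (inclI P a) : ℂˣ) : ℂ) *
          ((triMu (1 / 2) (inclI P d) : ℂˣ) : ℂ) * (Real.sqrt (nrm P a / nrm P d) : ℂ) * z := ?_
      · exact goal (T0 s)
      intro z
      rw [triMu_apply, triMu_apply, tri_nrmA_incl, tri_nrmA_incl]
      have ha := tri_nrm_pos P a
      have hd := tri_nrm_pos P d
      have key : nrm P a ^ (-(1 / 2) : ℝ) * nrm P d ^ ((1 : ℝ) / 2) * Real.sqrt (nrm P a / nrm P d) = 1 := by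
        rw [Real.sqrt_div ha.le, Real.rpow_neg ha.le, ← Real.sqrt_eq_rpow, ← Real.sqrt_eq_rpow]
        have h1 := (Real.sqrt_pos.2 ha).ne'
        have h2 := (Real.sqrt_pos.2 hd).ne'
        field_simp
      have key2 : ((nrm P a ^ (-(1 / 2) : ℝ) : ℝ) : ℂ) * ((nrm P d ^ ((1 : ℝ) / 2) : ℝ) : ℂ) *
          (Real.sqrt (nrm P a / nrm P d) : ℂ) = 1 := by
        exact_mod_cast key
      rw [key2, one_mul]
    · intro h s
      funext g
      exact hinv h s

end Pool.Agent.H757L
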