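import Pool.Agent.H757L.Defs2
/-
Project LL (helper757, MP_5ae62c_nt), node TRV: a subgroup acting trivially.
-/

set_option autoImplicit false
set_option linter.all false
noncomputable section

namespace Pool.Agent.H757L

open Polynomial IsDedekindDomain Matrix WithZero

/-- the span of the translates of a vector is stable -/
theorem trv_stable {H : Type} [Group H] (π : Rp H) (y : π.V) (h : H) (w : π.V)
    (hw : w ∈ Submodule.span ℂ (Set.range fun g => π.ρ g y)) :
    π.ρ h w ∈ Submodule.span ℂ (Set.range fun g => π.ρ g y) := by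
  refine Submodule.span_induction (p := fun w _ => π.ρ h w ∈ Submodule.span ℂ (Set.range fun g => π.ρ g y))
    ?_ ?_ ?_ ?_ hw
  · rintro _ ⟨a, rfl⟩
    refine Submodule.subset_span ⟨h * a, ?_⟩
    simp [map_mul]
  · simp
  · intro a b _ _ ha hb; rw [map_add]; exact add_mem ha hb
  · intro c a _ ha; rw [map_smul]; exact Submodule.smul_mem _ c ha

/-- the translates of a nonzero vector of an irreducible representation span -/
theorem trv_top {H : Type} [Group H] (π : Rp H) (hirr : Irred π) (y : π.V) (hy : y ≠ 0) :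
    Submodule.span ℂ (Set.range fun g => π.ρ g y) = ⊤ := by
  rcases hirr.2 (Submodule.span ℂ (Set.range fun g => π.ρ g y))
    (fun h w hw => trv_stable π y h w hw) with h0 | h1
  · exfalso
    apply hy
    have hmem : y ∈ Submodule.span ℂ (Set.range fun g => π.ρ g y) :=
      Submodule.subset_span ⟨1, by simp⟩
    rw [h0] at hmem
    exact (Submodule.mem_bot ℂ).1 hmem
  · exact h1

/-- an element commuting with S preserves co S -/
theorem trv_co {H V : Type} [Group H] [AddCommGroup V] [Module ℂ V] (ρ : Representation ℂ H V)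
    (S : Subgroup H) (g : H) (hg : ∀ s ∈ S, g * s = s * g) (w : V) (hw : w ∈ co ρ S) :
    ρ g w ∈ co ρ S := by
  refine Submodule.span_induction (p := fun w _ => ρ g w ∈ co ρ S) ?_ ?_ ?_ ?_ hw
  · rintro _ ⟨s, hs, u, rfl⟩
    refine Submodule.subset_span ⟨s, hs, ρ g u, ?_⟩
    rw [map_sub, ← Module.End.mul_apply, ← Module.End.mul_apply, ← map_mul, ← map_mul, hg s hs]
  · rw [map_zero]; exact zero_mem _
  · intro a b _ _ ha hb; rw [map_add]; exact add_mem ha hb
  · intro c a _ ha; rw [map_smul]; exact Submodule.smul_mem _ c ha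

theorem t_TRV : Cof → Trv := by
  intro hcof L H _ _ i G2 S π x hirr hcomm hgen hS hlf hx hfix hco
  have hone : ∀ b ∈ G2, π.ρ b x = x := by
    intro b hb
    by_contra hne
    have hy : π.ρ b x - x ≠ 0 := sub_ne_zero.2 hne
    have htop := trv_top π hirr (π.ρ b x - x) hy
    have hle : Submodule.span ℂ (Set.range fun g => π.ρ g (π.ρ b x - x)) ≤ co π.ρ S := by
      rw [Submodule.span_le]
      rintro _ ⟨h, rfl⟩
      obtain ⟨a, b', hb', rfl⟩ := hgen h
      have h1 : π.ρ b' (π.ρ b x - x) ∈ co π.ρ S := by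
        have e : π.ρ b' (π.ρ b x - x) = (π.ρ (b' * b) x - x) - (π.ρ b' x - x) := by
          rw [map_sub, map_mul, Module.End.mul_apply]; abel
        rw [e]
        exact sub_mem (hco _ (mul_mem hb' hb)) (hco _ hb')
      have h2 := trv_co π.ρ S (i a) (fun s hs => hcomm a s (hS hs)) _ h1
      show π.ρ (i a * b') (π.ρ b x - x) ∈ co π.ρ S
      rw [map_mul, Module.End.mul_apply]
      exact h2
    have hxco : x ∈ co π.ρ S := by
      apply hle
      rw [htop]
      exact Submodule.mem_top
    exact hx ((hcof H π.V π.ρ S hlf).1 x hfix hxco)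
  intro b hb v
  have hv : v ∈ Submodule.span ℂ (Set.range fun g => π.ρ g x) := by
    rw [trv_top π hirr x hx]; exact Submodule.mem_top
  refine Submodule.span_induction (p := fun v _ => π.ρ b v = v) ?_ ?_ ?_ ?_ hv
  · rintro _ ⟨h, rfl⟩
    obtain ⟨a, b', hb', rfl⟩ := hgen h
    show π.ρ b (π.ρ (i a * b') x) = π.ρ (i a * b') x
    have e : b * (i a * b') = i a * (b * b') := by
      rw [← mul_assoc, ← hcomm a b hb, mul_assoc]
    rw [← Module.End.mul_apply, ← map_mul, e, map_mul, Module.End.mul_apply, hone _ (mul_mem hb hb'),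
      map_mul, Module.End.mul_apply, hone _ hb']
  · rw [map_zero]
  · intro a c _ _ ha hc; rw [map_add, ha, hc]
  · intro c a _ ha; rw [map_smul, ha]

end Pool.Agent.H757L
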