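import Pool.Agent.H757L.Defs2

set_option autoImplicit false
set_option linter.all false
noncomputable section

namespace Pool.Agent.H757L

open Polynomial IsDedekindDomain Matrix WithZero

/-- the embedding of polynomials in the completion at infinity -/
def trz_e (f : R) : Kv none := emb none (algebraMap R K f)

theorem trz_e_def (f : R) : trz_e f = emb none (algebraMap R K f) := rfl

theorem trz_poly (f : R) (hf : f ≠ 0) : vv none (trz_e f) = exp (f.natDegree : ℤ) := by
  classical
  rw [trz_e_def, emb_val]
  have h := RatFunc.inftyValuation.polynomial (ZMod 2) hf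
  have h2 : val none = RatFunc.inftyValuation (ZMod 2) := by
    unfold val; convert rfl
  rw [h2, RatFunc.inftyValuation_apply]
  convert h

theorem trz_zero : trz_e 0 = 0 := by simp [trz_e_def]

theorem trz_vt : vv none (tP none) = exp (1 : ℤ) := by
  have h : tP none = trz_e (X : R) := by
    rw [trz_e_def]; unfold tP; rw [RatFunc.algebraMap_X]
  rw [h, trz_poly _ X_ne_zero, natDegree_X]; rfl

theorem trz_entry (P : Pl) (γ : GL (Fin 2) R) (k l : Fin 2) :
    ((gR P γ : G P) : Matrix (Fin 2) (Fin 2) (Kv P)) k l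
      = emb P (algebraMap R K ((γ : Matrix (Fin 2) (Fin 2) R) k l)) := by
  simp [gR]

theorem trz_entry0 (γ : GL (Fin 2) R) (k l : Fin 2) :
    ((gR none γ : G none) : Matrix (Fin 2) (Fin 2) (Kv none)) k l
      = trz_e ((γ : Matrix (Fin 2) (Fin 2) R) k l) := trz_entry none γ k l

theorem trz_z2 (r : ZMod 2) (h : r ≠ 0) : r = 1 := by
  revert h; revert r; decide

theorem trz_unit (f : R) (hf : IsUnit f) : f = 1 := by
  obtain ⟨r, hr, rfl⟩ := Polynomial.isUnit_iff.1 hf
  rw [trz_z2 r hr.ne_zero, map_one]

theorem trz_det (γ : GL (Fin 2) R) : (γ : Matrix (Fin 2) (Fin 2) R).det = 1 :=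
  trz_unit _ ((Matrix.isUnit_iff_isUnit_det _).1 γ.isUnit)

theorem trz_detg (γ : GL (Fin 2) R) :
    ((gR none γ : G none) : Matrix (Fin 2) (Fin 2) (Kv none)).det = 1 := by
  rw [Matrix.det_fin_two, trz_entry, trz_entry, trz_entry, trz_entry]
  have := trz_det γ
  rw [Matrix.det_fin_two] at this
  have h2 := congrArg (fun f => emb none (algebraMap R K f)) this
  simpa only [map_sub, map_mul, map_one] using h2

theorem trz_detle (g : G none) (hg : g ∈ cong none 0) :
    vv none ((g : Matrix (Fin 2) (Fin 2) (Kv none)).det) ≤ 1 := by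
  rw [Matrix.det_fin_two]
  refine (Valuation.map_sub _ _ _).trans (max_le ?_ ?_)
  · rw [Valuation.map_mul]
    exact mul_le_one' (int_entry none g hg 0 0) (int_entry none g hg 1 1)
  · rw [Valuation.map_mul]
    exact mul_le_one' (int_entry none g hg 0 1) (int_entry none g hg 1 0)

theorem trz_deti (g : G none) (hg : g ∈ cong none 0) :
    vv none ((g : Matrix (Fin 2) (Fin 2) (Kv none)).det) = 1 := by
  have h1 := trz_detle g hg
  have h2 := trz_detle g⁻¹ (inv_mem hg)
  have h3 : vv none ((g : Matrix (Fin 2) (Fin 2) (Kv none)).det)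
      * vv none (((g⁻¹ : G none) : Matrix (Fin 2) (Fin 2) (Kv none)).det) = 1 := by
    rw [← Valuation.map_mul, ← Matrix.det_mul, ← Units.val_mul, mul_inv_cancel]
    simp
  refine le_antisymm h1 ?_
  rw [← h3]
  calc _ ≤ vv none ((g : Matrix (Fin 2) (Fin 2) (Kv none)).det) * 1 := mul_le_mul' le_rfl h2
    _ = _ := mul_one _

theorem trz_va (a : (Kv none)ˣ) : ∃ n : ℤ, vv none (a : Kv none) = exp n := by
  rcases vv_cases none (a : Kv none) with h | h
  · exact absurd h a.ne_zero
  · exact h

theorem trz_detsc (a : (Kv none)ˣ) :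
    ((sc none a : G none) : Matrix (Fin 2) (Fin 2) (Kv none)).det = (a : Kv none) * a := by
  rw [Matrix.det_fin_two]
  simp [sc, tri]

theorem trz_detom : (om : Matrix (Fin 2) (Fin 2) (Kv none)).det = - tP none := by
  rw [Matrix.det_fin_two]
  simp [om]

theorem trz_dett : ((tri (tu none) 1 0 : G none) : Matrix (Fin 2) (Fin 2) (Kv none)).det = tP none := by
  rw [Matrix.det_fin_two]
  simp [tri, tu]

theorem trz_small (f : R) (h : vv none (trz_e f) ≤ 1) : f = 0 ∨ f = 1 := by
  by_cases hf : f = 0
  · exact Or.inl hf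
  · right
    rw [trz_poly f hf, ← exp_zero, exp_le_exp] at h
    have hd : f.natDegree = 0 := by omega
    obtain ⟨c, rfl⟩ := Polynomial.natDegree_eq_zero.1 hd
    have hc : c ≠ 0 := by rintro rfl; simp at hf
    rw [trz_z2 c hc, map_one]

theorem trz_smaller (f : R) (h : vv none (trz_e f) ≤ exp (-1 : ℤ)) : f = 0 := by
  by_contra hf
  rw [trz_poly f hf, exp_le_exp] at h
  omega

theorem trz_one (γ : GL (Fin 2) R) (i : G none) (a : (Kv none)ˣ) (hi : i ∈ Iw)
    (h : gR none γ = i * sc none a) : γ = 1 ∨ ∀ P, gR P γ = nn P 1 := by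
  obtain ⟨n, hn⟩ := trz_va a
  have hdet : ((gR none γ : G none) : Matrix (Fin 2) (Fin 2) (Kv none)).det
      = (i : Matrix (Fin 2) (Fin 2) (Kv none)).det * ((a : Kv none) * a) := by
    rw [h, Units.val_mul, Matrix.det_mul, trz_detsc]
  have hv := congrArg (vv none) hdet
  rw [trz_detg, Valuation.map_mul, Valuation.map_mul, trz_deti i hi.1, hn, map_one, one_mul,
    ← exp_add, ← exp_zero] at hv
  have hn0 : n = 0 := by have := exp_injective hv; omega
  rw [hn0, exp_zero] at hn
  have hent : ∀ k l, trz_e ((γ : Matrix (Fin 2) (Fin 2) R) k l)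
      = (i : Matrix (Fin 2) (Fin 2) (Kv none)) k l * a := by
    intro k l
    rw [← trz_entry0, h, Units.val_mul, Matrix.mul_apply, Fin.sum_univ_two]
    fin_cases l <;> simp [sc, tri]
  have hle : ∀ k l, vv none (trz_e ((γ : Matrix (Fin 2) (Fin 2) R) k l)) ≤ 1 := by
    intro k l
    rw [hent, Valuation.map_mul, hn, mul_one]
    exact int_entry none i hi.1 k l
  have h10 : (γ : Matrix (Fin 2) (Fin 2) R) 1 0 = 0 := by
    apply trz_smaller
    rw [hent, Valuation.map_mul, hn, mul_one]
    exact hi.2
  have hd := trz_det γ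
  rw [Matrix.det_fin_two, h10, mul_zero, sub_zero] at hd
  have h00 : (γ : Matrix (Fin 2) (Fin 2) R) 0 0 = 1 := by
    rcases trz_small _ (hle 0 0) with h' | h'
    · rw [h', zero_mul] at hd; exact absurd hd zero_ne_one
    · exact h'
  have h11 : (γ : Matrix (Fin 2) (Fin 2) R) 1 1 = 1 := by
    rw [h00, one_mul] at hd; exact hd
  rcases trz_small _ (hle 0 1) with h01 | h01
  · left
    ext k l
    fin_cases k <;> fin_cases l <;> simp [h00, h10, h11, h01]
  · right
    intro P
    ext k l
    rw [trz_entry]
    fin_cases k <;> fin_cases l <;> simp [h00, h10, h11, h01, nn, tri]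

theorem t_TRZ : TrZ := by
  refine ⟨trz_one, ?_, ?_⟩
  · intro γ γ' i i' a a' hi hi' h
    obtain ⟨n, hn⟩ := trz_va a
    obtain ⟨n', hn'⟩ := trz_va a'
    have hdet := congrArg (fun g : G none => (g : Matrix (Fin 2) (Fin 2) (Kv none)).det) h
    simp only [Units.val_mul, Matrix.det_mul] at hdet
    rw [trz_detsc, trz_detsc, trz_detg, trz_detg, trz_detom] at hdet
    have hv := congrArg (vv none) hdet
    simp only [Valuation.map_mul, Valuation.map_neg, map_one, trz_deti i hi.1, trz_deti i' hi'.1, hn, hn',
      one_mul, mul_one, trz_vt] at hv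
    rw [← exp_add, ← exp_add, ← exp_add] at hv
    have := exp_injective hv
    omega
  · intro γ i a hi
    obtain ⟨n, hn⟩ := trz_va a
    constructor
    · intro h
      have hdet := congrArg (fun g : G none => (g : Matrix (Fin 2) (Fin 2) (Kv none)).det) h
      simp only [Units.val_mul, Matrix.det_mul] at hdet
      rw [trz_detsc, trz_detg, trz_dett] at hdet
      have hv := congrArg (vv none) hdet
      simp only [Valuation.map_mul, Valuation.map_neg, map_one, trz_deti i hi.1, hn,
        one_mul, mul_one, trz_vt] at hv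
      rw [← exp_add] at hv
      have := exp_injective hv
      omega
    · intro h
      have hdet := congrArg (fun g : G none => (g : Matrix (Fin 2) (Fin 2) (Kv none)).det) h
      simp only [Units.val_mul, Matrix.det_mul] at hdet
      rw [trz_detsc, trz_detg, trz_dett, trz_detom] at hdet
      have hv := congrArg (vv none) hdet
      simp only [Valuation.map_mul, Valuation.map_neg, map_one, trz_deti i hi.1, hn,
        one_mul, mul_one, trz_vt] at hv
      rw [← exp_add, ← exp_add] at hv
      have hn0 : n = 0 := by have := exp_injective hv; omega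
      rw [hn0, exp_zero] at hn
      have h2 : gR none γ⁻¹ * tri (tu none) 1 0 = om * i * sc none a := by
        rw [h, map_inv]; group
      have h3 := congrArg (fun g : G none => (g : Matrix (Fin 2) (Fin 2) (Kv none)) 1 0) h2
      simp only [Units.val_mul, Matrix.mul_apply, Fin.sum_univ_two, trz_entry0] at h3
      have h4 : trz_e (((γ⁻¹ : GL (Fin 2) R) : Matrix (Fin 2) (Fin 2) R) 1 0) * tP none
          = (i : Matrix (Fin 2) (Fin 2) (Kv none)) 0 0 * a := by
        simpa [tri, tu, om, sc] using h3
      have hd := trz_deti i hi.1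
      rw [Matrix.det_fin_two] at hd
      have hi00 : vv none ((i : Matrix (Fin 2) (Fin 2) (Kv none)) 0 0) = 1 := by
        by_contra hne
        have hlt : vv none ((i : Matrix (Fin 2) (Fin 2) (Kv none)) 0 0) ≤ exp (-1 : ℤ) :=
          (vv_lt_one none _).1 (lt_of_le_of_ne (int_entry none i hi.1 0 0) hne)
        have hle : vv none ((i : Matrix (Fin 2) (Fin 2) (Kv none)) 0 0 * (i : Matrix (Fin 2) (Fin 2) (Kv none)) 1 1
            - (i : Matrix (Fin 2) (Fin 2) (Kv none)) 0 1 * (i : Matrix (Fin 2) (Fin 2) (Kv none)) 1 0) ≤ exp (-1 : ℤ) := by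
          refine (Valuation.map_sub _ _ _).trans (max_le ?_ ?_)
          · rw [Valuation.map_mul]
            calc _ ≤ exp (-1 : ℤ) * 1 := mul_le_mul' hlt (int_entry none i hi.1 1 1)
              _ = _ := mul_one _
          · rw [Valuation.map_mul]
            calc _ ≤ 1 * exp (-1 : ℤ) := mul_le_mul' (int_entry none i hi.1 0 1) hi.2
              _ = _ := one_mul _
        rw [hd, ← exp_zero, exp_le_exp] at hle
        omega
      have h5 := congrArg (vv none) h4
      rw [Valuation.map_mul, Valuation.map_mul, hi00, hn, mul_one, trz_vt] at h5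
      by_cases hz : ((γ⁻¹ : GL (Fin 2) R) : Matrix (Fin 2) (Fin 2) R) 1 0 = 0
      · rw [hz, trz_zero, map_zero, zero_mul] at h5
        exact zero_ne_one h5
      · rw [trz_poly _ hz, ← exp_add, ← exp_zero] at h5
        have := exp_injective h5
        omega

end Pool.Agent.H757L
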