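import Pool.Agent.H757L.Defs2

set_option autoImplicit false
set_option linter.all false
noncomputable section

namespace Pool.Agent.H757L

open Polynomial IsDedekindDomain Matrix WithZero

/-- elements of G2 preserve the coinvariant kernel of S.map i -/
theorem typ_co_stable {L H : Type} [Group L] [Group H] (i : L →* H) (G2 : Subgroup H) (S : Subgroup L)
    (π : Rp H) (hcomm : ∀ a, ∀ b ∈ G2, i a * b = b * i a) (b : H) (hb : b ∈ G2) (v : π.V)
    (hv : v ∈ co π.ρ (S.map i)) : π.ρ b v ∈ co π.ρ (S.map i) := by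
  unfold co at hv ⊢
  induction hv using Submodule.span_induction with
  | mem w hw =>
    obtain ⟨h, hh, u, rfl⟩ := hw
    obtain ⟨s, hs, rfl⟩ := Subgroup.mem_map.1 hh
    refine Submodule.subset_span ⟨i s, hh, π.ρ b u, ?_⟩
    rw [map_sub, ← Module.End.mul_apply, ← Module.End.mul_apply, ← map_mul, ← map_mul, hcomm s b hb]
  | zero => rw [map_zero]; exact zero_mem _
  | add v w _ _ h1 h2 => rw [map_add]; exact add_mem h1 h2
  | smul c v _ h1 => rw [map_smul]; exact Submodule.smul_mem _ c h1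

theorem typ_fix_map {L H : Type} [Group L] [Group H] {i : L →* H} {S : Subgroup L} {π : Rp H} {y : π.V}
    (hy : ∀ s ∈ S, π.ρ (i s) y = y) : ∀ h ∈ S.map i, π.ρ h y = y := by
  intro h hh
  obtain ⟨s, hs, rfl⟩ := Subgroup.mem_map.1 hh
  exact hy s hs

/-- (3a) -/
theorem typ_3a {L H : Type} [Group L] [Group H] {i : L →* H} {G2 : Subgroup H} {S : Subgroup L}
    {χ : L → ℂ} {π : Rp H} {x : π.V} (hD : Dat i G2 S χ π x)
    (hc : ∀ z : π.V, (∀ h ∈ S.map i, π.ρ h z = z) → z ∈ co π.ρ (S.map i) → z = 0)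
    (y : π.V) (hy : ∀ g, π.ρ (i g) y ∈ co π.ρ (S.map i)) : y = 0 := by
  by_contra hne
  set W : Submodule ℂ π.V := Submodule.span ℂ (Set.range fun h => π.ρ h y) with hW
  have hst : ∀ h, ∀ w ∈ W, π.ρ h w ∈ W := by
    intro h w hw
    induction hw using Submodule.span_induction with
    | mem w hw =>
      obtain ⟨k, rfl⟩ := hw
      refine Submodule.subset_span ⟨h * k, ?_⟩
      simp [map_mul]
    | zero => rw [map_zero]; exact zero_mem _
    | add v w _ _ h1 h2 => rw [map_add]; exact add_mem h1 h2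
    | smul c v _ h1 => rw [map_smul]; exact Submodule.smul_mem _ c h1
  have hyW : y ∈ W := Submodule.subset_span ⟨1, by simp⟩
  have hWC : W ≤ co π.ρ (S.map i) := by
    rw [hW, Submodule.span_le]
    rintro _ ⟨h, rfl⟩
    obtain ⟨a, b, hb, rfl⟩ := hD.gen h
    show π.ρ (i a * b) y ∈ co π.ρ (S.map i)
    rw [hD.comm a b hb, map_mul, Module.End.mul_apply]
    exact typ_co_stable i G2 S π hD.comm b hb _ (hy a)
  rcases hD.irr.2 W hst with h0 | h1
  · rw [h0, Submodule.mem_bot] at hyW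
    exact hne hyW
  · have hxC : x ∈ co π.ρ (S.map i) := hWC (h1 ▸ Submodule.mem_top)
    exact hD.ne (hc x (typ_fix_map hD.fix) hxC)

/-- (c) -/
theorem typ_c {L H : Type} [Group L] [Group H] {i : L →* H} {G2 : Subgroup H} {S : Subgroup L}
    {χ : L → ℂ} {π : Rp H} {x : π.V} (hD : Dat i G2 S χ π x)
    (hc : ∀ z : π.V, (∀ h ∈ S.map i, π.ρ h z = z) → z ∈ co π.ρ (S.map i) → z = 0)
    (y : π.V) (hy : y ∈ spn i π x) (hfix : ∀ s ∈ S, π.ρ (i s) y = y) : ∃ c : ℂ, y = c • x := by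
  have key : ∃ c : ℂ, y - c • x ∈ co π.ρ (S.map i) := by
    clear hfix
    unfold spn at hy
    induction hy using Submodule.span_induction with
    | mem w hw =>
      obtain ⟨g, rfl⟩ := hw
      exact ⟨χ g, hD.eig g⟩
    | zero => exact ⟨0, by simp⟩
    | add v w _ _ h1 h2 =>
      obtain ⟨c, hc1⟩ := h1
      obtain ⟨d, hd1⟩ := h2
      refine ⟨c + d, ?_⟩
      have := add_mem hc1 hd1
      rw [add_smul]
      convert this using 1
      abel
    | smul a v _ h1 =>
      obtain ⟨c, hc1⟩ := h1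
      refine ⟨a * c, ?_⟩
      have := Submodule.smul_mem _ a hc1
      rwa [smul_sub, smul_smul] at this
  obtain ⟨c, hcc⟩ := key
  refine ⟨c, sub_eq_zero.1 (hc _ ?_ hcc)⟩
  intro h hh
  rw [map_sub, map_smul, typ_fix_map hfix h hh, typ_fix_map hD.fix h hh]

theorem typ_mem {L H : Type} [Group L] [Group H] (i : L →* H) (π : Rp H) (x : π.V) : x ∈ spn i π x :=
  Submodule.subset_span ⟨1, by simp⟩

/-- (a) -/
theorem typ_a {L H : Type} [Group L] [Group H] {i : L →* H} {G2 : Subgroup H} {S : Subgroup L}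
    {χ : L → ℂ} {π : Rp H} {x : π.V} (hD : Dat i G2 S χ π x)
    (hc : ∀ z : π.V, (∀ h ∈ S.map i, π.ρ h z = z) → z ∈ co π.ρ (S.map i) → z = 0)
    (hc2 : ∀ z, ∃ z' ∈ Submodule.span ℂ {w | ∃ h ∈ S.map i, w = π.ρ h z}, (∀ h ∈ S.map i, π.ρ h z' = z') ∧
      z - z' ∈ co π.ρ (S.map i)) : Irred (subr i π x) := by
  refine ⟨?_, ?_⟩
  · refine ⟨⟨(⟨x, typ_mem i π x⟩ : ↥(spn i π x)), (0 : ↥(spn i π x)), ?_⟩⟩
    intro h
    exact hD.ne (congrArg (fun v : ↥(spn i π x) => (v : π.V)) h)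
  · intro W hst
    change Submodule ℂ ↥(spn i π x) at W
    by_cases hbot : W = ⊥
    · exact Or.inl hbot
    right
    obtain ⟨y, hyW, hy0⟩ := (Submodule.ne_bot_iff W).1 hbot
    have hyv : (y : π.V) ≠ 0 := fun h => hy0 (Subtype.ext h)
    have h3 : ∃ g, π.ρ (i g) (y : π.V) ∉ co π.ρ (S.map i) := by
      by_contra hcon
      push Not at hcon
      exact hyv (typ_3a hD hc _ hcon)
    obtain ⟨g, hg⟩ := h3
    set W' : Submodule ℂ π.V := W.map (spn i π x).subtype with hW'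
    have hW'st : ∀ (l : L), ∀ w ∈ W', π.ρ (i l) w ∈ W' := by
      intro l w hw
      obtain ⟨u, hu, rfl⟩ := Submodule.mem_map.1 hw
      exact Submodule.mem_map.2 ⟨(subr i π x).ρ l u, hst l u hu, rfl⟩
    have hyW' : (y : π.V) ∈ W' := Submodule.mem_map.2 ⟨y, hyW, rfl⟩
    obtain ⟨z', hz', hzf, hzc⟩ := hc2 (π.ρ (i g) (y : π.V))
    have hz'W : z' ∈ W' := by
      refine (Submodule.span_le.2 ?_ : Submodule.span ℂ {w | ∃ h ∈ S.map i, w = π.ρ h (π.ρ (i g) (y : π.V))} ≤ W') hz'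
      rintro _ ⟨h, hh, rfl⟩
      obtain ⟨s, hs, rfl⟩ := Subgroup.mem_map.1 hh
      exact hW'st s _ (hW'st g _ hyW')
    have hW'spn : W' ≤ spn i π x := by
      rw [hW']; exact Submodule.map_subtype_le _ _
    obtain ⟨c, hcx⟩ := typ_c hD hc z' (hW'spn hz'W)
      (fun s hs => hzf (i s) (Subgroup.mem_map.2 ⟨s, hs, rfl⟩))
    have hc0 : c ≠ 0 := by
      rintro rfl
      rw [zero_smul] at hcx
      rw [hcx, sub_zero] at hzc
      exact hg hzc
    have hxW' : x ∈ W' := by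
      have h1 : x = c⁻¹ • z' := by rw [hcx, smul_smul, inv_mul_cancel₀ hc0, one_smul]
      rw [h1]
      exact Submodule.smul_mem _ _ hz'W
    have hle : spn i π x ≤ W' := by
      unfold spn
      rw [Submodule.span_le]
      rintro _ ⟨l, rfl⟩
      exact hW'st l _ hxW'
    refine (Submodule.eq_top_iff' (M := ↥(spn i π x))).2 ?_
    intro v
    obtain ⟨u, hu, huv⟩ := Submodule.mem_map.1 (hle v.2)
    have : u = v := Subtype.ext huv
    exact this ▸ hu

/-- (b) -/
theorem typ_b {L H : Type} [Group L] [Group H] {i : L →* H} {G2 : Subgroup H} {S : Subgroup L}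
    {χ : L → ℂ} {π : Rp H} {x : π.V} (hD : Dat i G2 S χ π x) : Isot i π (subr i π x) := by
  unfold Isot
  set W : Submodule ℂ π.V := Submodule.span ℂ {w | ∃ (T : (subr i π x).V →ₗ[ℂ] π.V) (s : (subr i π x).V),
    (∀ h s, T ((subr i π x).ρ h s) = π.ρ (i h) (T s)) ∧ T s = w} with hW
  have hst : ∀ h, ∀ w ∈ W, π.ρ h w ∈ W := by
    intro h w hw
    induction hw using Submodule.span_induction with
    | mem w hw =>
      obtain ⟨T, s, hT, rfl⟩ := hw
      obtain ⟨a, b, hb, rfl⟩ := hD.gen h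
      have hcm : ∀ (l : L) (u : π.V), π.ρ b (π.ρ (i l) u) = π.ρ (i l) (π.ρ b u) := by
        intro l u
        rw [← Module.End.mul_apply, ← Module.End.mul_apply, ← map_mul, ← map_mul, hD.comm l b hb]
      refine Submodule.subset_span ⟨(π.ρ b).comp T, (subr i π x).ρ a s, ?_, ?_⟩
      · intro l u
        rw [LinearMap.comp_apply, LinearMap.comp_apply, hT, hcm]
      · rw [LinearMap.comp_apply, hT, hcm, map_mul, Module.End.mul_apply]
    | zero => rw [map_zero]; exact zero_mem _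
    | add v w _ _ h1 h2 => rw [map_add]; exact add_mem h1 h2
    | smul c v _ h1 => rw [map_smul]; exact Submodule.smul_mem _ c h1
  have hxW : x ∈ W := Submodule.subset_span
    ⟨(spn i π x).subtype, (⟨x, typ_mem i π x⟩ : ↥(spn i π x)), fun l u => rfl, rfl⟩
  rcases hD.irr.2 W hst with h0 | h1
  · rw [h0, Submodule.mem_bot] at hxW
    exact absurd hxW hD.ne
  · intro v
    rw [h1]; exact Submodule.mem_top

theorem t_TYP : Cof → Typ := by
  intro hCof L H _ _ i G2 S χ π x hD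
  obtain ⟨hc, hc2⟩ := hCof H π.V π.ρ (S.map i) hD.lf
  exact ⟨typ_a hD hc hc2, typ_b hD, fun y hy hf => typ_c hD hc y hy hf⟩

end Pool.Agent.H757L
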