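import Pool.Agent.H757L.Defs2

set_option autoImplicit false
set_option linter.all false
noncomputable section

namespace Pool.Agent.H757L

open Polynomial IsDedekindDomain Matrix WithZero

/-- the component at P -/
def ufi_ev (P : Pl) : AG →* G P := (Pi.evalMonoidHom (fun P => G P) P).comp AG.subtype

theorem ufi_ev_apply (P : Pl) (g : AG) : ufi_ev P g = g.1 P := rfl

theorem ufi_rel (h : CFin) (e : Pl →₀ ℕ) : (U e).relIndex (U 0) ≠ 0 := by
  have h1 : ∀ i : {P // P ∈ e.support}, ((cong i.1 (e i.1)).comap (ufi_ev i.1)).relIndex (U 0) ≠ 0 := by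
    intro i
    rw [Subgroup.relIndex_comap]
    intro h0
    have hle : (U 0).map (ufi_ev i.1) ≤ cong i.1 0 := by
      rw [Subgroup.map_le_iff_le_comap]
      intro g hg
      exact hg i.1
    have h2 := Subgroup.relIndex_eq_zero_of_le_right hle h0
    exact (h i.1 (e i.1)).index_ne_zero h2
  have h3 := Subgroup.relIndex_iInf_ne_zero h1
  intro h0
  apply h3
  rw [← Subgroup.inf_relIndex_right]
  refine Subgroup.relIndex_eq_zero_of_le_left ?_ h0
  intro g hg P
  obtain ⟨hg1, hg2⟩ := hg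
  by_cases hP : P ∈ e.support
  · exact (Subgroup.mem_iInf.1 hg1) ⟨P, hP⟩
  · rw [Finsupp.notMem_support_iff.1 hP]
    exact hg2 P

theorem ufi_lf (h : CFin) (π : Rp AG) (hs : SmoothA π) (S : Subgroup AG) (hS : S ≤ U 0) :
    LF π.ρ S := by
  intro v
  obtain ⟨e, he⟩ := hs v
  refine ⟨U e ⊓ S, inf_le_right, ⟨?_⟩, fun u hu => he u hu.1⟩
  show (U e ⊓ S).relIndex S ≠ 0
  rw [Subgroup.inf_relIndex_right]
  intro h0
  exact ufi_rel h e (Subgroup.relIndex_eq_zero_of_le_right hS h0)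

theorem ufi_cong_anti (P : Pl) (g : G P) (hg : g ∈ cong P 0) (Q : Pl) :
    (incl P g).1 Q ∈ cong Q 0 := by
  classical
  by_cases hQ : Q = P
  · subst hQ
    have : (incl Q g).1 Q = g := by
      show Pi.mulSingle Q g Q = g
      rw [Pi.mulSingle_eq_same]
    rw [this]; exact hg
  · have : (incl P g).1 Q = 1 := by
      show Pi.mulSingle P g Q = 1
      rw [Pi.mulSingle_eq_of_ne hQ]
    rw [this]; exact one_mem _

theorem t_UFI : CFin → UFin := by
  intro h
  refine ⟨fun e => ⟨ufi_rel h e⟩, fun π hs => ⟨ufi_lf h π hs _ ?_, ufi_lf h π hs _ ?_⟩⟩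
  · rintro _ ⟨g, hg, rfl⟩ Q
    exact ufi_cong_anti none g hg.1 Q
  · intro g hg Q
    exact hg.2 Q

end Pool.Agent.H757L
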