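import Pool.Agent.H757L.Defs2
/-
Project LL (helper757, MP_5ae62c_nt, HARD, weight 10, full negative answer; GL_2 over F_2(t), representation theory in a completely explicit form).
Definitions and statements: Pool/Agent/H757L/Stm.lean, Defs.lean, Api.lean, Defs2.lean on origin/main (Mathlib only, all four compile; copy them to
/workdir/pool/Pool/Agent/H757L/ and run lake build Pool.Agent.H757L.Defs2, about 30 seconds).  Every statement has been checked on paper.
TARGET: prove the theorem below, statement unchanged, no sorry, no axioms.  Put auxiliary lemmas before it in the same namespace (give ALL your lemmas a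
prefix of your own such as unq_, the files are imported together; no straight double quotes anywhere).  Paste the full file back as result of the job.
File name: Pool/Agent/H757L/Unq.lean
If the statement is false or unclear: status='problem' and say why, or message helper757.  Deadline about 21:30 UTC; partial progress: message me.

Notation: K = F_2(t), R = F_2[t]; val P, vv P valuations, exp n (multiplicative ints with zero); emb P : K ->+* Kv P; cong P n congruence subgroups;
tri a d b = (a b; 0 d); nn P x = (1 x; 0 1); sw P = (0 1; 1 0); om = (0 t; 1 0); sc P a scalar; gR P : GL_2(R) -> GL_2(K_P); Iw Iwahori subgroup at infinity.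
We have om^2 = scalar t, sw om = diag(1,t), om sw = diag(t,1), and om normalises Iw.  Api.lean: emb_val, unif, unif_pow, dens, vv_cases, vv_lt_one.

PROOF.
pi.V <> 0 is a sum of images of intertwining maps T : sigma -> pi, and also of maps T' : sigma' -> pi.  Take T <> 0 from sigma (exists since pi.V is nontrivial and Isot); it is injective (the kernel is stable and not top).
Direct proof: take s <> 0, T s = sum_{j=1..n} T'_j s'_j; choose n minimal such that some nonzero vector of T(sigma.V) lies in B_n = T'_1(sigma') + ... + T'_n(sigma') for some intertwining T'_1..T'_n.  B = B_{n-1}.  T(sigma) is in B_n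
(irreducible), T(sigma) meets B in 0 by minimality, T'_n(sigma') meets B in 0 (else it is contained in B, contradiction to minimality) and T'_n <> 0 is injective.  So every T s = b + T'_n s' with unique s': the map s -> s' is
intertwining and injective (if s' = 0 then T s in B, so s = 0), and its image is stable and nonzero, so it is bijective.
Or use Mathlib's theory of semisimple/isotypic modules for the module over MonoidAlgebra C L.
-/

set_option autoImplicit false
set_option linter.all false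
noncomputable section

namespace Pool.Agent.H757L

open Polynomial IsDedekindDomain Matrix WithZero

/-- intertwining map from a representation of L to the restriction of a representation of H -/
def unq_IT {L H : Type} [Group L] [Group H] (i : L →* H) (π : Rp H) (σ : Rp L)
    (T : σ.V →ₗ[ℂ] π.V) : Prop := ∀ h s, T (σ.ρ h s) = π.ρ (i h) (T s)

/-- sum of the ranges -/
def unq_BB {V W : Type} [AddCommGroup V] [Module ℂ V] [AddCommGroup W] [Module ℂ W] :
    List (V →ₗ[ℂ] W) → Submodule ℂ W
  | [] => ⊥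
  | T :: l => LinearMap.range T ⊔ unq_BB l

theorem unq_BB_append {V W : Type} [AddCommGroup V] [Module ℂ V] [AddCommGroup W] [Module ℂ W]
    (l l' : List (V →ₗ[ℂ] W)) : unq_BB (l ++ l') = unq_BB l ⊔ unq_BB l' := by
  induction l with
  | nil => simp [unq_BB]
  | cons T l ih => rw [List.cons_append, unq_BB, unq_BB, ih, sup_assoc]

theorem unq_BB_stable {L H : Type} [Group L] [Group H] (i : L →* H) (π : Rp H) (σ : Rp L)
    (l : List (σ.V →ₗ[ℂ] π.V)) (hl : ∀ T ∈ l, unq_IT i π σ T) (h : L) :
    ∀ v ∈ unq_BB l, π.ρ (i h) v ∈ unq_BB l := by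
  induction l with
  | nil =>
    intro v hv
    rw [unq_BB, Submodule.mem_bot] at hv
    rw [hv, map_zero]
    exact zero_mem _
  | cons T l ih =>
    intro v hv
    rw [unq_BB] at hv ⊢
    obtain ⟨a, ha, b, hb, rfl⟩ := Submodule.mem_sup.1 hv
    obtain ⟨s, rfl⟩ := ha
    rw [map_add]
    refine Submodule.add_mem_sup ?_ (ih (fun T hT => hl T (List.mem_cons_of_mem _ hT)) b hb)
    exact ⟨σ.ρ h s, hl T List.mem_cons_self h s⟩

theorem unq_list {L H : Type} [Group L] [Group H] (i : L →* H) (π : Rp H) (σ : Rp L) (v : π.V)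
    (hv : v ∈ Submodule.span ℂ {w | ∃ (T : σ.V →ₗ[ℂ] π.V) (s : σ.V),
      (∀ h s, T (σ.ρ h s) = π.ρ (i h) (T s)) ∧ T s = w}) :
    ∃ l : List (σ.V →ₗ[ℂ] π.V), (∀ T ∈ l, unq_IT i π σ T) ∧ v ∈ unq_BB l := by
  refine Submodule.span_induction (p := fun v _ => ∃ l : List (σ.V →ₗ[ℂ] π.V),
    (∀ T ∈ l, unq_IT i π σ T) ∧ v ∈ unq_BB l) ?_ ?_ ?_ ?_ hv
  · rintro _ ⟨T, s, hT, rfl⟩
    refine ⟨[T], ?_, ?_⟩
    · intro T' hT'
      rw [List.mem_singleton] at hT'
      rw [hT']
      exact hT
    · rw [unq_BB]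
      exact Submodule.mem_sup_left ⟨s, rfl⟩
  · exact ⟨[], by simp, zero_mem _⟩
  · rintro a b _ _ ⟨l, hl, ha⟩ ⟨l', hl', hb⟩
    refine ⟨l ++ l', ?_, ?_⟩
    · intro T hT
      rcases List.mem_append.1 hT with h | h
      · exact hl T h
      · exact hl' T h
    · rw [unq_BB_append]
      exact Submodule.add_mem_sup ha hb
  · rintro c a _ ⟨l, hl, ha⟩
    exact ⟨l, hl, Submodule.smul_mem _ c ha⟩

/-- the set of the vectors which T maps to a stable subspace is stable -/
theorem unq_comap {L H : Type} [Group L] [Group H] (i : L →* H) (π : Rp H) (σ : Rp L)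
    (hσ : Irred σ) (T : σ.V →ₗ[ℂ] π.V) (hT : unq_IT i π σ T) (B : Submodule ℂ π.V)
    (hB : ∀ h : L, ∀ v ∈ B, π.ρ (i h) v ∈ B) :
    (∀ s, T s ∈ B → s = 0) ∨ ∀ s, T s ∈ B := by
  rcases hσ.2 (B.comap T) (by
    intro h w hw
    rw [Submodule.mem_comap] at hw ⊢
    rw [hT h w]
    exact hB h _ hw) with h | h
  · left
    intro s hs
    have : s ∈ B.comap T := hs
    rw [h] at this
    exact (Submodule.mem_bot ℂ).1 this
  · right
    intro s
    have : s ∈ (⊤ : Submodule ℂ σ.V) := Submodule.mem_top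
    rw [← h] at this
    exact this

/-- the core: the isomorphism modulo B -/
theorem unq_core {L H : Type} [Group L] [Group H] (i : L →* H) (π : Rp H) (σ σ' : Rp L)
    (hσ : Irred σ) (hσ' : Irred σ') (T : σ.V →ₗ[ℂ] π.V) (hT : unq_IT i π σ T)
    (T' : σ'.V →ₗ[ℂ] π.V) (hT' : unq_IT i π σ' T') (B : Submodule ℂ π.V)
    (hB : ∀ h : L, ∀ v ∈ B, π.ρ (i h) v ∈ B)
    (h1 : ∀ s, T s ∈ B → s = 0) (h2 : ∀ s, T' s ∈ B → s = 0)
    (h3 : ∀ s, T s ∈ LinearMap.range T' ⊔ B) : Iso σ σ' := by
  have hq1 : ∀ s, B.mkQ (T s) = 0 → s = 0 := by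
    intro s hs
    exact h1 s ((Submodule.Quotient.mk_eq_zero B).1 hs)
  have hq2 : ∀ s, B.mkQ (T' s) = 0 → s = 0 := by
    intro s hs
    exact h2 s ((Submodule.Quotient.mk_eq_zero B).1 hs)
  have hinj : Function.Injective (B.mkQ.comp T') := by
    rw [← LinearMap.ker_eq_bot, LinearMap.ker_eq_bot']
    exact hq2
  have hrange : ∀ s, (B.mkQ.comp T) s ∈ LinearMap.range (B.mkQ.comp T') := by
    intro s
    obtain ⟨a, ⟨s', rfl⟩, b, hb, hab⟩ := Submodule.mem_sup.1 (h3 s)
    refine ⟨s', ?_⟩
    rw [LinearMap.comp_apply, LinearMap.comp_apply, ← hab, map_add]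
    have : B.mkQ b = 0 := (Submodule.Quotient.mk_eq_zero B).2 hb
    rw [this, add_zero]
  let e := LinearEquiv.ofInjective (B.mkQ.comp T') hinj
  let f : σ.V →ₗ[ℂ] σ'.V := e.symm.toLinearMap.comp ((B.mkQ.comp T).codRestrict _ hrange)
  have hf : ∀ s, B.mkQ (T' (f s)) = B.mkQ (T s) := by
    intro s
    have h4 : e (f s) = (B.mkQ.comp T).codRestrict _ hrange s := e.apply_symm_apply _
    have h5 := congrArg Subtype.val h4
    exact h5
  have hfB : ∀ s, T' (f s) - T s ∈ B := by
    intro s
    rw [← Submodule.Quotient.mk_eq_zero, Submodule.Quotient.mk_sub]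
    have := hf s
    rw [Submodule.mkQ_apply, Submodule.mkQ_apply] at this
    rw [this, sub_self]
  have hint : Inter σ σ' f := by
    intro h v
    apply hinj
    show B.mkQ (T' (f (σ.ρ h v))) = B.mkQ (T' (σ'.ρ h (f v)))
    rw [hf, hT h v, hT' h (f v)]
    have h6 := hB h _ (hfB v)
    rw [map_sub] at h6
    have h7 := (Submodule.Quotient.mk_eq_zero B).2 h6
    rw [Submodule.Quotient.mk_sub] at h7
    rw [Submodule.mkQ_apply, Submodule.mkQ_apply]
    exact (sub_eq_zero.1 h7).symm
  have hfinj : Function.Injective f := by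
    rw [← LinearMap.ker_eq_bot, LinearMap.ker_eq_bot']
    intro s hs
    apply hq1
    rw [← hf s, hs, map_zero, map_zero]
  refine ⟨f, ⟨hfinj, ?_⟩, hint⟩
  rw [← LinearMap.range_eq_top]
  rcases hσ'.2 (LinearMap.range f) (by
    rintro h _ ⟨s, rfl⟩
    exact ⟨σ.ρ h s, hint h s⟩) with h | h
  · exfalso
    obtain ⟨s, hs⟩ := (@exists_ne _ hσ.1 (0 : σ.V))
    apply hs
    apply hfinj
    have : f s ∈ LinearMap.range f := ⟨s, rfl⟩
    rw [h, Submodule.mem_bot] at this
    rw [this, map_zero]
  · exact h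

theorem unq_main {L H : Type} [Group L] [Group H] (i : L →* H) (π : Rp H) (σ σ' : Rp L)
    (hσ : Irred σ) (hσ' : Irred σ') (T : σ.V →ₗ[ℂ] π.V) (hT : unq_IT i π σ T) :
    ∀ l : List (σ'.V →ₗ[ℂ] π.V), (∀ T' ∈ l, unq_IT i π σ' T') →
      (∃ s, T s ≠ 0 ∧ T s ∈ unq_BB l) → Iso σ σ' := by
  intro l
  induction l with
  | nil =>
    rintro _ ⟨s, hs, hs'⟩
    exact absurd ((Submodule.mem_bot ℂ).1 hs') hs
  | cons T' l ih =>
    rintro hl ⟨s, hs, hs'⟩
    have hl' : ∀ T' ∈ l, unq_IT i π σ' T' := fun T' h => hl T' (List.mem_cons_of_mem _ h)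
    by_cases hcase : ∃ s, T s ≠ 0 ∧ T s ∈ unq_BB l
    · exact ih hl' hcase
    have hs0 : s ≠ 0 := by
      rintro rfl
      exact hs (map_zero _)
    -- T is injective
    have hTinj : ∀ s, T s = 0 → s = 0 := by
      have := unq_comap i π σ hσ T hT ⊥ (by
        intro h v hv
        rw [Submodule.mem_bot] at hv ⊢
        rw [hv, map_zero])
      rcases this with h | h
      · intro s hs
        exact h s ((Submodule.mem_bot ℂ).2 hs)
      · exact absurd ((Submodule.mem_bot ℂ).1 (h s)) hs
    have h1 : ∀ s, T s ∈ unq_BB l → s = 0 := by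
      intro s hsB
      by_contra hne
      exact hcase ⟨s, fun h => hne (hTinj s h), hsB⟩
    have h3 : ∀ s, T s ∈ unq_BB (T' :: l) := by
      rcases unq_comap i π σ hσ T hT _ (unq_BB_stable i π σ' (T' :: l) hl) with h | h
      · exact absurd (h s hs') hs0
      · exact h
    have h2 : ∀ s, T' s ∈ unq_BB l → s = 0 := by
      rcases unq_comap i π σ' hσ' T' (hl T' List.mem_cons_self) _ (unq_BB_stable i π σ' l hl')
        with h | h
      · exact h
      · exfalso
        have hle : unq_BB (T' :: l) ≤ unq_BB l := by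
          rw [unq_BB]
          refine sup_le ?_ le_rfl
          rintro _ ⟨s', rfl⟩
          exact h s'
        exact hs0 (h1 s (hle hs'))
    exact unq_core i π σ σ' hσ hσ' T hT T' (hl T' List.mem_cons_self) (unq_BB l)
      (unq_BB_stable i π σ' l hl') h1 h2 h3

theorem t_UNQ : Unq := by
  intro L H _ _ i π σ σ' hnt hσ hσ' hI hI'
  obtain ⟨v, hv⟩ := @exists_ne _ hnt (0 : π.V)
  -- a nonzero intertwining map
  have hex : ∃ (T : σ.V →ₗ[ℂ] π.V) (s : σ.V), unq_IT i π σ T ∧ T s ≠ 0 := by
    by_contra hcon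
    push Not at hcon
    apply hv
    have h1 : Submodule.span ℂ {w | ∃ (T : σ.V →ₗ[ℂ] π.V) (s : σ.V),
        (∀ h s, T (σ.ρ h s) = π.ρ (i h) (T s)) ∧ T s = w} ≤ ⊥ := by
      rw [Submodule.span_le]
      rintro _ ⟨T, s, hT, rfl⟩
      exact hcon T s hT
    exact (Submodule.mem_bot ℂ).1 (h1 (hI v))
  obtain ⟨T, s, hT, hs⟩ := hex
  obtain ⟨l, hl, hmem⟩ := unq_list i π σ' (T s) (hI' (T s))
  exact unq_main i π σ σ' hσ hσ' T hT l hl ⟨s, hs, hmem⟩

end Pool.Agent.H757L

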