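import Pool.Agent.H757L.Defs2

set_option autoImplicit false
set_option linter.all false
noncomputable section

namespace Pool.Agent.H757L

open Polynomial IsDedekindDomain Matrix WithZero

theorem wfn_val_t : vv none (tP none) = exp (1 : ℤ) := by
  classical
  unfold tP
  rw [emb_val]
  unfold val
  have h := RatFunc.inftyValuation.X_zpow (ZMod 2) 1
  rw [zpow_one] at h
  convert h

theorem wfn_mem (g : G none)
    (h : ∀ i j, vv none ((g : Matrix (Fin 2) (Fin 2) (Kv none)) i j) ≤ 1)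
    (h' : ∀ i j, vv none (((g⁻¹ : G none) : Matrix (Fin 2) (Fin 2) (Kv none)) i j) ≤ 1) :
    g ∈ cong none 0 := by
  have h0 : exp (-((0 : ℕ) : ℤ)) = (1 : WithZero (Multiplicative ℤ)) := by simp
  refine ⟨fun i j => ?_, fun i j => ?_⟩
  · rw [h0]
    exact (Valuation.map_sub _ _ _).trans (max_le (h i j) (vone none i j))
  · rw [h0]
    exact (Valuation.map_sub _ _ _).trans (max_le (h' i j) (vone none i j))

/-- entries of the conjugate by om -/
theorem wfn_conj_entries (i : G none) (hi : i ∈ Iw) :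
    (∀ a b, vv none (((om⁻¹ * i * om : G none) : Matrix (Fin 2) (Fin 2) (Kv none)) a b) ≤ 1) ∧
    vv none (((om⁻¹ * i * om : G none) : Matrix (Fin 2) (Fin 2) (Kv none)) 1 0) ≤ exp (-1 : ℤ) := by
  obtain ⟨hi1, hi2⟩ := hi
  have he := int_entry none i hi1
  obtain ⟨c, hc⟩ : ∃ c : G none, c = om⁻¹ * i * om := ⟨_, rfl⟩
  have h1 : om * c = i * om := by rw [hc]; group
  have h2 : ((om * c : G none) : Matrix (Fin 2) (Fin 2) (Kv none)) =
      ((i * om : G none) : Matrix (Fin 2) (Fin 2) (Kv none)) := by rw [h1]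
  have e := fun a b => congrFun (congrFun h2 a) b
  simp only [Units.val_mul] at e
  have e00 := e 0 0
  have e01 := e 0 1
  have e10 := e 1 0
  have e11 := e 1 1
  simp [om, Matrix.mul_apply, Fin.sum_univ_two, Matrix.GeneralLinearGroup.mkOfDetNeZero] at e00 e01 e10 e11
  rw [← hc]
  have ht := wfn_val_t
  have hpos : (0 : WithZero (Multiplicative ℤ)) < exp (1 : ℤ) := exp_pos
  have h10 : vv none ((c : Matrix (Fin 2) (Fin 2) (Kv none)) 1 0) ≤ exp (-1 : ℤ) := by
    have h3 : vv none (tP none * (c : Matrix (Fin 2) (Fin 2) (Kv none)) 1 0) ≤ 1 := by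
      rw [e00]; exact he 0 1
    rw [Valuation.map_mul, ht] at h3
    have h4 : exp (-1 : ℤ) * (exp (1 : ℤ) * vv none ((c : Matrix (Fin 2) (Fin 2) (Kv none)) 1 0))
        ≤ exp (-1 : ℤ) * 1 := mul_le_mul_right h3 _
    rw [← mul_assoc, ← exp_add, mul_one] at h4
    simpa using h4
  have h11 : (c : Matrix (Fin 2) (Fin 2) (Kv none)) 1 1 = (i : Matrix (Fin 2) (Fin 2) (Kv none)) 0 0 := by
    rw [mul_comm] at e01
    exact mul_right_cancel₀ (tP_ne none) e01
  have h01 : vv none ((c : Matrix (Fin 2) (Fin 2) (Kv none)) 0 1) ≤ 1 := by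
    rw [e11, Valuation.map_mul, ht]
    have h4 : vv none ((i : Matrix (Fin 2) (Fin 2) (Kv none)) 1 0) * exp (1 : ℤ)
        ≤ exp (-1 : ℤ) * exp (1 : ℤ) := mul_le_mul_left hi2 _
    rw [← exp_add] at h4
    simpa using h4
  refine ⟨?_, h10⟩
  intro a b
  fin_cases a <;> fin_cases b
  · show vv none ((c : Matrix (Fin 2) (Fin 2) (Kv none)) 0 0) ≤ 1
    rw [e10]; exact he 1 1
  · exact h01
  · refine le_trans h10 ?_
    rw [← exp_zero]; exact exp_le_exp.2 (by norm_num)
  · show vv none ((c : Matrix (Fin 2) (Fin 2) (Kv none)) 1 1) ≤ 1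
    rw [h11]; exact he 0 0

theorem wfn_conj (i : G none) (hi : i ∈ Iw) : om⁻¹ * i * om ∈ Iw := by
  have h1 := wfn_conj_entries i hi
  have h2 := wfn_conj_entries i⁻¹ (inv_mem hi)
  refine ⟨wfn_mem _ h1.1 ?_, h1.2⟩
  have e : (om⁻¹ * i * om)⁻¹ = om⁻¹ * i⁻¹ * om := by group
  rw [e]
  exact h2.1

theorem wfn_om_om : om * om = sc none (tu none) := by
  ext a b
  fin_cases a <;> fin_cases b <;>
    simp [om, sc, tri, tu, Matrix.mul_apply, Fin.sum_univ_two, Matrix.GeneralLinearGroup.mkOfDetNeZero]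

theorem wfn_sc_comm (a : (Kv none)ˣ) (g : G none) : sc none a * g = g * sc none a := by
  ext i j
  fin_cases i <;> fin_cases j <;>
    simp [sc, tri, Matrix.mul_apply, Fin.sum_univ_two, Matrix.GeneralLinearGroup.mkOfDetNeZero, mul_comm]

/-- (0 1; 1 0) over F_2[t] -/
def wfn_swR : GL (Fin 2) R where
  val := !![0, 1; 1, 0]
  inv := !![0, 1; 1, 0]
  val_inv := by ext i j; fin_cases i <;> fin_cases j <;> simp [Matrix.mul_apply, Fin.sum_univ_two]
  inv_val := by ext i j; fin_cases i <;> fin_cases j <;> simp [Matrix.mul_apply, Fin.sum_univ_two]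

/-- (1 x; 0 1) over F_2[t] -/
def wfn_nnR (x : R) : GL (Fin 2) R where
  val := !![1, x; 0, 1]
  inv := !![1, -x; 0, 1]
  val_inv := by ext i j; fin_cases i <;> fin_cases j <;> simp [Matrix.mul_apply, Fin.sum_univ_two]
  inv_val := by ext i j; fin_cases i <;> fin_cases j <;> simp [Matrix.mul_apply, Fin.sum_univ_two]

theorem wfn_gR_sw : gR none wfn_swR = sw none := by
  ext i j
  unfold gR
  rw [Matrix.GeneralLinearGroup.map_apply]
  fin_cases i <;> fin_cases j <;>
    simp [wfn_swR, sw, Matrix.GeneralLinearGroup.mkOfDetNeZero]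

theorem wfn_gR_nn (x : R) : gR none (wfn_nnR x) = nn none (emb none (algebraMap R K x)) := by
  ext i j
  unfold gR
  rw [Matrix.GeneralLinearGroup.map_apply]
  fin_cases i <;> fin_cases j <;>
    simp [wfn_nnR, nn, tri, Matrix.GeneralLinearGroup.mkOfDetNeZero]

theorem wfn_emb_pow (m : ℕ) : emb none (algebraMap R K (X ^ m)) = tP none ^ m := by
  rw [map_pow, map_pow, RatFunc.algebraMap_X]
  rfl

theorem wfn_sw_mem : sw none ∈ cong none 0 := by
  have hi : (sw none)⁻¹ = sw none := by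
    rw [inv_eq_iff_mul_eq_one]
    ext i j
    fin_cases i <;> fin_cases j <;>
      simp [sw, Matrix.mul_apply, Fin.sum_univ_two, Matrix.GeneralLinearGroup.mkOfDetNeZero]
  have h : ∀ i j, vv none ((sw none : Matrix (Fin 2) (Fin 2) (Kv none)) i j) ≤ 1 := by
    intro i j
    fin_cases i <;> fin_cases j <;> simp [sw, Matrix.GeneralLinearGroup.mkOfDetNeZero]
  refine wfn_mem _ h ?_
  rw [hi]; exact h

theorem wfn_nn_mem : nn none 1 ∈ cong none 0 := tri_int none 1 (by simp)

/-- diag (t^m, 1) -/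
def wfn_D (m : ℕ) : G none := tri (tu none ^ m) 1 0

theorem wfn_D_om (m : ℕ) : wfn_D m * om = wfn_D (m + 1) * sw none := by
  ext a b
  fin_cases a <;> fin_cases b <;>
    simp [wfn_D, om, sw, tri, tu, Matrix.mul_apply, Fin.sum_univ_two,
      Matrix.GeneralLinearGroup.mkOfDetNeZero, pow_succ]

theorem wfn_D_sw_om (m : ℕ) : wfn_D (m + 1) * sw none * om = wfn_D m * sc none (tu none) := by
  ext a b
  fin_cases a <;> fin_cases b <;>
    simp [wfn_D, om, sw, sc, tri, tu, Matrix.mul_apply, Fin.sum_univ_two,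
      Matrix.GeneralLinearGroup.mkOfDetNeZero, pow_succ]

theorem wfn_D0_sw_om : wfn_D 0 * sw none * om = sw none * (wfn_D 1 * sw none) := by
  ext a b
  fin_cases a <;> fin_cases b <;>
    simp [wfn_D, om, sw, sc, tri, tu, Matrix.mul_apply, Fin.sum_univ_two,
      Matrix.GeneralLinearGroup.mkOfDetNeZero, pow_succ]

theorem wfn_D_nn (m : ℕ) : wfn_D m * nn none 1 = nn none (tP none ^ m) * wfn_D m := by
  ext a b
  fin_cases a <;> fin_cases b <;>
    simp [wfn_D, nn, tri, tu, Matrix.mul_apply, Fin.sum_univ_two,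
      Matrix.GeneralLinearGroup.mkOfDetNeZero]

theorem wfn_not_sw : sw none ∉ Iw := by
  intro h
  have h2 := h.2
  simp [sw, Matrix.GeneralLinearGroup.mkOfDetNeZero] at h2
  have h3 : exp (-1 : ℤ) < (1 : WithZero (Multiplicative ℤ)) := by
    rw [← exp_zero]; exact exp_lt_exp.2 (by norm_num)
  exact absurd h2 (not_le.2 h3)

theorem wfn_not_ns : nn none 1 * sw none ∉ Iw := by
  intro h
  have h2 := h.2
  simp [sw, nn, tri, Matrix.mul_apply, Fin.sum_univ_two, Matrix.GeneralLinearGroup.mkOfDetNeZero] at h2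
  have h3 : exp (-1 : ℤ) < (1 : WithZero (Multiplicative ℤ)) := by
    rw [← exp_zero]; exact exp_lt_exp.2 (by norm_num)
  exact absurd h2 (not_le.2 h3)

theorem wfn_not_sns : (sw none)⁻¹ * (nn none 1 * sw none) ∉ Iw := by
  intro h
  have hi : (sw none)⁻¹ = sw none := by
    rw [inv_eq_iff_mul_eq_one]
    ext i j
    fin_cases i <;> fin_cases j <;>
      simp [sw, Matrix.mul_apply, Fin.sum_univ_two, Matrix.GeneralLinearGroup.mkOfDetNeZero]
  rw [hi] at h
  have h2 := h.2
  simp [sw, nn, tri, Matrix.mul_apply, Fin.sum_univ_two, Matrix.GeneralLinearGroup.mkOfDetNeZero] at h2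
  have h3 : exp (-1 : ℤ) < (1 : WithZero (Multiplicative ℤ)) := by
    rw [← exp_zero]; exact exp_lt_exp.2 (by norm_num)
  exact absurd h2 (not_le.2 h3)

/-- the function F -/
def wfn_F (n : ℕ) : ℂ := 4 / 3 * (2 ^ n - 1) - n

theorem wfn_same {k a b C i i' : G none} (hi : i ∈ Iw) (hi' : i' ∈ Iw) (h1 : k * a = C * i)
    (h2 : k * b = C * i') : a⁻¹ * b ∈ Iw := by
  have e : a⁻¹ * b = i⁻¹ * i' := by
    have h3 : (k * a)⁻¹ * (k * b) = (C * i)⁻¹ * (C * i') := by rw [h1, h2]
    calc a⁻¹ * b = (k * a)⁻¹ * (k * b) := by group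
      _ = (C * i)⁻¹ * (C * i') := h3
      _ = i⁻¹ * i' := by group
  rw [e]
  exact mul_mem (inv_mem hi) hi'

/-- permutation of the cosets -/
theorem wfn_perm (hcos : CosK) (e : G none → ℂ) (he : ∀ x, ∀ i ∈ Iw, e (x * i) = e x)
    (k : G none) (hk : k ∈ cong none 0) :
    e k + e (k * sw none) + e (k * (nn none 1 * sw none)) =
      e 1 + e (sw none) + e (nn none 1 * sw none) := by
  have hcl : ∀ x ∈ cong none 0, ∃ i ∈ Iw, x = 1 * i ∨ x = sw none * i ∨
      x = (nn none 1 * sw none) * i := by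
    intro x hx
    rcases hcos x hx with h | ⟨c, hc, i, hi, h⟩
    · exact ⟨x, h, Or.inl (one_mul x).symm⟩
    · rcases hc with rfl | rfl
      · refine ⟨i, hi, Or.inr (Or.inl ?_)⟩
        have h0 : nn none 0 = 1 := by
          ext a b
          fin_cases a <;> fin_cases b <;>
            simp [nn, tri, Matrix.GeneralLinearGroup.mkOfDetNeZero]
        rw [h, h0, one_mul]
      · exact ⟨i, hi, Or.inr (Or.inr h)⟩
  have k0 : k * 1 ∈ cong none 0 := by rwa [mul_one]
  have k1 : k * sw none ∈ cong none 0 := mul_mem hk wfn_sw_mem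
  have k2 : k * (nn none 1 * sw none) ∈ cong none 0 :=
    mul_mem hk (mul_mem wfn_nn_mem wfn_sw_mem)
  have n01 : ∀ (C i i' : G none), i ∈ Iw → i' ∈ Iw → k * 1 = C * i → k * sw none = C * i' → False := by
    intro C i i' hi hi' h1 h2
    have := wfn_same hi hi' h1 h2
    rw [inv_one, one_mul] at this
    exact wfn_not_sw this
  have n02 : ∀ (C i i' : G none), i ∈ Iw → i' ∈ Iw → k * 1 = C * i →
      k * (nn none 1 * sw none) = C * i' → False := by
    intro C i i' hi hi' h1 h2
    have := wfn_same hi hi' h1 h2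
    rw [inv_one, one_mul] at this
    exact wfn_not_ns this
  have n12 : ∀ (C i i' : G none), i ∈ Iw → i' ∈ Iw → k * sw none = C * i →
      k * (nn none 1 * sw none) = C * i' → False := by
    intro C i i' hi hi' h1 h2
    exact wfn_not_sns (wfn_same hi hi' h1 h2)
  have e0 : e k = e (k * 1) := by rw [mul_one]
  rw [e0]
  obtain ⟨i0, hi0, h0⟩ := hcl _ k0
  obtain ⟨i1, hi1, h1⟩ := hcl _ k1
  obtain ⟨i2, hi2, h2⟩ := hcl _ k2
  rcases h0 with h0 | h0 | h0 <;> rcases h1 with h1 | h1 | h1 <;> rcases h2 with h2 | h2 | h2 <;>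
    first
    | exact (n01 _ _ _ hi0 hi1 h0 h1).elim
    | exact (n02 _ _ _ hi0 hi2 h0 h2).elim
    | exact (n12 _ _ _ hi1 hi2 h1 h2).elim
    | (rw [h0, h1, h2, he _ _ hi0, he _ _ hi1, he _ _ hi2]; try ring)

theorem t_WFN : DecG → CosK → NFun → WFun := by
  rintro hdec hcos ⟨n, hnR, hnK, hnS, hnD⟩
  have hnI : ∀ g, ∀ i ∈ Iw, n (g * i) = n g := fun g i hi => hnK g i hi.1
  have hnom : ∀ g, ∀ i ∈ Iw, n (g * i * om) = n (g * om) := by
    intro g i hi
    have e : g * i * om = (g * om) * (om⁻¹ * i * om) := by group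
    rw [e]
    exact hnI _ _ (wfn_conj i hi)
  have hnsom : ∀ g a, n (g * sc none a * om) = n (g * om) := by
    intro g a
    rw [mul_assoc, wfn_sc_comm, ← mul_assoc, hnS]
  refine ⟨fun g => wfn_F (n (g * om)) - wfn_F (n g), ?_, ?_, ?_, ?_, ?_⟩
  · intro γ g
    show wfn_F (n (gR none γ * g * om)) - wfn_F (n (gR none γ * g)) = _
    rw [mul_assoc, hnR, hnR]
  · intro g i hi
    show wfn_F (n (g * i * om)) - wfn_F (n (g * i)) = _
    rw [hnom g i hi, hnI g i hi]
  · intro g a
    show wfn_F (n (g * sc none a * om)) - wfn_F (n (g * sc none a)) = _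
    rw [hnsom, hnS]
  · intro g
    show wfn_F (n (g * om * om)) - wfn_F (n (g * om)) = -(wfn_F (n (g * om)) - wfn_F (n g))
    rw [mul_assoc g om om, wfn_om_om, hnS]
    ring
  · intro g
    show (wfn_F (n (g * om)) - wfn_F (n g)) +
      (wfn_F (n (g * sw none * om)) - wfn_F (n (g * sw none))) +
      (wfn_F (n (g * (nn none 1 * sw none) * om)) - wfn_F (n (g * (nn none 1 * sw none)))) = 1
    -- the function H
    obtain ⟨H, hH⟩ : ∃ H : G none → ℂ, H = fun g => wfn_F (n (g * om)) + wfn_F (n (g * sw none * om)) +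
        wfn_F (n (g * (nn none 1 * sw none) * om)) - 3 * wfn_F (n g) := ⟨_, rfl⟩
    have hHR : ∀ (γ : GL (Fin 2) R) g, H (gR none γ * g) = H g := by
      intro γ g
      rw [hH]
      simp only [mul_assoc, hnR]
    have hHS : ∀ g a, H (g * sc none a) = H g := by
      intro g a
      have e1 : ∀ c : G none, n (g * sc none a * c * om) = n (g * c * om) := by
        intro c
        rw [mul_assoc g, wfn_sc_comm, ← mul_assoc, hnsom]
      rw [hH]
      simp only [e1, hnS, hnsom]
    have hHK : ∀ g, ∀ k ∈ cong none 0, H (g * k) = H g := by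
      intro g k hk
      have hp := wfn_perm hcos (fun x => wfn_F (n (g * x * om))) (by
        intro x i hi
        show wfn_F (n (g * (x * i) * om)) = wfn_F (n (g * x * om))
        rw [← mul_assoc g x i, hnom _ i hi]) k hk
      simp only [mul_one] at hp
      rw [hH]
      show wfn_F (n (g * k * om)) + wfn_F (n (g * k * sw none * om)) +
        wfn_F (n (g * k * (nn none 1 * sw none) * om)) - 3 * wfn_F (n (g * k)) =
        wfn_F (n (g * om)) + wfn_F (n (g * sw none * om)) +
        wfn_F (n (g * (nn none 1 * sw none) * om)) - 3 * wfn_F (n g)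
      rw [hnK g k hk, mul_assoc g k (sw none), mul_assoc g k (nn none 1 * sw none), hp]
    have hHD : ∀ m, H (wfn_D m) = 1 := by
      intro m
      have hD : ∀ m, n (wfn_D m) = m := hnD
      have d1 : n (wfn_D m * om) = m + 1 := by
        rw [wfn_D_om, hnK _ _ wfn_sw_mem, hD]
      have d3 : n (wfn_D m * (nn none 1 * sw none) * om) = n (wfn_D m * sw none * om) := by
        have e : wfn_D m * (nn none 1 * sw none) * om =
            gR none (wfn_nnR (X ^ m)) * (wfn_D m * sw none * om) := by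
          rw [wfn_gR_nn, wfn_emb_pow, ← mul_assoc (wfn_D m), wfn_D_nn]
          simp only [mul_assoc]
        rw [e, hnR]
      rw [hH]
      show wfn_F (n (wfn_D m * om)) + wfn_F (n (wfn_D m * sw none * om)) +
        wfn_F (n (wfn_D m * (nn none 1 * sw none) * om)) - 3 * wfn_F (n (wfn_D m)) = 1
      rw [d3, d1, hD]
      cases m with
      | zero =>
        have d2 : n (wfn_D 0 * sw none * om) = 1 := by
          rw [wfn_D0_sw_om, ← wfn_gR_sw, hnR, wfn_gR_sw, hnK _ _ wfn_sw_mem, hD]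
        rw [d2]
        unfold wfn_F
        push_cast
        norm_num
      | succ m =>
        have d2 : n (wfn_D (m + 1) * sw none * om) = m := by
          rw [wfn_D_sw_om, hnS, hD]
        rw [d2]
        unfold wfn_F
        push_cast
        ring
    have hH1 : ∀ g, H g = 1 := by
      intro g
      obtain ⟨γ, m, δ, i, a, hδ, hi, rfl⟩ := hdec g
      rw [hHS, hHK _ i hi.1, mul_assoc, hHR]
      have hδ' : δ = 0 ∨ δ = 1 := by omega
      rcases hδ' with rfl | rfl
      · rw [pow_zero, mul_one]; exact hHD m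
      · rw [pow_one]
        have e : tri (tu none ^ m) 1 0 * om = wfn_D m * om := rfl
        rw [e, wfn_D_om, hHK _ _ wfn_sw_mem]
        exact hHD (m + 1)
    have h1 := hH1 g
    rw [hH] at h1
    simp only at h1
    rw [hnK g _ wfn_sw_mem, hnK g _ (mul_mem wfn_nn_mem wfn_sw_mem)]
    linear_combination h1

end Pool.Agent.H757L
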