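import Pool.Agent.H757L.Defs2

set_option autoImplicit false
set_option linter.all false
noncomputable section

namespace Pool.Agent.H757L

open Polynomial IsDedekindDomain Matrix WithZero

/-- the unipotent matrix over F_2[t] -/
def wun_n (p : R) : GL (Fin 2) R where
  val := !![1, p; 0, 1]
  inv := !![1, -p; 0, 1]
  val_inv := by
    ext i j
    fin_cases i <;> fin_cases j <;> simp [Matrix.mul_apply, Fin.sum_univ_two]
  inv_val := by
    ext i j
    fin_cases i <;> fin_cases j <;> simp [Matrix.mul_apply, Fin.sum_univ_two]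

/-- the Weyl element over F_2[t] -/
def wun_w : GL (Fin 2) R where
  val := !![0, 1; 1, 0]
  inv := !![0, 1; 1, 0]
  val_inv := by
    ext i j
    fin_cases i <;> fin_cases j <;> simp [Matrix.mul_apply, Fin.sum_univ_two]
  inv_val := by
    ext i j
    fin_cases i <;> fin_cases j <;> simp [Matrix.mul_apply, Fin.sum_univ_two]

theorem wun_emb_X (P : Pl) : emb P (algebraMap R K (X : R)) = tP P := by
  unfold tP
  rw [RatFunc.algebraMap_X]

theorem wun_gR_n (P : Pl) (n : ℕ) : gR P (wun_n (X ^ n)) = nn P (tP P ^ n) := by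
  ext i j
  have h : (gR P (wun_n (X ^ n)) : Matrix (Fin 2) (Fin 2) (Kv P)) i j =
      emb P (algebraMap R K ((wun_n (X ^ n) : Matrix (Fin 2) (Fin 2) R) i j)) := rfl
  rw [h]
  fin_cases i <;> fin_cases j <;>
    simp [wun_n, nn, tri, Matrix.GeneralLinearGroup.mkOfDetNeZero, wun_emb_X, tP]

theorem wun_gR_w (P : Pl) : gR P wun_w = sw P := by
  ext i j
  have h : (gR P wun_w : Matrix (Fin 2) (Fin 2) (Kv P)) i j =
      emb P (algebraMap R K ((wun_w : Matrix (Fin 2) (Fin 2) R) i j)) := rfl
  rw [h]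
  fin_cases i <;> fin_cases j <;>
    simp [wun_w, sw, Matrix.GeneralLinearGroup.mkOfDetNeZero]

/-- diag(t^n, 1) -/
def wun_e (n : ℕ) : G none := tri (tu none ^ n) 1 0

theorem wun_e_zero : wun_e 0 = 1 := by
  ext i j
  fin_cases i <;> fin_cases j <;> simp [wun_e, tri, Matrix.GeneralLinearGroup.mkOfDetNeZero]

theorem wun_e_nn (n : ℕ) : wun_e n * nn none 1 = nn none (tP none ^ n) * wun_e n := by
  ext i j
  fin_cases i <;> fin_cases j <;>
    simp [wun_e, nn, tri, Matrix.GeneralLinearGroup.mkOfDetNeZero, Matrix.mul_apply,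
      Fin.sum_univ_two, tu]

theorem wun_e_succ_sw (n : ℕ) : wun_e (n + 1) * sw none = wun_e n * om := by
  ext i j
  fin_cases i <;> fin_cases j <;>
    simp [wun_e, sw, om, tri, Matrix.GeneralLinearGroup.mkOfDetNeZero, Matrix.mul_apply,
      Fin.sum_univ_two, tu, pow_succ]

theorem t_WUN : DecG → WUni := by
  intro hdec f hinv hSt
  obtain ⟨hI, hsc, hom, hrel⟩ := hSt
  have h1 : ∀ n, f (wun_e n) + f (wun_e n * sw none) + f (wun_e n * sw none) = 0 := by
    intro n
    have h := hrel (wun_e n)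
    rw [← mul_assoc, wun_e_nn, ← wun_gR_n, mul_assoc, hinv] at h
    exact h
  have h2 : ∀ n, f (wun_e n) = 0 := by
    intro n
    induction n with
    | zero =>
      have h := h1 0
      have h3 : f (wun_e 0 * sw none) = f 1 := by
        rw [wun_e_zero, one_mul, ← wun_gR_w, ← mul_one (gR none wun_w), hinv]
      rw [h3, wun_e_zero] at h
      rw [wun_e_zero]
      have h4 : (3 : ℂ) * f 1 = 0 := by linear_combination h
      rcases mul_eq_zero.1 h4 with h5 | h5
      · exact absurd h5 (by norm_num)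
      · exact h5
    | succ n ih =>
      have h := h1 (n + 1)
      rw [wun_e_succ_sw, hom, ih] at h
      simpa using h
  funext g
  obtain ⟨γ, n, δ, i, a, hδ, hi, rfl⟩ := hdec g
  rw [hsc, hI _ _ hi, mul_assoc, hinv]
  interval_cases δ
  · rw [pow_zero, mul_one]
    exact h2 n
  · rw [pow_one, hom]
    show - f (wun_e n) = 0
    rw [h2 n, neg_zero]

end Pool.Agent.H757L
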